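import Pool.Agent.MEX.Targets2
import Pool.Agent.PLim.SECT
import Pool.Agent.PLim.LOCZ
import Pool.Agent.PLim.BIG

/-!
# MEX, SECX: sections of the multiplier of exact period `k`, absolute constant
-/

set_option autoImplicit false

open Complex Filter Topology Set MeasureTheory
open Pool.Agent.Multibrot (MM)
open Pool.Agent.Limb (F)
open Pool.Agent.PLim (Rho LocFix IsLimb Piece OMXn)

namespace Pool.Agent.MEX

namespace SECX_

open Pool.Agent.PLim (CNT_contI CNT_contR CNT_diffR CNT_root p_LOCZ p_BIG)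
open Pool.Agent.PLim.SECT_ (EE EE_compact)

/-! ### the constant -/

lemma far_half {δ τ : ℝ} (h : Far δ τ) : δ ≤ 1 / 2 := by
  have h1 := h 1 le_rfl (by norm_num) (round ((1 : ℕ) * τ / (2 * Real.pi)))
  have h2 := abs_sub_round ((1 : ℕ) * τ / (2 * Real.pi))
  exact h1.trans h2

lemma log_nonneg {δ : ℝ} (h0 : 0 < δ) (h : δ ≤ 1 / 2) : 0 ≤ Real.log (1 / δ) := by
  refine Real.log_nonneg ?_
  rw [le_div_iff₀ h0]
  linarith

lemma LL_pos {δ : ℝ} (h0 : 0 < δ) (h : δ ≤ 1 / 2) : 0 < LL δ := by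
  have h1 := log_nonneg h0 h
  unfold LL
  positivity

lemma LL_le {δ : ℝ} (h0 : 0 < δ) (h : δ ≤ 1 / 2) : LL δ ≤ δ ^ 2 := by
  have h1 := log_nonneg h0 h
  unfold LL
  refine div_le_self (by positivity) ?_
  nlinarith

lemma LL_half {δ : ℝ} (h0 : 0 < δ) (h : δ ≤ 1 / 2) : LL δ ≤ 16 * LL (δ / 2) := by
  have h1 := log_nonneg h0 h
  have h2 : Real.log (1 / (δ / 2)) = Real.log 2 + Real.log (1 / δ) := by
    rw [← Real.log_mul (by norm_num) (by positivity)]
    congr 1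
    field_simp
  have h3 : Real.log 2 < 1 := by linarith [Real.log_two_lt_d9]
  have h3' : 0 < Real.log 2 := Real.log_pos (by norm_num)
  unfold LL
  rw [h2]
  set L : ℝ := Real.log (1 / δ) with hL
  have h4 : 16 * ((δ / 2) ^ 2 / (1 + (Real.log 2 + L)) ^ 2) =
      δ ^ 2 * 4 / (1 + (Real.log 2 + L)) ^ 2 := by
    field_simp
    norm_num
  rw [h4, div_le_div_iff₀ (by positivity) (by positivity)]
  have h5 : (1 + (Real.log 2 + L)) ^ 2 ≤ 4 * (1 + L) ^ 2 := by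
    have : 1 + (Real.log 2 + L) ≤ 2 * (1 + L) := by linarith
    calc (1 + (Real.log 2 + L)) ^ 2 ≤ (2 * (1 + L)) ^ 2 :=
          pow_le_pow_left₀ (by positivity) this 2
      _ = 4 * (1 + L) ^ 2 := by ring
  calc δ ^ 2 * (1 + (Real.log 2 + L)) ^ 2 ≤ δ ^ 2 * (4 * (1 + L) ^ 2) :=
        mul_le_mul_of_nonneg_left h5 (by positivity)
    _ = δ ^ 2 * 4 * (1 + L) ^ 2 := by ring

lemma far_near {δ τ η x : ℝ} (h : Far δ τ) (hη : η ≤ δ / 80) (hx : |x - τ| < η) :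
    Far (δ / 2) x := by
  intro q hq1 hq6 m
  have hpi := Real.pi_gt_three
  have h1 := h q hq1 hq6 m
  have hq6' : (q : ℝ) ≤ 6 := by exact_mod_cast hq6
  have hq1' : (1 : ℝ) ≤ q := by exact_mod_cast hq1
  have h2 : (q : ℝ) * τ / (2 * Real.pi) - m =
      (q * x / (2 * Real.pi) - m) - q * (x - τ) / (2 * Real.pi) := by
    field_simp
    ring
  have h3 : |(q : ℝ) * (x - τ) / (2 * Real.pi)| ≤ η := by
    rw [abs_div, abs_mul, abs_of_pos (by positivity : (0 : ℝ) < 2 * Real.pi),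
      abs_of_nonneg (by positivity : (0 : ℝ) ≤ q), div_le_iff₀ (by positivity)]
    have : 0 ≤ η := (abs_nonneg _).trans hx.le
    calc (q : ℝ) * |x - τ| ≤ 6 * η := mul_le_mul hq6' hx.le (abs_nonneg _) (by norm_num)
      _ ≤ η * (2 * Real.pi) := by nlinarith
  rw [h2] at h1
  have h4 := abs_sub ((q : ℝ) * x / (2 * Real.pi) - m) (q * (x - τ) / (2 * Real.pi))
  have h5 : 0 ≤ δ := by
    have : 0 ≤ η := (abs_nonneg _).trans hx.le
    linarith
  linarith

lemma far_ne {δ : ℝ} {μ : ℂ} (h0 : 0 < δ) (h : Far δ μ.im) : exp μ ≠ 1 := by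
  intro h1
  rw [Complex.exp_eq_one_iff] at h1
  obtain ⟨m, hm⟩ := h1
  have h2 : μ.im = 2 * Real.pi * m := by
    rw [hm]
    simp
    ring
  have h3 := h 1 le_rfl (by norm_num) m
  have hpi := Real.pi_pos
  have h4 : ((1 : ℕ) : ℝ) * μ.im / (2 * Real.pi) - m = 0 := by
    rw [h2]
    push_cast
    field_simp
    ring
  rw [h4, abs_zero] at h3
  linarith

/-! ### exact points -/

lemma exact_nhds {n k : ℕ} {c z : ℂ} (h : Exa n k c z) :
    ∀ᶠ x : ℂ × ℂ in 𝓝 (c, z), Exa n k x.1 x.2 := by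
  have h1 : ∀ᶠ x : ℂ × ℂ in 𝓝 (c, z), ∀ j ∈ Finset.Ioo 0 k, (F n x.1)^[j] x.2 ≠ x.2 := by
    rw [Filter.eventually_all_finset]
    intro j hj
    have hj' := Finset.mem_Ioo.mp hj
    exact (isOpen_ne_fun (CNT_contI n j) continuous_snd).mem_nhds (h j hj'.1 hj'.2)
  filter_upwards [h1] with x hx j hj0 hjk
  exact hx j (Finset.mem_Ioo.mpr ⟨hj0, hjk⟩)

lemma iter_diff (n : ℕ) (c : ℂ) (k : ℕ) : Differentiable ℂ ((F n c)^[k]) := by
  refine Differentiable.iterate ?_ k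
  unfold F
  fun_prop

lemma Rho_pow {n k : ℕ} {c z : ℂ} (hz : (F n c)^[k] z = z) (m : ℕ) :
    Rho n (k * m) c z = Rho n k c z ^ m := by
  unfold Rho
  rw [Function.iterate_mul]
  have h1 : HasDerivAt ((F n c)^[k]) (deriv ((F n c)^[k]) z) z :=
    (iter_diff n c k).differentiableAt.hasDerivAt
  exact (HasDerivAt.iterate (x := z) h1 hz m).deriv

lemma nonexact_nhds {n k : ℕ} {c z : ℂ} (hn : 2 ≤ n) (hk : 1 ≤ k) (hfix : (F n c)^[k] z = z)
    (hR : Rho n k c z ≠ 1) (hex : ¬ Exa n k c z) :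
    ∀ᶠ x : ℂ × ℂ in 𝓝 (c, z), (F n x.1)^[k] x.2 = x.2 → ¬ Exa n k x.1 x.2 := by
  unfold Exa at hex
  push Not at hex
  obtain ⟨j, hj0, hjk, hj⟩ := hex
  set p : ℕ := Function.minimalPeriod (F n c) z with hp
  have hpj : p ∣ j := Function.IsPeriodicPt.minimalPeriod_dvd hj
  have hpk : p ∣ k := Function.IsPeriodicPt.minimalPeriod_dvd hfix
  have hp0 : 0 < p := Nat.pos_of_dvd_of_pos hpj hj0
  have hplt : p < k := lt_of_le_of_lt (Nat.le_of_dvd hj0 hpj) hjk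
  have hpfix : (F n c)^[p] z = z := Function.iterate_minimalPeriod
  obtain ⟨m, hm⟩ := hpk
  have hRp : Rho n p c z ≠ 1 := by
    intro h
    apply hR
    rw [hm, Rho_pow hpfix, h, one_pow]
  obtain ⟨δ, r, zf, -, -, hL⟩ := p_LOCZ n k c z 1 hn one_pos hfix hR
  obtain ⟨δ', r', zf', -, -, hL'⟩ := p_LOCZ n p c z 1 hn one_pos hpfix hRp
  have hc' : ContinuousAt zf' c :=
    (hL'.diff.differentiableAt (Metric.ball_mem_nhds _ hL'.hδ)).continuousAt
  have hfst : Tendsto (fun x : ℂ × ℂ => x.1) (𝓝 (c, z)) (𝓝 c) := continuous_fst.continuousAt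
  have hsnd : Tendsto (fun x : ℂ × ℂ => x.2) (𝓝 (c, z)) (𝓝 z) := continuous_snd.continuousAt
  have e1 : ∀ᶠ x : ℂ × ℂ in 𝓝 (c, z), x.1 ∈ Metric.ball c δ :=
    hfst.eventually (Metric.ball_mem_nhds _ hL.hδ)
  have e2 : ∀ᶠ x : ℂ × ℂ in 𝓝 (c, z), x.1 ∈ Metric.ball c δ' :=
    hfst.eventually (Metric.ball_mem_nhds _ hL'.hδ)
  have e3 : ∀ᶠ x : ℂ × ℂ in 𝓝 (c, z), x.2 ∈ Metric.ball z r :=
    hsnd.eventually (Metric.ball_mem_nhds _ hL.hr)
  have e4 : ∀ᶠ x : ℂ × ℂ in 𝓝 (c, z), zf' x.1 ∈ Metric.ball z r := by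
    have h1 : ∀ᶠ y in 𝓝 c, zf' y ∈ Metric.ball z r := by
      refine hc'.eventually (Metric.isOpen_ball.mem_nhds ?_)
      rw [hL'.zf0]
      exact Metric.mem_ball_self hL.hr
    exact hfst.eventually h1
  filter_upwards [e1, e2, e3, e4] with x b1 b2 b3 b4 hx hexa
  have h1 : x.2 = zf x.1 := hL.uniq _ b1 _ b3 hx
  have h2 : (F n x.1)^[p] (zf' x.1) = zf' x.1 := hL'.fix _ b2
  have h3 : (F n x.1)^[k] (zf' x.1) = zf' x.1 := by
    rw [hm, Function.iterate_mul]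
    exact Function.iterate_fixed h2 m
  have h4 : zf' x.1 = zf x.1 := hL.uniq _ b1 _ b4 h3
  have h5 : x.2 = zf' x.1 := h1.trans h4.symm
  exact hexa p hp0 hplt (by rw [h5]; exact h2)

/-! ### the compact set and the covering -/

/-- the closure of the set of the exact points over `‖c‖ ≤ 16` -/
def EX (n k : ℕ) : Set (ℂ × ℂ) := closure {x | x ∈ EE n k ∧ Exa n k x.1 x.2}

theorem EX_sub {n k : ℕ} (hn : 2 ≤ n) (hk : 1 ≤ k) : EX n k ⊆ EE n k :=
  closure_minimal (fun _ hx => hx.1) (EE_compact hn hk).isClosed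

theorem EX_compact {n k : ℕ} (hn : 2 ≤ n) (hk : 1 ≤ k) : IsCompact (EX n k) :=
  (EE_compact hn hk).of_isClosed_subset isClosed_closure (EX_sub hn hk)

theorem EX_exact {n k : ℕ} (hn : 2 ≤ n) (hk : 1 ≤ k) {x : ℂ × ℂ} (hx : x ∈ EX n k)
    (hR : Rho n k x.1 x.2 ≠ 1) : Exa n k x.1 x.2 := by
  by_contra hex
  have hE := EX_sub hn hk hx
  have h1 := nonexact_nhds hn hk hE.1 hR hex
  obtain ⟨y, hy, hyE, hyx⟩ := mem_closure_iff_nhds.mp hx _ h1
  exact hy hyE.1 hyx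

/-- the multiplier map -/
noncomputable def ff (n k : ℕ) : EX n k → ℂ := fun x => Rho n k x.1.1 x.1.2

theorem ff_cont (n k : ℕ) : Continuous (ff n k) := (CNT_contR n k).comp continuous_subtype_val

theorem ff_local {n k : ℕ} (hn : 2 ≤ n) (hk : 1 ≤ k) (x : EX n k) (hx : ‖x.1.1‖ < 16)
    (hex : Exa n k x.1.1 x.1.2) {δ r : ℝ} {zf : ℂ → ℂ}
    (hL : LocFix n k x.1.1 x.1.2 δ r zf)
    (hd : deriv (fun c => Rho n k c (zf c)) x.1.1 ≠ 0) :
    ∃ U ∈ 𝓝 x, IsOpenEmbedding (U.domRestrict (ff n k)) := by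
  set c1 : ℂ := x.1.1 with hc1
  set z1 : ℂ := x.1.2 with hz1
  set g : ℂ → ℂ := fun c => Rho n k c (zf c) with hg
  have hgd : DifferentiableOn ℂ g (Metric.ball c1 δ) :=
    CNT_diffR n k zf _ hL.diff
  have hball : Metric.ball c1 δ ∈ 𝓝 c1 := Metric.ball_mem_nhds _ hL.hδ
  have hgs : HasStrictDerivAt g (deriv g c1) c1 := (hgd.analyticAt hball).hasStrictDerivAt
  set e0 := hgs.hasStrictFDerivAt_equiv hd
  set e := e0.toOpenPartialHomeomorph g with he
  have hes : c1 ∈ e.source := e0.mem_toOpenPartialHomeomorph_source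
  -- the exact points
  have hzc : ContinuousAt zf c1 := (hL.diff.differentiableAt hball).continuousAt
  have hexn : ∀ᶠ c in 𝓝 c1, Exa n k c (zf c) := by
    have h1 : ContinuousAt (fun c => (c, zf c)) c1 := continuousAt_id.prodMk hzc
    have h2 : ∀ᶠ y : ℂ × ℂ in 𝓝 (c1, zf c1), Exa n k y.1 y.2 := by
      rw [hL.zf0]
      exact exact_nhds hex
    exact h1.eventually h2
  obtain ⟨W, hWe, hWo, hcW⟩ := eventually_nhds_iff.mp hexn
  set V : Set ℂ := e.source ∩ (Metric.ball c1 δ ∩ (Metric.ball 0 16 ∩ W)) with hV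
  have hVo : IsOpen V := e.open_source.inter (Metric.isOpen_ball.inter
    (Metric.isOpen_ball.inter hWo))
  have hc1V : c1 ∈ V := ⟨hes, Metric.mem_ball_self hL.hδ, by
    rw [mem_ball_zero_iff]; exact hx, hcW⟩
  set U : Set (EX n k) := {y | y.1.1 ∈ V ∧ y.1.2 ∈ Metric.ball z1 r} with hU
  have hUo : IsOpen U := by
    have h1 : Continuous (fun y : EX n k => y.1.1) := continuous_fst.comp continuous_subtype_val
    have h2 : Continuous (fun y : EX n k => y.1.2) := continuous_snd.comp continuous_subtype_val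
    exact (hVo.preimage h1).inter (Metric.isOpen_ball.preimage h2)
  have hxU : x ∈ U := ⟨hc1V, Metric.mem_ball_self hL.hr⟩
  refine ⟨U, hUo.mem_nhds hxU, ?_⟩
  have hzf : ∀ y ∈ U, y.1.2 = zf y.1.1 := fun y hy =>
    hL.uniq y.1.1 hy.1.2.1 y.1.2 hy.2 (EX_sub hn hk y.2).1
  -- the homeomorphism
  have hmem : ∀ c ∈ V, ((c, zf c) : ℂ × ℂ) ∈ EX n k := by
    intro c hc
    refine subset_closure ⟨⟨hL.fix c hc.2.1, ?_⟩, hWe c hc.2.2.2⟩
    have := hc.2.2.1
    rw [mem_ball_zero_iff] at this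
    exact this.le
  let H : U ≃ₜ V :=
    { toFun := fun y => ⟨y.1.1.1, y.2.1⟩
      invFun := fun c => ⟨⟨(c.1, zf c.1), hmem c.1 c.2⟩, c.2, hL.mem c.1 c.2.2.1⟩
      left_inv := by
        intro y
        apply Subtype.ext
        apply Subtype.ext
        exact Prod.ext rfl (hzf y.1 y.2).symm
      right_inv := by
        intro c
        rfl
      continuous_toFun := by
        have h1 : Continuous (fun y : U => y.1.1.1) :=
          continuous_fst.comp (continuous_subtype_val.comp continuous_subtype_val)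
        exact h1.subtype_mk _
      continuous_invFun := by
        have h1 : Continuous (fun c : V => ((c.1, zf c.1) : ℂ × ℂ)) := by
          refine continuous_subtype_val.prodMk ?_
          exact (continuousOn_iff_continuous_domRestrict.mp
            (hL.diff.continuousOn.mono fun c hc => hc.2.1))
        exact (h1.subtype_mk _).subtype_mk _ }
  have hVemb : IsOpenEmbedding (V.domRestrict e) := by
    refine e.isOpenEmbedding_restrict.comp ⟨.inclusion inter_subset_left, ?_⟩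
    rw [Set.range_inclusion]
    exact isOpen_induced hVo
  have hcomp := hVemb.comp H.isOpenEmbedding
  have heq : (V.domRestrict e) ∘ H = U.domRestrict (ff n k) := by
    funext y
    show g y.1.1.1 = Rho n k y.1.1.1 y.1.1.2
    rw [hzf y.1 y.2]
  rw [← heq]
  exact hcomp

end SECX_

open SECX_ in
open Pool.Agent.PLim (CNT_contI CNT_contR CNT_diffR CNT_root p_LOCZ p_BIG) in
theorem p_SECX (h : T_NCX) : T_SECX := by
  obtain ⟨κ, hκ, hNC⟩ := h
  refine ⟨max (16 / κ) 40, le_trans (by norm_num) (le_max_right _ _), ?_⟩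
  intro n k r z0 τ δ η hn hk hτ0 hτ1 hz hR hEx hδ0 hFar hη
  set C : ℝ := max (16 / κ) 40 with hC
  have hC40 : 40 ≤ C := le_max_right _ _
  have hCκ : 16 / κ ≤ C := le_max_left _ _
  have hC0 : 0 < C := by linarith
  have hδ1 : δ ≤ 1 / 2 := far_half hFar
  have hLL0 := LL_pos hδ0 hδ1
  have hLL1 := LL_le hδ0 hδ1
  have hη0 : 0 < η := by rw [hη]; positivity
  have hη40 : η ≤ LL δ / 40 := by
    rw [hη]
    exact div_le_div_of_nonneg_left hLL0.le (by norm_num) hC40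
  have hη1 : η ≤ δ / 80 := by
    have : δ ^ 2 ≤ δ / 2 := by nlinarith
    linarith
  have hη2 : η < 1 := by linarith
  have hη3 : η ≤ κ * LL (δ / 2) := by
    have h1 : η ≤ LL δ / (16 / κ) := by
      rw [hη]
      exact div_le_div_of_nonneg_left hLL0.le (by positivity) hCκ
    have h2 : LL δ / (16 / κ) = κ * (LL δ / 16) := by
      field_simp
    have h3 : LL δ / 16 ≤ LL (δ / 2) := by
      have := LL_half hδ0 hδ1
      linarith
    rw [h2] at h1
    exact h1.trans (mul_le_mul_of_nonneg_left h3 hκ.le)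
  set B : Set ℂ := Metric.ball ((τ : ℂ) * I) η with hB
  have hBτ : ∀ μ ∈ B, |μ.re| < η ∧ |μ.im - τ| < η := by
    intro μ hμ
    rw [hB, mem_ball_iff_norm] at hμ
    have h1 := abs_re_le_norm (μ - (τ : ℂ) * I)
    have h2 := abs_im_le_norm (μ - (τ : ℂ) * I)
    simp only [sub_re, mul_re, ofReal_re, I_re, mul_zero, ofReal_im, I_im, mul_one, sub_self,
      sub_zero, sub_im, mul_im, add_zero] at h1 h2
    exact ⟨lt_of_le_of_lt h1 hμ, lt_of_le_of_lt h2 hμ⟩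
  have hBfar : ∀ μ ∈ B, Far (δ / 2) μ.im := fun μ hμ => far_near hFar hη1 (hBτ μ hμ).2
  have hBne : ∀ μ ∈ B, exp μ ≠ 1 := fun μ hμ => far_ne (by positivity) (hBfar μ hμ)
  have hBnorm : ∀ μ ∈ B, ‖exp μ‖ < Real.exp 1 := by
    intro μ hμ
    rw [Complex.norm_exp]
    have := (abs_lt.mp (hBτ μ hμ).1).2
    exact Real.exp_lt_exp.mpr (by linarith)
  have hgood : ∀ c z μ : ℂ, μ ∈ B → (F n c)^[k] z = z → Rho n k c z = exp μ → Exa n k c z →
      ‖c‖ < 16 ∧ ∃ (δ' r' : ℝ) (zf : ℂ → ℂ), LocFix n k c z δ' r' zf ∧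
        deriv (fun c => Rho n k c (zf c)) c ≠ 0 := by
    intro c z μ hμ hfix hRho hexa
    have h1 : ‖c‖ < 16 := by
      by_contra h
      push Not at h
      have h2 := p_BIG n k c z hn hk h hfix
      rw [hRho] at h2
      exact lt_asymm h2 (hBnorm μ hμ)
    refine ⟨h1, ?_⟩
    obtain ⟨δ', r', zf, -, -, hL⟩ := p_LOCZ n k c z 1 hn one_pos hfix (by
      rw [hRho]; exact hBne μ hμ)
    refine ⟨δ', r', zf, hL, ?_⟩
    refine hNC n k c z μ (δ / 2) δ' r' zf hn hk hL hexa hRho (by positivity) (hBfar μ hμ) ?_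
    exact lt_of_lt_of_le (abs_lt.mp (hBτ μ hμ).1).2 hη3
  -- the covering
  have hEc : CompactSpace (EX n k) := isCompact_iff_compactSpace.mp (EX_compact hn hk)
  have hloc : IsLocalHomeomorphOn (ff n k) (ff n k ⁻¹' (exp '' B)) := by
    rw [isLocalHomeomorphOn_iff_isOpenEmbedding_restrict]
    rintro x ⟨μ, hμ, hx⟩
    have hex : Exa n k x.1.1 x.1.2 := EX_exact hn hk x.2 (by
      have : Rho n k x.1.1 x.1.2 = exp μ := hx.symm
      rw [this]
      exact hBne μ hμ)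
    obtain ⟨h1, δ', r', zf, hL, hd⟩ := hgood x.1.1 x.1.2 μ hμ (EX_sub hn hk x.2).1 hx.symm hex
    exact ff_local hn hk x h1 hex hL hd
  have cov := IsCoveringMapOn.of_isLocalHomeomorphOn (ff_cont n k) hloc
  have hcen : (τ : ℂ) * I ∈ B := Metric.mem_ball_self hη0
  have hcontr : ContractibleSpace B :=
    (convex_ball ((τ : ℂ) * I) η).contractibleSpace ⟨_, hcen⟩
  have hlpc : LocallyPathConnectedSpace B := Metric.isOpen_ball.locallyPathConnectedSpace
  let fB : C(B, ℂ) := ⟨fun μ => exp μ.1, by fun_prop⟩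
  have hr16 : ‖r‖ < 16 := (hgood r z0 _ hcen hz (by rw [hR]) hEx).1
  obtain ⟨Fl, ⟨hF0, hF⟩, -⟩ := cov.existsUnique_continuousMap_lifts fB
    (a₀ := ⟨(τ : ℂ) * I, hcen⟩) (e₀ := ⟨(r, z0), subset_closure ⟨⟨hz, hr16.le⟩, hEx⟩⟩) (by
      show Rho n k r z0 = exp ((τ : ℂ) * I)
      rw [hR]) (fun a => ⟨a.1, a.2, rfl⟩)
  classical
  set ψ : ℂ → ℂ := fun μ => if h : μ ∈ B then (Fl ⟨μ, h⟩).1.1 else 0 with hψ
  set χ : ℂ → ℂ := fun μ => if h : μ ∈ B then (Fl ⟨μ, h⟩).1.2 else 0 with hχ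
  have hψv : ∀ (μ : ℂ) (h : μ ∈ B), ψ μ = (Fl ⟨μ, h⟩).1.1 := fun μ h => by
    simp only [hψ, dif_pos h]
  have hχv : ∀ (μ : ℂ) (h : μ ∈ B), χ μ = (Fl ⟨μ, h⟩).1.2 := fun μ h => by
    simp only [hχ, dif_pos h]
  have hψc : ContinuousOn ψ B := by
    rw [continuousOn_iff_continuous_domRestrict]
    have : B.domRestrict ψ = fun μ : B => (Fl μ).1.1 := by
      funext μ
      exact hψv μ.1 μ.2
    rw [this]
    exact continuous_fst.comp (continuous_subtype_val.comp Fl.continuous)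
  have hχc : ContinuousOn χ B := by
    rw [continuousOn_iff_continuous_domRestrict]
    have : B.domRestrict χ = fun μ : B => (Fl μ).1.2 := by
      funext μ
      exact hχv μ.1 μ.2
    rw [this]
    exact continuous_snd.comp (continuous_subtype_val.comp Fl.continuous)
  have hfixμ : ∀ μ ∈ B, (F n (ψ μ))^[k] (χ μ) = χ μ ∧ Rho n k (ψ μ) (χ μ) = exp μ ∧
      ‖ψ μ‖ ≤ 16 ∧ Exa n k (ψ μ) (χ μ) := by
    intro μ hμ
    rw [hψv μ hμ, hχv μ hμ]
    have hEE := EX_sub hn hk (Fl ⟨μ, hμ⟩).2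
    have hRho : Rho n k (Fl ⟨μ, hμ⟩).1.1 (Fl ⟨μ, hμ⟩).1.2 = exp μ := congrFun hF ⟨μ, hμ⟩
    exact ⟨hEE.1, hRho, hEE.2, EX_exact hn hk (Fl ⟨μ, hμ⟩).2 (by
      rw [hRho]
      exact hBne μ hμ)⟩
  have hderiv : ∀ μ ∈ B, ∃ d : ℂ, d ≠ 0 ∧ HasDerivAt ψ d μ := by
    intro μ hμ
    obtain ⟨h1, h2, h3, h4⟩ := hfixμ μ hμ
    obtain ⟨-, δ', r', zf, hL, hd⟩ := hgood (ψ μ) (χ μ) μ hμ h1 h2 h4
    have hBn : B ∈ 𝓝 μ := Metric.isOpen_ball.mem_nhds hμ
    have hψa : ContinuousAt ψ μ := hψc.continuousAt hBn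
    have hχa : ContinuousAt χ μ := hχc.continuousAt hBn
    set g : ℂ → ℂ := fun c => Rho n k c (zf c) with hg
    have hgd : DifferentiableOn ℂ g (Metric.ball (ψ μ) δ') := CNT_diffR n k zf _ hL.diff
    have hgh : HasDerivAt g (deriv g (ψ μ)) (ψ μ) :=
      (hgd.differentiableAt (Metric.ball_mem_nhds _ hL.hδ)).hasDerivAt
    have hgμ : g (ψ μ) = exp μ := by
      show Rho n k (ψ μ) (zf (ψ μ)) = exp μ
      rw [hL.zf0, h2]
    have hf : HasDerivAt (fun c => log (g c / exp μ) + μ)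
        (deriv g (ψ μ) / exp μ / (g (ψ μ) / exp μ)) (ψ μ) := by
      refine ((hgh.div_const (exp μ)).clog ?_).add_const μ
      rw [hgμ, div_self (exp_ne_zero _)]
      exact one_mem_slitPlane
    have hf' : deriv g (ψ μ) / exp μ / (g (ψ μ) / exp μ) ≠ 0 := by
      rw [hgμ, div_self (exp_ne_zero _), div_one]
      exact div_ne_zero hd (exp_ne_zero _)
    have hfg : ∀ᶠ ν in 𝓝 μ, (fun c => log (g c / exp μ) + μ) (ψ ν) = ν := by
      have a1 : ∀ᶠ ν in 𝓝 μ, ψ ν ∈ Metric.ball (ψ μ) δ' :=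
        hψa.eventually (Metric.ball_mem_nhds _ hL.hδ)
      have a2 : ∀ᶠ ν in 𝓝 μ, χ ν ∈ Metric.ball (χ μ) r' :=
        hχa.eventually (Metric.ball_mem_nhds _ hL.hr)
      have a3 : ∀ᶠ ν in 𝓝 μ, ν ∈ Metric.ball μ 1 := Metric.ball_mem_nhds _ one_pos
      filter_upwards [hBn, a1, a2, a3] with ν b0 b1 b2 b3
      have b4 : χ ν = zf (ψ ν) := hL.uniq (ψ ν) b1 (χ ν) b2 (hfixμ ν b0).1
      have b5 : g (ψ ν) = exp ν := by
        show Rho n k (ψ ν) (zf (ψ ν)) = exp ν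
        rw [← b4]
        exact (hfixμ ν b0).2.1
      show log (g (ψ ν) / exp μ) + μ = ν
      rw [b5, ← exp_sub]
      rw [mem_ball_iff_norm] at b3
      have b6 := abs_lt.mp (lt_of_le_of_lt (abs_im_le_norm (ν - μ)) b3)
      rw [log_exp (by linarith [Real.pi_gt_three]) (by linarith [Real.pi_gt_three])]
      ring
    exact ⟨_, inv_ne_zero hf', HasDerivAt.of_local_left_inverse hψa hf hf' hfg⟩
  refine ⟨ψ, χ, ?_, hχc, ?_, ?_, ?_⟩
  · intro μ hμ
    obtain ⟨d, -, hd⟩ := hderiv μ hμ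
    exact hd.differentiableAt.differentiableWithinAt
  · rw [hψv _ hcen, hF0]
  · rw [hχv _ hcen, hF0]
  · intro μ hμ
    obtain ⟨h1, h2, h3, h4⟩ := hfixμ μ hμ
    obtain ⟨d, hd0, hd⟩ := hderiv μ hμ
    refine ⟨h1, h2, h3, ?_, h4⟩
    rw [hd.deriv]
    exact hd0

end Pool.Agent.MEX
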