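import Pool.Agent.MEX.Basic
import Pool.Agent.PLim.TRL
import Pool.Agent.PLim.TRP
import Pool.Agent.PLim.TRI

/-!
# MEX: the mass defect of one step (DEF)
-/

set_option autoImplicit false

open Complex Filter Topology Set MeasureTheory
open Pool.Agent.Multibrot (rt push)
open Pool.Agent.Limb (F)
open Pool.Agent.PLim (Cyc Res AA fp fpp Rho LocFix TRL_H TRL_AAle TRL_annm TRL_small TRL_area
  TRL_AAm TRL_fin TRL_union TRL_push TRL_taylor p_TRP p_TRI)

namespace Pool.Agent.MEX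

namespace DEF_

lemma ann0 (ρ R : ℝ) (h0 : 0 < ρ) (h1 : ρ ≤ R) :
    ∫⁻ z : ℂ, {z : ℂ | ρ < ‖z‖ ∧ ‖z‖ ≤ R}.indicator
      (fun z => ENNReal.ofReal ((‖z‖ ^ 2)⁻¹)) z =
      ENNReal.ofReal (2 * Real.pi * Real.log (R / ρ)) := by
  rw [← Complex.lintegral_comp_polarCoord_symm]
  have e1 : ∀ p ∈ polarCoord.target, ENNReal.ofReal p.1 • {z : ℂ | ρ < ‖z‖ ∧ ‖z‖ ≤ R}.indicator
      (fun z => ENNReal.ofReal ((‖z‖ ^ 2)⁻¹)) (Complex.polarCoord.symm p) =
      (Ioc ρ R ×ˢ (Ioo (-Real.pi) Real.pi)).indicator (fun p => ENNReal.ofReal (p.1⁻¹)) p := by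
    intro p hp
    rw [polarCoord_target] at hp
    have hp1 : 0 < p.1 := hp.1
    have hn : ‖Complex.polarCoord.symm p‖ = p.1 := by
      rw [Complex.norm_polarCoord_symm, abs_of_pos hp1]
    by_cases h : p.1 ∈ Ioc ρ R
    · rw [Set.indicator_of_mem, Set.indicator_of_mem, hn, smul_eq_mul,
        ← ENNReal.ofReal_mul hp1.le]
      · congr 1
        field_simp
      · exact ⟨h, hp.2⟩
      · show ρ < ‖Complex.polarCoord.symm p‖ ∧ ‖Complex.polarCoord.symm p‖ ≤ R
        rw [hn]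
        exact h
    · rw [Set.indicator_of_notMem, Set.indicator_of_notMem, smul_zero]
      · exact fun h' => h h'.1
      · show ¬ (ρ < ‖Complex.polarCoord.symm p‖ ∧ ‖Complex.polarCoord.symm p‖ ≤ R)
        rw [hn]
        exact h
  rw [setLIntegral_congr_fun polarCoord.open_target.measurableSet e1,
    setLIntegral_indicator (measurableSet_Ioc.prod measurableSet_Ioo)]
  have e2 : (Ioc ρ R ×ˢ Ioo (-Real.pi) Real.pi) ∩ polarCoord.target =
      Ioc ρ R ×ˢ Ioo (-Real.pi) Real.pi := by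
    apply Set.inter_eq_left.2
    intro p hp
    rw [polarCoord_target]
    exact ⟨lt_trans h0 hp.1.1, hp.2⟩
  have hm : Measurable fun p : ℝ × ℝ => ENNReal.ofReal (p.1⁻¹) :=
    ENNReal.measurable_ofReal.comp measurable_fst.inv
  rw [e2, Measure.volume_eq_prod, ← Measure.prod_restrict, lintegral_prod _ hm.aemeasurable]
  have e3 : ∀ x : ℝ, ∫⁻ _ : ℝ in Ioo (-Real.pi) Real.pi, ENNReal.ofReal (x⁻¹) =
      ENNReal.ofReal (2 * Real.pi) * ENNReal.ofReal (x⁻¹) := by
    intro x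
    rw [setLIntegral_const, Real.volume_Ioo, mul_comm]
    congr 2
    ring
  simp only [e3]
  have hm2 : Measurable fun x : ℝ => ENNReal.ofReal (x⁻¹) :=
    ENNReal.measurable_ofReal.comp measurable_inv
  rw [lintegral_const_mul _ hm2, ENNReal.ofReal_mul (p := 2 * Real.pi) (by positivity)]
  congr 1
  rw [← integral_inv_of_pos h0 (h0.trans_le h1), intervalIntegral.integral_of_le h1,
    ofReal_integral_eq_lintegral_ofReal]
  · have : IntervalIntegrable (fun x : ℝ => x⁻¹) volume ρ R := by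
      apply intervalIntegral.intervalIntegrable_inv
      · intro x hx
        rw [uIcc_of_le h1] at hx
        exact (h0.trans_le hx.1).ne'
      · exact continuousOn_id
    rw [intervalIntegrable_iff_integrableOn_Ioc_of_le h1] at this
    exact this
  · filter_upwards [ae_restrict_mem measurableSet_Ioc] with x hx
    exact inv_nonneg.2 (h0.trans hx.1).le

lemma ann1 (b : ℂ) (ρ R : ℝ) (h0 : 0 < ρ) (h1 : ρ ≤ R) :
    ∫⁻ w in {w : ℂ | ρ < ‖w - b‖ ∧ ‖w - b‖ ≤ R}, ENNReal.ofReal ((‖w - b‖ ^ 2)⁻¹) =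
      ENNReal.ofReal (2 * Real.pi * Real.log (R / ρ)) := by
  rw [← ann0 ρ R h0 h1, ← lintegral_indicator (TRL_annm b ρ R),
    ← lintegral_sub_right_eq_self (fun z => {z : ℂ | ρ < ‖z‖ ∧ ‖z‖ ≤ R}.indicator
      (fun z => ENNReal.ofReal ((‖z‖ ^ 2)⁻¹)) z) b]
  rfl

lemma annb (k : ℕ) (b r : ℕ → ℂ) (j : ℕ) (t q K : ℝ) (ht : 0 < t) (hq : 0 < q) (hq1 : q ≤ 1)
    (hK : 0 ≤ K) (hj : j ∈ Finset.range k) (hb : ∀ i ∈ Finset.range k, i ≠ j → b i ≠ b j)
    (η : ℝ) (hη : 0 < η) : ∀ᶠ ε : ℝ in 𝓝[>] 0,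
      ∫⁻ w in {w : ℂ | ε * t * q - K * ε ^ 2 < ‖w - b j‖ ∧ ‖w - b j‖ ≤ ε * t}, ‖AA k b r w‖ₑ ≤
        ENNReal.ofReal (2 * Real.pi * (-Real.log q) + η) := by
  obtain ⟨B, hB⟩ : ∃ B : ℝ, B = ∑ i ∈ (Finset.range k).erase j,
    (4 / ‖b i - b j‖ ^ 2 + ‖r i‖ * (2 / ‖b i - b j‖)) := ⟨_, rfl⟩
  have hB0 : 0 ≤ B := hB ▸ Finset.sum_nonneg fun i _ => by positivity
  obtain ⟨M, hM⟩ : ∃ M : ℝ, M = ‖r j‖ * (2 / (t * q)) + B := ⟨_, rfl⟩
  have hM0 : 0 ≤ M := by
    rw [hM]
    positivity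
  have f1 : ∀ᶠ ε : ℝ in 𝓝[>] 0, 0 < ε := eventually_mem_nhdsWithin
  have f2 : ∀ᶠ ε : ℝ in 𝓝[>] 0, ε * 1 < 1 := TRL_small 1 1 one_pos
  have f3 : ∀ᶠ ε : ℝ in 𝓝[>] 0, ε * K < t * q / 2 := TRL_small K _ (by positivity)
  have f4 : ∀ᶠ ε : ℝ in 𝓝[>] 0, ∀ i ∈ Finset.range k, i ≠ j →
      ε * t < ‖b i - b j‖ / 2 := by
    rw [Filter.eventually_all_finset]
    intro i hi
    by_cases h : i = j
    · exact Filter.Eventually.of_forall fun ε h' => absurd h h'
    · have h5 : 0 < ‖b i - b j‖ := norm_pos_iff.2 (sub_ne_zero.2 (hb i hi h))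
      filter_upwards [TRL_small t (‖b i - b j‖ / 2) (by linarith)] with ε hε _
      exact hε
  have f5 : ∀ᶠ ε : ℝ in 𝓝[>] 0, 2 * Real.pi * Real.log (t / (t * q - K * ε)) +
      M * Real.pi * t ^ 2 * ε < 2 * Real.pi * (-Real.log q) + η := by
    have h1 : Tendsto (fun ε : ℝ => 2 * Real.pi * Real.log (t / (t * q - K * ε)) +
        M * Real.pi * t ^ 2 * ε) (𝓝 0) (𝓝 (2 * Real.pi * Real.log (t / (t * q - K * 0)) +
        M * Real.pi * t ^ 2 * 0)) := by
      have h2 : t * q - K * 0 ≠ 0 := by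
        rw [mul_zero, sub_zero]
        positivity
      have h3 : t / (t * q - K * 0) ≠ 0 := div_ne_zero ht.ne' h2
      have h4 : ContinuousAt (fun ε : ℝ => 2 * Real.pi * Real.log (t / (t * q - K * ε)) +
        M * Real.pi * t ^ 2 * ε) 0 := by
        have h5 : ContinuousAt (fun ε : ℝ => t / (t * q - K * ε)) 0 :=
          continuousAt_const.div (by fun_prop) h2
        exact ((h5.log h3).const_mul _).add (by fun_prop)
      exact h4
    have h2 : 2 * Real.pi * Real.log (t / (t * q - K * 0)) + M * Real.pi * t ^ 2 * 0 <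
        2 * Real.pi * (-Real.log q) + η := by
      have h3 : t / (t * q - K * 0) = q⁻¹ := by
        field_simp
        ring
      rw [h3, Real.log_inv]
      linarith
    exact (h1.mono_left nhdsWithin_le_nhds).eventually_lt_const h2
  filter_upwards [f1, f2, f3, f4, f5] with ε h1 h2 h3 h4 h5
  rw [mul_one] at h2
  have hρ : ε * (t * q / 2) ≤ ε * t * q - K * ε ^ 2 := by
    have := mul_le_mul_of_nonneg_left h3.le h1.le
    linarith [this, (by ring : ε * (ε * K) = K * ε ^ 2)]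
  have hρ0 : 0 < ε * (t * q / 2) := by positivity
  have hρ1 : 0 < ε * t * q - K * ε ^ 2 := hρ0.trans_le hρ
  have hρR : ε * t * q - K * ε ^ 2 ≤ ε * t := by
    have e1 : ε * t * q ≤ ε * t * 1 := mul_le_mul_of_nonneg_left hq1 (by positivity)
    have e2 : 0 ≤ K * ε ^ 2 := by positivity
    linarith
  have hpt : ∀ w ∈ {w : ℂ | ε * t * q - K * ε ^ 2 < ‖w - b j‖ ∧ ‖w - b j‖ ≤ ε * t},
      ‖AA k b r w‖ₑ ≤ ENNReal.ofReal ((‖w - b j‖ ^ 2)⁻¹) + ENNReal.ofReal (M / ε) := by
    intro w hw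
    rw [← ofReal_norm, ← ENNReal.ofReal_add (by positivity) (by positivity)]
    apply ENNReal.ofReal_le_ofReal
    unfold AA
    rw [← Finset.add_sum_erase _ _ hj]
    refine (norm_add_le _ _).trans ?_
    have g1 : ‖((w - b j) ^ 2)⁻¹ + r j * (w - b j)⁻¹‖ ≤
        (‖w - b j‖ ^ 2)⁻¹ + ‖r j‖ * (2 / (t * q)) / ε := by
      refine (norm_add_le _ _).trans ?_
      rw [norm_inv, norm_pow, norm_mul, norm_inv]
      have e1 : ‖w - b j‖⁻¹ ≤ (ε * (t * q / 2))⁻¹ := inv_anti₀ hρ0 (hρ.trans hw.1.le)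
      have e2 : ‖r j‖ * ‖w - b j‖⁻¹ ≤ ‖r j‖ * (ε * (t * q / 2))⁻¹ :=
        mul_le_mul_of_nonneg_left e1 (norm_nonneg _)
      have e3 : ‖r j‖ * (ε * (t * q / 2))⁻¹ = ‖r j‖ * (2 / (t * q)) / ε := by
        field_simp
      linarith
    have g2 : ‖∑ i ∈ (Finset.range k).erase j, (((w - b i) ^ 2)⁻¹ + r i * (w - b i)⁻¹)‖ ≤
        B / ε := by
      have e0 : B ≤ B / ε := by
        rw [le_div_iff₀ h1]
        nlinarith
      refine le_trans ?_ e0
      rw [hB]
      refine (norm_sum_le _ _).trans (Finset.sum_le_sum fun i hi => ?_)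
      obtain ⟨hij, hi'⟩ := Finset.mem_erase.1 hi
      have e1 := h4 i hi' hij
      have e2 : ‖b i - b j‖ ≤ ‖w - b i‖ + ‖w - b j‖ := by
        have := norm_sub_le (w - b j) (w - b i)
        rw [show w - b j - (w - b i) = b i - b j by ring] at this
        linarith
      have e3 : ‖b i - b j‖ / 2 ≤ ‖w - b i‖ := by linarith [hw.2]
      have e4 : 0 < ‖b i - b j‖ := norm_pos_iff.2 (sub_ne_zero.2 (hb i hi' hij))
      refine (norm_add_le _ _).trans (add_le_add ?_ ?_)
      · rw [norm_inv, norm_pow]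
        have e5 : (‖w - b i‖ ^ 2)⁻¹ ≤ ((‖b i - b j‖ / 2) ^ 2)⁻¹ :=
          inv_anti₀ (by positivity) (pow_le_pow_left₀ (by positivity) e3 2)
        have e6 : ((‖b i - b j‖ / 2) ^ 2)⁻¹ = 4 / ‖b i - b j‖ ^ 2 := by
          field_simp
          norm_num
        linarith
      · rw [norm_mul, norm_inv]
        have e5 : ‖w - b i‖⁻¹ ≤ (‖b i - b j‖ / 2)⁻¹ := inv_anti₀ (by positivity) e3
        have e6 : (‖b i - b j‖ / 2)⁻¹ = 2 / ‖b i - b j‖ := by
          field_simp
        rw [e6] at e5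
        exact mul_le_mul_of_nonneg_left e5 (norm_nonneg _)
    have g3 : M / ε = ‖r j‖ * (2 / (t * q)) / ε + B / ε := by
      rw [hM, add_div]
    linarith
  calc ∫⁻ w in {w : ℂ | ε * t * q - K * ε ^ 2 < ‖w - b j‖ ∧ ‖w - b j‖ ≤ ε * t}, ‖AA k b r w‖ₑ
      ≤ ∫⁻ w in {w : ℂ | ε * t * q - K * ε ^ 2 < ‖w - b j‖ ∧ ‖w - b j‖ ≤ ε * t},
        (ENNReal.ofReal ((‖w - b j‖ ^ 2)⁻¹) + ENNReal.ofReal (M / ε)) :=
        setLIntegral_mono' (TRL_annm _ _ _) hpt
    _ = ENNReal.ofReal (2 * Real.pi * Real.log (ε * t / (ε * t * q - K * ε ^ 2))) +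
        ENNReal.ofReal (M / ε) *
        volume {w : ℂ | ε * t * q - K * ε ^ 2 < ‖w - b j‖ ∧ ‖w - b j‖ ≤ ε * t} := by
        rw [lintegral_add_right _ measurable_const, ann1 _ _ _ hρ1 hρR, setLIntegral_const]
    _ ≤ ENNReal.ofReal (2 * Real.pi * Real.log (ε * t / (ε * t * q - K * ε ^ 2))) +
        ENNReal.ofReal (M / ε) * ENNReal.ofReal (Real.pi * ((ε * t) ^ 2 -
          (ε * t * q - K * ε ^ 2) ^ 2)) := by
        gcongr
        exact TRL_area _ _ _ hρ1.le hρR
    _ ≤ ENNReal.ofReal (2 * Real.pi * (-Real.log q) + η) := by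
        rw [← ENNReal.ofReal_mul (by positivity)]
        have e1 : ε * t / (ε * t * q - K * ε ^ 2) = t / (t * q - K * ε) := by
          rw [show ε * t * q - K * ε ^ 2 = ε * (t * q - K * ε) by ring,
            mul_div_mul_left _ _ h1.ne']
        have e2 : 0 ≤ Real.log (t / (t * q - K * ε)) := by
          rw [← e1]
          exact Real.log_nonneg ((one_le_div hρ1).2 hρR)
        have e3 : 0 ≤ (ε * t) ^ 2 - (ε * t * q - K * ε ^ 2) ^ 2 := by
          have := pow_le_pow_left₀ hρ1.le hρR 2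
          linarith
        rw [e1, ← ENNReal.ofReal_add (by positivity) (by positivity)]
        apply ENNReal.ofReal_le_ofReal
        refine le_trans ?_ h5.le
        have e4 : M / ε * (Real.pi * ((ε * t) ^ 2 - (ε * t * q - K * ε ^ 2) ^ 2)) ≤
            M / ε * (Real.pi * (ε * t) ^ 2) := by
          apply mul_le_mul_of_nonneg_left _ (by positivity)
          apply mul_le_mul_of_nonneg_left _ Real.pi_pos.le
          nlinarith [sq_nonneg (ε * t * q - K * ε ^ 2)]
        have e5 : M / ε * (Real.pi * (ε * t) ^ 2) = M * Real.pi * t ^ 2 * ε := by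
          field_simp
        linarith

lemma PP_eq (n k : ℕ) (c : ℂ) (b r : ℕ → ℂ) (y : ℂ) :
    PP n c (phe k b r) y = TRL_H n c (AA k b r) y := by
  unfold PP TRL_H phe
  exact Finset.sum_congr rfl fun j _ => (enorm_mul _ _).symm

end DEF_

/-- the mass defect of one step -/
theorem p_DEF : T_DEF := by
  intro n k c b r μ hB hμ
  have hn := hB.hn
  have hC := hB.cyc
  have hn0 : n ≠ 0 := by omega
  have hnc : (n : ℂ) ≠ 0 := Nat.cast_ne_zero.2 hn0
  obtain ⟨C, R, hR1, hdec⟩ := p_TRI p_TRP n k c b r hn hC hB.res hB.sum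
  have hp : 0 < k := hC.hp
  have hkR : (0 : ℝ) < k := Nat.cast_pos.2 hp
  have hbmod : ∀ j, ∃ i ∈ Finset.range k, b j = b i := fun j =>
    ⟨j % k, Finset.mem_range.2 (Nat.mod_lt _ hp), cyc_mod hC j⟩
  have hfp : ∀ j, 0 < ‖fp n (b j)‖ := by
    intro j
    rw [norm_pos_iff]
    exact mul_ne_zero hnc (pow_ne_zero _ (hC.nz j))
  obtain ⟨q, hq⟩ : ∃ q : ℝ, q = Real.exp (-(μ.re / k)) := ⟨_, rfl⟩
  have hq0 : 0 < q := hq ▸ Real.exp_pos _
  have hq1 : q ≤ 1 := by
    rw [hq]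
    apply Real.exp_le_one_iff.2
    have : 0 ≤ μ.re / k := by positivity
    linarith
  obtain ⟨t, ht⟩ : ∃ t : ℕ → ℝ, t = fun j => ∏ i ∈ Finset.range j, (‖fp n (b i)‖ * q) := ⟨_, rfl⟩
  have ht0 : ∀ j, 0 < t j := by
    intro j
    rw [ht]
    exact Finset.prod_pos fun i _ => mul_pos (hfp i) hq0
  have htz : t 0 = 1 := by
    rw [ht]
    simp
  have hts : ∀ j, t (j + 1) = ‖fp n (b j)‖ * q * t j := by
    intro j
    rw [ht]
    dsimp only
    rw [Finset.prod_range_succ, mul_comm]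
  have htp : t k = 1 := by
    rw [ht]
    dsimp only
    rw [Finset.prod_mul_distrib, ← norm_prod, ← hB.mul, Complex.norm_exp, Finset.prod_const,
      Finset.card_range, hq, ← Real.exp_nat_mul, ← Real.exp_add]
    have : μ.re + k * -(μ.re / k) = 0 := by
      field_simp
      ring
    rw [this, Real.exp_zero]
  choose K hK0 hK using fun j => TRL_taylor (b j) n
  obtain ⟨K', hK'⟩ : ∃ K' : ℕ → ℝ, K' = fun j => K j * t j ^ 2 / ‖fp n (b j)‖ := ⟨_, rfl⟩
  have hK'0 : ∀ j, 0 ≤ K' j := by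
    intro j
    rw [hK']
    have := hfp j
    have := hK0 j
    positivity
  have hAm := TRL_AAm k b r
  have hPm : Measurable fun y => PP n c (phe k b r) y - phe k b r y := by
    have h1 : Measurable (phe k b r) := hAm.enorm
    refine Measurable.sub ?_ h1
    unfold PP
    refine Finset.measurable_sum _ fun j _ => ?_
    refine Measurable.mul ?_ (h1.comp (Pool.Agent.PLim.TRL_rtm n c j))
    exact ((((Pool.Agent.PLim.TRL_rtm n c j).pow_const _).const_mul _).pow_const 2).inv.enorm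
  have hae : ∀ᵐ x : ℂ, ∀ j ∈ Finset.range k, x ≠ b j := by
    rw [Filter.eventually_all_finset]
    intro j _
    exact compl_mem_ae_iff.2 (measure_singleton (μ := (volume : Measure ℂ)) (b j))
  have haec : ∀ᵐ x : ℂ, x ≠ c :=
    compl_mem_ae_iff.2 (measure_singleton (μ := (volume : Measure ℂ)) c)
  have hle : ∀ᵐ x : ℂ, phe k b r x ≤ PP n c (phe k b r) x := by
    filter_upwards [hae, haec] with x hx hxc
    have e1 : ∀ j, x ≠ b j := by
      intro j
      obtain ⟨i, hi, e⟩ := hbmod j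
      rw [e]
      exact hx i hi
    have e2 := p_TRP n k c b r x hn hC hB.res hxc e1
    rw [hB.sum, zero_mul, sub_zero] at e2
    rw [DEF_.PP_eq]
    show ‖AA k b r x‖ₑ ≤ _
    rw [← e2]
    exact enorm_sum_le _ _
  set V : ℝ → Set ℂ := fun ε => {x : ℂ | ∀ j ∈ Finset.range k, ε * t j < ‖x - b j‖} with hV
  have hVm : ∀ ε, MeasurableSet (V ε) := by
    intro ε
    have e : V ε = ⋂ j ∈ Finset.range k, {x : ℂ | ε * t j < ‖x - b j‖} := by
      ext x
      simp [hV]
    rw [e]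
    exact Finset.measurableSet_biInter _ fun j _ =>
      measurableSet_lt measurable_const (measurable_id.sub_const (b j)).norm
  -- the bound on one set
  have hone : ∀ η : ℝ, 0 < η → ∀ᶠ ε : ℝ in 𝓝[>] 0,
      ∫⁻ y in V ε, (PP n c (phe k b r) y - phe k b r y) ≤
        ENNReal.ofReal (2 * Real.pi * μ.re + k * η) := by
    intro η hη
    have f1 : ∀ᶠ ε : ℝ in 𝓝[>] 0, 0 < ε := eventually_mem_nhdsWithin
    have f3 : ∀ᶠ ε : ℝ in 𝓝[>] 0, ∀ j ∈ Finset.range k, ε * t j < 1 := by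
      rw [Filter.eventually_all_finset]
      intro j _
      exact TRL_small (t j) 1 one_pos
    have fA : ∀ᶠ ε : ℝ in 𝓝[>] 0, ∀ j ∈ Finset.range k,
        ∫⁻ w in {w : ℂ | ε * t j * q - K' j * ε ^ 2 < ‖w - b j‖ ∧ ‖w - b j‖ ≤ ε * t j},
          ‖AA k b r w‖ₑ ≤ ENNReal.ofReal (2 * Real.pi * (-Real.log q) + η) := by
      rw [Filter.eventually_all_finset]
      exact fun j hj => DEF_.annb k b r j (t j) q (K' j) (ht0 j) hq0 hq1 (hK'0 j) hj
        (fun i hi hij e => hij (hC.dist i j (Finset.mem_range.1 hi) (Finset.mem_range.1 hj) e)) η hη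
    filter_upwards [f1, f3, fA] with ε g1 g3 gA
    have hUV : {w : ℂ | w ^ n + c ∈ V ε} ⊆ V ε ∪ ⋃ j ∈ Finset.range k,
        {w : ℂ | ε * t j * q - K' j * ε ^ 2 < ‖w - b j‖ ∧ ‖w - b j‖ ≤ ε * t j} := by
      intro w hw
      by_cases hwV : w ∈ V ε
      · exact Or.inl hwV
      · right
        rw [hV, Set.mem_ofPred_eq] at hwV
        push Not at hwV
        obtain ⟨j, hj, hwj⟩ := hwV
        simp only [Set.mem_iUnion]
        refine ⟨j, hj, ?_, hwj⟩
        have hw' : ∀ i ∈ Finset.range k, ε * t i < ‖w ^ n + c - b i‖ := hw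
        have e1 : ε * (‖fp n (b j)‖ * q * t j) < ‖w ^ n + c - b (j + 1)‖ := by
          rw [← hts]
          by_cases hj1 : j + 1 < k
          · exact hw' (j + 1) (Finset.mem_range.2 hj1)
          · have hj2 : j + 1 = k := by
              have := Finset.mem_range.1 hj
              omega
            have e2 : b (j + 1) = b 0 := by
              rw [hj2]
              have := hC.per 0
              rwa [zero_add] at this
            rw [e2, hj2, htp, ← htz]
            exact hw' 0 (Finset.mem_range.2 hp)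
        have e3 : w ^ n + c - b (j + 1) =
            (w ^ n - b j ^ n - n * b j ^ (n - 1) * (w - b j)) + fp n (b j) * (w - b j) := by
          rw [hC.step j]
          unfold fp
          ring
        have e4 := hK j w (hwj.trans (g3 j hj).le)
        have e5 : ‖w ^ n + c - b (j + 1)‖ ≤ K j * ‖w - b j‖ ^ 2 + ‖fp n (b j)‖ * ‖w - b j‖ := by
          rw [e3]
          refine (norm_add_le _ _).trans (add_le_add e4 ?_)
          rw [norm_mul]
        have e6 : ‖w - b j‖ ^ 2 ≤ (ε * t j) ^ 2 := pow_le_pow_left₀ (norm_nonneg _) hwj 2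
        have e7 := mul_le_mul_of_nonneg_left e6 (hK0 j)
        have e8 : ‖fp n (b j)‖ * (K' j * ε ^ 2) = K j * (ε * t j) ^ 2 := by
          rw [hK']
          have := (hfp j).ne'
          field_simp
        have e9 : ‖fp n (b j)‖ * (ε * t j * q - K' j * ε ^ 2) < ‖fp n (b j)‖ * ‖w - b j‖ := by
          rw [mul_sub, e8]
          linarith [(by ring : ε * (‖fp n (b j)‖ * q * t j) = ‖fp n (b j)‖ * (ε * t j * q))]
        exact lt_of_mul_lt_mul_left e9 (hfp j).le
    have hfin : ∫⁻ w in V ε, ‖AA k b r w‖ₑ ≠ ⊤ := by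
      obtain ⟨τ, hτ, hτj⟩ : ∃ τ : ℝ, 0 < τ ∧ ∀ j ∈ Finset.range k, τ ≤ ε * t j := by
        have hne : (Finset.range k).Nonempty := ⟨0, Finset.mem_range.2 hp⟩
        obtain ⟨i, hi, hmin⟩ := Finset.exists_min_image (Finset.range k) (fun j => ε * t j) hne
        exact ⟨ε * t i, mul_pos g1 (ht0 i), fun j hj => hmin j hj⟩
      exact TRL_fin k b r C R τ hR1 hτ (V ε) (hVm ε)
        (fun w hw i hi => (hτj i hi).trans (hw i hi).le) hdec
    have hup : ∫⁻ x in V ε, TRL_H n c (AA k b r) x ≤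
        (∫⁻ x in V ε, ‖AA k b r x‖ₑ) + ENNReal.ofReal (2 * Real.pi * μ.re + k * η) := by
      calc ∫⁻ x in V ε, TRL_H n c (AA k b r) x
          ≤ ∫⁻ w in {w : ℂ | w ^ n + c ∈ V ε}, ‖AA k b r w‖ₑ := TRL_push hn c hAm (hVm ε)
        _ ≤ ∫⁻ w in V ε ∪ ⋃ j ∈ Finset.range k,
            {w : ℂ | ε * t j * q - K' j * ε ^ 2 < ‖w - b j‖ ∧ ‖w - b j‖ ≤ ε * t j},
            ‖AA k b r w‖ₑ := lintegral_mono_set hUV
        _ ≤ (∫⁻ w in V ε, ‖AA k b r w‖ₑ) + ∫⁻ w in ⋃ j ∈ Finset.range k,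
            {w : ℂ | ε * t j * q - K' j * ε ^ 2 < ‖w - b j‖ ∧ ‖w - b j‖ ≤ ε * t j},
            ‖AA k b r w‖ₑ := lintegral_union_le _ _ _
        _ ≤ _ := by
            refine add_le_add_right ?_ _
            refine (TRL_union _ _ _).trans ?_
            have e1 : ENNReal.ofReal (2 * Real.pi * μ.re + k * η) =
                ∑ j ∈ Finset.range k, ENNReal.ofReal (2 * Real.pi * (-Real.log q) + η) := by
              have e2 : 0 ≤ 2 * Real.pi * (-Real.log q) + η := by
                have : Real.log q ≤ 0 := Real.log_nonpos hq0.le hq1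
                have h3 : 0 ≤ 2 * Real.pi * (-Real.log q) := by
                  apply mul_nonneg (by positivity)
                  linarith
                linarith
              rw [← ENNReal.ofReal_sum_of_nonneg fun j _ => e2, Finset.sum_const,
                Finset.card_range, nsmul_eq_mul, hq, Real.log_exp]
              congr 1
              field_simp
            rw [e1]
            exact Finset.sum_le_sum fun j hj => gA j hj
    have hpm : Measurable (phe k b r) := hAm.enorm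
    have hfin' : ∫⁻ w in V ε, phe k b r w ≠ ⊤ := hfin
    rw [lintegral_sub hpm hfin' (ae_restrict_of_ae hle)]
    refine tsub_le_iff_left.2 ?_
    have e1 : ∫⁻ a in V ε, PP n c (phe k b r) a = ∫⁻ x in V ε, TRL_H n c (AA k b r) x :=
      lintegral_congr fun x => DEF_.PP_eq n k c b r x
    rw [e1]
    exact hup
  -- all sets
  have hall : ∀ ε : ℝ, 0 < ε → ∀ η : ℝ, 0 < η →
      ∫⁻ y in V ε, (PP n c (phe k b r) y - phe k b r y) ≤
        ENNReal.ofReal (2 * Real.pi * μ.re + k * η) := by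
    intro ε hε η hη
    have f1 : ∀ᶠ ε' : ℝ in 𝓝[>] 0, ε' * 1 < ε := TRL_small 1 ε hε
    obtain ⟨ε', g1, g2⟩ := (f1.and (hone η hη)).exists
    refine le_trans (lintegral_mono_set ?_) g2
    intro x hx j hj
    refine lt_of_le_of_lt ?_ (hx j hj)
    exact mul_le_mul_of_nonneg_right (by linarith) (ht0 j).le
  have hall2 : ∀ ε : ℝ, 0 < ε → ∫⁻ y in V ε, (PP n c (phe k b r) y - phe k b r y) ≤
        ENNReal.ofReal (2 * Real.pi * μ.re) := by
    intro ε hε
    have h1 : Tendsto (fun η : ℝ => ENNReal.ofReal (2 * Real.pi * μ.re + k * η)) (𝓝[>] 0)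
        (𝓝 (ENNReal.ofReal (2 * Real.pi * μ.re + k * 0))) := by
      apply (ENNReal.continuous_ofReal.tendsto _).comp
      refine Tendsto.mono_left ?_ nhdsWithin_le_nhds
      exact ((continuous_const.add (continuous_const.mul continuous_id)).tendsto (0 : ℝ))
    rw [mul_zero, add_zero] at h1
    exact ge_of_tendsto h1 (eventually_mem_nhdsWithin.mono fun η hη => hall ε hε η hη)
  have hcov : ∀ᵐ x : ℂ, x ∈ ⋃ i : ℕ, V (1 / ((i : ℝ) + 1)) := by
    filter_upwards [hae] with x hx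
    rw [Set.mem_iUnion]
    have h1 : ∀ᶠ ε : ℝ in 𝓝[>] 0, ∀ j ∈ Finset.range k, ε * t j < ‖x - b j‖ := by
      rw [Filter.eventually_all_finset]
      intro j hj
      exact TRL_small (t j) _ (norm_pos_iff.2 (sub_ne_zero.2 (hx j hj)))
    have h2 : Tendsto (fun i : ℕ => 1 / ((i : ℝ) + 1)) atTop (𝓝[>] 0) := by
      rw [tendsto_nhdsWithin_iff]
      exact ⟨tendsto_one_div_add_atTop_nhds_zero_nat, Filter.Eventually.of_forall fun i => by
        show (0 : ℝ) < _
        positivity⟩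
    exact (h2.eventually h1).exists
  have hmono : Monotone fun i : ℕ => V (1 / ((i : ℝ) + 1)) := by
    intro i j hij x hx l hl
    refine lt_of_le_of_lt ?_ (hx l hl)
    apply mul_le_mul_of_nonneg_right _ (ht0 l).le
    apply one_div_le_one_div_of_le (by positivity)
    have : (i : ℝ) ≤ j := Nat.cast_le.2 hij
    linarith
  have hfull : ∫⁻ y, (PP n c (phe k b r) y - phe k b r y) =
      ∫⁻ y in ⋃ i : ℕ, V (1 / ((i : ℝ) + 1)), (PP n c (phe k b r) y - phe k b r y) := by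
    rw [← setLIntegral_univ]
    apply setLIntegral_congr
    filter_upwards [hcov] with x hx
    exact propext ⟨fun _ => hx, fun _ => trivial⟩
  rw [hfull, setLIntegral_iUnion_of_directed _ hmono.directed_le]
  exact iSup_le fun i => hall2 _ (by positivity)

end Pool.Agent.MEX
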