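import Pool.Agent.MEX.Basic
import Pool.Agent.PLim.TRI
import Pool.Agent.PLim.TRP

/-!
# MEX, POL: the numerator
-/

set_option autoImplicit false

open Complex Filter Topology Set MeasureTheory
open Pool.Agent.Multibrot (rt push)
open Pool.Agent.Limb (F)
open Pool.Agent.PLim (Cyc Res AA fp fpp Rho LocFix)

namespace Pool.Agent.MEX

namespace POL_

open Polynomial

/-- the numerator -/
noncomputable def pol (k : ℕ) (b r : ℕ → ℂ) : Polynomial ℂ :=
  ∑ j ∈ Finset.range k, (1 + C (r j) * (X - C (b j))) *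
    ∏ i ∈ (Finset.range k).erase j, (X - C (b i)) ^ 2

lemma eval_pol (k : ℕ) (b r : ℕ → ℂ) (x : ℂ) : (pol k b r).eval x =
    ∑ j ∈ Finset.range k, (1 + r j * (x - b j)) *
      ∏ i ∈ (Finset.range k).erase j, (x - b i) ^ 2 := by
  unfold pol
  rw [eval_finsetSum]
  refine Finset.sum_congr rfl fun j _ => ?_
  rw [eval_mul, eval_prod]
  simp

lemma eq_pol (k : ℕ) (b r : ℕ → ℂ) (x : ℂ) (hx : ∀ j, x ≠ b j) :
    AA k b r x * ∏ j ∈ Finset.range k, (x - b j) ^ 2 = (pol k b r).eval x := by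
  rw [eval_pol, AA, Finset.sum_mul]
  refine Finset.sum_congr rfl fun j hj => ?_
  rw [← Finset.mul_prod_erase _ _ hj, ← mul_assoc]
  congr 1
  have h : x - b j ≠ 0 := sub_ne_zero.2 (hx j)
  field_simp

lemma pole_pol {k : ℕ} {b : ℕ → ℂ} (r : ℕ → ℂ) {j : ℕ} (hj : j < k)
    (hd : ∀ i j, i < k → j < k → b i = b j → i = j) : (pol k b r).eval (b j) ≠ 0 := by
  rw [eval_pol, Finset.sum_eq_single_of_mem j (Finset.mem_range.2 hj)]
  · rw [sub_self, mul_zero, add_zero, one_mul, Finset.prod_ne_zero_iff]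
    intro i hi
    rw [Finset.mem_erase, Finset.mem_range] at hi
    refine pow_ne_zero _ (sub_ne_zero.2 fun he => hi.1 ?_)
    exact (hd _ _ hj hi.2 he).symm
  · intro i _ hij
    have h0 : ∏ l ∈ (Finset.range k).erase i, (b j - b l) ^ 2 = 0 := by
      refine Finset.prod_eq_zero (i := j) ?_ (by simp)
      rw [Finset.mem_erase, Finset.mem_range]
      exact ⟨Ne.symm hij, hj⟩
    rw [h0, mul_zero]

/-- `p (1 / u) = (reverse p) (u) / u ^ deg`. -/
lemma eval_inv (p : Polynomial ℂ) {u : ℂ} (hu : u ≠ 0) :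
    p.eval u⁻¹ * u ^ p.natDegree = p.reverse.eval u := by
  let _ : Invertible (u⁻¹) := invertibleOfNonzero (inv_ne_zero hu)
  have h := Polynomial.eval₂_reverse_mul_pow (RingHom.id ℂ) (u⁻¹) p
  rw [invOf_eq_inv, inv_inv] at h
  simp only [Polynomial.eval₂_id] at h
  rw [← h, mul_assoc, ← mul_pow, inv_mul_cancel₀ hu, one_pow, mul_one]

/-- a polynomial bounded by `x ^ (-3)` times a polynomial -/
lemma deg_le {p q : Polynomial ℂ} {K R : ℝ} (hp : p ≠ 0)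
    (h : ∀ x : ℂ, R ≤ ‖x‖ → ‖p.eval x‖ ≤ K * (‖x‖ ^ 3)⁻¹ * ‖q.eval x‖) :
    p.natDegree + 3 ≤ q.natDegree := by
  by_contra hlt
  push Not at hlt
  obtain ⟨e, he⟩ : ∃ e, p.natDegree + 3 = q.natDegree + (e + 1) :=
    ⟨p.natDegree + 3 - q.natDegree - 1, by omega⟩
  have h1 : ∀ᶠ u : ℂ in 𝓝[≠] 0, ‖p.reverse.eval u‖ ≤ K * ‖u‖ ^ (e + 1) * ‖q.reverse.eval u‖ := by
    have h2 : Tendsto (fun u : ℂ => ‖u⁻¹‖) (𝓝[≠] 0) atTop :=
      tendsto_norm_inv_nhdsNE_zero_atTop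
    filter_upwards [h2.eventually_ge_atTop R, self_mem_nhdsWithin] with u hu hu0
    have hu0' : u ≠ 0 := hu0
    have h3 := h u⁻¹ hu
    have hn : 0 < ‖u‖ := norm_pos_iff.2 hu0'
    rw [← eval_inv p hu0', ← eval_inv q hu0', norm_mul, norm_mul, norm_pow, norm_pow]
    calc ‖p.eval u⁻¹‖ * ‖u‖ ^ p.natDegree
        ≤ (K * (‖u⁻¹‖ ^ 3)⁻¹ * ‖q.eval u⁻¹‖) * ‖u‖ ^ p.natDegree :=
          mul_le_mul_of_nonneg_right h3 (by positivity)
      _ = K * (‖u‖ ^ p.natDegree * ‖u‖ ^ 3) * ‖q.eval u⁻¹‖ := by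
          rw [norm_inv, inv_pow, inv_inv]; ring
      _ = K * ‖u‖ ^ (e + 1) * (‖q.eval u⁻¹‖ * ‖u‖ ^ q.natDegree) := by
          rw [← pow_add, he, pow_add]; ring
  have h4 : Tendsto (fun u : ℂ => ‖p.reverse.eval u‖) (𝓝[≠] 0) (𝓝 ‖p.reverse.eval 0‖) :=
    ((p.reverse.continuous.norm).tendsto 0).mono_left nhdsWithin_le_nhds
  have h5 : Tendsto (fun u : ℂ => K * ‖u‖ ^ (e + 1) * ‖q.reverse.eval u‖) (𝓝[≠] 0)
      (𝓝 (K * ‖(0 : ℂ)‖ ^ (e + 1) * ‖q.reverse.eval 0‖)) := by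
    have hc : Continuous fun u : ℂ => K * ‖u‖ ^ (e + 1) * ‖q.reverse.eval u‖ :=
      (continuous_const.mul (continuous_norm.pow _)).mul q.reverse.continuous.norm
    exact (hc.tendsto 0).mono_left nhdsWithin_le_nhds
  have h6 := le_of_tendsto_of_tendsto h4 h5 h1
  rw [norm_zero, zero_pow (Nat.succ_ne_zero e), mul_zero, zero_mul] at h6
  have h7 : p.reverse.eval 0 = 0 := norm_eq_zero.1 (le_antisymm h6 (norm_nonneg _))
  rw [← Polynomial.coeff_zero_eq_eval_zero, Polynomial.coeff_zero_reverse] at h7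
  exact hp (Polynomial.leadingCoeff_eq_zero.1 h7)

lemma natDegree_den (k : ℕ) (b : ℕ → ℂ) :
    (∏ j ∈ Finset.range k, (X - C (b j)) ^ 2 : Polynomial ℂ).natDegree = 2 * k := by
  rw [Polynomial.natDegree_prod_of_monic _ _ fun j _ => (monic_X_sub_C (b j)).pow 2]
  simp [mul_comm]

end POL_

/-- POL: the numerator. -/
theorem p_POL : T_POL := by
  intro n k c b r μ hB
  refine ⟨POL_.pol k b r, ?_⟩
  have hk : 0 < k := hB.cyc.hp
  have hp0 : ∀ j, (POL_.pol k b r).eval (b j) ≠ 0 := by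
    intro j
    rw [cyc_mod hB.cyc j]
    exact POL_.pole_pol r (Nat.mod_lt _ hk) hB.cyc.dist
  have hne : POL_.pol k b r ≠ 0 := by
    intro h0
    refine hp0 0 ?_
    rw [h0, Polynomial.eval_zero]
  refine ⟨hne, ?_, hp0, fun x hx => POL_.eq_pol k b r x hx⟩
  obtain ⟨K, R, hR1, hR⟩ := Pool.Agent.PLim.p_TRI Pool.Agent.PLim.p_TRP n k c b r hB.hn hB.cyc
    hB.res hB.sum
  have hfin : ∃ M : ℝ, ∀ j, ‖b j‖ ≤ M := by
    refine ⟨∑ j ∈ Finset.range k, ‖b j‖, fun j => ?_⟩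
    rw [cyc_mod hB.cyc j]
    exact Finset.single_le_sum (f := fun i => ‖b i‖) (fun i _ => norm_nonneg (b i))
      (Finset.mem_range.2 (Nat.mod_lt _ hk))
  obtain ⟨M, hM⟩ := hfin
  rw [← POL_.natDegree_den k b]
  refine POL_.deg_le (K := K) (R := max R (M + 1)) hne fun x hx => ?_
  have hxb : ∀ j, x ≠ b j := by
    intro j he
    have h1 : M + 1 ≤ ‖x‖ := (le_max_right _ _).trans hx
    rw [he] at h1
    linarith [hM j]
  rw [← POL_.eq_pol k b r x hxb, norm_mul]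
  have h2 : (∏ j ∈ Finset.range k, (Polynomial.X - Polynomial.C (b j)) ^ 2 :
      Polynomial ℂ).eval x = ∏ j ∈ Finset.range k, (x - b j) ^ 2 := by
    rw [Polynomial.eval_prod]
    simp
  rw [h2]
  exact mul_le_mul_of_nonneg_right (hR x ((le_max_left _ _).trans hx)) (norm_nonneg _)

end Pool.Agent.MEX
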