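import Pool.Agent.MEX.Targets

/-!
# MEX: basic lemmas
-/

set_option autoImplicit false

open Complex Filter Topology Set MeasureTheory
open Pool.Agent.Multibrot (rt push)
open Pool.Agent.Limb (F)
open Pool.Agent.PLim (Cyc Res AA fp fpp Rho LocFix)

namespace Pool.Agent.MEX

/-! ### the filter `lf` and left invariant sets -/

lemma eventually_lf {P : ℂ → Prop} : (∀ᶠ ζ in lf, P ζ) ↔ ∃ R : ℝ, ∀ ζ : ℂ, ζ.re < R → P ζ := by
  unfold lf
  rw [eventually_comap]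
  constructor
  · intro h
    obtain ⟨R, hR⟩ := eventually_atBot.1 h
    exact ⟨R, fun ζ hζ => hR ζ.re hζ.le ζ rfl⟩
  · rintro ⟨R, hR⟩
    refine eventually_atBot.2 ⟨R - 1, fun x hx ζ hζ => hR ζ ?_⟩
    rw [hζ]
    linarith

instance lf_neBot : lf.NeBot := by
  unfold lf
  refine Filter.comap_neBot fun t ht => ?_
  obtain ⟨x, hx⟩ := (Filter.nonempty_of_mem ht)
  exact ⟨(x : ℂ), by simpa using hx⟩

lemma LI.mem_lf {W : Set ℂ} (h : LI W) : W ∈ lf := by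
  obtain ⟨R, hR⟩ := h.inf
  exact eventually_lf.2 ⟨R, hR⟩

lemma LI.inter {W W' : Set ℂ} (h : LI W) (h' : LI W') : LI (W ∩ W') where
  op := h.op.inter h'.op
  left := fun ζ hζ s hs => ⟨h.left ζ hζ.1 s hs, h'.left ζ hζ.2 s hs⟩
  inf := by
    obtain ⟨R, hR⟩ := h.inf
    obtain ⟨R', hR'⟩ := h'.inf
    exact ⟨min R R', fun ζ hζ => ⟨hR ζ (hζ.trans_le (min_le_left _ _)),
      hR' ζ (hζ.trans_le (min_le_right _ _))⟩⟩

lemma LI.isPreconnected {W : Set ℂ} (h : LI W) : IsPreconnected W := by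
  obtain ⟨R, hR⟩ := h.inf
  have hH : IsPreconnected {ζ : ℂ | ζ.re < R} := (convex_halfSpace_re_lt R).isPreconnected
  refine isPreconnected_of_forall ((R - 1 : ℝ) : ℂ) fun ζ hζ => ?_
  set S : Set ℂ := (fun s : ℝ => ζ - s) '' Ici 0 with hS
  have hSc : IsPreconnected S := by
    refine isPreconnected_Ici.image _ ?_
    fun_prop
  have hSW : S ⊆ W := by
    rintro _ ⟨s, hs, rfl⟩
    exact h.left ζ hζ s hs
  refine ⟨S ∪ {ζ : ℂ | ζ.re < R}, union_subset hSW (fun ζ hζ => hR ζ hζ), Or.inr ?_,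
    Or.inl ⟨0, mem_Ici.2 le_rfl, by simp⟩, ?_⟩
  · simp
  · refine IsPreconnected.union (ζ - ((max 0 (ζ.re - R) + 1 : ℝ) : ℂ)) ?_ ?_ hSc hH
    · exact ⟨max 0 (ζ.re - R) + 1, by
        have := le_max_left 0 (ζ.re - R)
        show (0 : ℝ) ≤ _
        linarith, rfl⟩
    · show (ζ - ((max 0 (ζ.re - R) + 1 : ℝ) : ℂ)).re < R
      rw [sub_re, ofReal_re]
      have := le_max_right 0 (ζ.re - R)
      linarith

/-! ### the quadratic differential and natural maps -/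

lemma AA_differentiableAt {k : ℕ} {b r : ℕ → ℂ} {x : ℂ} (hx : ∀ j, x ≠ b j) :
    DifferentiableAt ℂ (AA k b r) x := by
  have h : ∀ j, DifferentiableAt ℂ (fun x => ((x - b j) ^ 2)⁻¹ + r j * (x - b j)⁻¹) x := by
    intro j
    have h : x - b j ≠ 0 := sub_ne_zero.2 (hx j)
    have h2 : (x - b j) ^ 2 ≠ 0 := pow_ne_zero _ h
    have h3 : DifferentiableAt ℂ (fun x => x - b j) x := differentiableAt_id.sub_const _
    exact ((h3.pow 2).inv h2).add ((h3.inv h).const_mul _)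
  unfold AA
  exact DifferentiableAt.fun_sum fun j _ => h j

lemma NM.deriv_ne {k : ℕ} {b r : ℕ → ℂ} {U : Set ℂ} {g : ℂ → ℂ} (h : NM k b r U g) {ζ : ℂ}
    (hζ : ζ ∈ U) : deriv g ζ ≠ 0 := by
  intro h0
  have := h.nat ζ hζ
  rw [h0] at this
  simp at this

lemma NM.AA_ne {k : ℕ} {b r : ℕ → ℂ} {U : Set ℂ} {g : ℂ → ℂ} (h : NM k b r U g) {ζ : ℂ}
    (hζ : ζ ∈ U) : AA k b r (g ζ) ≠ 0 := by
  intro h0
  have := h.nat ζ hζ
  rw [h0] at this
  simp at this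

lemma NM.mono {k : ℕ} {b r : ℕ → ℂ} {U U' : Set ℂ} {g : ℂ → ℂ} (h : NM k b r U g)
    (hU : U' ⊆ U) : NM k b r U' g :=
  ⟨h.diff.mono hU, fun ζ hζ => h.avoid ζ (hU hζ), fun ζ hζ => h.nat ζ (hU hζ)⟩

lemma NM.congr {k : ℕ} {b r : ℕ → ℂ} {U : Set ℂ} {g g' : ℂ → ℂ} (h : NM k b r U g)
    (hU : IsOpen U) (he : EqOn g' g U) : NM k b r U g' := by
  refine ⟨h.diff.congr he, fun ζ hζ => by rw [he hζ]; exact h.avoid ζ hζ, fun ζ hζ => ?_⟩
  have : g' =ᶠ[𝓝 ζ] g := he.eventuallyEq_of_mem (hU.mem_nhds hζ)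
  rw [this.deriv_eq, he hζ]
  exact h.nat ζ hζ

/-- translation and reflection -/
lemma NM.comp_add {k : ℕ} {b r : ℕ → ℂ} {U : Set ℂ} {g : ℂ → ℂ} (h : NM k b r U g)
    (hU : IsOpen U) (ζ₀ : ℂ) : NM k b r {w : ℂ | ζ₀ + w ∈ U} (fun w => g (ζ₀ + w)) := by
  refine ⟨?_, fun w hw => h.avoid _ hw, fun w hw => ?_⟩
  · intro w hw
    have h1 : DifferentiableAt ℂ g (ζ₀ + w) := (h.diff _ hw).differentiableAt (hU.mem_nhds hw)
    exact (h1.comp w ((differentiableAt_const ζ₀).add differentiableAt_id)).differentiableWithinAt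
  · have : deriv (fun w => g (ζ₀ + w)) w = deriv g (ζ₀ + w) := by
      have := deriv_comp_const_add (f := g) ζ₀ w
      simpa using this
    rw [this]
    exact h.nat _ hw

lemma NM.comp_sub {k : ℕ} {b r : ℕ → ℂ} {U : Set ℂ} {g : ℂ → ℂ} (h : NM k b r U g)
    (hU : IsOpen U) (ζ₀ : ℂ) : NM k b r {w : ℂ | ζ₀ - w ∈ U} (fun w => g (ζ₀ - w)) := by
  refine ⟨?_, fun w hw => h.avoid _ hw, fun w hw => ?_⟩
  · intro w hw
    have h1 : DifferentiableAt ℂ g (ζ₀ - w) := (h.diff _ hw).differentiableAt (hU.mem_nhds hw)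
    exact (h1.comp w ((differentiableAt_const ζ₀).sub differentiableAt_id)).differentiableWithinAt
  · have : deriv (fun w => g (ζ₀ - w)) w = -deriv g (ζ₀ - w) := by
      have := deriv_comp_const_sub (f := g) ζ₀ w
      simpa using this
    rw [this, neg_sq]
    exact h.nat _ hw

lemma deriv_comp_add' (g : ℂ → ℂ) (ζ₀ w : ℂ) :
    deriv (fun w => g (ζ₀ + w)) w = deriv g (ζ₀ + w) := by
  have := deriv_comp_const_add (f := g) ζ₀ w
  simpa using this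

lemma deriv_comp_sub' (g : ℂ → ℂ) (ζ₀ w : ℂ) :
    deriv (fun w => g (ζ₀ - w)) w = -deriv g (ζ₀ - w) := by
  have := deriv_comp_const_sub (f := g) ζ₀ w
  simpa using this

/-- Two natural maps with the same value have equal or opposite derivatives. -/
lemma NM.deriv_eq_or {k : ℕ} {b r : ℕ → ℂ} {U U' : Set ℂ} {g g' : ℂ → ℂ} (h : NM k b r U g)
    (h' : NM k b r U' g') {ζ ζ' : ℂ} (hζ : ζ ∈ U) (hζ' : ζ' ∈ U') (he : g ζ = g' ζ') :
    deriv g ζ = deriv g' ζ' ∨ deriv g ζ = -deriv g' ζ' := by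
  have h1 := h.nat ζ hζ
  have h2 := h'.nat ζ' hζ'
  rw [← he] at h2
  have h3 : deriv g ζ ^ 2 = deriv g' ζ' ^ 2 :=
    mul_right_cancel₀ (h.AA_ne hζ) (h1.trans h2.symm)
  exact sq_eq_sq_iff_eq_or_eq_neg.1 h3

/-! ### the cycle -/

lemma cyc_iter {n k : ℕ} {c : ℂ} {b : ℕ → ℂ} (h : Cyc n k c b) (m j : ℕ) :
    (F n c)^[m] (b j) = b (j + m) := by
  induction m with
  | zero => simp
  | succ m ih =>
    rw [Function.iterate_succ_apply', ih]
    unfold F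
    rw [← h.step]
    congr 1

lemma cyc_mod {n k : ℕ} {c : ℂ} {b : ℕ → ℂ} (h : Cyc n k c b) (j : ℕ) : b j = b (j % k) := by
  conv_lhs => rw [← Nat.mod_add_div j k]
  generalize j / k = q
  induction q with
  | zero => simp
  | succ q ih =>
    rw [Nat.mul_succ, ← Nat.add_assoc, h.per, ih]

lemma cyc_inj {n k : ℕ} {c : ℂ} {b : ℕ → ℂ} (h : Cyc n k c b) {i j : ℕ} (he : b i = b j) :
    i % k = j % k := by
  have hk : 0 < k := h.hp
  rw [cyc_mod h i, cyc_mod h j] at he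
  exact h.dist _ _ (Nat.mod_lt _ hk) (Nat.mod_lt _ hk) he

/-- no two indices at distance less than `k` -/
lemma cyc_ne {n k : ℕ} {c : ℂ} {b : ℕ → ℂ} (h : Cyc n k c b) {i j : ℕ} (hij : i < j)
    (hjk : j < i + k) : b i ≠ b j := by
  intro he
  have h1 : i ≡ j [MOD k] := cyc_inj h he
  have h2 : k ∣ j - i := (Nat.modEq_iff_dvd' hij.le).1 h1
  have h3 := Nat.le_of_dvd (by omega) h2
  omega

lemma F_hasDerivAt (n : ℕ) (c x : ℂ) : HasDerivAt (F n c) (fp n x) x := by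
  unfold F fp
  exact (hasDerivAt_pow n x).add_const c

lemma iter_hasDerivAt (n : ℕ) (c : ℂ) (m : ℕ) (x : ℂ) :
    HasDerivAt (F n c)^[m] (∏ i ∈ Finset.range m, fp n ((F n c)^[i] x)) x := by
  induction m with
  | zero => simpa using hasDerivAt_id x
  | succ m ih =>
    rw [Function.iterate_succ', Finset.prod_range_succ, mul_comm]
    exact (F_hasDerivAt n c _).comp x ih

lemma Rho_eq (n : ℕ) (c : ℂ) (m : ℕ) (x : ℂ) :
    Rho n m c x = ∏ i ∈ Finset.range m, fp n ((F n c)^[i] x) := (iter_hasDerivAt n c m x).deriv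

lemma Rho_succ (n : ℕ) (c : ℂ) (m : ℕ) (x : ℂ) :
    Rho n (m + 1) c x = Rho n m c x * fp n ((F n c)^[m] x) := by
  rw [Rho_eq, Rho_eq, Finset.prod_range_succ]

/-- the derivative of a sheet -/
lemma sheet_deriv {n m : ℕ} {c : ℂ} {W : Set ℂ} {G g : ℂ → ℂ} (hW : IsOpen W)
    (hG : DifferentiableOn ℂ G W) (hs : ∀ ζ ∈ W, (F n c)^[m] (G ζ) = g ζ) {ζ : ℂ} (hζ : ζ ∈ W) :
    Rho n m c (G ζ) * deriv G ζ = deriv g ζ := by
  have h1 : HasDerivAt G (deriv G ζ) ζ :=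
    ((hG ζ hζ).differentiableAt (hW.mem_nhds hζ)).hasDerivAt
  have h2 := (iter_hasDerivAt n c m (G ζ)).comp ζ h1
  rw [← Rho_eq] at h2
  have h3 : g =ᶠ[𝓝 ζ] (F n c)^[m] ∘ G := by
    filter_upwards [hW.mem_nhds hζ] with x hx
    exact (hs x hx).symm
  rw [h3.deriv_eq, h2.deriv]

/-- a sheet avoids the cycle -/
lemma sheet_avoid {n k m : ℕ} {c : ℂ} {b : ℕ → ℂ} (h : Cyc n k c b) {x y : ℂ}
    (hs : (F n c)^[m] x = y) (hy : ∀ j, y ≠ b j) (j : ℕ) : x ≠ b j := by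
  intro he
  rw [he, cyc_iter h] at hs
  exact hy _ hs.symm

/-! ### the depth -/

lemma et_sub (h : ℝ) (a : ℝ → ℝ) (ζ : ℂ) (s : ℝ) : et h a (ζ - s) = et h a ζ + s := by
  unfold et
  simp
  ring

lemma et_per {h : ℝ} {a : ℝ → ℝ} (ha : ∀ x : ℝ, a (x + 2 * Real.pi) = a x) (ζ : ℂ) :
    et h a (ζ + 2 * Real.pi * I) = et h a ζ := by
  unfold et
  simp [ha]

lemma et_lip {h : ℝ} {a : ℝ → ℝ} (ha : ∀ x y : ℝ, |a x - a y| ≤ |x - y|) (z w : ℂ) :
    |et h a z - et h a w| ≤ |z.re - w.re| + |z.im - w.im| := by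
  unfold et
  have h1 : h + a z.im - z.re - (h + a w.im - w.re) = (a z.im - a w.im) - (z.re - w.re) := by ring
  rw [h1]
  refine (abs_sub _ _).trans ?_
  linarith [ha z.im w.im]

lemma et_lip' {h : ℝ} {a : ℝ → ℝ} (ha : ∀ x y : ℝ, |a x - a y| ≤ |x - y|) (z w : ℂ) :
    |et h a z - et h a w| ≤ √2 * ‖z - w‖ := by
  refine (et_lip ha z w).trans ?_
  have h1 : |(z - w).re| + |(z - w).im| ≤ √2 * ‖z - w‖ := by
    have h2 : ‖z - w‖ ^ 2 = (z - w).re ^ 2 + (z - w).im ^ 2 := by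
      rw [← normSq_eq_norm_sq, normSq_apply]
      ring
    have h3 : (|(z - w).re| + |(z - w).im|) ^ 2 ≤ (√2 * ‖z - w‖) ^ 2 := by
      rw [mul_pow, Real.sq_sqrt (by norm_num), h2]
      nlinarith [sq_nonneg (|(z - w).re| - |(z - w).im|), sq_abs (z - w).re, sq_abs (z - w).im]
    exact le_of_sq_le_sq h3 (by positivity)
  simpa using h1
where
  le_of_sq_le_sq {x y : ℝ} (h : x ^ 2 ≤ y ^ 2) (hy : 0 ≤ y) : x ≤ y := by
    nlinarith [abs_le_of_sq_le_sq' h hy]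

lemma et_continuous {h : ℝ} {a : ℝ → ℝ} (ha : ∀ x y : ℝ, |a x - a y| ≤ |x - y|) :
    Continuous (et h a) := by
  rw [continuous_iff_continuousAt]
  intro z
  rw [ContinuousAt, tendsto_iff_norm_sub_tendsto_zero]
  refine squeeze_zero (fun _ => norm_nonneg _) (fun w => et_lip' ha w z) ?_
  have h1 : Continuous (fun w : ℂ => √2 * ‖w - z‖) := by fun_prop
  have h2 := h1.tendsto z
  simpa using h2

/-- balls in the region -/
lemma et_ball {h : ℝ} {a : ℝ → ℝ} (ha : ∀ x y : ℝ, |a x - a y| ≤ |x - y|) {z w : ℂ} {ρ lam : ℝ}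
    (hw : w ∈ Metric.ball z ρ) (hz : lam + √2 * ρ ≤ et h a z) : lam < et h a w := by
  rw [Metric.mem_ball, dist_eq_norm] at hw
  have h1 := (abs_le.1 (et_lip' (h := h) ha w z)).1
  have h2 : √2 * ‖w - z‖ < √2 * ρ := mul_lt_mul_of_pos_left hw (by positivity)
  linarith

lemma et_LI {h : ℝ} {a : ℝ → ℝ} (ha : ∀ x y : ℝ, |a x - a y| ≤ |x - y|) (h0 : ∀ x, 0 ≤ a x)
    (lam : ℝ) : LI {ζ : ℂ | lam < et h a ζ} where
  op := isOpen_lt continuous_const (et_continuous ha)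
  left := fun ζ hζ s hs => by
    have hζ' : lam < et h a ζ := hζ
    show lam < et h a (ζ - s)
    rw [et_sub]
    linarith
  inf := ⟨h - lam, fun ζ hζ => by
    show lam < et h a ζ
    unfold et
    linarith [h0 ζ.im]⟩

lemma et_le {h : ℝ} {a : ℝ → ℝ} (h1 : ∀ x, a x ≤ 1 / 2) (ζ : ℂ) :
    ζ.re ≤ h + 1 / 2 - et h a ζ := by
  unfold et
  linarith [h1 ζ.im]

lemma le_et {h : ℝ} {a : ℝ → ℝ} (h0 : ∀ x, 0 ≤ a x) (ζ : ℂ) : h - ζ.re ≤ et h a ζ := by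
  unfold et
  linarith [h0 ζ.im]

/-! ### levels -/

section

variable {n k : ℕ} {c : ℂ} {b r : ℕ → ℂ} {μ : ℂ} {V : ℕ → Set ℂ} {χ : ℕ → ℂ → ℂ} {J : ℕ}
  {D : ℂ → ENNReal} {d h : ℝ} {a : ℝ → ℝ} {m : ℕ} {lam : ℝ} {G : ℂ → ℂ}

lemma Rnd.li (hR : Rnd n k c b r μ V χ J D d h a) (lam : ℝ) : LI {ζ : ℂ | lam < et h a ζ} :=
  et_LI hR.lip hR.a0 lam

lemma Rnd.nm (hR : Rnd n k c b r μ V χ J D d h a) {lam : ℝ} (hl : 0 ≤ lam) :
    NM k b r {ζ : ℂ | lam < et h a ζ} (χ J) :=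
  (hR.mx.cht J).nm.mono fun ζ hζ => hR.sub ζ (lt_of_le_of_lt hl hζ)

lemma Lvl.avoid (hG : Lvl n k c b r χ J h a m lam G) (hR : Rnd n k c b r μ V χ J D d h a) {ζ : ℂ}
    (hζ : lam < et h a ζ) (j : ℕ) : G ζ ≠ b j :=
  sheet_avoid hR.bad.cyc (hG.sht ζ hζ) ((hR.nm hG.hl).avoid ζ hζ) j

lemma Lam_diff {k : ℕ} {b r : ℕ → ℂ} {W : Set ℂ} {G : ℂ → ℂ} (hW : IsOpen W)
    (hG : DifferentiableOn ℂ G W) (hb : ∀ ζ ∈ W, ∀ j, G ζ ≠ b j) :
    DifferentiableOn ℂ (Lam k b r G) W := by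
  intro ζ hζ
  unfold Lam
  have h1 : DifferentiableAt ℂ (fun ζ => AA k b r (G ζ)) ζ :=
    (AA_differentiableAt (hb ζ hζ)).comp ζ ((hG ζ hζ).differentiableAt (hW.mem_nhds hζ))
  have h2 : DifferentiableAt ℂ (deriv G) ζ :=
    ((hG.deriv hW) ζ hζ).differentiableAt (hW.mem_nhds hζ)
  exact (h1.mul (h2.pow 2)).differentiableWithinAt

lemma Lvl.lam_diff (hG : Lvl n k c b r χ J h a m lam G)
    (hR : Rnd n k c b r μ V χ J D d h a) :
    DifferentiableOn ℂ (Lam k b r G) {ζ : ℂ | lam < et h a ζ} :=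
  Lam_diff (hR.li lam).op hG.diff fun _ hζ j => hG.avoid hR hζ j

lemma Lvl.wt (hG : Lvl n k c b r χ J h a m lam G) (hR : Rnd n k c b r μ V χ J D d h a) :
    ∀ᵐ ζ : ℂ, lam < et h a ζ →
      ENNReal.ofReal (‖1 - Lam k b r G ζ‖ + ‖Lam k b r G ζ‖) ≤ 1 + D ζ :=
  hR.wt m _ G hG.hk (hR.li lam).op (fun ζ hζ => hR.sub ζ (lt_of_le_of_lt hG.hl hζ)) hG.diff
    fun ζ hζ => hG.sht ζ hζ

lemma Small.mono {C C' d t : ℝ} (h : Small C' d t) (hC : 1 ≤ C) (hCC : C ≤ C') : Small C d t where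
  hC := hC
  hd := h.hd
  hd1 := h.hd1
  ht := h.ht
  ht1 := h.ht1
  hdt := by
    refine le_trans ?_ h.hdt
    have h1 : 0 ≤ 1 + Real.log (1 / d) := by
      have : 0 ≤ Real.log (1 / d) := Real.log_nonneg (by
        rw [le_div_iff₀ h.hd]
        linarith [h.hd1])
      linarith
    have h2 : C * √d ≤ C' * √d := mul_le_mul_of_nonneg_right hCC (Real.sqrt_nonneg _)
    exact mul_le_mul_of_nonneg_right h2 h1

lemma Small.sqrt {C d t : ℝ} (h : Small C d t) : C * √d ≤ t := by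
  refine le_trans ?_ h.hdt
  have h1 : 0 ≤ Real.log (1 / d) := Real.log_nonneg (by
    rw [le_div_iff₀ h.hd]
    linarith [h.hd1])
  have h2 : 0 ≤ C * √d := mul_nonneg (by linarith [h.hC]) (Real.sqrt_nonneg _)
  nlinarith

lemma Small.sq {C d t : ℝ} (h : Small C d t) : C ^ 2 * d ≤ t ^ 2 := by
  have h1 := h.sqrt
  have h2 : 0 ≤ C * √d := mul_nonneg (by linarith [h.hC]) (Real.sqrt_nonneg _)
  have h3 := pow_le_pow_left₀ h2 h1 2
  rwa [mul_pow, Real.sq_sqrt h.hd.le] at h3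

end

end Pool.Agent.MEX
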