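import Pool.Agent.MEX.Defs

/-!
# MEX: targets (see Blueprint.lean.txt for the proofs)
-/

set_option autoImplicit false

open Complex Filter Topology Set MeasureTheory
open Pool.Agent.Multibrot (rt push)
open Pool.Agent.Limb (F)
open Pool.Agent.PLim (Cyc Res AA fp fpp Rho LocFix)

namespace Pool.Agent.MEX

/-! ### A. natural maps of a quadratic differential -/

/-- UNQ: uniqueness of natural maps. -/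
def T_UNQ : Prop := ∀ (k : ℕ) (b r : ℕ → ℂ) (U : Set ℂ) (g₁ g₂ : ℂ → ℂ) (ζ₀ : ℂ), IsOpen U →
  IsPreconnected U → NM k b r U g₁ → NM k b r U g₂ → ζ₀ ∈ U → g₁ ζ₀ = g₂ ζ₀ →
  deriv g₁ ζ₀ = deriv g₂ ζ₀ → EqOn g₁ g₂ U

/-- LOCN: local existence of natural maps, with locally uniform radius. -/
def T_LOCN : Prop := ∀ (k : ℕ) (b r : ℕ → ℂ) (x₀ : ℂ), (∀ j, b (j + k) = b j) →
  (∀ j, x₀ ≠ b j) → AA k b r x₀ ≠ 0 →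
  ∃ ρ ε : ℝ, 0 < ρ ∧ 0 < ε ∧ ∀ x ∈ Metric.ball x₀ ε, ∀ v : ℂ, v ^ 2 * AA k b r x = 1 →
    ∃ g : ℂ → ℂ, NM k b r (Metric.ball 0 ρ) g ∧ g 0 = x ∧ deriv g 0 = v

/-- OPP (from UNQ): a natural map on a convex set does not take a value with opposite
derivatives. -/
def T_OPP : Prop := ∀ (k : ℕ) (b r : ℕ → ℂ) (U : Set ℂ) (g : ℂ → ℂ) (ζ₁ ζ₂ : ℂ), IsOpen U →
  Convex ℝ U → NM k b r U g → ζ₁ ∈ U → ζ₂ ∈ U → g ζ₁ = g ζ₂ → deriv g ζ₁ = -deriv g ζ₂ → False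

/-- LIFT: curves of small length lift to natural discs. -/
def T_LIFT : Prop := ∀ (k : ℕ) (b r : ℕ → ℂ) (ζ₀ : ℂ) (R T : ℝ) (g : ℂ → ℂ) (γ γ' : ℝ → ℂ),
  0 < R → NM k b r (Metric.ball ζ₀ R) g → 0 ≤ T → (∀ s ∈ Icc 0 T, HasDerivAt γ (γ' s) s) →
  ContinuousOn γ' (Icc 0 T) → γ 0 = g ζ₀ → (∀ s ∈ Icc 0 T, ∀ j, γ s ≠ b j) →
  ∫ s in (0 : ℝ)..T, ‖γ' s‖ * √‖AA k b r (γ s)‖ < R →
  ∃ ξ : ℂ, ‖ξ - ζ₀‖ ≤ ∫ s in (0 : ℝ)..T, ‖γ' s‖ * √‖AA k b r (γ s)‖ ∧ g ξ = γ T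

/-- POL: the numerator. -/
def T_POL : Prop := ∀ (n k : ℕ) (c : ℂ) (b r : ℕ → ℂ) (μ : ℂ), Bad n k c b r μ →
  ∃ P : Polynomial ℂ, Num k b r P

/-- NOE (from POL, LIFT): there is no natural map on the whole plane. -/
def T_NOE : Prop := ∀ (n k : ℕ) (c : ℂ) (b r : ℕ → ℂ) (μ : ℂ) (g : ℂ → ℂ), Bad n k c b r μ →
  NM k b r univ g → False

/-- CYE: charts at the poles exist. -/
def T_CYE : Prop := ∀ (n k : ℕ) (c : ℂ) (b r : ℕ → ℂ) (μ : ℂ) (j : ℕ), Bad n k c b r μ →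
  ∃ (R : ℝ) (g : ℂ → ℂ), Cht k b r j {ζ : ℂ | ζ.re < R} g

/-- CYU (from UNQ): charts at the poles are unique. -/
def T_CYU : Prop := ∀ (n k : ℕ) (c : ℂ) (b r : ℕ → ℂ) (μ : ℂ) (j : ℕ) (W₁ W₂ : Set ℂ)
  (g₁ g₂ : ℂ → ℂ), Bad n k c b r μ → Cht k b r j W₁ g₁ → Cht k b r j W₂ g₂ →
  EqOn g₁ g₂ (W₁ ∩ W₂)

/-- MAX (from CYE, CYU): the maximal charts. -/
def T_MAX : Prop := ∀ (n k : ℕ) (c : ℂ) (b r : ℕ → ℂ) (μ : ℂ), Bad n k c b r μ →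
  ∃ (V : ℕ → Set ℂ) (χ : ℕ → ℂ → ℂ), MaxC k b r V χ

/-- SAM (from UNQ): two charts with the same value and derivative. -/
def T_SAM : Prop := ∀ (n k : ℕ) (c : ℂ) (b r : ℕ → ℂ) (μ : ℂ) (V : ℕ → Set ℂ) (χ : ℕ → ℂ → ℂ)
  (i j : ℕ) (ζ ξ : ℂ), Bad n k c b r μ → MaxC k b r V χ → ζ ∈ V i → ξ ∈ V j →
  χ i ζ = χ j ξ → deriv (χ i) ζ = deriv (χ j) ξ →
  b i = b j ∧ ∃ m : ℤ, ζ - ξ = m * (2 * Real.pi * I)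

/-- HJ (from NOE): the largest half plane in the domain of a chart. -/
def T_HJ : Prop := ∀ (n k : ℕ) (c : ℂ) (b r : ℕ → ℂ) (μ : ℂ) (V : ℕ → Set ℂ) (χ : ℕ → ℂ → ℂ)
  (j : ℕ), Bad n k c b r μ → MaxC k b r V χ →
  ∃ h : ℝ, (∀ ζ : ℂ, ζ.re < h → ζ ∈ V j) ∧ ∃ y : ℝ, (h : ℂ) + y * I ∉ V j

/-- ENL (from LOCN, UNQ): a horizontal ray which leaves the domain of the chart ends at a zero or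
at infinity. -/
def T_ENL : Prop := ∀ (n k : ℕ) (c : ℂ) (b r : ℕ → ℂ) (μ : ℂ) (V : ℕ → Set ℂ) (χ : ℕ → ℂ → ℂ)
  (P : Polynomial ℂ) (j : ℕ) (y A : ℝ), Bad n k c b r μ → MaxC k b r V χ → Num k b r P →
  (∀ x : ℝ, x < A → (x : ℂ) + y * I ∈ V j) → (A : ℂ) + y * I ∉ V j →
  (∃ w : ℂ, P.IsRoot w ∧ Tendsto (fun x : ℝ => χ j (x + y * I)) (𝓝[<] A) (𝓝 w)) ∨
    Tendsto (fun x : ℝ => χ j (x + y * I)) (𝓝[<] A) (cocompact ℂ)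

/-- LQZ: the square of the natural coordinate at a zero. -/
def T_LQZ : Prop := ∀ (n k : ℕ) (c : ℂ) (b r : ℕ → ℂ) (μ : ℂ) (P : Polynomial ℂ) (w : ℂ),
  Bad n k c b r μ → Num k b r P → P.IsRoot w →
  ∃ (ρ : ℝ) (Q : ℂ → ℂ), 0 < ρ ∧ (∀ x ∈ Metric.ball w ρ, ∀ j, x ≠ b j) ∧
    DifferentiableOn ℂ Q (Metric.ball w ρ) ∧ Q w = 0 ∧
    (∀ x ∈ Metric.ball w ρ, x ≠ w → Q x ≠ 0) ∧
    (∀ x ∈ Metric.ball w ρ, deriv Q x ^ 2 = 4 * Q x * AA k b r x) ∧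
    ∀ (a : ℂ) (S : Finset ℂ), (∀ x ∈ S, x ∈ Metric.ball w ρ ∧ Q x = a) →
      S.card ≤ P.rootMultiplicity w + 2

/-- LQI: the square of the natural coordinate at infinity. -/
def T_LQI : Prop := ∀ (n k : ℕ) (c : ℂ) (b r : ℕ → ℂ) (μ : ℂ) (P : Polynomial ℂ),
  Bad n k c b r μ → Num k b r P →
  ∃ (ρ : ℝ) (Q : ℂ → ℂ), 0 < ρ ∧ (∀ x : ℂ, ρ < ‖x‖ → ∀ j, x ≠ b j) ∧
    DifferentiableOn ℂ Q {x : ℂ | ρ < ‖x‖} ∧ Tendsto Q (cocompact ℂ) (𝓝 0) ∧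
    (∀ x : ℂ, ρ < ‖x‖ → Q x ≠ 0) ∧
    (∀ x : ℂ, ρ < ‖x‖ → deriv Q x ^ 2 = 4 * Q x * AA k b r x) ∧
    ∀ (a : ℂ) (S : Finset ℂ), (∀ x ∈ S, ρ < ‖x‖ ∧ Q x = a) →
      S.card + P.natDegree + 2 ≤ 2 * k

/-- EQE: the square of the natural coordinate along a ray which ends. -/
def T_EQE : Prop := ∀ (k : ℕ) (b r : ℕ → ℂ) (O V : Set ℂ) (Q g : ℂ → ℂ) (y A A' : ℝ), IsOpen O →
  (∀ x ∈ O, ∀ j, x ≠ b j) → DifferentiableOn ℂ Q O → (∀ x ∈ O, Q x ≠ 0) →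
  (∀ x ∈ O, deriv Q x ^ 2 = 4 * Q x * AA k b r x) → IsOpen V → NM k b r V g → A' < A →
  (∀ x ∈ Ioo A' A, (x : ℂ) + y * I ∈ V ∧ g (x + y * I) ∈ O) →
  Tendsto (fun x : ℝ => Q (g (x + y * I))) (𝓝[<] A) (𝓝 0) →
  ∀ x ∈ Ioo A' A, Q (g (x + y * I)) = (x - A) ^ 2 ∧
    deriv Q (g (x + y * I)) * deriv g (x + y * I) = 2 * (x - A)

/-- ECT (from EQE, SAM): the number of rays which end in a given region. -/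
def T_ECT : Prop := ∀ (n k : ℕ) (c : ℂ) (b r : ℕ → ℂ) (μ : ℂ) (V : ℕ → Set ℂ) (χ : ℕ → ℂ → ℂ)
  (O : Set ℂ) (Q : ℂ → ℂ) (N : ℕ) (S : Finset (ℕ × ℝ)) (A : ℕ × ℝ → ℝ), Bad n k c b r μ →
  MaxC k b r V χ → IsOpen O → (∀ x ∈ O, ∀ j, x ≠ b j) → DifferentiableOn ℂ Q O →
  (∀ x ∈ O, Q x ≠ 0) → (∀ x ∈ O, deriv Q x ^ 2 = 4 * Q x * AA k b r x) →
  (∀ (a : ℂ) (T : Finset ℂ), (∀ x ∈ T, x ∈ O ∧ Q x = a) → T.card ≤ N) →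
  (∀ p ∈ S, p.1 < k ∧ 0 ≤ p.2 ∧ p.2 < 2 * Real.pi ∧
    (∀ x : ℝ, x < A p → (x : ℂ) + p.2 * I ∈ V p.1) ∧
    (∀ᶠ x : ℝ in 𝓝[<] (A p), χ p.1 (x + p.2 * I) ∈ O) ∧
    Tendsto (fun x : ℝ => Q (χ p.1 (x + p.2 * I))) (𝓝[<] (A p)) (𝓝 0)) → S.card ≤ N

/-- CNT (from POL, HJ, ENL, LQZ, LQI, ECT): the number of blocked heights. -/
def T_CNT : Prop := ∀ (n k : ℕ) (c : ℂ) (b r : ℕ → ℂ) (μ : ℂ) (V : ℕ → Set ℂ) (χ : ℕ → ℂ → ℂ)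
  (S : Finset (ℕ × ℝ)), Bad n k c b r μ → MaxC k b r V χ →
  (∀ p ∈ S, p.1 < k ∧ 0 ≤ p.2 ∧ p.2 < 2 * Real.pi ∧ ∃ x : ℝ, (x : ℂ) + p.2 * I ∉ V p.1) →
  S.card + 8 ≤ 6 * k

/-- GAP: six points on the circle leave a gap. -/
def T_GAP : Prop := ∀ B : Set ℝ, (∀ y : ℝ, y + 2 * Real.pi ∈ B ↔ y ∈ B) →
  (∀ S : Finset ℝ, (∀ y ∈ S, y ∈ B ∧ 0 ≤ y ∧ y < 2 * Real.pi) → S.card ≤ 6) →
  ∃ θ : ℝ, ∀ y ∈ B, 1 / 2 ≤ |y - θ|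

/-- TNP: properties of the tent function. -/
def T_TNP : Prop := ∀ θ : ℝ, (∀ x y : ℝ, |tnt θ x - tnt θ y| ≤ |x - y|) ∧
  (∀ x : ℝ, tnt θ (x + 2 * Real.pi) = tnt θ x) ∧ (∀ x : ℝ, 0 ≤ tnt θ x) ∧
  (∀ x : ℝ, tnt θ x ≤ 1 / 2) ∧
  ∀ x : ℝ, 0 < tnt θ x → ∃ m : ℤ, |x + 2 * Real.pi * m - θ| < 1 / 2

/-- TENT (from HJ, GAP, TNP): a half plane with a tent in the domain of the chart. -/
def T_TENT : Prop := ∀ (n k : ℕ) (c : ℂ) (b r : ℕ → ℂ) (μ : ℂ) (V : ℕ → Set ℂ) (χ : ℕ → ℂ → ℂ)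
  (j : ℕ), Bad n k c b r μ → MaxC k b r V χ →
  (∀ S : Finset ℝ, (∀ y ∈ S, 0 ≤ y ∧ y < 2 * Real.pi ∧ ∃ x : ℝ, (x : ℂ) + y * I ∉ V j) →
    S.card ≤ 6) →
  ∃ h θ : ℝ, (∀ ζ : ℂ, 0 < et h (tnt θ) ζ → ζ ∈ V j) ∧ ∃ y : ℝ, (h : ℂ) + y * I ∉ V j

/-! ### B. the transfer operator and the mass defect -/

/-- PPM: the transfer operator preserves measurability and does not increase the mass. -/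
def T_PPM : Prop := ∀ (n : ℕ) (c : ℂ) (g : ℂ → ENNReal), 2 ≤ n → Measurable g →
  Measurable (PP n c g) ∧ ∫⁻ y, PP n c g y ≤ ∫⁻ x, g x

/-- WTP: the triangle inequality with one distinguished preimage. -/
def T_WTP : Prop := ∀ (n k : ℕ) (c : ℂ) (b r : ℕ → ℂ) (μ : ℂ) (m : ℕ) (x : ℂ), Bad n k c b r μ →
  (∀ j, (F n c)^[m] x ≠ b j) → (∀ i < m, (F n c)^[i] c ≠ (F n c)^[m] x) →
  ‖AA k b r ((F n c)^[m] x) - AA k b r x / Rho n m c x ^ 2‖ₑ + ‖AA k b r x / Rho n m c x ^ 2‖ₑ ≤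
    (PP n c)^[m] (phe k b r) ((F n c)^[m] x)

/-- WTQ (from WTP): the triangle inequality with two distinguished preimages. -/
def T_WTQ : Prop := ∀ (n k : ℕ) (c : ℂ) (b r : ℕ → ℂ) (μ : ℂ) (m : ℕ) (x x' : ℂ),
  Bad n k c b r μ → x ≠ x' → (F n c)^[m] x = (F n c)^[m] x' →
  (∀ j, (F n c)^[m] x ≠ b j) → (∀ i < m, (F n c)^[i] c ≠ (F n c)^[m] x) →
  ‖AA k b r x / Rho n m c x ^ 2‖ₑ + ‖AA k b r x' / Rho n m c x' ^ 2‖ₑ ≤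
    (PP n c)^[m] (phe k b r) ((F n c)^[m] x)

/-- MON: monotonicity in the number of steps. -/
def T_MON : Prop := ∀ (n k : ℕ) (c : ℂ) (b r : ℕ → ℂ) (μ : ℂ) (m m' : ℕ) (y : ℂ),
  Bad n k c b r μ → m ≤ m' → (∀ j, y ≠ b j) → (∀ i < m', (F n c)^[i] c ≠ y) →
  (PP n c)^[m] (phe k b r) y ≤ (PP n c)^[m'] (phe k b r) y

/-- DEF: the mass defect of one step. -/
def T_DEF : Prop := ∀ (n k : ℕ) (c : ℂ) (b r : ℕ → ℂ) (μ : ℂ), Bad n k c b r μ → 0 ≤ μ.re →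
  ∫⁻ y, (PP n c (phe k b r) y - phe k b r y) ≤ ENNReal.ofReal (2 * Real.pi * μ.re)

/-- DEM (from DEF, PPM): the mass defect of several steps. -/
def T_DEM : Prop := ∀ (n k : ℕ) (c : ℂ) (b r : ℕ → ℂ) (μ : ℂ) (m : ℕ), Bad n k c b r μ →
  0 ≤ μ.re → ∫⁻ y, ((PP n c)^[m] (phe k b r) y - phe k b r y) ≤
    ENNReal.ofReal (2 * Real.pi * m * μ.re)

/-- AR2: the area formula with multiplicity. -/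
def T_AR2 : Prop := ∀ (k M : ℕ) (V E : ℕ → Set ℂ) (g : ℕ → ℂ → ℂ) (w : ℂ → ENNReal),
  (∀ j < k, IsOpen (V j) ∧ MeasurableSet (E j) ∧ E j ⊆ V j ∧ DifferentiableOn ℂ (g j) (V j) ∧
    ∀ ζ ∈ V j, deriv (g j) ζ ≠ 0) → Measurable w →
  (∀ (x : ℂ) (S : Finset (ℕ × ℂ)), (∀ p ∈ S, p.1 < k ∧ p.2 ∈ E p.1 ∧ g p.1 p.2 = x) →
    S.card ≤ M) →
  ∑ j ∈ Finset.range k, ∫⁻ ζ in E j, ‖deriv (g j) ζ‖ₑ ^ 2 * w (g j ζ) ≤ M * ∫⁻ x, w x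

/-- MASS (from DEM, AR2, SAM, PPM): the total mass defect of the charts. -/
def T_MASS : Prop := ∀ (n k : ℕ) (c : ℂ) (b r : ℕ → ℂ) (μ : ℂ) (V : ℕ → Set ℂ)
  (χ : ℕ → ℂ → ℂ), Bad n k c b r μ → MaxC k b r V χ → 0 ≤ μ.re →
  ∑ j ∈ Finset.range k, ∫⁻ ζ in {ζ : ℂ | 0 ≤ ζ.im ∧ ζ.im < 2 * Real.pi},
    Dfc n k c b r V χ j ζ ≤ ENNReal.ofReal (4 * Real.pi * k * μ.re)

/-- NUL: fibres of locally injective maps are null sets. -/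
def T_NUL : Prop := ∀ (V : Set ℂ) (g : ℂ → ℂ) (S : Set ℂ), IsOpen V → DifferentiableOn ℂ g V →
  (∀ ζ ∈ V, deriv g ζ ≠ 0) → S.Countable → ∀ᵐ ζ : ℂ, ζ ∈ V → g ζ ∉ S

/-- WTC (from WTP, MON, NUL): the triangle inequality in the charts. -/
def T_WTC : Prop := ∀ (n k : ℕ) (c : ℂ) (b r : ℕ → ℂ) (μ : ℂ) (V : ℕ → Set ℂ) (χ : ℕ → ℂ → ℂ)
  (J m : ℕ) (W : Set ℂ) (G : ℂ → ℂ), Bad n k c b r μ → MaxC k b r V χ → m ≤ k → IsOpen W →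
  W ⊆ V J → DifferentiableOn ℂ G W → (∀ ζ ∈ W, (F n c)^[m] (G ζ) = χ J ζ) →
  ∀ᵐ ζ : ℂ, ζ ∈ W → ENNReal.ofReal (‖1 - Lam k b r G ζ‖ + ‖Lam k b r G ζ‖) ≤
    1 + Dfc n k c b r V χ J ζ

/-- WTD (from WTQ, MON, NUL): the triangle inequality in the charts, for two sheets. -/
def T_WTD : Prop := ∀ (n k : ℕ) (c : ℂ) (b r : ℕ → ℂ) (μ : ℂ) (V : ℕ → Set ℂ) (χ : ℕ → ℂ → ℂ)
  (J m : ℕ) (W : Set ℂ) (G G' : ℂ → ℂ), Bad n k c b r μ → MaxC k b r V χ → m ≤ k → IsOpen W →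
  W ⊆ V J → DifferentiableOn ℂ G W → DifferentiableOn ℂ G' W →
  (∀ ζ ∈ W, (F n c)^[m] (G ζ) = χ J ζ) → (∀ ζ ∈ W, (F n c)^[m] (G' ζ) = χ J ζ) →
  (∀ ζ ∈ W, G ζ ≠ G' ζ) →
  ∀ᵐ ζ : ℂ, ζ ∈ W → ENNReal.ofReal (‖Lam k b r G ζ‖ + ‖Lam k b r G' ζ‖) ≤
    1 + Dfc n k c b r V χ J ζ

/-- DDM: measurability and periodicity of the mass defect. -/
def T_DDM : Prop := ∀ (n k : ℕ) (c : ℂ) (b r : ℕ → ℂ) (μ : ℂ) (V : ℕ → Set ℂ) (χ : ℕ → ℂ → ℂ)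
  (J : ℕ), Bad n k c b r μ → MaxC k b r V χ → Measurable (Dfc n k c b r V χ J) ∧
  ∀ ζ, Dfc n k c b r V χ J (ζ + 2 * Real.pi * I) = Dfc n k c b r V χ J ζ

/-- PICK (from CNT, MASS, WTC, WTD, DDM, TENT): a good chart. -/
def T_PICK : Prop := ∀ (n k : ℕ) (c : ℂ) (b r : ℕ → ℂ) (μ : ℂ) (V : ℕ → Set ℂ)
  (χ : ℕ → ℂ → ℂ), Bad n k c b r μ → MaxC k b r V χ → 0 < μ.re →
  ∃ (J : ℕ) (D : ℂ → ENNReal) (h θ : ℝ), Bas n k c b r μ V χ J D (32 * Real.pi * μ.re) ∧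
    (∀ ζ : ℂ, 0 < et h (tnt θ) ζ → ζ ∈ V J) ∧ ∃ y : ℝ, (h : ℂ) + y * I ∉ V J

/-! ### C. analysis on one chart -/

/-- RMV: mean values with radial weights. -/
def T_RMV : Prop := ∀ (a : ℂ) (R s : ℝ) (X : ℂ → ℂ) (w : ℝ → ℝ), 0 < s → s < R →
  DifferentiableOn ℂ X (Metric.ball a R) → Continuous w →
  ∫ z in Metric.ball a s, ((w ‖z - a‖ : ℝ) : ℂ) * X z =
    ((∫ z in Metric.ball a s, w ‖z - a‖ : ℝ) : ℂ) * X a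

/-- MVL (from RMV): the sub-mean value property of the modulus. -/
def T_MVL : Prop := ∀ (a : ℂ) (s : ℝ) (X : ℂ → ℂ), 0 < s →
  DifferentiableOn ℂ X (Metric.ball a s) →
  ENNReal.ofReal (Real.pi * s ^ 2 * ‖X a‖) ≤ ∫⁻ z in Metric.ball a s, ‖X z‖ₑ

/-- HAR (from RMV, MVL): derivative estimate for almost positive functions. -/
def T_HAR : Prop := ∃ C : ℝ, 1 ≤ C ∧ ∀ (a : ℂ) (s d : ℝ) (X : ℂ → ℂ), 0 < s →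
  DifferentiableOn ℂ X (Metric.ball a s) →
  ∫⁻ z in Metric.ball a s, ENNReal.ofReal (‖X z‖ - (X z).re) ≤ ENNReal.ofReal d →
  0 ≤ d → d ≤ s ^ 2 → ‖X a‖ ≤ 2 → ‖deriv X a‖ ≤ C * √d / s ^ 2

/-- PER: integrals of periodic functions over strips. -/
def T_PER : Prop := ∀ D : ℂ → ENNReal, Measurable D → (∀ ζ, D (ζ + 2 * Real.pi * I) = D ζ) →
  ∀ y : ℝ, ∫⁻ ζ in {ζ : ℂ | y ≤ ζ.im ∧ ζ.im < y + 2 * Real.pi}, D ζ =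
    ∫⁻ ζ in {ζ : ℂ | 0 ≤ ζ.im ∧ ζ.im < 2 * Real.pi}, D ζ

/-- INN: integral bound on a half plane. -/
def T_INN : Prop := ∀ (x₀ d : ℝ) (X : ℂ → ℂ) (D : ℂ → ENNReal), 0 ≤ d →
  DifferentiableOn ℂ X {ζ : ℂ | ζ.re < x₀} →
  (∀ ζ : ℂ, ζ.re < x₀ → X (ζ + 2 * Real.pi * I) = X ζ) → Tendsto X lf (𝓝 0) → Measurable D →
  ∫⁻ ζ in {ζ : ℂ | 0 ≤ ζ.im ∧ ζ.im < 2 * Real.pi}, D ζ ≤ ENNReal.ofReal d →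
  (∀ᵐ ζ : ℂ, ζ.re < x₀ → ENNReal.ofReal (‖X ζ‖ + ‖1 - X ζ‖) ≤ 1 + D ζ) →
  ∫⁻ ζ in {ζ : ℂ | ζ.re < x₀ ∧ 0 ≤ ζ.im ∧ ζ.im < 2 * Real.pi}, ‖X ζ‖ₑ ≤ ENNReal.ofReal d

/-- EXD: exponential decay. -/
def T_EXD : Prop := ∀ (x₀ B : ℝ) (X : ℂ → ℂ), DifferentiableOn ℂ X {ζ : ℂ | ζ.re < x₀} →
  (∀ ζ : ℂ, ζ.re < x₀ → X (ζ + 2 * Real.pi * I) = X ζ) → Tendsto X lf (𝓝 0) →
  (∀ ζ : ℂ, ζ.re < x₀ → ‖X ζ‖ ≤ B) → ∀ ζ : ℂ, ζ.re < x₀ → ‖X ζ‖ ≤ B * Real.exp (ζ.re - x₀)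

/-- BOO: a bootstrap argument. -/
def T_BOO : Prop := ∀ (X X' : ℝ → ℂ) (g : ℝ → ℝ) (T ε : ℝ), 0 ≤ T →
  (∀ s ∈ Icc 0 T, HasDerivAt X (X' s) s) → ContinuousOn g (Icc 0 T) →
  (∀ s ∈ Icc 0 T, 0 ≤ g s) → ‖X 0 - 1‖ ≤ ε → (∀ s ∈ Icc 0 T, ‖X s‖ ≤ 2 → ‖X' s‖ ≤ g s) →
  ε + ∫ s in (0 : ℝ)..T, g s < 1 →
  ∀ s ∈ Icc 0 T, ‖X s - 1‖ ≤ ε + ∫ u in (0 : ℝ)..s, g u

/-- PRI: primitives on left invariant domains. -/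
def T_PRI : Prop := ∀ (W : Set ℂ) (Y : ℂ → ℂ) (B R : ℝ), LI W → DifferentiableOn ℂ Y W →
  (∀ ζ : ℂ, ζ.re < R → ζ ∈ W ∧ ‖Y ζ‖ ≤ B * Real.exp ζ.re) →
  ∃ N : ℂ → ℂ, DifferentiableOn ℂ N W ∧ (∀ ζ ∈ W, deriv N ζ = Y ζ) ∧ Tendsto N lf (𝓝 0) ∧
    ∀ ζ ∈ W, IntegrableOn (fun s : ℝ => ‖Y (ζ - s)‖) (Ioi 0) ∧
      ‖N ζ‖ ≤ ∫ s in Ioi (0 : ℝ), ‖Y (ζ - s)‖

/-- LLG (from LOGL of PLIM or PRI): logarithms on left invariant domains. -/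
def T_LLG : Prop := ∀ (W : Set ℂ) (g : ℂ → ℂ) (g₀ : ℂ), LI W → DifferentiableOn ℂ g W →
  (∀ ζ ∈ W, g ζ ≠ 0) → g₀ ≠ 0 → Tendsto g lf (𝓝 g₀) →
  ∃ L : ℂ → ℂ, DifferentiableOn ℂ L W ∧ (∀ ζ ∈ W, exp (L ζ) = g ζ) ∧
    Tendsto L lf (𝓝 (log g₀))

/-- CTR (from HAR, MVL, PER, INN, EXD, BOO): control of the sheets. -/
def T_CTR : Prop := ∃ C : ℝ, 1 ≤ C ∧ ∀ (n k : ℕ) (c : ℂ) (b r : ℕ → ℂ) (μ : ℂ) (V : ℕ → Set ℂ)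
  (χ : ℕ → ℂ → ℂ) (J : ℕ) (D : ℂ → ENNReal) (d t h : ℝ) (a : ℝ → ℝ) (m : ℕ) (lam : ℝ)
  (G : ℂ → ℂ), Rnd n k c b r μ V χ J D d h a → Small C d t →
  Lvl n k c b r χ J h a m lam G →
  (∀ ζ : ℂ, lam + t ≤ et h a ζ → ‖Lam k b r G ζ - 1‖ ≤ C * √d / (et h a ζ - lam)) ∧
    ∀ ζ : ℂ, ζ.re ≤ h - lam - 2 → ‖Lam k b r G ζ - 1‖ ≤ C * d * Real.exp (ζ.re - (h - lam))

/-- NUA (from CTR, PRI): the almost isometry. -/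
def T_NUA : Prop := ∃ C : ℝ, 1 ≤ C ∧ ∀ (n k : ℕ) (c : ℂ) (b r : ℕ → ℂ) (μ : ℂ) (V : ℕ → Set ℂ)
  (χ : ℕ → ℂ → ℂ) (J : ℕ) (D : ℂ → ENNReal) (d t h : ℝ) (a : ℝ → ℝ) (m : ℕ) (lam : ℝ)
  (G : ℂ → ℂ), Rnd n k c b r μ V χ J D d h a → Small C d t →
  Lvl n k c b r χ J h a m lam G → ∃ e : ℂ → ℂ, DifferentiableOn ℂ e {ζ : ℂ | lam + t < et h a ζ} ∧
    Tendsto e lf (𝓝 0) ∧ ∀ ζ : ℂ, lam + t < et h a ζ →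
      ‖e ζ‖ ≤ t / 100 ∧ ‖deriv e ζ‖ ≤ 1 / 1000 ∧ (1 + deriv e ζ) ^ 2 = Lam k b r G ζ

/-- NUB (from NUA): the sheet is a chart. -/
def T_NUB : Prop := ∃ C : ℝ, 1 ≤ C ∧ ∀ (n k : ℕ) (c : ℂ) (b r : ℕ → ℂ) (μ : ℂ) (V : ℕ → Set ℂ)
  (χ : ℕ → ℂ → ℂ) (J : ℕ) (D : ℂ → ENNReal) (d t h : ℝ) (a : ℝ → ℝ) (m : ℕ) (lam : ℝ)
  (G : ℂ → ℂ) (A : ℂ), Rnd n k c b r μ V χ J D d h a → Small C d t →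
  Lvl n k c b r χ J h a m lam G → exp A = ∏ i ∈ Finset.range m, fp n (b (J - m + i)) →
  (∀ w : ℂ, lam + 3 / 2 * t < et h a (w + A) → w ∈ V (J - m)) ∧
  ∃ nu : ℂ → ℂ, DifferentiableOn ℂ nu {ζ : ℂ | lam + t < et h a ζ} ∧
    (∀ ζ : ℂ, lam + t < et h a ζ → ‖nu ζ - ζ + A‖ ≤ t / 100 ∧ ‖deriv nu ζ - 1‖ ≤ 1 / 1000 ∧
      deriv nu ζ ^ 2 = Lam k b r G ζ) ∧
    ∀ ζ : ℂ, lam + 2 * t < et h a ζ → nu ζ ∈ V (J - m) ∧ χ (J - m) (nu ζ) = G ζ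

/-- STP (from LLG): one more level. -/
def T_STP : Prop := ∀ (n k : ℕ) (c : ℂ) (b r : ℕ → ℂ) (μ : ℂ) (V : ℕ → Set ℂ)
  (χ : ℕ → ℂ → ℂ) (J : ℕ) (D : ℂ → ENNReal) (d h : ℝ) (a : ℝ → ℝ) (m : ℕ) (lam : ℝ)
  (G : ℂ → ℂ), Rnd n k c b r μ V χ J D d h a → m + 1 ≤ k →
  Lvl n k c b r χ J h a m lam G → ∃ (lam' : ℝ) (G' : ℂ → ℂ), lam ≤ lam' ∧
    Lvl n k c b r χ J h a (m + 1) lam' G' ∧ (∀ ζ : ℂ, lam' < et h a ζ → F n c (G' ζ) = G ζ) ∧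
    (lam < lam' → ∀ ε : ℝ, 0 < ε → ∃ p : ℂ, lam < et h a p ∧ lam' - ε < et h a p ∧
      et h a p ≤ lam' ∧ G p = c)

/-- INJ (from NUB, SAM, OPP): the sheet is injective on discs. -/
def T_INJ : Prop := ∃ C : ℝ, 1 ≤ C ∧ ∀ (n k : ℕ) (c : ℂ) (b r : ℕ → ℂ) (μ : ℂ) (V : ℕ → Set ℂ)
  (χ : ℕ → ℂ → ℂ) (J : ℕ) (D : ℂ → ENNReal) (d t h : ℝ) (a : ℝ → ℝ) (m : ℕ) (lam : ℝ)
  (G : ℂ → ℂ) (p : ℂ) (ρ : ℝ), Rnd n k c b r μ V χ J D d h a → Small C d t →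
  Lvl n k c b r χ J h a m lam G → ρ ≤ 1 →
  (∀ ζ ∈ Metric.ball p ρ, lam + 2 * t < et h a ζ) → InjOn G (Metric.ball p ρ)

/-- ROO: the two roots around a simple zero. -/
def T_ROO : Prop := ∀ (n : ℕ) (p : ℂ) (ρ : ℝ) (g : ℂ → ℂ), 2 ≤ n → 0 < ρ →
  DifferentiableOn ℂ g (Metric.ball p ρ) → InjOn g (Metric.ball p ρ) → g p = 0 →
  ∃ R₁ R₂ : ℂ → ℂ,
    DifferentiableOn ℂ R₁ (Metric.ball p ρ \ {ζ : ℂ | ζ.re = p.re ∧ ζ.im ≤ p.im}) ∧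
    DifferentiableOn ℂ R₂ (Metric.ball p ρ \ {ζ : ℂ | ζ.re = p.re ∧ p.im ≤ ζ.im}) ∧
    (∀ ζ ∈ Metric.ball p ρ, R₁ ζ ^ n = g ζ ∧ R₂ ζ ^ n = g ζ) ∧
    (∀ ζ ∈ Metric.ball p ρ, ζ.re < p.re → R₁ ζ = R₂ ζ) ∧
    ∀ ζ ∈ Metric.ball p ρ, p.re < ζ.re → R₁ ζ ≠ R₂ ζ

/-- LOB (from CTR, NUB, INJ, ROO, HAR, PER, BOO): the depth of the sheets grows slowly. -/
def T_LOB : Prop := ∃ C : ℝ, 1 ≤ C ∧ ∀ (n k : ℕ) (c : ℂ) (b r : ℕ → ℂ) (μ : ℂ) (V : ℕ → Set ℂ)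
  (χ : ℕ → ℂ → ℂ) (J : ℕ) (D : ℂ → ENNReal) (d t h : ℝ) (a : ℝ → ℝ) (m : ℕ) (lam lam' : ℝ)
  (G G' : ℂ → ℂ) (p : ℂ), Rnd n k c b r μ V χ J D d h a → Small C d t →
  Lvl n k c b r χ J h a m lam G → Lvl n k c b r χ J h a (m + 1) lam' G' → lam ≤ lam' →
  (∀ ζ : ℂ, lam' < et h a ζ → F n c (G' ζ) = G ζ) → G p = c →
  lam + 10 * t < et h a p → lam' - t / 10 < et h a p → False

/-- The sequence of all sheets. -/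
structure Sq (n k : ℕ) (c : ℂ) (b r : ℕ → ℂ) (χ : ℕ → ℂ → ℂ) (J : ℕ) (h : ℝ) (a : ℝ → ℝ)
    (t : ℝ) (lam : ℕ → ℝ) (G : ℕ → ℂ → ℂ) : Prop where
  z0 : lam 0 = 0
  G0 : G 0 = χ J
  lvl : ∀ m ≤ k, Lvl n k c b r χ J h a m (lam m) (G m)
  mono : ∀ m < k, lam m ≤ lam (m + 1)
  step : ∀ m < k, lam (m + 1) ≤ lam m + 10 * t
  cons : ∀ m < k, ∀ ζ : ℂ, lam (m + 1) < et h a ζ → F n c (G (m + 1) ζ) = G m ζ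
  ev : ∀ m < k, lam m < lam (m + 1) →
    ∃ p : ℂ, lam m + 3 / 4 * (lam (m + 1) - lam m) ≤ et h a p ∧ et h a p ≤ lam (m + 1) ∧
      lam (m + 1) - t ≤ et h a p ∧ G m p = c

/-- SEQ (from STP, LOB): all sheets. -/
def T_SEQ : Prop := ∃ C : ℝ, 1 ≤ C ∧ ∀ (n k : ℕ) (c : ℂ) (b r : ℕ → ℂ) (μ : ℂ) (V : ℕ → Set ℂ)
  (χ : ℕ → ℂ → ℂ) (J : ℕ) (D : ℂ → ENNReal) (d t h : ℝ) (a : ℝ → ℝ),
  Rnd n k c b r μ V χ J D d h a → Small C d t →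
  ∃ (lam : ℕ → ℝ) (G : ℕ → ℂ → ℂ), Sq n k c b r χ J h a t lam G

/-- Records: disjoint intervals of depths with points. -/
structure Rec (D : ℂ → ENNReal) (d t h : ℝ) (a : ℝ → ℝ) (S : Finset ℕ) (l l' : ℕ → ℝ)
    (p : ℕ → ℂ) : Prop where
  Dm : Measurable D
  Dper : ∀ ζ, D (ζ + 2 * Real.pi * I) = D ζ
  Dint : ∫⁻ ζ in {ζ : ℂ | 0 ≤ ζ.im ∧ ζ.im < 2 * Real.pi}, D ζ ≤ ENNReal.ofReal d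
  lip : ∀ x y : ℝ, |a x - a y| ≤ |x - y|
  aper : ∀ x : ℝ, a (x + 2 * Real.pi) = a x
  d0 : 0 ≤ d
  t0 : 0 < t
  t1 : t ≤ 1 / 2000
  lo : ∀ i ∈ S, 0 ≤ l i
  lt : ∀ i ∈ S, l i < l' i
  gap : ∀ i ∈ S, l' i ≤ l i + 10 * t
  hi : ∀ i ∈ S, l' i ≤ 420 * t
  disj : ∀ i ∈ S, ∀ j ∈ S, i < j → l' i ≤ l j
  plo : ∀ i ∈ S, l i + 3 / 4 * (l' i - l i) ≤ et h a (p i)
  phi : ∀ i ∈ S, et h a (p i) ≤ l' i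

/-- WSA: the weighted integral of one record. -/
def T_WSA : Prop := ∃ C : ℝ, 1 ≤ C ∧ ∀ (D : ℂ → ENNReal) (B t h g l : ℝ) (a : ℝ → ℝ) (p : ℂ),
  Measurable D → (∀ x y : ℝ, |a x - a y| ≤ |x - y|) → 0 < t → 0 < g → g ≤ 10 * t →
  l + 3 / 4 * g ≤ et h a p → et h a p ≤ l + g →
  ∫⁻ z in Metric.ball p (12 * t), D z ≤ ENNReal.ofReal B →
  ENNReal.ofReal ((∫ s in (0 : ℝ)..t,
      √(∫⁻ z in Metric.ball (p - s) ((s + g / 2) / 2), D z).toReal / (s + g / 2)) ^ 2) ≤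
    ENNReal.ofReal (C * √t) * ∫⁻ z in Metric.ball p (12 * t) ∩ {z : ℂ | l + g / 3 ≤ et h a z},
      D z * ENNReal.ofReal (1 / √(et h a z - l))

/-- WSB: a sum over disjoint intervals. -/
def T_WSB : Prop := ∀ (S : Finset ℕ) (l l' : ℕ → ℝ) (η : ℝ), (∀ i ∈ S, 0 ≤ l i) →
  (∀ i ∈ S, l i < l' i) → (∀ i ∈ S, ∀ j ∈ S, i < j → l' i ≤ l j) →
  (∀ i ∈ S, l i + (l' i - l i) / 3 ≤ η) →
  ∑ i ∈ S, (l' i - l i) / √(η - l i) ≤ 5 * √η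

/-- WSC (from WSB, PER): the sum over the records. -/
def T_WSC : Prop := ∃ C : ℝ, 1 ≤ C ∧ ∀ (D : ℂ → ENNReal) (d t h : ℝ) (a : ℝ → ℝ)
  (S : Finset ℕ) (l l' : ℕ → ℝ) (p : ℕ → ℂ), Rec D d t h a S l l' p →
  ∑ i ∈ S, ENNReal.ofReal (l' i - l i) *
    ∫⁻ z in Metric.ball (p i) (12 * t) ∩ {z : ℂ | l i + (l' i - l i) / 3 ≤ et h a z},
      D z * ENNReal.ofReal (1 / √(et h a z - l i)) ≤ ENNReal.ofReal (C * √t * d)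

/-- WSM (from WSA, WSC, PER): the weighted sum over the records. -/
def T_WSM : Prop := ∃ C : ℝ, 1 ≤ C ∧ ∀ (D : ℂ → ENNReal) (d t h : ℝ) (a : ℝ → ℝ)
  (S : Finset ℕ) (l l' : ℕ → ℝ) (p : ℕ → ℂ), Rec D d t h a S l l' p →
  ∑ i ∈ S, (l' i - l i) * ∫ s in (0 : ℝ)..t,
    √(∫⁻ z in Metric.ball (p i - s) ((s + (l' i - l i) / 2) / 2), D z).toReal /
      (s + (l' i - l i) / 2) ≤ C * t * √d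

/-- SBH (from MVL): the length of a horizontal segment in the sheet. -/
def T_SBH : Prop := ∀ (D : ℂ → ENNReal) (B t h g l : ℝ) (a : ℝ → ℝ) (X : ℂ → ℂ) (p : ℂ),
  Measurable D → (∀ x y : ℝ, |a x - a y| ≤ |x - y|) → 0 < t → 0 < g →
  DifferentiableOn ℂ X {ζ : ℂ | l < et h a ζ} →
  (∀ᵐ ζ : ℂ, l < et h a ζ → ENNReal.ofReal ‖X ζ‖ ≤ 1 + D ζ) →
  l + 3 / 4 * g ≤ et h a p →
  (∀ s ∈ Icc 0 t, ∫⁻ z in Metric.ball (p - s) ((s + g / 2) / 2), D z ≤ ENNReal.ofReal B) →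
  ∫ s in (0 : ℝ)..t, √‖X (p - s)‖ ≤ t + 2 * ∫ s in (0 : ℝ)..t,
    √(∫⁻ z in Metric.ball (p - s) ((s + g / 2) / 2), D z).toReal / (s + g / 2)

/-- REC (from WSM, SBH, PER): two good records. -/
def T_REC : Prop := ∃ C : ℝ, 1 ≤ C ∧ ∀ (D : ℂ → ENNReal) (d t h : ℝ) (a : ℝ → ℝ)
  (S : Finset ℕ) (l l' : ℕ → ℝ) (p : ℕ → ℂ) (X : ℕ → ℂ → ℂ), Small C d t →
  Rec D d t h a S l l' p → (∀ i ∈ S, DifferentiableOn ℂ (X i) {ζ : ℂ | l i < et h a ζ}) →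
  (∀ i ∈ S, ∀ᵐ ζ : ℂ, l i < et h a ζ → ENNReal.ofReal ‖X i ζ‖ ≤ 1 + D ζ) →
  300 * t ≤ ∑ i ∈ S, (l' i - l i) →
  ∃ i ∈ S, ∃ j ∈ S, i < j ∧ ∫ s in (0 : ℝ)..t, √‖X i (p i - s)‖ ≤ 2 * t ∧
    ∫ s in (0 : ℝ)..t, √‖X j (p j - s)‖ ≤ 2 * t

/-- GEO (from CTR, NUB, SAM, LIFT, UNQ): two good records are impossible. -/
def T_GEO : Prop := ∃ C : ℝ, 1 ≤ C ∧ ∀ (n k : ℕ) (c : ℂ) (b r : ℕ → ℂ) (μ : ℂ) (V : ℕ → Set ℂ)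
  (χ : ℕ → ℂ → ℂ) (J : ℕ) (D : ℂ → ENNReal) (d t h : ℝ) (a : ℝ → ℝ) (p : ℂ)
  (q : Fin 2 → ℕ) (lam : Fin 2 → ℝ) (G : Fin 2 → ℂ → ℂ) (z : Fin 2 → ℂ),
  Rnd n k c b r μ V χ J D d h a → Small C d t → 59 * t ≤ et h a p → 0 < q 0 → q 0 < q 1 →
  q 1 < k → (∀ i, Lvl n k c b r χ J h a (q i) (lam i) (G i)) → (∀ i, lam i < et h a (z i)) →
  (∀ i, G i (z i) = χ J p) →
  (∀ i, ∫ s in (0 : ℝ)..t, √‖Lam k b r (G i) (z i - s)‖ ≤ 2 * t) → False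

/-- PEN (from SEQ, REC, GEO): the last sheet is deep. -/
def T_PEN : Prop := ∃ C : ℝ, 1 ≤ C ∧ ∀ (n k : ℕ) (c : ℂ) (b r : ℕ → ℂ) (μ : ℂ) (V : ℕ → Set ℂ)
  (χ : ℕ → ℂ → ℂ) (J : ℕ) (D : ℂ → ENNReal) (d t h : ℝ) (a : ℝ → ℝ),
  Rnd n k c b r μ V χ J D d h a → Small C d t →
  ∃ (lam : ℝ) (G : ℂ → ℂ), lam ≤ 400 * t ∧ Lvl n k c b r χ J h a k lam G

/-- ROU (from PEN, NUB): one round. -/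
def T_ROU : Prop := ∃ C : ℝ, 1 ≤ C ∧ ∀ (n k : ℕ) (c : ℂ) (b r : ℕ → ℂ) (μ : ℂ) (V : ℕ → Set ℂ)
  (χ : ℕ → ℂ → ℂ) (J : ℕ) (D : ℂ → ENNReal) (d t h : ℝ) (a : ℝ → ℝ),
  Rnd n k c b r μ V χ J D d h a → Small C d t →
  ∀ w : ℂ, 410 * t < h + a (w.im + μ.im) - w.re → w ∈ V J

/-- RTA: rotations by an angle far from rational numbers of small denominator. -/
def T_RTA : Prop := ∀ α δ : ℝ, 0 < δ → Far δ α → ∀ θ y : ℝ, ∃ i : ℕ, (i : ℝ) ≤ 12 / δ ∧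
  1 / 20 ≤ tnt θ (y + i * α)

/-- ITE (from ROU, RTA, TNP): contradiction. -/
def T_ITE : Prop := ∃ C : ℝ, 1 ≤ C ∧ ∀ (n k : ℕ) (c : ℂ) (b r : ℕ → ℂ) (μ : ℂ) (V : ℕ → Set ℂ)
  (χ : ℕ → ℂ → ℂ) (J : ℕ) (D : ℂ → ENNReal) (d t δ h θ y : ℝ),
  Bas n k c b r μ V χ J D d → Small C d t → 0 < δ → Far δ μ.im → 200000 * t ≤ δ →
  (∀ ζ : ℂ, 0 < et h (tnt θ) ζ → ζ ∈ V J) → (h : ℂ) + y * I ∉ V J → False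

/-- ELE: the final choice of the constants. -/
def T_ELE : Prop := ∀ K : ℝ, 1 ≤ K → ∃ κ : ℝ, 0 < κ ∧ ∀ δ x : ℝ, 0 < δ → δ ≤ 1 / 2 → 0 < x →
  x < κ * LL δ → 32 * Real.pi * x ≤ 1 / 10 ∧
    K * √(32 * Real.pi * x) * (1 + Real.log (1 / (32 * Real.pi * x))) ≤ δ

/-- EXT (from MAX, PICK, ITE, ELE and TRL of PLIM): **the multiplier extension theorem**. -/
def T_EXT : Prop := ∃ κ : ℝ, 0 < κ ∧ ∀ (n k : ℕ) (c : ℂ) (b r : ℕ → ℂ) (μ : ℂ) (δ : ℝ),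
  Bad n k c b r μ → 0 < δ → Far δ μ.im → κ * LL δ ≤ μ.re

end Pool.Agent.MEX
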