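import Pool.Agent.MEX.Basic

/-!
# MEX: the sub-mean value property of the modulus (target MVL)
-/

set_option autoImplicit false

open Complex Filter Topology Set MeasureTheory

namespace Pool.Agent.MEX

namespace MVL_

/-- The area of a disc. -/
lemma area (a : ℂ) (s : ℝ) (hs : 0 < s) :
    ∫ _z in Metric.ball a s, (1 : ℝ) = Real.pi * s ^ 2 := by
  have h : (volume (Metric.ball a s)).toReal = Real.pi * s ^ 2 := by
    rw [Complex.volume_ball, ENNReal.toReal_mul, ENNReal.toReal_pow, ENNReal.toReal_ofReal hs.le]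
    rw [mul_comm]
    rfl
  rw [setIntegral_const, smul_eq_mul, mul_one]
  exact h

/-- The estimate on smaller discs. -/
lemma small (h1 : T_RMV) (a : ℂ) (s t : ℝ) (X : ℂ → ℂ) (ht : 0 < t) (hts : t < s)
    (hX : DifferentiableOn ℂ X (Metric.ball a s)) :
    ENNReal.ofReal (Real.pi * t ^ 2 * ‖X a‖) ≤ ∫⁻ z in Metric.ball a s, ‖X z‖ₑ := by
  have h := h1 a s t X (fun _ => 1) ht hts hX continuous_const
  simp only [ofReal_one, one_mul] at h
  rw [area a t ht] at h
  have h2 : ‖∫ z in Metric.ball a t, X z‖ₑ ≤ ∫⁻ z in Metric.ball a t, ‖X z‖ₑ :=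
    enorm_integral_le_lintegral_enorm _
  rw [h] at h2
  have h3 : ‖((Real.pi * t ^ 2 : ℝ) : ℂ) * X a‖ₑ = ENNReal.ofReal (Real.pi * t ^ 2 * ‖X a‖) := by
    rw [← ofReal_norm, norm_mul, Complex.norm_real, Real.norm_of_nonneg (by positivity)]
  rw [h3] at h2
  exact h2.trans (lintegral_mono_set (Metric.ball_subset_ball hts.le))

end MVL_

theorem p_MVL (h1 : T_RMV) : T_MVL := by
  intro a s X hs hX
  have hc : Tendsto (fun t : ℝ => ENNReal.ofReal (Real.pi * t ^ 2 * ‖X a‖)) (𝓝[<] s)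
      (𝓝 (ENNReal.ofReal (Real.pi * s ^ 2 * ‖X a‖))) := by
    have hc1 : Continuous (fun t : ℝ => ENNReal.ofReal (Real.pi * t ^ 2 * ‖X a‖)) := by
      exact ENNReal.continuous_ofReal.comp (by fun_prop)
    exact (hc1.tendsto s).mono_left nhdsWithin_le_nhds
  refine le_of_tendsto hc ?_
  have hI : Ioo (0 : ℝ) s ∈ 𝓝[<] s := Ioo_mem_nhdsLT hs
  filter_upwards [hI] with t ht
  exact MVL_.small h1 a s t X ht.1 ht.2 hX

end Pool.Agent.MEX
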