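import Pool.Agent.MEX.Basic

/-!
# MEX: RMV, mean values with radial weights
-/

set_option autoImplicit false

open Complex Filter Topology Set MeasureTheory

namespace Pool.Agent.MEX

namespace RMV_

/-- Rotations around `a` preserve the measure. -/
theorem mp_rot (a : ℂ) (u : Circle) :
    MeasurePreserving (fun z : ℂ => a + (u : ℂ) * (z - a)) volume volume := by
  have h1 : MeasurePreserving (fun z : ℂ => z - a) volume volume :=
    measurePreserving_sub_right volume a
  have h2 : MeasurePreserving (fun z : ℂ => (u : ℂ) * z) volume volume := by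
    have := (rotation u).measurePreserving
    have he : (fun z : ℂ => (u : ℂ) * z) = (rotation u : ℂ → ℂ) := by
      funext z
      rw [rotation_apply]
    rw [he]; exact this
  have h3 : MeasurePreserving (fun z : ℂ => a + z) volume volume :=
    measurePreserving_add_left volume a
  exact (h3.comp h2).comp h1

theorem me_rot (a : ℂ) (u : Circle) :
    MeasurableEmbedding (fun z : ℂ => a + (u : ℂ) * (z - a)) := by
  have hc : Continuous (fun z : ℂ => a + (u : ℂ) * (z - a)) := by fun_prop
  have hi : Function.Injective (fun z : ℂ => a + (u : ℂ) * (z - a)) := by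
    intro z w h
    have h1 : (u : ℂ) * (z - a) = (u : ℂ) * (w - a) := add_left_cancel h
    have h2 := mul_left_cancel₀ (Circle.coe_ne_zero u) h1
    exact sub_left_inj.mp h2
  exact hc.measurableEmbedding hi

theorem norm_rot (a : ℂ) (u : Circle) (z : ℂ) :
    ‖a + (u : ℂ) * (z - a) - a‖ = ‖z - a‖ := by
  rw [add_sub_cancel_left, norm_mul, Circle.norm_coe, one_mul]

theorem pre_rot (a : ℂ) (s : ℝ) (u : Circle) :
    (fun z : ℂ => a + (u : ℂ) * (z - a)) ⁻¹' (Metric.ball a s) = Metric.ball a s := by
  ext z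
  rw [mem_preimage, mem_ball_iff_norm, mem_ball_iff_norm, norm_rot]

theorem int_rot (a : ℂ) (s : ℝ) (X : ℂ → ℂ) (w : ℝ → ℝ) (u : Circle) :
    ∫ z in Metric.ball a s, ((w ‖z - a‖ : ℝ) : ℂ) * X (a + (u : ℂ) * (z - a)) =
      ∫ z in Metric.ball a s, ((w ‖z - a‖ : ℝ) : ℂ) * X z := by
  have h := (mp_rot a u).setIntegral_preimage_emb (me_rot a u)
    (fun z => ((w ‖z - a‖ : ℝ) : ℂ) * X z) (Metric.ball a s)
  rw [pre_rot] at h
  rw [← h]
  simp only [norm_rot]

theorem avg_rot (a : ℂ) (R : ℝ) (X : ℂ → ℂ) (hX : DifferentiableOn ℂ X (Metric.ball a R))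
    {z : ℂ} (hz : ‖z - a‖ < R) :
    ∫ θ in (0 : ℝ)..(2 * Real.pi), X (a + circleMap 0 1 θ * (z - a)) = 2 * Real.pi * X a := by
  set g : ℂ → ℂ := fun ζ => X (a + ζ * (z - a)) with hg
  have hd : ∀ ζ ∈ Metric.closedBall (0 : ℂ) 1, DifferentiableAt ℂ g ζ := by
    intro ζ hζ
    rw [mem_closedBall_zero_iff] at hζ
    have hm : a + ζ * (z - a) ∈ Metric.ball a R := by
      rw [mem_ball_iff_norm, add_sub_cancel_left, norm_mul]
      calc ‖ζ‖ * ‖z - a‖ ≤ 1 * ‖z - a‖ := mul_le_mul_of_nonneg_right hζ (norm_nonneg _)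
        _ < R := by rw [one_mul]; exact hz
    have h1 : DifferentiableAt ℂ X (a + ζ * (z - a)) :=
      hX.differentiableAt (Metric.isOpen_ball.mem_nhds hm)
    have h2 : DifferentiableAt ℂ (fun ζ : ℂ => a + ζ * (z - a)) ζ := by fun_prop
    exact DifferentiableAt.comp ζ h1 h2
  have havg : Real.circleAverage g 0 1 = g 0 := by
    apply circleAverage_of_differentiable_on_off_countable (s := ∅) countable_empty
    · rw [abs_one]
      intro ζ hζ
      exact (hd ζ hζ).continuousAt.continuousWithinAt
    · rw [abs_one]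
      intro ζ hζ
      exact hd ζ (Metric.ball_subset_closedBall hζ.1)
  rw [Real.circleAverage_def, Complex.real_smul] at havg
  have hpi : (2 * Real.pi : ℂ) ≠ 0 := by
    have : (Real.pi : ℂ) ≠ 0 := by exact_mod_cast Real.pi_ne_zero
    exact mul_ne_zero two_ne_zero this
  have h0 : g 0 = X a := by rw [hg]; simp
  rw [h0] at havg
  rw [← havg]
  push_cast
  rw [← mul_assoc, mul_inv_cancel₀ hpi, one_mul]

theorem circleMap_eq_coe (θ : ℝ) : circleMap 0 1 θ = ((Circle.exp θ : Circle) : ℂ) := by
  simp [circleMap, Circle.coe_exp]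

end RMV_

open RMV_ in
/-- RMV: mean values with radial weights. -/
theorem p_RMV : T_RMV := by
  intro a R s X w hs hsR hX hw
  -- the double integral
  set f : ℝ → ℂ → ℂ := fun θ z => ((w ‖z - a‖ : ℝ) : ℂ) * X (a + circleMap 0 1 θ * (z - a))
    with hf
  have hcont : ContinuousOn (Function.uncurry f) (Icc 0 (2 * Real.pi) ×ˢ Metric.closedBall a s) := by
    have h1 : ContinuousOn (fun p : ℝ × ℂ => ((w ‖p.2 - a‖ : ℝ) : ℂ))
        (Icc 0 (2 * Real.pi) ×ˢ Metric.closedBall a s) := by
      apply Continuous.continuousOn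
      exact continuous_ofReal.comp (hw.comp (by fun_prop))
    have h2 : ContinuousOn (fun p : ℝ × ℂ => X (a + circleMap 0 1 p.1 * (p.2 - a)))
        (Icc 0 (2 * Real.pi) ×ˢ Metric.closedBall a s) := by
      apply ContinuousOn.comp (t := Metric.ball a R) hX.continuousOn
      · apply Continuous.continuousOn
        have : Continuous (fun p : ℝ × ℂ => circleMap 0 1 p.1) :=
          (continuous_circleMap 0 1).comp continuous_fst
        fun_prop
      · intro p hp
        show a + circleMap 0 1 p.1 * (p.2 - a) ∈ Metric.ball a R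
        rw [circleMap_eq_coe, mem_ball_iff_norm, norm_rot]
        have := hp.2
        rw [mem_closedBall_iff_norm] at this
        linarith
    exact h1.mul h2
  have hint : IntegrableOn (Function.uncurry f)
      (Icc 0 (2 * Real.pi) ×ˢ Metric.closedBall a s) (volume.prod volume) :=
    hcont.integrableOn_compact (isCompact_Icc.prod (isCompact_closedBall a s))
  have hint2 : Integrable (Function.uncurry f)
      ((volume.restrict (uIoc 0 (2 * Real.pi))).prod (volume.restrict (Metric.ball a s))) := by
    rw [Measure.prod_restrict]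
    refine hint.mono_set ?_
    apply Set.prod_mono
    · rw [uIoc_of_le (by positivity)]
      exact Ioc_subset_Icc_self
    · exact Metric.ball_subset_closedBall
  have hswap := intervalIntegral_integral_swap hint2
  have hL : ∀ θ : ℝ, ∫ z in Metric.ball a s, f θ z =
      ∫ z in Metric.ball a s, ((w ‖z - a‖ : ℝ) : ℂ) * X z := by
    intro θ
    have := int_rot a s X w (Circle.exp θ)
    rw [← circleMap_eq_coe] at this
    exact this
  have hR : ∫ z in Metric.ball a s, (∫ θ in (0 : ℝ)..(2 * Real.pi), f θ z) =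
      ∫ z in Metric.ball a s, ((w ‖z - a‖ : ℝ) : ℂ) * (2 * Real.pi * X a) := by
    apply setIntegral_congr_fun measurableSet_ball
    intro z hz
    rw [mem_ball_iff_norm] at hz
    show ∫ θ in (0 : ℝ)..(2 * Real.pi), f θ z = _
    rw [hf]
    simp only
    rw [intervalIntegral.integral_const_mul, avg_rot a R X hX (hz.trans hsR)]
  rw [hR] at hswap
  simp only [hL] at hswap
  have hofr : ∫ z in Metric.ball a s, ((w ‖z - a‖ : ℝ) : ℂ) =
      ((∫ z in Metric.ball a s, w ‖z - a‖ : ℝ) : ℂ) :=
    integral_ofReal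
  rw [intervalIntegral.integral_const, sub_zero, Complex.real_smul, integral_mul_const,
    hofr] at hswap
  have hpi : (2 * Real.pi : ℂ) ≠ 0 := by
    have : (Real.pi : ℂ) ≠ 0 := by exact_mod_cast Real.pi_ne_zero
    exact mul_ne_zero two_ne_zero this
  apply mul_left_cancel₀ hpi
  push_cast at hswap
  rw [hswap]
  ring

end Pool.Agent.MEX
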