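import Pool.Agent.MEX.Targets

/-!
# MEX: targets, part D (consequences; see Blueprint2.lean.txt for the proofs)
-/

set_option autoImplicit false

open Complex Filter Topology Set MeasureTheory
open Pool.Agent.Multibrot (MM)
open Pool.Agent.Limb (F)
open Pool.Agent.PLim (Rho LocFix IsLimb Piece OMXn)

namespace Pool.Agent.MEX

/-- `z` is not fixed by the iterates of order less than `k`. -/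
def Exa (n k : ℕ) (c z : ℂ) : Prop := ∀ j : ℕ, 0 < j → j < k → (F n c)^[j] z ≠ z

/-- No critical points of the multiplier of exact period `k` over
`{Re μ < κ LL δ, Far δ (Im μ)}`. -/
def NCXk (κ : ℝ) : Prop := ∀ (n k : ℕ) (c0 z0 μ : ℂ) (δ ε r : ℝ) (zf : ℂ → ℂ), 2 ≤ n → 1 ≤ k →
  LocFix n k c0 z0 ε r zf → Exa n k c0 z0 → Rho n k c0 z0 = exp μ → 0 < δ → Far δ μ.im →
  μ.re < κ * LL δ → deriv (fun c => Rho n k c (zf c)) c0 ≠ 0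

/-- NCX (from EXT and TRA of PLIM; adapt PLim/TRANS.lean): the multiplier extension theorem. -/
def T_NCX : Prop := ∃ κ : ℝ, 0 < κ ∧ NCXk κ

/-- Sections of the multiplier of exact period `k` on discs of radius `LL δ / C`. -/
def SECXk (C : ℝ) : Prop := ∀ (n k : ℕ) (r z0 : ℂ) (τ δ η : ℝ), 2 ≤ n → 1 ≤ k → 0 < τ →
  τ < 2 * Real.pi → (F n r)^[k] z0 = z0 → Rho n k r z0 = exp (τ * I) → Exa n k r z0 → 0 < δ →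
  Far δ τ → η = LL δ / C →
  ∃ ψ χ : ℂ → ℂ, DifferentiableOn ℂ ψ (Metric.ball (τ * I) η) ∧
    ContinuousOn χ (Metric.ball (τ * I) η) ∧ ψ (τ * I) = r ∧ χ (τ * I) = z0 ∧
    ∀ μ ∈ Metric.ball ((τ : ℂ) * I) η, (F n (ψ μ))^[k] (χ μ) = χ μ ∧
      Rho n k (ψ μ) (χ μ) = exp μ ∧ ‖ψ μ‖ ≤ 16 ∧ deriv ψ μ ≠ 0 ∧ Exa n k (ψ μ) (χ μ)

/-- SECX (from NCX and BIG, LOCZ of PLIM; adapt PLim/SECTr.lean): the section. -/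
def T_SECX : Prop := ∃ C : ℝ, 1 ≤ C ∧ SECXk C

/-- The parametrization of a limb near its root. -/
def LIMBXn (n : ℕ) (C1 C3 : ℝ) : Prop := ∀ (k p q : ℕ) (r z0 : ℂ) (A : Set ℂ) (δ η : ℝ),
  IsLimb n k p q r z0 A → Exa n k r z0 → 0 < δ → Far δ (2 * Real.pi * p / q) →
  η = LL δ / C3 → 2 * (C1 * k / q) < η →
  r ∈ MM n ∧ η ≤ 1 / 4 ∧ ∃ ψ χ : ℂ → ℂ, DifferentiableOn ℂ ψ (Metric.ball 0 η) ∧ ψ 0 = r ∧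
    (∀ x ∈ Metric.ball (0 : ℂ) η, (F n (ψ x))^[k] (χ x) = χ x ∧
      ‖Rho n k (ψ x) (χ x)‖ = Real.exp x.re ∧ ‖ψ x‖ ≤ 16) ∧
    ∀ c ∈ A, ∃ x : ℂ, ‖x‖ ≤ C1 * k / q ∧ ψ x = c

/-- LIMBX (from TOP, OMC, FIXE, BOT, LOG, GREEN of PLIM; adapt PLim/LIMBG.lean). -/
def T_LIMBX : Prop := ∀ (n : ℕ) (C1 C2 : ℝ), 2 ≤ n → 0 < C1 → 1 ≤ C2 → OMXn n C1 → SECXk C2 →
  LIMBXn n C1 (C2 + 40)

/-- LIMUX (from ANN, STRIP, COAL of PLIM; adapt PLim/LIMBU.lean): the limb bound. -/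
def T_LIMUX : Prop := ∃ C : ℝ, 0 < C ∧ ∀ (n : ℕ) (C1 C3 : ℝ), 2 ≤ n → 0 < C1 → 40 ≤ C3 →
  LIMBXn n C1 C3 → ∀ (k p q : ℕ) (r z0 c : ℂ) (A : Set ℂ) (δ : ℝ), IsLimb n k p q r z0 A →
  Exa n k r z0 → 0 < δ → Far δ (2 * Real.pi * p / q) → c ∈ A →
  ‖c - r‖ * (q * LL δ) ≤ C * (C1 * C3) * (Real.log n / n) * k

/-- A point in infinitely many limbs, with a condition linear in the period. -/
def InfX (n : ℕ) (C : ℝ) (c : ℂ) : Prop := ∀ N : ℕ, ∃ (k p q : ℕ) (r z0 : ℂ) (A : Set ℂ) (δ : ℝ),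
  IsLimb n k p q r z0 A ∧ Exa n k r z0 ∧ c ∈ A ∧ N ≤ q ∧ 0 < δ ∧ Far δ (2 * Real.pi * p / q) ∧
  C * k < q * LL δ

/-- LCSX (from EXPAND, COV, FRO, BOT, LOG, GREEN of PLIM; adapt PLim/LCS.lean): the limbs shrink. -/
def T_LCSX : Prop := ∀ (n : ℕ) (C1 C3 : ℝ), 2 ≤ n → 0 < C1 → 40 ≤ C3 → LIMBXn n C1 C3 →
  ∀ (c : ℂ) (ε : ℝ), InfX n (2 * (C1 * C3)) c → 0 < ε →
  ∃ (k p q : ℕ) (r z0 : ℂ) (A : Set ℂ), IsLimb n k p q r z0 A ∧ c ∈ A ∧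
    insert r A ⊆ Metric.ball c ε

/-- BIFX (from BIF, LOCZ of PLIM): the bifurcating cycle has exact period `k q`. -/
def T_BIFX : Prop := ∀ (n k p q : ℕ) (r z0 : ℂ), 2 ≤ n → 1 ≤ k → 0 < p → p < q →
  p.Coprime q → (F n r)^[k] z0 = z0 → Rho n k r z0 = exp (2 * Real.pi * I * p / q) →
  Exa n k r z0 →
  ∃ (t₀ : ℝ) (γ w : ℝ → ℂ), 0 < t₀ ∧ ContinuousOn γ (Ioc 0 t₀) ∧ ContinuousOn w (Ioc 0 t₀) ∧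
    Tendsto γ (𝓝[>] 0) (𝓝 r) ∧ Tendsto w (𝓝[>] 0) (𝓝 z0) ∧
    ∀ t ∈ Ioc (0 : ℝ) t₀, (F n (γ t))^[k * q] (w t) = w t ∧ (F n (γ t))^[k] (w t) ≠ w t ∧
      γ t ≠ r ∧ ‖Rho n (k * q) (γ t) (w t)‖ < 1 ∧ Exa n (k * q) (γ t) (w t)

/-- BDVX (from NOA, MMA, LOCZ, CNT of PLIM; adapt PLim/BDV.lean): boundary values of the
multiplier on a piece, exact period. -/
def T_BDVX : Prop := ∀ (n k : ℕ) (r : ℂ) (A : Set ℂ) (c1 z1 u : ℂ), 2 ≤ n → 1 ≤ k →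
  Piece n r A → c1 ∈ A → (F n c1)^[k] z1 = z1 → ‖Rho n k c1 z1‖ < 1 → Exa n k c1 z1 →
  ‖u‖ = 1 → u ≠ 1 →
  ∃ c z : ℂ, c ∈ insert r A ∧ (F n c)^[k] z = z ∧ Rho n k c z = u ∧ Exa n k c z

/-- LNEX (from SECX, BIFX and OMX, OMC, LCL, ATN, MMA, FIXE, BOT, LOG, GREEN of PLIM; adapt
PLim/LNE2.lean): existence of limbs. -/
def T_LNEX : Prop := ∀ n : ℕ, 2 ≤ n → ∃ B : ℝ, 0 < B ∧ ∀ (k p q : ℕ) (r z0 : ℂ) (δ : ℝ), 1 ≤ k →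
  0 < p → p < q → p.Coprime q → (F n r)^[k] z0 = z0 →
  Rho n k r z0 = exp (2 * Real.pi * I * p / q) → Exa n k r z0 → 0 < δ →
  Far δ (2 * Real.pi * p / q) → B * k < q * LL δ →
  ∃ A : Set ℂ, IsLimb n k p q r z0 A ∧ ∃ c z : ℂ, c ∈ A ∧ (F n c)^[k * q] z = z ∧
    ‖Rho n (k * q) c z‖ < 1 ∧ Exa n (k * q) c z

/-- NEXTX (from BDVX, LNEX and NEST, LIMB of PLIM; adapt PLim/NEXT2.lean): one step of the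
construction, avoiding a point. -/
def T_NEXTX : Prop := ∀ (n k : ℕ) (r s : ℂ) (A : Set ℂ) (c1 z1 : ℂ) (B : ℝ), 2 ≤ n → 1 ≤ k →
  Piece n r A → c1 ∈ A → (F n c1)^[k] z1 = z1 → ‖Rho n k c1 z1‖ < 1 → Exa n k c1 z1 →
  ∃ (p q : ℕ) (r' z' : ℂ) (A' : Set ℂ) (δ : ℝ), IsLimb n k p q r' z' A' ∧ Exa n k r' z' ∧
    A' ⊆ A ∧ r' ∈ A ∧ s ∉ insert r' A' ∧ 0 < δ ∧ Far δ (2 * Real.pi * p / q) ∧
    B * k < q * LL δ ∧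
    ∃ c z : ℂ, c ∈ A' ∧ (F n c)^[k * q] z = z ∧ ‖Rho n (k * q) c z‖ < 1 ∧ Exa n (k * q) c z

/-- DENSX (from MMA, LOCZ, TRANS, FINF of PLIM; adapt PLim/DENS.lean): roots near every boundary
point. -/
def T_DENSX : Prop := ∀ (n : ℕ) (c0 : ℂ) (ε B : ℝ), 2 ≤ n → c0 ∈ frontier (MM n) → 0 < ε →
  ∃ (k p q : ℕ) (r z0 : ℂ) (δ : ℝ), 1 ≤ k ∧ 0 < p ∧ p < q ∧ p.Coprime q ∧ (F n r)^[k] z0 = z0 ∧
    Rho n k r z0 = exp (2 * Real.pi * I * p / q) ∧ Exa n k r z0 ∧ ‖r - c0‖ < ε ∧ 0 < δ ∧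
    Far δ (2 * Real.pi * p / q) ∧ B * k < q * LL δ

/-- UNCX (from DENSX, LNEX, NEXTX, LIMUX, LIMBX, SECX and OMX of PLIM; adapt PLim/UNC.lean). -/
def T_UNCX : Prop := ∀ (n : ℕ) (c0 : ℂ) (N : Set ℂ) (B : ℝ), 2 ≤ n → c0 ∈ frontier (MM n) →
  N ∈ 𝓝 c0 → ¬ {c : ℂ | c ∈ N ∧ c ∈ MM n ∧ InfX n B c}.Countable

/-- FINX (from NCX, SECX, LIMBX, LIMUX, LCSX, UNCX and PLIM; adapt PLim/Main4.lean): the final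
theorem on `MM n`. -/
def T_FINX : Prop := ∃ κ C : ℝ, 0 < κ ∧ 0 < C ∧ NCXk κ ∧ SECXk C ∧ ∀ n : ℕ, 2 ≤ n →
  (∀ (k p q : ℕ) (r z0 c : ℂ) (A : Set ℂ) (δ : ℝ), IsLimb n k p q r z0 A → Exa n k r z0 →
    0 < δ → Far δ (2 * Real.pi * p / q) → c ∈ A →
    ‖c - r‖ * (q * LL δ) ≤ C * (Real.log n ^ 2 / n) * k) ∧
  (∀ c : ℂ, InfX n (C * Real.log n) c → ∀ N ∈ 𝓝 c, ∃ S : Set ℂ, S ⊆ MM n ∩ N ∧
    IsConnected S ∧ IsClosed S ∧ S ∈ 𝓝[MM n] c) ∧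
  ∀ c₀ ∈ frontier (MM n), ∀ N ∈ 𝓝 c₀,
    ¬ {c : ℂ | c ∈ N ∧ InfX n (C * Real.log n) c}.Countable

end Pool.Agent.MEX
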