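import Pool.Agent.MEX.Targets2
import Pool.Agent.PLim.DENS
import Pool.Agent.PLim.TRANS

/-!
# MEX, job DENSX: roots of exact period near every boundary point
-/

set_option autoImplicit false

open Complex Filter Topology Set MeasureTheory
open Pool.Agent.Multibrot (MM centers_dense Q_eq_iterate MM_closed)
open Pool.Agent.Limb (F)
open Pool.Agent.PLim

namespace Pool.Agent.MEX

namespace DENSX_

/-- an irrational number has a positive distance to the fractions of small denominator -/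
lemma far_irr {x : ℝ} (hx : Irrational x) : ∃ d : ℝ, 0 < d ∧ d ≤ 1 / 2 ∧
    ∀ b : ℕ, 1 ≤ b → b ≤ 6 → ∀ m : ℤ, d ≤ |b * x - m| := by
  have hne : (Finset.Icc 1 6 : Finset ℕ).Nonempty := ⟨1, by simp⟩
  obtain ⟨b₀, hb₀, hmin⟩ := Finset.exists_min_image (Finset.Icc 1 6 : Finset ℕ)
    (fun b => |(b : ℝ) * x - round ((b : ℝ) * x)|) hne
  rw [Finset.mem_Icc] at hb₀
  refine ⟨|(b₀ : ℝ) * x - round ((b₀ : ℝ) * x)|, ?_, abs_sub_round _, ?_⟩
  · rw [abs_pos, sub_ne_zero]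
    have h1 : Irrational ((b₀ : ℝ) * x) := hx.natCast_mul (by omega)
    exact h1.ne_int _
  · intro b h1 h6 m
    exact (hmin b (Finset.mem_Icc.2 ⟨h1, h6⟩)).trans (round_le _ _)

lemma LL_pos {δ : ℝ} (h0 : 0 < δ) (h1 : δ ≤ 1) : 0 < LL δ := by
  unfold LL
  have h2 : 0 ≤ Real.log (1 / δ) := Real.log_nonneg (by
    rw [le_div_iff₀ h0]
    linarith)
  positivity

/-- Approximation of an angle by fractions with large prime denominators, far from the fractions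
with small denominators. -/
lemma approx {x : ℝ} (hx0 : 0 < x) (hx1 : x < 1) (D η : ℝ) (hη : 0 < η) :
    ∃ (p q : ℕ) (δ : ℝ), 0 < p ∧ p < q ∧ p.Coprime q ∧
      ‖exp (2 * Real.pi * I * p / q) - exp (2 * Real.pi * I * x)‖ < η ∧ 0 < δ ∧
      Far δ (2 * Real.pi * p / q) ∧ D < q * LL δ := by
  -- an irrational number near `x`
  have hc : Continuous (fun y : ℝ => exp (2 * Real.pi * I * (y : ℂ))) := by fun_prop
  have hev : ∀ᶠ y : ℝ in 𝓝 x, (0 < y ∧ y < 1) ∧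
      ‖exp (2 * Real.pi * I * (y : ℂ)) - exp (2 * Real.pi * I * (x : ℂ))‖ < η := by
    refine (((lt_mem_nhds hx0).and (gt_mem_nhds hx1))).and ?_
    have := Metric.tendsto_nhds.1 (hc.tendsto x) η hη
    simpa only [dist_eq_norm] using this
  obtain ⟨e, he, hball⟩ := Metric.eventually_nhds_iff_ball.1 hev
  obtain ⟨y, hyi, hy1, hy2⟩ := exists_irrational_btwn (show x < x + e by linarith)
  obtain ⟨⟨hy0, hy1'⟩, hyη⟩ := hball y (by
    rw [Metric.mem_ball, Real.dist_eq, abs_of_pos (by linarith)]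
    linarith)
  obtain ⟨d, hd0, hd1, hd⟩ := far_irr hyi
  have hfl : Tendsto (fun q : ℕ => (⌊y * (q : ℝ)⌋₊ : ℝ) / (q : ℝ)) atTop (𝓝 y) :=
    (tendsto_nat_floor_mul_div_atTop hy0.le).comp tendsto_natCast_atTop_atTop
  have hcast : Tendsto (fun q : ℕ => (q : ℝ)) atTop atTop := tendsto_natCast_atTop_atTop
  have ev1 : ∀ᶠ q : ℕ in atTop,
      ‖exp (2 * Real.pi * I * (((⌊y * (q : ℝ)⌋₊ : ℝ) / (q : ℝ) : ℝ) : ℂ)) -
        exp (2 * Real.pi * I * x)‖ < η := by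
    have h1 : Tendsto (fun q : ℕ =>
        ‖exp (2 * Real.pi * I * (((⌊y * (q : ℝ)⌋₊ : ℝ) / (q : ℝ) : ℝ) : ℂ)) -
          exp (2 * Real.pi * I * x)‖) atTop
        (𝓝 ‖exp (2 * Real.pi * I * (y : ℂ)) - exp (2 * Real.pi * I * (x : ℂ))‖) :=
      (((hc.tendsto y).comp hfl).sub_const _).norm
    exact h1.eventually (gt_mem_nhds hyη)
  have ev2 : ∀ᶠ q : ℕ in atTop, |(⌊y * (q : ℝ)⌋₊ : ℝ) / (q : ℝ) - y| < d / 12 := by
    have := Metric.tendsto_nhds.1 hfl (d / 12) (by positivity)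
    simpa only [Real.dist_eq] using this
  have hLL : 0 < LL (d / 2) := LL_pos (by positivity) (by linarith)
  have ev3 : ∀ᶠ q : ℕ in atTop, D / LL (d / 2) < (q : ℝ) :=
    hcast.eventually (eventually_gt_atTop _)
  have ev4 : ∀ᶠ q : ℕ in atTop, 1 / y ≤ (q : ℝ) := hcast.eventually (eventually_ge_atTop _)
  have ev5 : ∀ᶠ q : ℕ in atTop, 1 ≤ q := eventually_ge_atTop 1
  obtain ⟨N, hN⟩ := eventually_atTop.1 ((((ev1.and ev2).and ev3).and ev4).and ev5)
  obtain ⟨q, hqN, hq⟩ := Nat.exists_infinite_primes N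
  obtain ⟨⟨⟨⟨h1, h2⟩, h3⟩, h4⟩, h5⟩ := hN q hqN
  have hqR : (0 : ℝ) < q := by exact_mod_cast h5
  have hxq : 1 ≤ y * q := by
    rw [div_le_iff₀ hy0] at h4
    linarith
  have hp : 0 < ⌊y * (q : ℝ)⌋₊ := Nat.floor_pos.2 hxq
  have hpq : ⌊y * (q : ℝ)⌋₊ < q := by
    rw [Nat.floor_lt (by positivity)]
    nlinarith
  refine ⟨⌊y * (q : ℝ)⌋₊, q, d / 2, hp, hpq, (Nat.coprime_of_lt_prime hp.ne' hpq hq).symm, ?_,
    by positivity, ?_, ?_⟩
  · have e : (2 * Real.pi * I * (⌊y * (q : ℝ)⌋₊ : ℂ) / (q : ℂ) : ℂ) =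
        2 * Real.pi * I * (((⌊y * (q : ℝ)⌋₊ : ℝ) / (q : ℝ) : ℝ) : ℂ) := by
      push_cast
      ring
    rw [e]
    exact h1
  · intro b hb1 hb6 m
    have hb6' : (b : ℝ) ≤ 6 := by exact_mod_cast hb6
    have hb0' : (0 : ℝ) ≤ b := Nat.cast_nonneg b
    have hpi := Real.pi_pos
    have e : (b : ℝ) * (2 * Real.pi * (⌊y * (q : ℝ)⌋₊ : ℝ) / q) / (2 * Real.pi) - m =
        ((b : ℝ) * y - m) + b * ((⌊y * (q : ℝ)⌋₊ : ℝ) / (q : ℝ) - y) := by
      field_simp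
      ring
    rw [e]
    have h6 := hd b hb1 hb6 m
    have h7 : |(b : ℝ) * ((⌊y * (q : ℝ)⌋₊ : ℝ) / (q : ℝ) - y)| ≤ d / 2 := by
      rw [abs_mul, abs_of_nonneg hb0']
      calc (b : ℝ) * |(⌊y * (q : ℝ)⌋₊ : ℝ) / (q : ℝ) - y| ≤ 6 * (d / 12) :=
            mul_le_mul hb6' h2.le (abs_nonneg _) (by norm_num)
        _ = d / 2 := by ring
    have h8 := abs_sub_abs_le_abs_sub ((b : ℝ) * y - m)
      (-((b : ℝ) * ((⌊y * (q : ℝ)⌋₊ : ℝ) / (q : ℝ) - y)))
    rw [abs_neg, sub_neg_eq_add] at h8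
    linarith
  · rw [div_lt_iff₀ hLL] at h3
    exact h3

/-- passing to the exact period -/
lemma exact_period {n k : ℕ} {c z : ℂ} (hk : 1 ≤ k) (hz : (F n c)^[k] z = z)
    (h1 : ‖Rho n k c z‖ = 1) (h2 : Rho n k c z ≠ 1) : ∃ k' : ℕ, 1 ≤ k' ∧ (F n c)^[k'] z = z ∧
      Exa n k' c z ∧ ‖Rho n k' c z‖ = 1 ∧ Rho n k' c z ≠ 1 := by
  have hper : Function.IsPeriodicPt (F n c) k z := hz
  have hpp : z ∈ Function.periodicPts (F n c) := Function.mk_mem_periodicPts (by omega) hper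
  set p := Function.minimalPeriod (F n c) z with hp
  have hp1 : 0 < p := Function.minimalPeriod_pos_of_mem_periodicPts hpp
  obtain ⟨m, hm⟩ : p ∣ k := hper.minimalPeriod_dvd
  have hm0 : m ≠ 0 := by
    rintro rfl
    omega
  have hfix : (F n c)^[p] z = z := Function.iterate_minimalPeriod
  have hRk : Rho n k c z = Rho n p c z ^ m := by
    rw [TRANS_.Rho_eq, TRANS_.Rho_eq, hm]
    refine TRANS_.prod_per (fun j => fp n ((F n c)^[j] z)) p (fun j => ?_) m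
    rw [Function.iterate_add_apply, hfix]
  refine ⟨p, hp1, hfix, ?_, ?_, ?_⟩
  · intro j hj0 hjp hj
    exact Function.not_isPeriodicPt_of_pos_of_lt_minimalPeriod hj0.ne' hjp hj
  · rw [hRk, norm_pow] at h1
    exact (pow_eq_one_iff_of_nonneg (norm_nonneg _) hm0).1 h1
  · intro h
    apply h2
    rw [hRk, h, one_pow]

end DENSX_

open DENSX_ DENS_ in
theorem p_DENSX (hMMA : T_MMA) (hLOCZ : T_LOCZ) (hTRANS : T_TRANS) (hFINF : T_FINF) :
    T_DENSX := by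
  intro n c0 ε B hn hc0 hε
  obtain ⟨k, hk, a, ha, hQ⟩ := centers_dense hn hc0 hε
  have haW : a ∈ W n k := by
    refine ⟨0, ?_, ?_⟩
    · rw [Q_eq_iterate] at hQ
      exact hQ
    · have : Rho n k a 0 = 0 := by
        rw [CNT_rho]
        refine Finset.prod_eq_zero (Finset.mem_range.2 hk) ?_
        simp only [Function.iterate_zero, id_eq]
        rw [zero_pow (by omega), mul_zero]
      rw [this, norm_zero]
      exact one_pos
  -- a point outside the Multibrot set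
  obtain ⟨u₀, hu₀M, hu₀⟩ : ∃ u₀, u₀ ∉ MM n ∧ u₀ ∈ Metric.ball c0 ε := by
    have h1 : c0 ∈ closure (MM n)ᶜ := by
      rw [frontier_eq_closure_inter_closure] at hc0
      exact hc0.2
    obtain ⟨u, h2, h3⟩ := mem_closure_iff_nhds.1 h1 _ (Metric.ball_mem_nhds c0 hε)
    exact ⟨u, h3, h2⟩
  have hau : u₀ ≠ a := by
    rintro rfl
    exact hu₀M (W_sub hMMA hn hk haW)
  have hcs : Continuous (fun s : ℝ => a + (u₀ - a) * (1 + (s : ℂ) * I)) := by fun_prop
  have hopen : IsOpen ((MM n)ᶜ ∩ Metric.ball c0 ε) :=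
    (MM_closed n).isOpen_compl.inter Metric.isOpen_ball
  have hev : ∀ᶠ s : ℝ in 𝓝 0, a + (u₀ - a) * (1 + (s : ℂ) * I) ∈ (MM n)ᶜ ∩ Metric.ball c0 ε := by
    apply hcs.continuousAt.eventually
    apply hopen.mem_nhds
    have e : a + (u₀ - a) * (1 + ((0 : ℝ) : ℂ) * I) = u₀ := by push_cast; ring
    show a + (u₀ - a) * (1 + ((0 : ℝ) : ℂ) * I) ∈ (MM n)ᶜ ∩ Metric.ball c0 ε
    rw [e]
    exact ⟨hu₀M, hu₀⟩
  obtain ⟨s₀, hs₀, hball⟩ := Metric.eventually_nhds_iff.1 hev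
  obtain ⟨s, hs0, hs1, hav⟩ := avoid hau (hFINF n k hn hk) hs₀
  obtain ⟨huM, huB⟩ := hball (y := s) (by
    rw [Real.dist_eq, sub_zero, abs_of_pos hs0]
    exact hs1)
  set u : ℂ := a + (u₀ - a) * (1 + (s : ℂ) * I) with hu
  have huW : u ∉ W n k := fun h => huM (W_sub hMMA hn hk h)
  obtain ⟨t, ht0, ht1, z1, hz1, hR1⟩ := exit hLOCZ hn hk haW huW
  set c1 : ℂ := a + (t : ℂ) * (u - a) with hc1
  have hc1B : c1 ∈ Metric.ball c0 ε := by
    have h1 := (convex_ball c0 ε) ha huB (sub_nonneg.2 ht1) ht0.le (by ring)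
    have e : (1 - t) • a + t • u = c1 := by
      rw [hc1, Complex.real_smul, Complex.real_smul]
      push_cast
      ring
    rwa [e] at h1
  have hne1 : Rho n k c1 z1 ≠ 1 := by
    intro h
    exact hav t ht0 ⟨z1, hz1, h⟩
  -- the exact period
  obtain ⟨k', hk', hz1', hExa, hR1', hne1'⟩ := exact_period hk hz1 hR1 hne1
  have hne0 : Rho n k' c1 z1 ≠ 0 := by
    intro h
    rw [h, norm_zero] at hR1'
    exact zero_ne_one hR1'
  obtain ⟨x, hx0, hx1, hx⟩ := angle hR1' hne1'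
  obtain ⟨δ, r', zf, -, -, hL⟩ := hLOCZ n k' c1 z1 1 hn one_pos hz1' hne1'
  have hder := hTRANS n k' c1 z1 δ r' zf hn hk' hL hne0 hR1'.le hne1'
  have hd : DifferentiableOn ℂ (fun x => Rho n k' x (zf x)) (Metric.ball c1 δ) :=
    CNT_diffR n k' zf _ hL.diff
  have hA : AnalyticAt ℂ (fun x => Rho n k' x (zf x)) c1 :=
    hd.analyticAt (Metric.ball_mem_nhds c1 hL.hδ)
  have hmap := hA.hasStrictDerivAt.map_nhds_eq hder
  have hcv : Rho n k' c1 (zf c1) = exp (2 * Real.pi * I * x) := by rw [hL.zf0, hx]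
  simp only [hcv] at hmap
  -- exactness persists
  have hExaV : {c : ℂ | Exa n k' c (zf c)} ∈ 𝓝 c1 := by
    have hzc : ContinuousAt zf c1 :=
      (hL.diff.differentiableAt (Metric.ball_mem_nhds c1 hL.hδ)).continuousAt
    have h1 : ∀ᶠ c in 𝓝 c1, ∀ j ∈ Finset.range k', 0 < j → (F n c)^[j] (zf c) ≠ zf c := by
      rw [Filter.eventually_all_finset]
      intro j hj
      by_cases hj0 : 0 < j
      · have h2 : ContinuousAt (fun c => (F n c)^[j] (zf c)) c1 :=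
          ContinuousAt.comp (g := fun q : ℂ × ℂ => (F n q.1)^[j] q.2) (f := fun c => (c, zf c))
            (CNT_contI n j).continuousAt (continuousAt_id.prodMk hzc)
        have h3 : (F n c1)^[j] (zf c1) ≠ zf c1 := by
          rw [hL.zf0]
          exact hExa j hj0 (Finset.mem_range.1 hj)
        filter_upwards [(h2.sub hzc).eventually_ne (sub_ne_zero.2 h3)] with c hc _
        exact sub_ne_zero.1 hc
      · exact Eventually.of_forall fun c h => absurd h hj0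
    filter_upwards [h1] with c hc
    exact fun j hj0 hjk => hc j (Finset.mem_range.2 hjk) hj0
  have hV : (Metric.ball c1 δ ∩ Metric.ball c0 ε) ∩ {c : ℂ | Exa n k' c (zf c)} ∈ 𝓝 c1 :=
    inter_mem (inter_mem (Metric.ball_mem_nhds c1 hL.hδ) (Metric.isOpen_ball.mem_nhds hc1B)) hExaV
  have himg : (fun x => Rho n k' x (zf x)) ''
      ((Metric.ball c1 δ ∩ Metric.ball c0 ε) ∩ {c : ℂ | Exa n k' c (zf c)}) ∈
      𝓝 (exp (2 * Real.pi * I * x)) := by
    rw [← hmap]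
    exact image_mem_map hV
  obtain ⟨δ', hδ', hsub⟩ := Metric.mem_nhds_iff.1 himg
  obtain ⟨p, q, d, hp, hpq, hcop, hclose, hd0, hFar, hbig⟩ :=
    DENSX_.approx hx0 hx1 (B * k') δ' hδ'
  have hmem : exp (2 * Real.pi * I * p / q) ∈ Metric.ball (exp (2 * Real.pi * I * x)) δ' := by
    rw [Metric.mem_ball, dist_eq_norm]
    exact hclose
  obtain ⟨r, ⟨⟨hr1, hr2⟩, hr3⟩, hr4⟩ := hsub hmem
  refine ⟨k', p, q, r, zf r, d, hk', hp, hpq, hcop, hL.fix r hr1, hr4, hr3, ?_, hd0, hFar, hbig⟩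
  rw [Metric.mem_ball, dist_eq_norm] at hr2
  exact hr2

end Pool.Agent.MEX
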