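import Pool.Agent.MEX.Targets
import Pool.Agent.Chirp.J_AREA0
import Pool.Agent.Multibrot.Contract

/-!
# MEX-AR2: the area formula with multiplicity, for several maps
-/

set_option autoImplicit false

open Complex Filter Topology Set MeasureTheory

namespace Pool.Agent.MEX

namespace AR2_

open Pool.Agent.Multibrot Pool.Agent.Limb

theorem part (E : Set ℂ) (g : ℂ → ℂ) (w : ℂ → ENNReal) (hE : MeasurableSet E)
    (hg : ∀ z ∈ E, DifferentiableAt ℂ g z) (hd : ∀ z ∈ E, deriv g z ≠ 0) :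
    ∃ t : ℕ → Set ℂ, Pairwise (Function.onFun Disjoint t) ∧
      (∀ i, MeasurableSet (g '' (E ∩ t i))) ∧
      ∫⁻ ζ in E, ‖deriv g ζ‖ₑ ^ 2 * w (g ζ) = ∑' i, ∫⁻ y, (g '' (E ∩ t i)).indicator w y := by
  rcases E.eq_empty_or_nonempty with rfl | hne
  · refine ⟨fun _ => ∅, fun i j _ => by simp [Function.onFun], fun i => by simp, by simp⟩
  choose r hr hr2 using fun A : ℂ →L[ℝ] ℂ => Pool.Agent.Chirp.AREA0_.exists_delta A
  have hder0 : ∀ x ∈ E, HasFDerivAt g (mulR (deriv g x)) x := fun x hx =>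
    hasFDerivAt_of_hasDerivAt (hg x hx).hasDerivAt
  obtain ⟨t, A, ht1, ht2, ht3, ht4, ht5⟩ :=
    exists_partition_approximatesLinearOn_of_hasFDerivWithinAt g E (fun x => mulR (deriv g x))
      (fun x hx => (hder0 x hx).hasFDerivWithinAt) r hr
  have hdet : ∀ x ∈ E, (mulR (deriv g x)).det ≠ 0 := by
    intro x hx
    rw [mulR_det]
    exact pow_ne_zero 2 (norm_ne_zero_iff.2 (hd x hx))
  have hinj : ∀ k, InjOn g (E ∩ t k) := by
    intro k
    obtain ⟨y, hy, hAy⟩ := ht5 hne k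
    exact hr2 (A k) (by rw [hAy]; exact hdet y hy) g _ (ht4 k)
  have hmeas : ∀ k, MeasurableSet (E ∩ t k) := fun k => hE.inter (ht2 k)
  have hder : ∀ k, ∀ x ∈ E ∩ t k, HasFDerivWithinAt g (mulR (deriv g x)) (E ∩ t k) x :=
    fun k x hx => (hder0 x hx.1).hasFDerivWithinAt
  have himg : ∀ k, MeasurableSet (g '' (E ∩ t k)) := fun k =>
    measurable_image_of_fderivWithin (hmeas k) (hder k) (hinj k)
  have hdisj : Pairwise (Function.onFun Disjoint fun k => E ∩ t k) := by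
    intro i j hij
    exact (ht1 hij).mono inter_subset_right inter_subset_right
  have hcover : E = ⋃ k, (E ∩ t k) := by
    rw [← inter_iUnion, inter_eq_left.mpr ht3]
  refine ⟨t, ht1, himg, ?_⟩
  calc ∫⁻ ζ in E, ‖deriv g ζ‖ₑ ^ 2 * w (g ζ)
      = ∫⁻ x in ⋃ k, (E ∩ t k), ‖deriv g x‖ₑ ^ 2 * w (g x) := by rw [← hcover]
    _ = ∑' k, ∫⁻ x in E ∩ t k, ‖deriv g x‖ₑ ^ 2 * w (g x) := lintegral_iUnion hmeas hdisj _
    _ = ∑' k, ∫⁻ y in g '' (E ∩ t k), w y := by
        refine tsum_congr fun k => ?_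
        rw [lintegral_image_eq_lintegral_abs_det_fderiv_mul volume (hmeas k) (hder k) (hinj k)]
        refine setLIntegral_congr_fun (hmeas k) fun x _ => ?_
        have h1 : ENNReal.ofReal |(mulR (deriv g x)).det| = ‖deriv g x‖ₑ ^ 2 := by
          rw [mulR_det, abs_of_nonneg (by positivity), ENNReal.ofReal_pow (norm_nonneg _),
            ofReal_norm]
        simp only [h1]
    _ = ∑' k, ∫⁻ y, (g '' (E ∩ t k)).indicator w y := by
        refine tsum_congr fun k => ?_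
        rw [lintegral_indicator (himg k)]

end AR2_

theorem p_AR2 : T_AR2 := by
  classical
  intro k M V E g w hVE hw hM
  have hpart : ∀ j, ∃ t : ℕ → Set ℂ, j < k → (Pairwise (Function.onFun Disjoint t) ∧
      (∀ i, MeasurableSet (g j '' (E j ∩ t i))) ∧
      ∫⁻ ζ in E j, ‖deriv (g j) ζ‖ₑ ^ 2 * w (g j ζ) =
        ∑' i, ∫⁻ y, (g j '' (E j ∩ t i)).indicator w y) := by
    intro j
    by_cases hj : j < k
    · obtain ⟨hV, hE, hEV, hg, hd⟩ := hVE j hj
      obtain ⟨t, ht⟩ := AR2_.part (E j) (g j) w hE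
        (fun z hz => hg.differentiableAt (hV.mem_nhds (hEV hz))) (fun z hz => hd z (hEV hz))
      exact ⟨t, fun _ => ht⟩
    · exact ⟨fun _ => ∅, fun h => absurd h hj⟩
  choose t ht using hpart
  have e1 : ∑ j ∈ Finset.range k, ∫⁻ ζ in E j, ‖deriv (g j) ζ‖ₑ ^ 2 * w (g j ζ) =
      ∑ j ∈ Finset.range k, ∑' i, ∫⁻ y, (g j '' (E j ∩ t j i)).indicator w y :=
    Finset.sum_congr rfl fun j hj => (ht j (Finset.mem_range.1 hj)).2.2
  have e2 : ∑ j ∈ Finset.range k, ∑' i, ∫⁻ y, (g j '' (E j ∩ t j i)).indicator w y =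
      ∑' i, ∑ j ∈ Finset.range k, ∫⁻ y, (g j '' (E j ∩ t j i)).indicator w y :=
    (Summable.tsum_finsetSum fun _ _ => ENNReal.summable).symm
  have hm : ∀ j ∈ Finset.range k, ∀ i, Measurable ((g j '' (E j ∩ t j i)).indicator w) :=
    fun j hj i => hw.indicator ((ht j (Finset.mem_range.1 hj)).2.1 i)
  have e3 : ∑' i, ∑ j ∈ Finset.range k, ∫⁻ y, (g j '' (E j ∩ t j i)).indicator w y =
      ∫⁻ y, ∑' i, ∑ j ∈ Finset.range k, (g j '' (E j ∩ t j i)).indicator w y := by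
    rw [lintegral_tsum fun i => (Finset.measurable_sum _ fun j hj => hm j hj i).aemeasurable]
    refine tsum_congr fun i => ?_
    rw [lintegral_finsetSum _ fun j hj => hm j hj i]
  rw [e1, e2, e3, ← lintegral_const_mul _ hw]
  refine lintegral_mono fun y => ?_
  beta_reduce
  rw [ENNReal.tsum_eq_iSup_sum]
  refine iSup_le fun I => ?_
  have hI : ∑ i ∈ I, ∑ j ∈ Finset.range k, (g j '' (E j ∩ t j i)).indicator w y =
      ∑ q ∈ (I ×ˢ Finset.range k).filter (fun q => y ∈ g q.2 '' (E q.2 ∩ t q.2 q.1)), w y := by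
    rw [Finset.sum_filter, Finset.sum_product]
    exact Finset.sum_congr rfl fun i _ => Finset.sum_congr rfl fun j _ => by rw [indicator_apply]
  rw [hI, Finset.sum_const, nsmul_eq_mul]
  refine mul_le_mul_left ?_ _
  set Q := (I ×ˢ Finset.range k).filter (fun q => y ∈ g q.2 '' (E q.2 ∩ t q.2 q.1)) with hQ
  have hch : ∀ q ∈ Q, ∃ x, x ∈ E q.2 ∩ t q.2 q.1 ∧ g q.2 x = y := by
    intro q hq
    obtain ⟨x, hx, hxy⟩ := (Finset.mem_filter.mp hq).2
    exact ⟨x, hx, hxy⟩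
  choose! x hx1 hx2 using hch
  have hk : ∀ q ∈ Q, q.2 < k := fun q hq =>
    Finset.mem_range.1 (Finset.mem_product.1 (Finset.mem_filter.mp hq).1).2
  have hxi : InjOn (fun q : ℕ × ℕ => (q.2, x q)) (Q : Set (ℕ × ℕ)) := by
    intro p hp q hq hpq
    have hpq' : (p.2, x p) = (q.2, x q) := hpq
    rw [Prod.mk.injEq] at hpq'
    obtain ⟨a1, a2⟩ := hpq'
    by_contra hne
    have h3 : p.1 ≠ q.1 := fun h => hne (Prod.ext h a1)
    have h1 := (hx1 p hp).2
    have h2 := (hx1 q hq).2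
    rw [a2, a1] at h1
    exact Set.disjoint_left.mp ((ht q.2 (hk q hq)).1 h3) h1 h2
  have hcard := hM y (Q.image fun q => (q.2, x q)) ?_
  · rw [Finset.card_image_of_injOn hxi] at hcard
    exact_mod_cast hcard
  · intro p hp
    obtain ⟨q, hq, rfl⟩ := Finset.mem_image.1 hp
    exact ⟨hk q hq, (hx1 q hq).1, hx2 q hq⟩

end Pool.Agent.MEX
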