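import Pool.Agent.MEX.Basic

/-!
# MEX: BOO, a bootstrap argument
-/

set_option autoImplicit false

open Complex Filter Topology Set MeasureTheory

namespace Pool.Agent.MEX

namespace BOO_

/-- The bootstrap argument when `g` is continuous on the whole line. -/
theorem cont_case (X X' : ℝ → ℂ) (g : ℝ → ℝ) (T ε : ℝ)
    (hX : ∀ s ∈ Icc 0 T, HasDerivAt X (X' s) s) (hg : Continuous g)
    (hg0 : ∀ s ∈ Icc 0 T, 0 ≤ g s) (h0 : ‖X 0 - 1‖ ≤ ε)
    (hb : ∀ s ∈ Icc 0 T, ‖X s‖ ≤ 2 → ‖X' s‖ ≤ g s)
    (hlt : ε + ∫ s in (0 : ℝ)..T, g s < 1) :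
    ∀ s ∈ Icc 0 T, ‖X s - 1‖ ≤ ε + ∫ u in (0 : ℝ)..s, g u := by
  intro s hs
  have hT : 0 ≤ T := hs.1.trans hs.2
  have hmono : ∀ x ∈ Icc 0 T, ∫ u in (0 : ℝ)..x, g u ≤ ∫ u in (0 : ℝ)..T, g u := by
    intro x hx
    have hadd := intervalIntegral.integral_add_adjacent_intervals
      (hg.intervalIntegrable 0 x) (hg.intervalIntegrable x T) (μ := volume)
    have hnn : 0 ≤ ∫ u in x..T, g u := by
      apply intervalIntegral.integral_nonneg hx.2
      intro u hu
      exact hg0 u ⟨hx.1.trans hu.1, hu.2⟩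
    linarith
  have key : ∀ η : ℝ, 0 < η → ε + (∫ u in (0 : ℝ)..T, g u) + η * (1 + T) < 1 →
      ∀ x ∈ Icc 0 T, ‖X x - 1‖ ≤ ε + (∫ u in (0 : ℝ)..x, g u) + η * (1 + x) := by
    intro η hη hη1 x hx
    refine image_norm_le_of_norm_deriv_right_lt_deriv_boundary' (f := fun t => X t - 1)
      (f' := X') (a := 0) (b := T)
      (B := fun t => ε + (∫ u in (0 : ℝ)..t, g u) + η * (1 + t))
      (B' := fun t => g t + η) ?_ ?_ ?_ ?_ ?_ ?_ hx
    · intro t ht
      exact (((hX t ht).continuousAt).sub continuousAt_const).continuousWithinAt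
    · intro t ht
      exact ((hX t ⟨ht.1, ht.2.le⟩).sub_const 1).hasDerivWithinAt
    · simp only [intervalIntegral.integral_same, add_zero, mul_one]
      linarith
    · have hc : Continuous fun t : ℝ => ∫ u in (0 : ℝ)..t, g u :=
        intervalIntegral.continuous_primitive (fun a b => hg.intervalIntegrable a b) 0
      exact ((continuous_const.add hc).add
        (continuous_const.mul (continuous_const.add continuous_id))).continuousOn
    · intro t _
      have h1 : HasDerivAt (fun t : ℝ => ∫ u in (0 : ℝ)..t, g u) (g t) t :=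
        intervalIntegral.integral_hasDerivAt_right (hg.intervalIntegrable 0 t)
          (hg.stronglyMeasurableAtFilter _ _) hg.continuousAt
      have h2 : HasDerivAt (fun t : ℝ => η * (1 + t)) (η * 1) t :=
        ((hasDerivAt_id t).const_add 1).const_mul η
      have h3 := (h1.const_add ε).add h2
      rw [mul_one] at h3
      exact h3.hasDerivWithinAt
    · intro t ht heq
      have ht' : t ∈ Icc 0 T := ⟨ht.1, ht.2.le⟩
      have hle : ‖X t - 1‖ < 1 := by
        have heq' : ‖X t - 1‖ = ε + (∫ u in (0 : ℝ)..t, g u) + η * (1 + t) := heq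
        have := hmono t ht'
        have h2 : η * (1 + t) ≤ η * (1 + T) := by
          apply mul_le_mul_of_nonneg_left _ hη.le
          linarith [ht'.2]
        linarith
      have h2 : ‖X t‖ ≤ 2 := by
        calc ‖X t‖ = ‖(X t - 1) + 1‖ := by ring_nf
          _ ≤ ‖X t - 1‖ + ‖(1 : ℂ)‖ := norm_add_le _ _
          _ ≤ 2 := by rw [norm_one]; linarith
      have h3 := hb t ht' h2
      linarith
  -- let `η` tend to `0`
  refine le_of_forall_pos_le_add fun δ hδ => ?_
  set G : ℝ := 1 - (ε + ∫ u in (0 : ℝ)..T, g u) with hG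
  have hGpos : 0 < G := by rw [hG]; linarith
  have hT1 : 0 < 1 + T := by linarith
  set η : ℝ := min (G / 2) δ / (1 + T) with hη
  have hm : 0 < min (G / 2) δ := lt_min (by linarith) hδ
  have hηpos : 0 < η := div_pos hm hT1
  have hηT : η * (1 + T) = min (G / 2) δ := by
    rw [hη]; field_simp
  have h1 : ε + (∫ u in (0 : ℝ)..T, g u) + η * (1 + T) < 1 := by
    rw [hηT]
    have := min_le_left (G / 2) δ
    linarith
  have h2 := key η hηpos h1 s hs
  have h3 : η * (1 + s) ≤ η * (1 + T) :=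
    mul_le_mul_of_nonneg_left (by linarith [hs.2]) hηpos.le
  have h4 := min_le_right (G / 2) δ
  linarith

end BOO_

/-- BOO: a bootstrap argument. -/
theorem p_BOO : T_BOO := by
  intro X X' g T ε hT hX hg hg0 h0 hb hlt s hs
  -- extend `g` to a continuous function on the line
  set G : ℝ → ℝ := IccExtend hT ((Icc (0 : ℝ) T).domRestrict g) with hG
  have hGc : Continuous G := by
    apply Continuous.Icc_extend'
    exact hg.domRestrict
  have hGeq : ∀ t ∈ Icc 0 T, G t = g t := by
    intro t ht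
    rw [hG, IccExtend_of_mem hT _ ht]
    rfl
  have hint : ∀ t ∈ Icc 0 T, ∫ u in (0 : ℝ)..t, G u = ∫ u in (0 : ℝ)..t, g u := by
    intro t ht
    apply intervalIntegral.integral_congr
    intro u hu
    rw [uIcc_of_le ht.1] at hu
    exact hGeq u ⟨hu.1, hu.2.trans ht.2⟩
  have hTT : T ∈ Icc (0 : ℝ) T := ⟨hT, le_refl T⟩
  have h := BOO_.cont_case X X' G T ε hX hGc (fun t ht => by rw [hGeq t ht]; exact hg0 t ht) h0
    (fun t ht h2 => by rw [hGeq t ht]; exact hb t ht h2) (by rw [hint T hTT]; exact hlt) s hs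
  rw [hint s hs] at h
  exact h

end Pool.Agent.MEX
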