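import Pool.Agent.MEX.Basic

/-!
# MEX: CTR, control of the sheets
-/

set_option autoImplicit false

open Complex Filter Topology Set MeasureTheory
open Pool.Agent.Multibrot (rt push)
open Pool.Agent.Limb (F)
open Pool.Agent.PLim (Cyc Res AA fp fpp Rho LocFix)

namespace Pool.Agent.MEX

namespace CTR_

/-- The quadratic differential has coefficient one at its double poles. -/
lemma AA_asy {n k : ℕ} {c : ℂ} {b : ℕ → ℂ} (r : ℕ → ℂ) (h : Cyc n k c b) (j : ℕ) :
    Tendsto (fun x => AA k b r x * (x - b j) ^ 2) (𝓝[≠] (b j)) (𝓝 1) := by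
  have hj : j % k < k := Nat.mod_lt _ h.hp
  rw [cyc_mod h j]
  generalize j % k = j0 at hj
  have h1 : ∀ i ∈ Finset.range k, Tendsto
      (fun x => (((x - b i) ^ 2)⁻¹ + r i * (x - b i)⁻¹) * (x - b j0) ^ 2) (𝓝[≠] (b j0))
      (𝓝 (if i = j0 then 1 else 0)) := by
    intro i hi
    rw [Finset.mem_range] at hi
    by_cases hij : i = j0
    · rw [if_pos hij, hij]
      have h2 : Tendsto (fun x => 1 + r j0 * (x - b j0)) (𝓝[≠] (b j0)) (𝓝 1) := by
        have h3 : Continuous (fun x => 1 + r j0 * (x - b j0)) := by fun_prop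
        have h4 := h3.tendsto (b j0)
        rw [sub_self, mul_zero, add_zero] at h4
        exact h4.mono_left nhdsWithin_le_nhds
      refine h2.congr' ?_
      filter_upwards [self_mem_nhdsWithin] with x hx
      have hx' : x - b j0 ≠ 0 := sub_ne_zero.2 hx
      field_simp
    · rw [if_neg hij]
      have hne : b j0 - b i ≠ 0 := sub_ne_zero.2 fun he => hij (h.dist i j0 hi hj he.symm)
      have h2 : ContinuousAt
          (fun x => (((x - b i) ^ 2)⁻¹ + r i * (x - b i)⁻¹) * (x - b j0) ^ 2) (b j0) := by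
        have h3 : ContinuousAt (fun x => x - b i) (b j0) := by fun_prop
        have h4 : ContinuousAt (fun x => (x - b j0) ^ 2) (b j0) := by fun_prop
        exact (((h3.pow 2).inv₀ (pow_ne_zero 2 hne)).add
          (continuousAt_const.mul (h3.inv₀ hne))).mul h4
      have h5 := h2.tendsto
      simp only [sub_self, ne_eq, OfNat.ofNat_ne_zero, not_false_eq_true, zero_pow,
        mul_zero] at h5
      exact h5.mono_left nhdsWithin_le_nhds
  have h2 := tendsto_finsetSum (Finset.range k) h1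
  have h3 : ∑ i ∈ Finset.range k, (if i = j0 then (1 : ℂ) else 0) = 1 := by
    rw [Finset.sum_ite_eq' (Finset.range k) j0]
    rw [if_pos (Finset.mem_range.2 hj)]
  rw [h3] at h2
  refine h2.congr fun x => ?_
  unfold AA
  rw [Finset.sum_mul]

/-- Cauchy's estimate at the left end. -/
lemma deriv_lf {u : ℂ → ℂ} {L : ℂ} {W : Set ℂ} (hW : LI W) (hu : DifferentiableOn ℂ u W)
    (ht : Tendsto u lf (𝓝 L)) : Tendsto (deriv u) lf (𝓝 0) := by
  rw [Metric.tendsto_nhds]
  intro ε hε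
  have h1 : ∀ᶠ ζ in lf, dist (u ζ) L < ε / 2 := (Metric.tendsto_nhds.1 ht) _ (by positivity)
  obtain ⟨R, hR⟩ := eventually_lf.1 h1
  obtain ⟨R', hR'⟩ := hW.inf
  refine eventually_lf.2 ⟨min R R' - 1, fun ζ hζ => ?_⟩
  have hb : ∀ z ∈ Metric.closedBall ζ 1, z.re < R ∧ z.re < R' := by
    intro z hz
    rw [Metric.mem_closedBall, dist_eq_norm] at hz
    have h2 : |(z - ζ).re| ≤ 1 := (abs_re_le_norm _).trans hz
    rw [sub_re] at h2
    have h3 := (abs_le.1 h2).2
    have h4 := min_le_left R R'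
    have h5 := min_le_right R R'
    constructor <;> linarith
  have hd : DiffContOnCl ℂ (fun z => u z - L) (Metric.ball ζ 1) := by
    refine DifferentiableOn.diffContOnCl ?_
    rw [closure_ball ζ one_ne_zero]
    exact (hu.sub_const L).mono fun z hz => hR' z (hb z hz).2
  have h2 : ‖deriv (fun z => u z - L) ζ‖ ≤ ε / 2 / 1 := by
    refine Complex.norm_deriv_le_of_forall_mem_sphere_norm_le one_pos hd fun z hz => ?_
    have h3 := hR z (hb z (Metric.sphere_subset_closedBall hz)).1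
    rw [dist_eq_norm] at h3
    exact h3.le
  rw [deriv_sub_const, div_one] at h2
  rw [dist_zero_right]
  linarith

/-- The exponential function at the left end. -/
lemma exp_lf : Tendsto exp lf (𝓝 0) := by
  rw [tendsto_zero_iff_norm_tendsto_zero]
  have h1 : Tendsto (fun ζ : ℂ => ζ.re) lf atBot := tendsto_comap
  refine (Real.tendsto_exp_atBot.comp h1).congr fun ζ => ?_
  rw [norm_exp]
  rfl

section

variable {n k : ℕ} {c : ℂ} {b r : ℕ → ℂ} {μ : ℂ} {V : ℕ → Set ℂ} {χ : ℕ → ℂ → ℂ} {J : ℕ}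
  {D : ℂ → ENNReal} {d h : ℝ} {a : ℝ → ℝ} {m : ℕ} {lam : ℝ} {G : ℂ → ℂ}

/-- The multiplier of the cycle does not vanish. -/
lemma fp_ne (hB : Bad n k c b r μ) (j : ℕ) : fp n (b j) ≠ 0 := by
  unfold fp
  refine mul_ne_zero ?_ (pow_ne_zero _ (hB.cyc.nz j))
  have := hB.hn
  exact Nat.cast_ne_zero.2 (by omega)

/-- The pull back of the quadratic differential tends to one at the left end. -/
lemma Lam_lf (hR : Rnd n k c b r μ V χ J D d h a) (hG : Lvl n k c b r χ J h a m lam G) :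
    Tendsto (Lam k b r G) lf (𝓝 1) := by
  set b0 := b (J - m) with hb0
  set L := (∏ i ∈ Finset.range m, fp n (b (J - m + i)))⁻¹ with hL
  have hL0 : L ≠ 0 := inv_ne_zero (Finset.prod_ne_zero_iff.2 fun i _ => fp_ne hR.bad _)
  have hLI := hR.li lam
  have hmem : ∀ᶠ ζ in lf, lam < et h a ζ := hLI.mem_lf
  set u : ℂ → ℂ := fun ζ => (G ζ - b0) * exp (-ζ) with hu
  have hut : Tendsto u lf (𝓝 L) := hG.asy
  have hud : DifferentiableOn ℂ u {ζ : ℂ | lam < et h a ζ} :=
    (hG.diff.sub_const b0).mul (by fun_prop)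
  have hud' := deriv_lf hLI hud hut
  -- the function `G`
  have hGt : Tendsto G lf (𝓝 b0) := by
    have h1 : Tendsto (fun ζ => u ζ * exp ζ) lf (𝓝 (L * 0)) := hut.mul exp_lf
    rw [mul_zero] at h1
    have h2 : Tendsto (fun ζ => u ζ * exp ζ + b0) lf (𝓝 (0 + b0)) := h1.add_const b0
    rw [zero_add] at h2
    refine h2.congr fun ζ => ?_
    rw [hu]
    beta_reduce
    rw [mul_assoc, ← exp_add, neg_add_cancel, exp_zero, mul_one, sub_add_cancel]
  have hGt' : Tendsto G lf (𝓝[≠] b0) := by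
    rw [tendsto_nhdsWithin_iff]
    refine ⟨hGt, ?_⟩
    filter_upwards [hmem] with ζ hζ
    exact hG.avoid hR hζ _
  have h1 : Tendsto (fun ζ => AA k b r (G ζ) * (G ζ - b0) ^ 2) lf (𝓝 1) :=
    (AA_asy r hR.bad.cyc (J - m)).comp hGt'
  -- the derivative
  have h2 : Tendsto (fun ζ => deriv G ζ * exp (-ζ)) lf (𝓝 L) := by
    have h3 : Tendsto (fun ζ => deriv u ζ + u ζ) lf (𝓝 (0 + L)) := hud'.add hut
    rw [zero_add] at h3
    refine h3.congr' ?_
    filter_upwards [hmem] with ζ hζ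
    have h4 : HasDerivAt G (deriv G ζ) ζ :=
      ((hG.diff ζ hζ).differentiableAt (hLI.op.mem_nhds hζ)).hasDerivAt
    have h5 : HasDerivAt (fun ζ : ℂ => exp (-ζ)) (exp (-ζ) * (-1)) ζ :=
      (hasDerivAt_id ζ).neg.cexp
    have h6 : HasDerivAt u (deriv G ζ * exp (-ζ) + (G ζ - b0) * (exp (-ζ) * (-1))) ζ :=
      (h4.sub_const b0).mul h5
    rw [h6.deriv, hu]
    ring
  have h3 : Tendsto (fun ζ => (AA k b r (G ζ) * (G ζ - b0) ^ 2) *
      (deriv G ζ * exp (-ζ)) ^ 2 * (u ζ ^ 2)⁻¹) lf (𝓝 (1 * L ^ 2 * (L ^ 2)⁻¹)) :=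
    (h1.mul (h2.pow 2)).mul ((hut.pow 2).inv₀ (pow_ne_zero 2 hL0))
  rw [one_mul, mul_inv_cancel₀ (pow_ne_zero 2 hL0)] at h3
  refine h3.congr' ?_
  filter_upwards [hmem] with ζ hζ
  have h4 : G ζ - b0 ≠ 0 := sub_ne_zero.2 (hG.avoid hR hζ _)
  have h5 : exp (-ζ) ≠ 0 := exp_ne_zero _
  rw [hu]
  unfold Lam
  field_simp

/-- Periodicity of the pull back. -/
lemma Lam_per (hR : Rnd n k c b r μ V χ J D d h a) (hG : Lvl n k c b r χ J h a m lam G) {ζ : ℂ}
    (hζ : lam < et h a ζ) : Lam k b r G (ζ + 2 * Real.pi * I) = Lam k b r G ζ := by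
  have h1 : (fun z => G (z + 2 * Real.pi * I)) =ᶠ[𝓝 ζ] G := by
    filter_upwards [(hR.li lam).op.mem_nhds hζ] with z hz
    exact hG.per z hz
  have h2 : deriv G (ζ + 2 * Real.pi * I) = deriv G ζ := by
    rw [← h1.deriv_eq, deriv_comp_add_const]
  unfold Lam
  rw [h2, hG.per ζ hζ]

/-- The integral of a periodic function over a ball. -/
lemma ball_le (h3 : T_PER) {D : ℂ → ENNReal} (hD : Measurable D)
    (hp : ∀ ζ, D (ζ + 2 * Real.pi * I) = D ζ) (z : ℂ) {s : ℝ} (hs : s ≤ Real.pi) :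
    ∫⁻ ζ in Metric.ball z s, D ζ ≤
      ∫⁻ ζ in {ζ : ℂ | 0 ≤ ζ.im ∧ ζ.im < 2 * Real.pi}, D ζ := by
  rw [← h3 D hD hp (z.im - Real.pi)]
  refine lintegral_mono_set fun w hw => ?_
  rw [Metric.mem_ball, dist_eq_norm] at hw
  have h2 : |(w - z).im| < Real.pi := lt_of_le_of_lt (abs_im_le_norm _) (hw.trans_le hs)
  rw [sub_im, abs_lt] at h2
  constructor <;> linarith

/-- Control far to the left. -/
lemma far (h2 : T_MVL) (h3 : T_PER) (h4 : T_INN) (h5 : T_EXD)
    (hR : Rnd n k c b r μ V χ J D d h a) (hd : 0 ≤ d)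
    (hG : Lvl n k c b r χ J h a m lam G) (ζ : ℂ) (hζ : ζ.re < h - lam - 1) :
    ‖Lam k b r G ζ - 1‖ ≤ d * Real.exp (ζ.re - (h - lam)) := by
  set X : ℂ → ℂ := fun ζ => 1 - Lam k b r G ζ with hX
  have hU : ∀ ζ : ℂ, ζ.re < h - lam → lam < et h a ζ := fun ζ hζ => by
    have := le_et (h := h) hR.a0 ζ
    linarith
  have hXd : DifferentiableOn ℂ X {ζ : ℂ | ζ.re < h - lam} :=
    ((differentiableOn_const (1 : ℂ)).sub (hG.lam_diff hR)).mono fun ζ hζ => hU ζ hζ
  have hXp : ∀ ζ : ℂ, ζ.re < h - lam → X (ζ + 2 * Real.pi * I) = X ζ := fun ζ hζ => by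
    rw [hX]
    beta_reduce
    rw [Lam_per hR hG (hU ζ hζ)]
  have hXt : Tendsto X lf (𝓝 0) := by
    have h6 := (tendsto_const_nhds (x := (1 : ℂ))).sub (Lam_lf hR hG)
    rw [sub_self] at h6
    exact h6
  have hXw : ∀ᵐ ζ : ℂ, ζ.re < h - lam → ENNReal.ofReal (‖X ζ‖ + ‖1 - X ζ‖) ≤ 1 + D ζ := by
    filter_upwards [hG.wt hR] with ζ hζ hζ'
    have h6 := hζ (hU ζ hζ')
    rw [hX]
    beta_reduce
    rw [sub_sub_cancel]
    exact h6
  have hI := h4 (h - lam) d X D hd hXd hXp hXt hR.Dm hR.Dint hXw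
  -- the bound by the mean value property
  have hop : IsOpen {ζ : ℂ | ζ.re < h - lam} := isOpen_lt continuous_re continuous_const
  have hB : ∀ ζ : ℂ, ζ.re < h - lam - 1 → ‖X ζ‖ ≤ d / Real.pi := by
    intro z hz
    have hsub : Metric.ball z 1 ⊆ {ζ : ℂ | ζ.re < h - lam} := by
      intro w hw
      rw [Metric.mem_ball, dist_eq_norm] at hw
      have h6 : |(w - z).re| < 1 := lt_of_le_of_lt (abs_re_le_norm _) hw
      rw [sub_re, abs_lt] at h6
      show w.re < h - lam
      linarith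
    have h6 := h2 z 1 X one_pos (hXd.mono hsub)
    set Y : ℂ → ℂ := {ζ : ℂ | ζ.re < h - lam}.indicator X with hY
    have hYm : Measurable Y := by
      classical
      rw [hY, ← Set.piecewise_eq_indicator]
      exact ContinuousOn.measurable_piecewise hXd.continuousOn continuousOn_const
        hop.measurableSet
    have hYp : ∀ ζ, ‖Y (ζ + 2 * Real.pi * I)‖ₑ = ‖Y ζ‖ₑ := by
      intro ζ
      congr 1
      rw [hY]
      by_cases hζ : ζ.re < h - lam
      · rw [Set.indicator_of_mem (show ζ ∈ {ζ : ℂ | ζ.re < h - lam} from hζ),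
          Set.indicator_of_mem, hXp ζ hζ]
        show (ζ + 2 * Real.pi * I).re < h - lam
        simpa using hζ
      · rw [Set.indicator_of_notMem (show ζ ∉ {ζ : ℂ | ζ.re < h - lam} from hζ),
          Set.indicator_of_notMem]
        intro h7
        have h8 : (ζ + 2 * Real.pi * I).re < h - lam := h7
        exact hζ (by simpa using h8)
    have h7 := ball_le h3 (D := fun ζ => ‖Y ζ‖ₑ) hYm.enorm hYp z (s := 1)
      (by linarith [Real.pi_gt_three])
    have h8 : ∫⁻ ζ in Metric.ball z 1, ‖Y ζ‖ₑ = ∫⁻ ζ in Metric.ball z 1, ‖X ζ‖ₑ := by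
      refine setLIntegral_congr_fun Metric.isOpen_ball.measurableSet fun w hw => ?_
      rw [hY, Set.indicator_of_mem (hsub hw)]
    have h9 : ∫⁻ ζ in {ζ : ℂ | 0 ≤ ζ.im ∧ ζ.im < 2 * Real.pi}, ‖Y ζ‖ₑ =
        ∫⁻ ζ in {ζ : ℂ | ζ.re < h - lam ∧ 0 ≤ ζ.im ∧ ζ.im < 2 * Real.pi}, ‖X ζ‖ₑ := by
      have e1 : (fun ζ => ‖Y ζ‖ₑ) =
          {ζ : ℂ | ζ.re < h - lam}.indicator (fun ζ => ‖X ζ‖ₑ) := by
        funext ζ
        rw [hY]
        by_cases hζ : ζ ∈ {ζ : ℂ | ζ.re < h - lam}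
        · rw [Set.indicator_of_mem hζ, Set.indicator_of_mem hζ]
        · rw [Set.indicator_of_notMem hζ, Set.indicator_of_notMem hζ, enorm_zero]
      rw [e1, setLIntegral_indicator hop.measurableSet]
      rfl
    rw [h8, h9] at h7
    have h10 := h6.trans (h7.trans hI)
    rw [ENNReal.ofReal_le_ofReal_iff hd, one_pow, mul_one] at h10
    rw [le_div_iff₀ Real.pi_pos, mul_comm]
    exact h10
  have hE := h5 (h - lam - 1) (d / Real.pi) X
    (hXd.mono fun ζ (hζ : ζ.re < h - lam - 1) => show ζ.re < h - lam by linarith)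
    (fun ζ hζ => hXp ζ (by linarith)) hXt hB ζ hζ
  rw [norm_sub_rev]
  refine hE.trans ?_
  have h6 : Real.exp (ζ.re - (h - lam - 1)) = Real.exp (ζ.re - (h - lam)) * Real.exp 1 := by
    rw [← Real.exp_add]
    congr 1
    ring
  rw [h6]
  have h7 : Real.exp 1 ≤ Real.pi := by
    have := Real.exp_one_lt_d9
    have := Real.pi_gt_three
    linarith
  have h8 : 0 ≤ d * Real.exp (ζ.re - (h - lam)) := by positivity
  calc d / Real.pi * (Real.exp (ζ.re - (h - lam)) * Real.exp 1) =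
      d * Real.exp (ζ.re - (h - lam)) * (Real.exp 1 / Real.pi) := by ring
    _ ≤ d * Real.exp (ζ.re - (h - lam)) * 1 := by
        refine mul_le_mul_of_nonneg_left ?_ h8
        rw [div_le_one Real.pi_pos]
        exact h7
    _ = d * Real.exp (ζ.re - (h - lam)) := mul_one _

/-- The integral of the comparison function. -/
lemma int_g {ρ K : ℝ} (hρ : 0 < ρ) :
    ∫ s in (0 : ℝ)..3, K / (ρ + 3 - s) ^ 2 = K / ρ - K / (ρ + 3) := by
  have hd : ∀ s ∈ Set.uIcc (0 : ℝ) 3,
      HasDerivAt (fun s : ℝ => K / (ρ + 3 - s)) (K / (ρ + 3 - s) ^ 2) s := by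
    intro s hs
    rw [Set.uIcc_of_le (by norm_num), Set.mem_Icc] at hs
    have h1 : ρ + 3 - s ≠ 0 := by linarith [hs.2]
    have h2 : HasDerivAt (fun s : ℝ => ρ + 3 - s) (-1) s := by
      simpa using (hasDerivAt_id s).const_sub (ρ + 3)
    have h3 := (h2.inv h1).const_mul K
    refine (h3.congr_deriv ?_).congr_of_eventuallyEq ?_
    · field_simp
    · exact Filter.Eventually.of_forall fun s => by
        simp only [div_eq_mul_inv, Pi.inv_apply]
  have hc : ContinuousOn (fun s : ℝ => K / (ρ + 3 - s) ^ 2) (Set.uIcc (0 : ℝ) 3) := by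
    rw [Set.uIcc_of_le (by norm_num)]
    refine continuousOn_const.div (by fun_prop) fun s hs => ?_
    exact pow_ne_zero 2 (by linarith [hs.2])
  rw [intervalIntegral.integral_eq_sub_of_hasDerivAt hd hc.intervalIntegrable, sub_zero,
    add_sub_cancel_right]

/-- Control near the boundary. -/
lemma near {C₀ : ℝ} (hC₀ : 1 ≤ C₀)
    (h1 : ∀ (a : ℂ) (s d : ℝ) (X : ℂ → ℂ), 0 < s →
      DifferentiableOn ℂ X (Metric.ball a s) →
      ∫⁻ z in Metric.ball a s, ENNReal.ofReal (‖X z‖ - (X z).re) ≤ ENNReal.ofReal d →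
      0 ≤ d → d ≤ s ^ 2 → ‖X a‖ ≤ 2 → ‖deriv X a‖ ≤ C₀ * √d / s ^ 2)
    (h2 : T_MVL) (h3 : T_PER) (h4 : T_INN) (h5 : T_EXD) (h6 : T_BOO)
    (hR : Rnd n k c b r μ V χ J D d h a) {t : ℝ} (hS : Small (8 * C₀) d t)
    (hG : Lvl n k c b r χ J h a m lam G) (ζ : ℂ) (hζ : lam + t ≤ et h a ζ)
    (hζ3 : et h a ζ - lam < 3) :
    ‖Lam k b r G ζ - 1‖ ≤ 8 * C₀ * √d / (et h a ζ - lam) := by
  have hd := hS.hd
  have ht := hS.ht
  set ρ := et h a ζ - lam with hρ
  have hρt : t ≤ ρ := by linarith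
  have hρ0 : 0 < ρ := by linarith
  have hsd : 0 < √d := Real.sqrt_pos.2 hd
  have hsdd : √d * √d = d := Real.mul_self_sqrt hd.le
  have hsd1 : √d ≤ 1 / 3 := by
    rw [Real.sqrt_le_left (by norm_num)]
    have := hS.hd1
    norm_num
    linarith
  have hLI := hR.li lam
  set z : ℝ → ℂ := fun s => ζ - ((3 - s : ℝ) : ℂ) with hz
  have hzet : ∀ s : ℝ, et h a (z s) = lam + (ρ + 3 - s) := by
    intro s
    rw [hz]
    beta_reduce
    rw [et_sub, hρ]
    ring
  have hXd := hG.lam_diff hR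
  -- the derivative estimate
  have hder : ∀ s ∈ Icc (0 : ℝ) 3, ‖Lam k b r G (z s)‖ ≤ 2 →
      ‖deriv (Lam k b r G) (z s)‖ ≤ 4 * C₀ * √d / (ρ + 3 - s) ^ 2 := by
    intro s hs h7
    have hs' : 0 < ρ + 3 - s := by linarith [hs.2]
    have hball : Metric.ball (z s) ((ρ + 3 - s) / 2) ⊆ {ζ : ℂ | lam < et h a ζ} := by
      intro w hw
      refine et_ball hR.lip hw ?_
      rw [hzet]
      have h8 : √2 ≤ 2 := by
        rw [Real.sqrt_le_left (by norm_num)]
        norm_num
      nlinarith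
    have h8 : ∫⁻ w in Metric.ball (z s) ((ρ + 3 - s) / 2),
        ENNReal.ofReal (‖Lam k b r G w‖ - (Lam k b r G w).re) ≤ ENNReal.ofReal d := by
      calc ∫⁻ w in Metric.ball (z s) ((ρ + 3 - s) / 2),
            ENNReal.ofReal (‖Lam k b r G w‖ - (Lam k b r G w).re) ≤
          ∫⁻ w in Metric.ball (z s) ((ρ + 3 - s) / 2), D w := by
            refine lintegral_mono_ae ?_
            refine (ae_restrict_iff' Metric.isOpen_ball.measurableSet).2 ?_
            filter_upwards [hG.wt hR] with w hw hwb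
            have h9 := hw (hball hwb)
            have h10 : ‖Lam k b r G w‖ - (Lam k b r G w).re ≤
                (‖1 - Lam k b r G w‖ + ‖Lam k b r G w‖) - 1 := by
              have h11 := re_le_norm (1 - Lam k b r G w)
              rw [sub_re, one_re] at h11
              linarith
            refine (ENNReal.ofReal_le_ofReal h10).trans ?_
            rw [ENNReal.ofReal_sub _ zero_le_one, ENNReal.ofReal_one]
            exact tsub_le_iff_left.2 h9
        _ ≤ ∫⁻ ζ in {ζ : ℂ | 0 ≤ ζ.im ∧ ζ.im < 2 * Real.pi}, D ζ := by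
            refine ball_le h3 hR.Dm hR.Dper _ ?_
            have := Real.pi_gt_three
            linarith [hs.1]
        _ ≤ ENNReal.ofReal d := hR.Dint
    have h9 : d ≤ ((ρ + 3 - s) / 2) ^ 2 := by
      have h10 := hS.sq
      have h11 : t ^ 2 ≤ (ρ + 3 - s) ^ 2 := by
        refine pow_le_pow_left₀ ht.le ?_ 2
        linarith [hs.2]
      have h12 : 64 * d ≤ (8 * C₀) ^ 2 * d := by
        refine mul_le_mul_of_nonneg_right ?_ hd.le
        nlinarith
      have h13 : ((ρ + 3 - s) / 2) ^ 2 = (ρ + 3 - s) ^ 2 / 4 := by ring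
      rw [h13]
      linarith
    have h10 := h1 (z s) ((ρ + 3 - s) / 2) d (Lam k b r G) (by linarith) (hXd.mono hball) h8
      hd.le h9 h7
    refine h10.trans (le_of_eq ?_)
    field_simp
    ring
  -- the derivative along the ray
  have hray : ∀ s ∈ Icc (0 : ℝ) 3, HasDerivAt (fun s => Lam k b r G (z s))
      (deriv (Lam k b r G) (z s)) s := by
    intro s hs
    have hs' : 0 < ρ + 3 - s := by linarith [hs.2]
    have h7 : lam < et h a (z s) := by
      rw [hzet]
      linarith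
    have h8 : HasDerivAt (Lam k b r G) (deriv (Lam k b r G) (z s)) (z s) :=
      ((hXd _ h7).differentiableAt (hLI.op.mem_nhds h7)).hasDerivAt
    have h9 : HasDerivAt (fun w : ℂ => ζ - (3 - w)) 1 (s : ℂ) := by
      have h10 := (((hasDerivAt_id (s : ℂ)).const_sub 3).const_sub ζ)
      simpa using h10
    have h11 : z s = ζ - (3 - (s : ℂ)) := by
      rw [hz]
      push_cast
      ring
    rw [h11] at h8
    have h12 := (h8.comp (s : ℂ) h9).comp_ofReal
    rw [mul_one, ← h11] at h12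
    refine h12.congr_of_eventuallyEq (Filter.Eventually.of_forall fun u => ?_)
    rw [hz]
    simp only [Function.comp_apply]
    congr 1
    push_cast
    ring
  -- the starting point
  have hre : (z 0).re ≤ h - lam - 2 := by
    have h7 := et_le (h := h) hR.a1 (z 0)
    rw [hzet] at h7
    linarith
  have hstart : ‖Lam k b r G (z 0) - 1‖ ≤ d := by
    have h7 := far h2 h3 h4 h5 hR hd.le hG (z 0) (by linarith)
    refine h7.trans ?_
    have h8 : Real.exp ((z 0).re - (h - lam)) ≤ 1 := Real.exp_le_one_iff.2 (by linarith)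
    nlinarith
  have hint : ∫ s in (0 : ℝ)..3, 4 * C₀ * √d / (ρ + 3 - s) ^ 2 ≤ 4 * C₀ * √d / ρ := by
    rw [int_g hρ0]
    have : 0 ≤ 4 * C₀ * √d / (ρ + 3) := by positivity
    linarith
  have hsmall : 4 * C₀ * √d / ρ ≤ 1 / 2 := by
    rw [div_le_iff₀ hρ0]
    have := hS.sqrt
    linarith
  have hB := h6 (fun s => Lam k b r G (z s)) (fun s => deriv (Lam k b r G) (z s))
    (fun s => 4 * C₀ * √d / (ρ + 3 - s) ^ 2) 3 d (by norm_num) hray
    (by
      refine continuousOn_const.div (by fun_prop) fun s hs => ?_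
      exact pow_ne_zero 2 (by linarith [hs.2]))
    (fun s hs => by positivity) hstart hder
    (by
      have := hS.hd1
      linarith) 3 (by norm_num)
  have hz3 : z 3 = ζ := by
    rw [hz]
    simp
  beta_reduce at hB
  rw [hz3] at hB
  refine hB.trans ?_
  have h7 : d ≤ √d / ρ := by
    rw [le_div_iff₀ hρ0]
    nlinarith
  calc d + ∫ s in (0 : ℝ)..3, 4 * C₀ * √d / (ρ + 3 - s) ^ 2 ≤ √d / ρ + 4 * C₀ * √d / ρ :=
        add_le_add h7 hint
    _ = (1 + 4 * C₀) * √d / ρ := by ring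
    _ ≤ 8 * C₀ * √d / ρ := by
        refine div_le_div_of_nonneg_right (mul_le_mul_of_nonneg_right ?_ hsd.le) hρ0.le
        linarith

end

end CTR_

/-- CTR: control of the sheets. -/
theorem p_CTR (h1 : T_HAR) (h2 : T_MVL) (h3 : T_PER) (h4 : T_INN) (h5 : T_EXD) (h6 : T_BOO) :
    T_CTR := by
  obtain ⟨C₀, hC₀, h1⟩ := h1
  refine ⟨8 * C₀, by linarith, ?_⟩
  intro n k c b r μ V χ J D d t h a m lam G hR hS hG
  have hd := hS.hd
  have ht := hS.ht
  have hsd : 0 < √d := Real.sqrt_pos.2 hd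
  have hsdd : √d * √d = d := Real.mul_self_sqrt hd.le
  have hsd1 : √d ≤ 1 / 3 := by
    rw [Real.sqrt_le_left (by norm_num)]
    have := hS.hd1
    norm_num
    linarith
  refine ⟨fun ζ hζ => ?_, fun ζ hζ => ?_⟩
  · rcases lt_or_ge (et h a ζ - lam) 3 with h7 | h7
    · exact CTR_.near hC₀ h1 h2 h3 h4 h5 h6 hR hS hG ζ hζ h7
    · set ρ := et h a ζ - lam with hρ
      have hρ0 : 0 < ρ := by linarith
      have h8 := et_le (h := h) hR.a1 ζ
      have h9 := CTR_.far h2 h3 h4 h5 hR hd.le hG ζ (by linarith)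
      refine h9.trans ?_
      have h10 : Real.exp (ζ.re - (h - lam)) ≤ Real.exp (1 / 2 - ρ) :=
        Real.exp_le_exp.2 (by linarith)
      have h11 : Real.exp (1 / 2 - ρ) ≤ 1 / ρ := by
        have h12 : ρ ≤ Real.exp (ρ - 1 / 2) := by
          have := Real.add_one_le_exp (ρ - 1 / 2)
          linarith
        have h13 : 1 / 2 - ρ = -(ρ - 1 / 2) := by ring
        rw [h13, Real.exp_neg]
        exact (inv_anti₀ hρ0 h12).trans (le_of_eq (one_div ρ).symm)
      calc d * Real.exp (ζ.re - (h - lam)) ≤ d * (1 / ρ) :=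
            mul_le_mul_of_nonneg_left (h10.trans h11) hd.le
        _ = √d * √d * (1 / ρ) := by rw [hsdd]
        _ ≤ 8 * C₀ * √d * (1 / ρ) := by
            refine mul_le_mul_of_nonneg_right ?_ (by positivity)
            exact mul_le_mul_of_nonneg_right (by linarith) hsd.le
        _ = 8 * C₀ * √d / ρ := by ring
  · have h9 := CTR_.far h2 h3 h4 h5 hR hd.le hG ζ (by linarith)
    refine h9.trans ?_
    have h10 : 0 ≤ d * Real.exp (ζ.re - (h - lam)) := by positivity
    have h11 : 8 * C₀ * d * Real.exp (ζ.re - (h - lam)) =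
      8 * C₀ * (d * Real.exp (ζ.re - (h - lam))) := by ring
    rw [h11]
    nlinarith

end Pool.Agent.MEX
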