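import Pool.Agent.MEX.Basic

/-!
# MEX, job CYU: charts at the poles are unique
-/

set_option autoImplicit false

open Complex Filter Topology Set MeasureTheory
open Pool.Agent.Multibrot (rt push)
open Pool.Agent.Limb (F)
open Pool.Agent.PLim (Cyc Res AA fp fpp Rho LocFix)

namespace Pool.Agent.MEX

namespace CYU_

/-- the regular part of the quadratic differential at a pole -/
lemma sqrt_local {n k : ℕ} {c : ℂ} {b r : ℕ → ℂ} {μ : ℂ} (hB : Bad n k c b r μ) (j : ℕ) :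
    ∃ (ρ : ℝ) (s : ℂ → ℂ), 0 < ρ ∧ DifferentiableOn ℂ s (Metric.ball (b j) ρ) ∧ s (b j) = 1 ∧
      (∀ x, s x ≠ 0) ∧
      ∀ x ∈ Metric.ball (b j) ρ, x ≠ b j → s x ^ 2 = AA k b r x * (x - b j) ^ 2 := by
  have hk : 0 < k := hB.cyc.hp
  set i : ℕ := j % k with hi
  have hik : i < k := Nat.mod_lt _ hk
  have hbi : b j = b i := cyc_mod hB.cyc j
  rw [hbi]
  set S : Finset ℕ := (Finset.range k).erase i with hS
  set q : ℂ → ℂ := fun x => 1 + r i * (x - b i) + (x - b i) ^ 2 *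
    ∑ l ∈ S, (((x - b l) ^ 2)⁻¹ + r l * (x - b l)⁻¹) with hq
  have hne : ∀ l ∈ S, b i ≠ b l := by
    intro l hl he
    rw [hS, Finset.mem_erase, Finset.mem_range] at hl
    exact hl.1 (hB.cyc.dist i l hik hl.2 he).symm
  have hqd : ∀ x : ℂ, (∀ l ∈ S, x ≠ b l) → DifferentiableAt ℂ q x := by
    intro x hx
    have h : ∀ l ∈ S, DifferentiableAt ℂ (fun x => ((x - b l) ^ 2)⁻¹ + r l * (x - b l)⁻¹) x := by
      intro l hl
      have h : x - b l ≠ 0 := sub_ne_zero.2 (hx l hl)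
      have h2 : (x - b l) ^ 2 ≠ 0 := pow_ne_zero _ h
      have h3 : DifferentiableAt ℂ (fun x => x - b l) x := differentiableAt_id.sub_const _
      exact ((h3.pow 2).inv h2).add ((h3.inv h).const_mul _)
    have h4 : DifferentiableAt ℂ
        (fun x => ∑ l ∈ S, (((x - b l) ^ 2)⁻¹ + r l * (x - b l)⁻¹)) x :=
      DifferentiableAt.fun_sum h
    have h5 : DifferentiableAt ℂ (fun x : ℂ => 1 + r i * (x - b i)) x := by fun_prop
    have h6 : DifferentiableAt ℂ (fun x : ℂ => (x - b i) ^ 2) x := by fun_prop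
    exact h5.add (h6.mul h4)
  have hq1 : q (b i) = 1 := by
    rw [hq]
    simp
  have hev1 : ∀ᶠ x in 𝓝 (b i), ∀ l ∈ S, x ≠ b l := by
    rw [Filter.eventually_all_finset]
    exact fun l hl => isOpen_ne.mem_nhds (hne l hl)
  have hev2 : ∀ᶠ x in 𝓝 (b i), q x ∈ slitPlane := by
    have h := (hqd (b i) hne).continuousAt
    apply h.eventually_mem
    rw [hq1]
    exact isOpen_slitPlane.mem_nhds one_mem_slitPlane
  obtain ⟨ρ, hρ, hball⟩ := Metric.eventually_nhds_iff_ball.1 (hev1.and hev2)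
  refine ⟨ρ, fun x => exp (log (q x) / 2), hρ, ?_, ?_, fun x => exp_ne_zero _, ?_⟩
  · intro x hx
    obtain ⟨h1, h2⟩ := hball x hx
    exact (((hqd x h1).clog h2).div_const 2).cexp.differentiableWithinAt
  · beta_reduce
    rw [hq1, log_one, zero_div, exp_zero]
  · intro x hx hxb
    obtain ⟨h1, h2⟩ := hball x hx
    have hx0 : x - b i ≠ 0 := sub_ne_zero.2 hxb
    beta_reduce
    rw [← exp_nat_mul]
    have e1 : ((2 : ℕ) : ℂ) * (log (q x) / 2) = log (q x) := by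
      push_cast
      ring
    rw [e1, exp_log (slitPlane_ne_zero h2)]
    have e2 : AA k b r x = (((x - b i) ^ 2)⁻¹ + r i * (x - b i)⁻¹) +
        ∑ l ∈ S, (((x - b l) ^ 2)⁻¹ + r l * (x - b l)⁻¹) := by
      unfold AA
      rw [hS]
      exact (Finset.add_sum_erase (Finset.range k)
        (fun l => ((x - b l) ^ 2)⁻¹ + r l * (x - b l)⁻¹) (Finset.mem_range.2 hik)).symm
    rw [e2, hq]
    field_simp

/-- the linearising coordinate at a pole -/
lemma coord {n k : ℕ} {c : ℂ} {b r : ℕ → ℂ} {μ : ℂ} (hB : Bad n k c b r μ) (j : ℕ) :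
    ∃ (ρ : ℝ) (s E L : ℂ → ℂ), 0 < ρ ∧ DifferentiableOn ℂ s (Metric.ball (b j) ρ) ∧
      (∀ x, s x ≠ 0) ∧ E (b j) = 0 ∧ ContinuousAt E (b j) ∧
      (∀ x ∈ Metric.ball (b j) ρ, x ≠ b j → s x ^ 2 = AA k b r x * (x - b j) ^ 2) ∧
      (∀ x ∈ Metric.ball (b j) ρ,
        HasDerivAt (fun x => (x - b j) * exp (E x)) (exp (E x) * s x) x) ∧
      ∀ᶠ x in 𝓝 (b j), L ((x - b j) * exp (E x)) = x := by
  obtain ⟨ρ, s, hρ, hs, hs1, hs0, hsq⟩ := sqrt_local hB j
  have hb : b j ∈ Metric.ball (b j) ρ := Metric.mem_ball_self hρ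
  have hd : DifferentiableOn ℂ (dslope s (b j)) (Metric.ball (b j) ρ) :=
    (differentiableOn_dslope (Metric.isOpen_ball.mem_nhds hb)).2 hs
  obtain ⟨E, hE0, hE⟩ := hd.isExactOn_ball.with_val_at (b j) 0
  have hu : ∀ x ∈ Metric.ball (b j) ρ,
      HasDerivAt (fun x => (x - b j) * exp (E x)) (exp (E x) * s x) x := by
    intro x hx
    have h1 := ((hasDerivAt_id x).sub_const (b j)).mul (hE x hx).cexp
    refine h1.congr_deriv ?_
    have h2 : (x - b j) * dslope s (b j) x = s x - s (b j) := by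
      have := sub_smul_dslope s (b j) x
      simpa using this
    rw [hs1] at h2
    simp only [id]
    linear_combination (exp (E x)) * h2
  have hun : DifferentiableOn ℂ (fun x => (x - b j) * exp (E x)) (Metric.ball (b j) ρ) :=
    fun x hx => (hu x hx).differentiableAt.differentiableWithinAt
  have han : AnalyticAt ℂ (fun x => (x - b j) * exp (E x)) (b j) :=
    hun.analyticAt (Metric.isOpen_ball.mem_nhds hb)
  have hst : HasStrictDerivAt (fun x => (x - b j) * exp (E x)) 1 (b j) := by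
    have h1 := han.hasStrictDerivAt
    rw [(hu (b j) hb).deriv, hE0, hs1, exp_zero, mul_one] at h1
    exact h1
  refine ⟨ρ, s, E, (hst.hasStrictFDerivAt_equiv one_ne_zero).localInverse _ _ _, hρ, hs, hs0,
    hE0, (hE (b j) hb).continuousAt, hsq, hu, ?_⟩
  exact (hst.hasStrictFDerivAt_equiv one_ne_zero).eventually_left_inverse

/-- `exp ζ → 0` -/
lemma exp_lf : Tendsto (fun ζ : ℂ => exp ζ) lf (𝓝 0) := tendsto_exp_comap_re_atBot

/-- a chart is near the pole at the left end -/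
lemma chart_lim {k : ℕ} {b r : ℕ → ℂ} {j : ℕ} {W : Set ℂ} {g : ℂ → ℂ} (hg : Cht k b r j W g) :
    Tendsto g lf (𝓝 (b j)) := by
  have h1 := hg.asy.mul exp_lf
  rw [one_mul] at h1
  have h2 : (fun ζ => (g ζ - b j) * exp (-ζ) * exp ζ) = fun ζ => g ζ - b j := by
    funext ζ
    rw [mul_assoc, ← exp_add, neg_add_cancel, exp_zero, mul_one]
  rw [h2] at h1
  have h3 := h1.add_const (b j)
  simpa using h3

/-- the coordinate of a chart is the exponential function -/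
lemma chart_exp {n k : ℕ} {c : ℂ} {b r : ℕ → ℂ} {μ : ℂ} (hB : Bad n k c b r μ) (j : ℕ) :
    ∃ L : ℂ → ℂ, ∀ (W : Set ℂ) (g : ℂ → ℂ), Cht k b r j W g → ∀ᶠ ζ in lf, g ζ = L (exp ζ) := by
  obtain ⟨ρ, s, E, L, hρ, hs, hs0, hE0, hEc, hsq, hu, hL⟩ := coord hB j
  refine ⟨L, fun W g hg => ?_⟩
  have hlim := chart_lim hg
  have hb : b j ∈ Metric.ball (b j) ρ := Metric.mem_ball_self hρ
  have hev1 : ∀ᶠ ζ in lf, g ζ ∈ Metric.ball (b j) ρ :=
    hlim.eventually_mem (Metric.isOpen_ball.mem_nhds hb)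
  have hev2 : ∀ᶠ ζ in lf, L ((g ζ - b j) * exp (E (g ζ))) = g ζ := hlim.eventually hL
  have hWl : ∀ᶠ ζ in lf, ζ ∈ W := hg.li.mem_lf
  obtain ⟨R, hR⟩ := eventually_lf.1 (hWl.and hev1)
  -- the half plane
  set H : Set ℂ := {ζ : ℂ | ζ.re < R} with hH
  have hHo : IsOpen H := isOpen_lt continuous_re continuous_const
  have hHp : IsPreconnected H := (convex_halfSpace_re_lt R).isPreconnected
  have hHl : H ∈ lf := eventually_lf.2 ⟨R, fun ζ hζ => hζ⟩
  have hgd : ∀ ζ ∈ H, DifferentiableAt ℂ g ζ := fun ζ hζ =>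
    (hg.nm.diff ζ (hR ζ hζ).1).differentiableAt (hg.li.op.mem_nhds (hR ζ hζ).1)
  have hgdH : DifferentiableOn ℂ g H := fun ζ hζ => (hgd ζ hζ).differentiableWithinAt
  have hgb : ∀ ζ ∈ H, g ζ - b j ≠ 0 := fun ζ hζ => sub_ne_zero.2 (hg.nm.avoid ζ (hR ζ hζ).1 j)
  set f : ℂ → ℂ := fun ζ => s (g ζ) * deriv g ζ / (g ζ - b j) with hf
  have hfc : ContinuousOn f H := by
    have h1 : ContinuousOn (fun ζ => s (g ζ)) H :=
      hs.continuousOn.comp hgdH.continuousOn fun ζ hζ => (hR ζ hζ).2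
    have h2 : ContinuousOn (deriv g) H := (hgdH.deriv hHo).continuousOn
    exact (h1.mul h2).div (hgdH.continuousOn.sub continuousOn_const) hgb
  have hfs : EqOn (f ^ 2) 1 H := by
    intro ζ hζ
    have h1 := hsq (g ζ) (hR ζ hζ).2 (hg.nm.avoid ζ (hR ζ hζ).1 j)
    have h2 := hg.nm.nat ζ (hR ζ hζ).1
    have h3 := hgb ζ hζ
    simp only [Pi.pow_apply, Pi.one_apply, hf]
    rw [div_pow, mul_pow, h1]
    rw [div_eq_one_iff_eq (pow_ne_zero 2 h3)]
    linear_combination (g ζ - b j) ^ 2 * h2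
  set v : ℂ → ℂ := fun ζ => (g ζ - b j) * exp (E (g ζ)) with hv
  have hvd : ∀ ζ ∈ H, HasDerivAt v (v ζ * f ζ) ζ := by
    intro ζ hζ
    have h1 := (hu (g ζ) (hR ζ hζ).2).comp ζ (hgd ζ hζ).hasDerivAt
    refine h1.congr_deriv ?_
    simp only [hv, hf]
    have h3 := hgb ζ hζ
    field_simp
  have hvl : Tendsto (fun ζ => v ζ * exp (-ζ)) lf (𝓝 1) := by
    have h1 : Tendsto (fun ζ => exp (E (g ζ))) lf (𝓝 1) := by
      have h2 := (hEc.tendsto.comp hlim).cexp
      rw [hE0, exp_zero] at h2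
      exact h2
    have h3 := hg.asy.mul h1
    rw [one_mul] at h3
    refine h3.congr fun ζ => ?_
    simp only [hv]
    ring
  have hconst : ∀ σ : ℂ, (∀ ζ ∈ H, f ζ = σ) → ∃ C : ℂ, ∀ ζ ∈ H, v ζ * exp (-(σ * ζ)) = C := by
    intro σ hσ
    have hder : ∀ ζ ∈ H, HasDerivAt (fun ζ => v ζ * exp (-(σ * ζ))) 0 ζ := by
      intro ζ hζ
      have h1 : HasDerivAt (fun ζ : ℂ => exp (-(σ * ζ))) (exp (-(σ * ζ)) * (-(σ * 1))) ζ :=
        (((hasDerivAt_id ζ).const_mul σ).neg).cexp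
      refine ((hvd ζ hζ).mul h1).congr_deriv ?_
      rw [hσ ζ hζ]
      ring
    obtain ⟨C, hC⟩ := hHo.exists_is_const_of_deriv_eq_zero hHp
      (fun ζ hζ => (hder ζ hζ).differentiableAt.differentiableWithinAt)
      (fun ζ hζ => (hder ζ hζ).deriv)
    exact ⟨C, fun ζ hζ => hC ζ hζ⟩
  have hvexp : ∀ ζ ∈ H, v ζ = exp ζ := by
    rcases hHp.eq_one_or_eq_neg_one_of_sq_eq hfc hfs with h | h
    · obtain ⟨C, hC⟩ := hconst 1 (fun ζ hζ => h hζ)
      have h1 : Tendsto (fun ζ => v ζ * exp (-ζ)) lf (𝓝 C) := by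
        refine tendsto_const_nhds.congr' ?_
        filter_upwards [hHl] with ζ hζ
        rw [← hC ζ hζ, one_mul]
      have h2 : C = 1 := tendsto_nhds_unique h1 hvl
      intro ζ hζ
      have h3 := hC ζ hζ
      rw [h2, one_mul] at h3
      have h4 : exp (-ζ) * exp ζ = 1 := by rw [← exp_add, neg_add_cancel, exp_zero]
      linear_combination (exp ζ) * h3 - v ζ * h4
    · exfalso
      obtain ⟨C, hC⟩ := hconst (-1) (fun ζ hζ => h hζ)
      have h1 : Tendsto (fun ζ => v ζ * exp (-ζ) * (exp ζ * exp ζ)) lf (𝓝 (1 * (0 * 0))) :=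
        hvl.mul (exp_lf.mul exp_lf)
      have h2 : Tendsto (fun ζ => v ζ * exp (-ζ) * (exp ζ * exp ζ)) lf (𝓝 C) := by
        refine tendsto_const_nhds.congr' ?_
        filter_upwards [hHl] with ζ hζ
        rw [← hC ζ hζ]
        have h4 : exp (-ζ) * exp ζ = 1 := by rw [← exp_add, neg_add_cancel, exp_zero]
        have h5 : exp (-(-1 * ζ)) = exp ζ := by
          congr 1
          ring
        rw [h5]
        linear_combination -(v ζ * exp ζ) * h4
      have h3 : C = 0 := by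
        have := tendsto_nhds_unique h2 h1
        simpa using this
      have h4 : Tendsto (fun ζ => v ζ * exp (-ζ)) lf (𝓝 0) := by
        refine tendsto_const_nhds.congr' ?_
        filter_upwards [hHl] with ζ hζ
        have h5 := hC ζ hζ
        rw [h3] at h5
        have h6 : v ζ = 0 := (mul_eq_zero.1 h5).resolve_right (exp_ne_zero _)
        rw [h6, zero_mul]
      exact zero_ne_one (tendsto_nhds_unique h4 hvl)
  filter_upwards [hev2, hHl] with ζ h1 h2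
  rw [← hvexp ζ h2]
  exact h1.symm

end CYU_

theorem p_CYU (h1 : T_UNQ) : T_CYU := by
  intro n k c b r μ j W₁ W₂ g₁ g₂ hB hg₁ hg₂
  obtain ⟨L, hL⟩ := CYU_.chart_exp hB j
  have h2 := (hL W₁ g₁ hg₁).and (hL W₂ g₂ hg₂)
  have hli := hg₁.li.inter hg₂.li
  obtain ⟨R, hR⟩ := eventually_lf.1 (h2.and hli.mem_lf)
  set ζ₀ : ℂ := ((R - 1 : ℝ) : ℂ) with hζ₀
  have hre : ζ₀.re < R := by
    rw [hζ₀, ofReal_re]
    linarith
  have hev : g₁ =ᶠ[𝓝 ζ₀] g₂ := by
    have h3 : {ζ : ℂ | ζ.re < R} ∈ 𝓝 ζ₀ :=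
      (isOpen_lt continuous_re continuous_const).mem_nhds hre
    filter_upwards [h3] with ζ hζ
    obtain ⟨⟨h4, h5⟩, -⟩ := hR ζ hζ
    rw [h4, h5]
  exact h1 k b r (W₁ ∩ W₂) g₁ g₂ ζ₀ hli.op hli.isPreconnected (hg₁.nm.mono inter_subset_left)
    (hg₂.nm.mono inter_subset_right) (hR ζ₀ hre).2 hev.eq_of_nhds hev.deriv_eq

end Pool.Agent.MEX
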