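import Pool.Agent.MEX.Targets

set_option autoImplicit false

namespace Pool.Agent.MEX

/-- the final choice of the constants -/
theorem p_ELE : T_ELE := by
  intro K hK
  have hπ := Real.pi_pos
  refine ⟨1 / (32 * Real.pi * (7 * K) ^ 4), by positivity, ?_⟩
  intro δ x hδ hδ2 hx hlt
  set s : ℝ := 7 * K with hs
  have hs7 : 7 ≤ s := by rw [hs]; linarith
  have hs0 : 0 < s := by linarith
  set Λ : ℝ := 1 + Real.log (1 / δ) with hΛ
  have hl0 : 0 ≤ Real.log (1 / δ) := by
    apply Real.log_nonneg
    rw [le_div_iff₀ hδ]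
    linarith
  have hΛ1 : 1 ≤ Λ := by rw [hΛ]; linarith
  have hΛ0 : 0 < Λ := by linarith
  set y : ℝ := 32 * Real.pi * x with hy
  have hy0 : 0 < y := by rw [hy]; positivity
  set r : ℝ := δ / (s ^ 2 * Λ) with hr
  have hr0 : 0 < r := by rw [hr]; positivity
  have hyr : y < r ^ 2 := by
    have h1 : y < 32 * Real.pi * (1 / (32 * Real.pi * s ^ 4) * LL δ) := by
      rw [hy]
      exact mul_lt_mul_of_pos_left hlt (by positivity)
    have h2 : 32 * Real.pi * (1 / (32 * Real.pi * s ^ 4) * LL δ) = r ^ 2 := by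
      unfold LL
      rw [← hΛ, hr]
      field_simp
    rw [h2] at h1
    exact h1
  have hrδ : r ≤ 1 / 98 := by
    rw [hr, div_le_iff₀ (by positivity)]
    have h1 : 49 ≤ s ^ 2 := by nlinarith
    have h2 : 49 ≤ s ^ 2 * Λ := by nlinarith
    linarith
  constructor
  · have h1 : r ^ 2 ≤ 1 / 98 * (1 / 98) := by
      rw [sq]
      exact mul_le_mul hrδ hrδ hr0.le (by norm_num)
    linarith
  · set w : ℝ := √y with hw
    have hw0 : 0 < w := Real.sqrt_pos.2 hy0
    have hwr : w < r := by rw [hw]; exact (Real.sqrt_lt' hr0).2 hyr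
    have hww : w * w = y := Real.mul_self_sqrt hy0.le
    have hlog : Real.log (1 / y) = 2 * Real.log (r / w) + 2 * Real.log (1 / r) := by
      rw [← hww, Real.log_div one_ne_zero (by positivity), Real.log_mul hw0.ne' hw0.ne',
        Real.log_div hr0.ne' hw0.ne', Real.log_div one_ne_zero hr0.ne', Real.log_one]
      ring
    have h1 : Real.log (r / w) ≤ r / w - 1 := Real.log_le_sub_one_of_pos (by positivity)
    have h1' : w * Real.log (r / w) ≤ r - w := by
      calc w * Real.log (r / w) ≤ w * (r / w - 1) := mul_le_mul_of_nonneg_left h1 hw0.le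
        _ = r - w := by field_simp
    have h2 : Real.log (1 / r) = 2 * Real.log s + Real.log Λ + Real.log (1 / δ) := by
      rw [hr, one_div_div, Real.log_div (by positivity) hδ.ne',
        Real.log_mul (by positivity) hΛ0.ne', Real.log_pow,
        Real.log_div one_ne_zero hδ.ne', Real.log_one]
      push_cast
      ring
    have h3 : Real.log s ≤ s - 1 := Real.log_le_sub_one_of_pos hs0
    have h4 : Real.log Λ ≤ Λ - 1 := Real.log_le_sub_one_of_pos hΛ0
    have h5 : Real.log (1 / r) ≤ 2 * (s - 1) + 2 * (Λ - 1) := by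
      rw [h2]
      have : Real.log (1 / δ) = Λ - 1 := by rw [hΛ]; ring
      linarith
    have h6 : 0 ≤ 2 * (s - 1) + 2 * (Λ - 1) := by linarith
    have h7 : w * Real.log (1 / r) ≤ r * (2 * (s - 1) + 2 * (Λ - 1)) :=
      calc w * Real.log (1 / r) ≤ w * (2 * (s - 1) + 2 * (Λ - 1)) :=
            mul_le_mul_of_nonneg_left h5 hw0.le
        _ ≤ r * (2 * (s - 1) + 2 * (Λ - 1)) := mul_le_mul_of_nonneg_right hwr.le h6
    have h8 : w * (1 + Real.log (1 / y)) ≤ r * (4 * (s * Λ)) := by
      rw [hlog]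
      have h9 : s + Λ ≤ s * Λ + 1 := by nlinarith
      have h10 : r * (4 * s + 4 * Λ - 6) ≤ r * (4 * (s * Λ)) :=
        mul_le_mul_of_nonneg_left (by linarith) hr0.le
      have h11 : w * (1 + (2 * Real.log (r / w) + 2 * Real.log (1 / r))) =
          w + 2 * (w * Real.log (r / w)) + 2 * (w * Real.log (1 / r)) := by ring
      rw [h11]
      nlinarith
    have h12 : r * (4 * (s * Λ)) = 4 * δ / s := by
      rw [hr]
      field_simp
    have h13 : K * (4 * δ / s) ≤ δ := by
      have : K * (4 * δ / s) = 4 / 7 * δ := by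
        rw [hs]
        field_simp
      rw [this]
      linarith
    calc K * w * (1 + Real.log (1 / y)) = K * (w * (1 + Real.log (1 / y))) := by ring
      _ ≤ K * (r * (4 * (s * Λ))) := mul_le_mul_of_nonneg_left h8 (by linarith)
      _ = K * (4 * δ / s) := by rw [h12]
      _ ≤ δ := h13

end Pool.Agent.MEX
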