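import Pool.Agent.MEX.Basic

/-!
# MEX: EXD, exponential decay of bounded periodic functions
-/

set_option autoImplicit false

open Complex Filter Topology Set MeasureTheory

namespace Pool.Agent.MEX

namespace EXD_

/-- The function `z ↦ X (I z)`, extended by zero. -/
noncomputable def ext (X : ℂ → ℂ) (x₀ : ℝ) (z : ℂ) : ℂ :=
  if (I * z).re < x₀ then X (I * z) else 0

theorem ext_of_lt (X : ℂ → ℂ) (x₀ : ℝ) {z : ℂ} (h : (I * z).re < x₀) :
    ext X x₀ z = X (I * z) := if_pos h

theorem ext_periodic (X : ℂ → ℂ) (x₀ : ℝ)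
    (hp : ∀ ζ : ℂ, ζ.re < x₀ → X (ζ + 2 * Real.pi * I) = X ζ) :
    Function.Periodic (ext X x₀) ((2 * Real.pi : ℝ) : ℂ) := by
  intro z
  have h1 : I * (z + ((2 * Real.pi : ℝ) : ℂ)) = I * z + 2 * Real.pi * I := by
    push_cast; ring
  have h2 : (I * (z + ((2 * Real.pi : ℝ) : ℂ))).re = (I * z).re := by
    simp
  unfold ext
  rw [h2]
  split_ifs with h
  · rw [h1]; exact hp _ h
  · rfl

theorem re_I_mul (z : ℂ) : (I * z).re = - z.im := by simp

theorem ext_diff (X : ℂ → ℂ) (x₀ : ℝ) (hX : DifferentiableOn ℂ X {ζ : ℂ | ζ.re < x₀}) {z : ℂ}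
    (hz : (I * z).re < x₀) : DifferentiableAt ℂ (ext X x₀) z := by
  have ho : IsOpen {ζ : ℂ | ζ.re < x₀} := isOpen_lt continuous_re continuous_const
  have h1 : DifferentiableAt ℂ X (I * z) := hX.differentiableAt (ho.mem_nhds hz)
  have h2 : DifferentiableAt ℂ (fun w : ℂ => I * w) z := by fun_prop
  have h3 : DifferentiableAt ℂ (fun w : ℂ => X (I * w)) z := DifferentiableAt.comp z h1 h2
  refine h3.congr_of_eventuallyEq ?_
  have ho2 : IsOpen {w : ℂ | (I * w).re < x₀} :=
    isOpen_lt (continuous_re.comp (continuous_const.mul continuous_id)) continuous_const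
  filter_upwards [ho2.mem_nhds hz] with w hw
  exact ext_of_lt X x₀ hw

theorem tendsto_I_mul : Tendsto (fun z : ℂ => I * z) (comap im atTop) lf := by
  unfold lf
  rw [tendsto_comap_iff]
  have : (Complex.re ∘ fun z : ℂ => I * z) = fun z => - z.im := by
    funext z; exact re_I_mul z
  rw [this]
  exact tendsto_neg_atTop_atBot.comp tendsto_comap

theorem eventually_lt (x₀ : ℝ) : ∀ᶠ z : ℂ in comap im atTop, (I * z).re < x₀ := by
  have h := (tendsto_comap (f := im) (x := atTop)).eventually (eventually_gt_atTop (-x₀))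
  filter_upwards [h] with z hz
  rw [re_I_mul]; linarith

end EXD_

open EXD_ in
/-- EXD: exponential decay. -/
theorem p_EXD : T_EXD := by
  intro x₀ B X hX hper hlim hB ζ hζ
  set f : ℂ → ℂ := ext X x₀ with hf
  have hper' : Function.Periodic f ((2 * Real.pi : ℝ) : ℂ) := ext_periodic X x₀ hper
  have hh : (0 : ℝ) < 2 * Real.pi := by positivity
  have hhol : ∀ᶠ z in comap im atTop, DifferentiableAt ℂ f z := by
    filter_upwards [eventually_lt x₀] with z hz
    exact ext_diff X x₀ hX hz
  have hzer : ZeroAtFilter (comap im atTop) f := by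
    have h1 : Tendsto (fun z : ℂ => X (I * z)) (comap im atTop) (𝓝 0) := hlim.comp tendsto_I_mul
    refine h1.congr' ?_
    filter_upwards [eventually_lt x₀] with z hz
    exact (ext_of_lt X x₀ hz).symm
  set F : ℂ → ℂ := Function.Periodic.cuspFunction (2 * Real.pi) f with hF
  have hF0 : F 0 = 0 := Function.Periodic.cuspFunction_zero_of_zero_at_inf hh hzer
  have hq : ∀ z : ℂ, Function.Periodic.qParam (2 * Real.pi) z = exp (I * z) := by
    intro z
    unfold Function.Periodic.qParam
    congr 1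
    have : (Real.pi : ℂ) ≠ 0 := by exact_mod_cast Real.pi_ne_zero
    push_cast
    field_simp
  -- points of the punctured disc
  have hpt : ∀ q : ℂ, q ≠ 0 → ‖q‖ < Real.exp x₀ → ∃ z : ℂ, (I * z).re < x₀ ∧
      q = Function.Periodic.qParam (2 * Real.pi) z := by
    intro q hq0 hqn
    refine ⟨-I * log q, ?_, ?_⟩
    · have h1 : I * (-I * log q) = log q := by
        rw [← mul_assoc, mul_neg, I_mul_I, neg_neg, one_mul]
      rw [h1, log_re]
      have hpos : 0 < ‖q‖ := norm_pos_iff.mpr hq0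
      exact (Real.log_lt_iff_lt_exp hpos).mpr hqn
    · rw [hq, ← mul_assoc, mul_neg, I_mul_I, neg_neg, one_mul, exp_log hq0]
  have hdiff : DifferentiableOn ℂ F (Metric.ball 0 (Real.exp x₀)) := by
    intro q hqm
    rw [mem_ball_zero_iff] at hqm
    apply DifferentiableAt.differentiableWithinAt
    by_cases hq0 : q = 0
    · rw [hq0]
      exact Function.Periodic.differentiableAt_cuspFunction_zero hh hper' hhol
        hzer.boundedAtFilter
    · obtain ⟨z, hz, hqz⟩ := hpt q hq0 hqm
      rw [hqz]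
      exact Function.Periodic.differentiableAt_cuspFunction hh.ne' hper' (ext_diff X x₀ hX hz)
  have hval : ∀ z : ℂ, F (Function.Periodic.qParam (2 * Real.pi) z) = f z := fun z =>
    Function.Periodic.eq_cuspFunction hh.ne' hper' z
  have hB0 : 0 ≤ B := le_trans (norm_nonneg _) (hB ζ hζ)
  have hmaps : MapsTo F (Metric.ball 0 (Real.exp x₀)) (Metric.closedBall (F 0) B) := by
    intro q hqm
    rw [mem_ball_zero_iff] at hqm
    rw [hF0, mem_closedBall_zero_iff]
    by_cases hq0 : q = 0
    · rw [hq0, hF0, norm_zero]; exact hB0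
    · obtain ⟨z, hz, hqz⟩ := hpt q hq0 hqm
      rw [hqz, hval, hf, ext_of_lt X x₀ hz]
      exact hB _ hz
  have hmem : exp ζ ∈ Metric.ball (0 : ℂ) (Real.exp x₀) := by
    rw [mem_ball_zero_iff, norm_exp]
    exact Real.exp_lt_exp.mpr hζ
  have hs := dist_le_div_mul_dist_of_mapsTo_ball hdiff hmaps hmem
  rw [hF0, dist_zero_right, dist_zero_right, norm_exp] at hs
  have h1 : I * (-I * ζ) = ζ := by
    rw [← mul_assoc, mul_neg, I_mul_I, neg_neg, one_mul]
  have h2 : F (exp ζ) = X ζ := by
    have h3 := hval (-I * ζ)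
    rw [hq, h1, hf, ext_of_lt X x₀ (by rw [h1]; exact hζ), h1] at h3
    exact h3
  rw [h2] at hs
  calc ‖X ζ‖ ≤ B / Real.exp x₀ * Real.exp ζ.re := hs
    _ = B * Real.exp (ζ.re - x₀) := by rw [Real.exp_sub]; ring

end Pool.Agent.MEX
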