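import Pool.Agent.MEX.Basic
import Pool.Agent.PLim.All

/-!
# MEX: the multiplier extension theorem (target EXT)
-/

set_option autoImplicit false

open Complex Filter Topology Set MeasureTheory
open Pool.Agent.PLim (Cyc Res AA fp fpp Rho LocFix)

namespace Pool.Agent.MEX

namespace EXT_

lemma re_pos {n k : ℕ} {c : ℂ} {b r : ℕ → ℂ} {μ : ℂ} (hB : Bad n k c b r μ) : 0 < μ.re := by
  by_contra h
  refine Pool.Agent.PLim.a_TRL n k c b r hB.hn hB.cyc hB.res hB.sum ?_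
  rw [← hB.mul, Complex.norm_exp]
  exact Real.exp_le_one_iff.2 (not_lt.1 h)

lemma le_half {δ τ : ℝ} (h : Far δ τ) : δ ≤ 1 / 2 := by
  have h1 := h 1 le_rfl (by norm_num) (round (((1 : ℕ) : ℝ) * τ / (2 * Real.pi)))
  exact h1.trans (abs_sub_round _)

end EXT_

theorem p_EXT (h1 : T_MAX) (h2 : T_PICK) (h3 : T_ITE) (h4 : T_ELE) : T_EXT := by
  obtain ⟨C, hC, hI⟩ := h3
  obtain ⟨κ, hκ, hE⟩ := h4 (200000 * C) (by linarith)
  refine ⟨κ, hκ, ?_⟩
  intro n k c b r μ δ hB hδ hF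
  by_contra hlt
  have hlt' : μ.re < κ * LL δ := not_le.1 hlt
  have hpos : 0 < μ.re := EXT_.re_pos hB
  have hδ2 : δ ≤ 1 / 2 := EXT_.le_half hF
  obtain ⟨e1, e2⟩ := hE δ μ.re hδ hδ2 hpos hlt'
  obtain ⟨V, χ, hM⟩ := h1 n k c b r μ hB
  obtain ⟨J, D, h, θ, hBas, hsub, y, hy⟩ := h2 n k c b r μ V χ hB hM hpos
  have hS : Small C (32 * Real.pi * μ.re) (δ / 200000) := by
    refine ⟨hC, by positivity, e1, by positivity, by linarith, ?_⟩
    rw [le_div_iff₀ (by norm_num : (0 : ℝ) < 200000)]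
    calc C * √(32 * Real.pi * μ.re) * (1 + Real.log (1 / (32 * Real.pi * μ.re))) * 200000
        = 200000 * C * √(32 * Real.pi * μ.re) *
          (1 + Real.log (1 / (32 * Real.pi * μ.re))) := by ring
      _ ≤ δ := e2
  exact hI n k c b r μ V χ J D (32 * Real.pi * μ.re) (δ / 200000) δ h θ y hBas hS hδ hF
    (by linarith) hsub hy

end Pool.Agent.MEX
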