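import Pool.Agent.MEX.Basic

/-!
# MEX-GAP: six points on the circle leave a gap
-/

set_option autoImplicit false

namespace Pool.Agent.MEX

/-- GAP: six points on the circle leave a gap. -/
theorem p_GAP : T_GAP := by
  intro B hper hcard
  by_contra hcon
  push Not at hcon
  -- the next point
  have hnext : ∀ y : ℝ, ∃ z : ℝ, z ∈ B ∧ y < z ∧ z < y + 1 := by
    intro y
    obtain ⟨z, hz, hzy⟩ := hcon (y + 1 / 2)
    rw [abs_lt] at hzy
    exact ⟨z, hz, by linarith [hzy.1], by linarith [hzy.2]⟩
  choose nx hB hlt hlt1 using hnext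
  set s : ℕ → ℝ := fun n => nx^[n + 1] 0 with hs
  have hs0 : s 0 = nx 0 := rfl
  have hsucc : ∀ n, s (n + 1) = nx (s n) := by
    intro n
    simp only [hs]
    rw [Function.iterate_succ_apply']
  have hmem : ∀ n, s n ∈ B := by
    intro n
    cases n with
    | zero => rw [hs0]; exact hB 0
    | succ n => rw [hsucc]; exact hB _
  have hmono : StrictMono s := strictMono_nat_of_lt_succ (fun n => by rw [hsucc]; exact hlt _)
  have hup : ∀ n, s n ≤ s 0 + n := by
    intro n
    induction n with
    | zero => simp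
    | succ n ih =>
      rw [hsucc]
      have := hlt1 (s n)
      push_cast
      linarith
  have h0pos : 0 < s 0 := hlt 0
  have h0lt : s 0 < 1 := by
    have := hlt1 0
    rw [hs0]
    linarith
  have hpi := Real.pi_gt_three
  have hpi2 := Real.pi_lt_d2
  have hpi1 := Real.pi_gt_d2
  -- reduction to the fundamental interval
  set φ : ℕ → ℝ := fun n => if s n < 2 * Real.pi then s n else s n - 2 * Real.pi with hφ
  have hbd : ∀ n ∈ Finset.range 7, s n < 7 ∧ 0 < s n ∧ s n ≤ s 0 + 6 ∧ s 0 ≤ s n := by
    intro n hn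
    rw [Finset.mem_range] at hn
    have h1 := hup n
    have h2 : (n : ℝ) ≤ 6 := by
      have : n ≤ 6 := by omega
      exact_mod_cast this
    have h3 : s 0 ≤ s n := hmono.monotone (Nat.zero_le n)
    exact ⟨by linarith, by linarith, by linarith, h3⟩
  have hinj : Set.InjOn φ (Finset.range 7 : Finset ℕ) := by
    intro n hn m hm hnm
    have h1 := hbd n (Finset.mem_coe.1 hn)
    have h2 := hbd m (Finset.mem_coe.1 hm)
    apply hmono.injective
    simp only [hφ] at hnm
    split_ifs at hnm <;> linarith [h1.1, h1.2.1, h1.2.2.1, h1.2.2.2, h2.1, h2.2.1, h2.2.2.1,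
      h2.2.2.2]
  have hc := hcard ((Finset.range 7).image φ) (by
    intro y hy
    obtain ⟨n, hn, rfl⟩ := Finset.mem_image.1 hy
    have h1 := hbd n hn
    simp only [hφ]
    split_ifs with h
    · exact ⟨hmem n, h1.2.1.le, h⟩
    · rw [not_lt] at h
      refine ⟨?_, by linarith, by linarith [h1.1]⟩
      rw [← hper]
      have e : s n - 2 * Real.pi + 2 * Real.pi = s n := by ring
      rw [e]
      exact hmem n)
  rw [Finset.card_image_of_injOn hinj, Finset.card_range] at hc
  omega

end Pool.Agent.MEX
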