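import Pool.Agent.MEX.Basic

/-!
# MEX, target GEO: two good records are impossible
-/

set_option autoImplicit false

open Complex Filter Topology Set MeasureTheory
open Pool.Agent.Multibrot (rt push)
open Pool.Agent.Limb (F)
open Pool.Agent.PLim (Cyc Res AA fp fpp Rho LocFix)

namespace Pool.Agent.MEX

namespace GEO_

/-- the cone in which the two charts are compared -/
def cone (t : ℝ) : Set ℂ := {w | |w.im| < w.re + t / 5 ∧ ‖w‖ < 36 * t}

lemma cone_open (t : ℝ) : IsOpen (cone t) := by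
  have h1 : IsOpen {w : ℂ | |w.im| < w.re + t / 5} :=
    isOpen_lt (by fun_prop) (by fun_prop)
  have h2 : IsOpen {w : ℂ | ‖w‖ < 36 * t} := isOpen_lt (by fun_prop) (by fun_prop)
  exact h1.inter h2

lemma cone_convex (t : ℝ) : Convex ℝ (cone t) := by
  have h : cone t = ({w : ℂ | w.im - w.re < t / 5} ∩ {w : ℂ | -w.im - w.re < t / 5}) ∩
      Metric.ball 0 (36 * t) := by
    ext w
    simp only [cone, mem_inter_iff, Set.mem_ofPred_eq, Metric.mem_ball, dist_zero_right, abs_lt]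
    constructor
    · rintro ⟨⟨h1, h2⟩, h3⟩
      exact ⟨⟨by linarith, by linarith⟩, h3⟩
    · rintro ⟨⟨h1, h2⟩, h3⟩
      exact ⟨⟨by linarith, by linarith⟩, h3⟩
  rw [h]
  refine ((convex_halfSpace_lt ?_ _).inter (convex_halfSpace_lt ?_ _)).inter (convex_ball _ _)
  · refine ⟨fun x y => ?_, fun s x => ?_⟩
    · simp only [add_im, add_re]
      ring
    · simp only [real_smul, mul_im, mul_re, ofReal_re, ofReal_im, smul_eq_mul]
      ring
  · refine ⟨fun x y => ?_, fun s x => ?_⟩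
    · simp only [add_im, add_re]
      ring
    · simp only [real_smul, mul_im, mul_re, ofReal_re, ofReal_im, smul_eq_mul]
      ring

lemma zero_mem_cone {t : ℝ} (ht : 0 < t) : (0 : ℂ) ∈ cone t := by
  refine ⟨?_, ?_⟩
  · simp [ht]
  · simp [ht]

section

variable {n k : ℕ} {c : ℂ} {b r : ℕ → ℂ} {μ : ℂ} {V : ℕ → Set ℂ} {χ : ℕ → ℂ → ℂ} {J : ℕ}
  {D : ℂ → ENNReal} {d t h : ℝ} {a : ℝ → ℝ} {m : ℕ} {lam : ℝ} {G : ℂ → ℂ}

/-- the point at distance `3 t` on the sheet is in the big disc around `p` -/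
lemma lift (h4 : T_LIFT) (hR : Rnd n k c b r μ V χ J D d h a) (ht : 0 < t) {p z : ℂ}
    (hp : 59 * t ≤ et h a p) (hG : Lvl n k c b r χ J h a m lam G) (hz : lam < et h a z)
    (hzp : G z = χ J p)
    (hctr : ∀ ζ : ℂ, lam + t ≤ et h a ζ → ‖Lam k b r G ζ - 1‖ ≤ 1 / 1000)
    (hint : ∫ s in (0 : ℝ)..t, √‖Lam k b r G (z - s)‖ ≤ 2 * t) :
    ∃ ξ : ℂ, ‖ξ - p‖ ≤ 401 / 100 * t ∧ χ J ξ = G (z - (3 * t : ℝ)) := by
  have hop := (hR.li lam).op
  have hzs : ∀ s : ℝ, 0 ≤ s → lam < et h a (z - s) := by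
    intro s hs
    rw [et_sub]
    linarith
  have hball : ∀ w ∈ Metric.ball p (41 * t), 0 < et h a w := by
    intro w hw
    refine et_ball hR.lip hw ?_
    have h2 : √2 ≤ 59 / 41 := by
      rw [Real.sqrt_le_left (by norm_num)]
      norm_num
    have h3 : √2 * (41 * t) ≤ 59 / 41 * (41 * t) :=
      mul_le_mul_of_nonneg_right h2 (by positivity)
    linarith
  have hnm : NM k b r (Metric.ball p (41 * t)) (χ J) := (hR.nm le_rfl).mono hball
  have hLc : ContinuousOn (fun s : ℝ => √‖Lam k b r G (z - s)‖) (Icc 0 (3 * t)) := by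
    have h1 : ContinuousOn (Lam k b r G) {ζ : ℂ | lam < et h a ζ} :=
      (hG.lam_diff hR).continuousOn
    have h2 : ContinuousOn (fun s : ℝ => Lam k b r G (z - s)) (Icc 0 (3 * t)) :=
      h1.comp (by fun_prop) fun s hs => hzs s hs.1
    exact Real.continuous_sqrt.comp_continuousOn h2.norm
  have hlen : ∀ s : ℝ, ‖-deriv G (z - s)‖ * √‖AA k b r (G (z - s))‖ =
      √‖Lam k b r G (z - s)‖ := by
    intro s
    unfold Lam
    rw [norm_mul, norm_pow, norm_neg, Real.sqrt_mul (norm_nonneg _), Real.sqrt_sq (norm_nonneg _),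
      mul_comm]
  have hi1 : IntervalIntegrable (fun s : ℝ => √‖Lam k b r G (z - s)‖) volume 0 t := by
    refine (hLc.mono ?_).intervalIntegrable
    rw [uIcc_of_le ht.le]
    exact Icc_subset_Icc_right (by linarith)
  have hi2 : IntervalIntegrable (fun s : ℝ => √‖Lam k b r G (z - s)‖) volume t (3 * t) := by
    refine (hLc.mono ?_).intervalIntegrable
    rw [uIcc_of_le (by linarith)]
    exact Icc_subset_Icc_left ht.le
  have hB : ∫ s in t..(3 * t), √‖Lam k b r G (z - s)‖ ≤ 201 / 100 * t := by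
    have h1 : ∀ s ∈ Icc t (3 * t), √‖Lam k b r G (z - s)‖ ≤ 1001 / 1000 := by
      intro s hs
      have h2 := hctr (z - s) (by rw [et_sub]; linarith [hs.1])
      have h3 : ‖Lam k b r G (z - s)‖ ≤ 1001 / 1000 := by
        calc ‖Lam k b r G (z - s)‖ = ‖(Lam k b r G (z - s) - 1) + 1‖ := by rw [sub_add_cancel]
          _ ≤ ‖Lam k b r G (z - s) - 1‖ + ‖(1 : ℂ)‖ := norm_add_le _ _
          _ ≤ 1 / 1000 + 1 := by
            rw [norm_one]
            gcongr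
          _ = 1001 / 1000 := by norm_num
      rw [Real.sqrt_le_left (by norm_num)]
      refine h3.trans ?_
      norm_num
    have h5 : (∫ _s in t..(3 * t), (1001 / 1000 : ℝ)) = 1001 / 1000 * (2 * t) := by
      rw [intervalIntegral.integral_const, smul_eq_mul]
      ring
    have h6 := intervalIntegral.integral_mono_on (by linarith) hi2 intervalIntegrable_const h1
    rw [h5] at h6
    linarith
  have hL : ∫ s in (0 : ℝ)..(3 * t), ‖-deriv G (z - s)‖ * √‖AA k b r (G (z - s))‖ ≤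
      401 / 100 * t := by
    simp_rw [hlen]
    rw [← intervalIntegral.integral_add_adjacent_intervals hi1 hi2]
    linarith
  have c1 : ∀ s ∈ Icc 0 (3 * t), HasDerivAt (fun s : ℝ => G (z - s)) (-deriv G (z - s)) s := by
    intro s hs
    have h1 : HasDerivAt G (deriv G (z - s)) (z - s) :=
      ((hG.diff _ (hzs s hs.1)).differentiableAt (hop.mem_nhds (hzs s hs.1))).hasDerivAt
    have h2 : HasDerivAt (fun w : ℂ => z - w) (-1) (s : ℂ) := by
      simpa using (hasDerivAt_id (s : ℂ)).const_sub z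
    have h3 := h1.comp (s : ℂ) h2
    have h5 := h3.comp_ofReal
    simpa using h5
  have c2 : ContinuousOn (fun s : ℝ => -deriv G (z - s)) (Icc 0 (3 * t)) := by
    have h1 : ContinuousOn (deriv G) {ζ : ℂ | lam < et h a ζ} := (hG.diff.deriv hop).continuousOn
    exact (h1.comp (by fun_prop) fun s hs => hzs s hs.1).neg
  have c3 : (fun s : ℝ => G (z - s)) 0 = χ J p := by
    simpa using hzp
  have c4 : ∀ s ∈ Icc 0 (3 * t), ∀ j, (fun s : ℝ => G (z - s)) s ≠ b j := by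
    intro s hs j
    exact hG.avoid hR (hzs s hs.1) j
  have c5 : ∫ s in (0 : ℝ)..(3 * t), ‖-deriv G (z - s)‖ * √‖AA k b r (G (z - s))‖ < 41 * t := by
    refine lt_of_le_of_lt hL ?_
    linarith
  obtain ⟨ξ, hξ1, hξ2⟩ := h4 k b r p (41 * t) (3 * t) (χ J) (fun s : ℝ => G (z - s))
    (fun s : ℝ => -deriv G (z - s)) (by positivity) hnm (by positivity) c1 c2 c3 c4 c5
  exact ⟨ξ, hξ1.trans hL, hξ2⟩

/-- the comparison of the two charts -/
lemma one (h3 : T_SAM) (h4 : T_LIFT) (h5 : T_UNQ) (hR : Rnd n k c b r μ V χ J D d h a)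
    (ht : 0 < t) {p z : ℂ} (hp : 59 * t ≤ et h a p) (hm0 : 0 < m) (hmk : m < k)
    (hG : Lvl n k c b r χ J h a m lam G) (hz : lam < et h a z)
    (hzp : G z = χ J p)
    (hctr : ∀ ζ : ℂ, lam + t ≤ et h a ζ → ‖Lam k b r G ζ - 1‖ ≤ 1 / 1000)
    (hint : ∫ s in (0 : ℝ)..t, √‖Lam k b r G (z - s)‖ ≤ 2 * t) (A : ℂ)
    (hA1 : ∀ w : ℂ, lam + 3 / 2 * t < et h a (w + A) → w ∈ V (J - m)) (nu : ℂ → ℂ)
    (hA2 : ∀ ζ : ℂ, lam + t < et h a ζ → ‖nu ζ - ζ + A‖ ≤ t / 100)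
    (hA3 : ∀ ζ : ℂ, lam + 2 * t < et h a ζ → nu ζ ∈ V (J - m) ∧ χ (J - m) (nu ζ) = G ζ) :
    ∃ ξ ν : ℂ, ‖ξ - p‖ ≤ 401 / 100 * t ∧ ∀ w ∈ cone t, ν - w ∈ V (J - m) ∧
      χ (J - m) (ν - w) = χ J (ξ + w) ∧ deriv (χ (J - m)) (ν - w) = -deriv (χ J) (ξ + w) := by
  obtain ⟨ξ, hξ1, hξ2⟩ := lift h4 hR ht hp hG hz hzp hctr hint
  set ζ : ℂ := z - (3 * t : ℝ) with hζ
  have hetζ : et h a ζ = et h a z + 3 * t := et_sub h a z (3 * t)
  have hν := hA3 ζ (by linarith)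
  have hν2 := hA2 ζ (by linarith)
  refine ⟨ξ, nu ζ, hξ1, ?_⟩
  have hJk : k ≤ J := hR.hJ
  have hballV : ∀ w ∈ cone t, ξ + w ∈ V J := by
    intro w hw
    refine hR.sub _ ?_
    have h1 : ξ + w ∈ Metric.ball p (41 * t) := by
      rw [Metric.mem_ball, dist_eq_norm]
      calc ‖ξ + w - p‖ = ‖(ξ - p) + w‖ := by ring_nf
        _ ≤ ‖ξ - p‖ + ‖w‖ := norm_add_le _ _
        _ < 41 * t := by linarith [hw.2]
    refine et_ball hR.lip h1 ?_
    have h2 : √2 ≤ 59 / 41 := by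
      rw [Real.sqrt_le_left (by norm_num)]
      norm_num
    have h3 : √2 * (41 * t) ≤ 59 / 41 * (41 * t) :=
      mul_le_mul_of_nonneg_right h2 (by positivity)
    linarith
  have hcV : ∀ w ∈ cone t, nu ζ - w ∈ V (J - m) := by
    intro w hw
    refine hA1 _ ?_
    have h1 : |et h a (nu ζ + A) - et h a ζ| ≤ √2 * ‖nu ζ + A - ζ‖ := et_lip' hR.lip _ _
    have h2 : ‖nu ζ + A - ζ‖ ≤ t / 100 := by
      have : nu ζ + A - ζ = nu ζ - ζ + A := by ring
      rw [this]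
      exact hν2
    have h3 : √2 ≤ 2 := by
      rw [Real.sqrt_le_left (by norm_num)]
      norm_num
    have h4 : √2 * ‖nu ζ + A - ζ‖ ≤ 2 * (t / 100) :=
      mul_le_mul h3 h2 (norm_nonneg _) (by norm_num)
    have h5 := (abs_le.1 h1).1
    have h6 : et h a (nu ζ - w + A) ≥ et h a (nu ζ + A) - t / 5 := by
      have e1 : nu ζ - w + A = nu ζ + A - w := by ring
      rw [e1]
      unfold et
      have e2 := (abs_le.1 (hR.lip (nu ζ + A - w).im (nu ζ + A).im)).1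
      have e3 : |(nu ζ + A - w).im - (nu ζ + A).im| = |w.im| := by
        rw [sub_im, sub_sub_cancel_left, abs_neg]
      rw [e3] at e2
      have e4 := hw.1
      rw [sub_re]
      linarith
    linarith
  have hnmJ : NM k b r (V J) (χ J) := (hR.mx.cht J).nm
  have hopJ : IsOpen (V J) := (hR.mx.cht J).li.op
  have hnmm : NM k b r (V (J - m)) (χ (J - m)) := (hR.mx.cht (J - m)).nm
  have hopm : IsOpen (V (J - m)) := (hR.mx.cht (J - m)).li.op
  have hξV : ξ ∈ V J := by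
    have := hballV 0 (zero_mem_cone ht)
    simpa using this
  have hval : χ J ξ = χ (J - m) (nu ζ) := by
    rw [hξ2, hν.2]
  have hder : deriv (χ J) ξ = -deriv (χ (J - m)) (nu ζ) := by
    rcases hnmJ.deriv_eq_or hnmm hξV hν.1 hval with h1 | h1
    · exfalso
      have h2 := (h3 n k c b r μ V χ J (J - m) ξ (nu ζ) hR.bad hR.mx hξV hν.1 hval h1).1
      exact cyc_ne hR.bad.cyc (i := J - m) (j := J) (by omega) (by omega) h2.symm
    · exact h1
  have hg1 : NM k b r (cone t) (fun w => χ (J - m) (nu ζ - w)) :=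
    (hnmm.comp_sub hopm (nu ζ)).mono hcV
  have hg2 : NM k b r (cone t) (fun w => χ J (ξ + w)) :=
    (hnmJ.comp_add hopJ ξ).mono hballV
  have hEq : EqOn (fun w => χ (J - m) (nu ζ - w)) (fun w => χ J (ξ + w)) (cone t) := by
    refine h5 k b r (cone t) _ _ 0 (cone_open t) (cone_convex t).isPreconnected hg1 hg2
      (zero_mem_cone ht) ?_ ?_
    · simp only [sub_zero, add_zero]
      exact hval.symm
    · rw [deriv_comp_sub', deriv_comp_add', sub_zero, add_zero, hder]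
  intro w hw
  refine ⟨hcV w hw, hEq hw, ?_⟩
  have h1 := (hEq.eventuallyEq_of_mem ((cone_open t).mem_nhds hw)).deriv_eq
  rw [deriv_comp_sub', deriv_comp_add'] at h1
  rw [← h1, neg_neg]

end

end GEO_

open GEO_

theorem p_GEO (h1 : T_CTR) (h2 : T_NUB) (h3 : T_SAM) (h4 : T_LIFT) (h5 : T_UNQ) : T_GEO := by
  obtain ⟨C₁, hC₁, H₁⟩ := h1
  obtain ⟨C₂, hC₂, H₂⟩ := h2
  refine ⟨max (1000 * C₁) C₂, ?_, ?_⟩
  · exact hC₂.trans (le_max_right _ _)
  intro n k c b r μ V χ J D d t h a p q lam G z hR hS hp hq0 hq1 hqk hG hz hzp hint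
  have hS1 : Small (1000 * C₁) d t := hS.mono (by linarith) (le_max_left _ _)
  have hS1' : Small C₁ d t := hS1.mono hC₁ (by linarith)
  have hS2 : Small C₂ d t := hS.mono hC₂ (le_max_right _ _)
  have ht : 0 < t := hS.ht
  have key : ∀ i : Fin 2, ∃ ξ ν : ℂ, ‖ξ - p‖ ≤ 401 / 100 * t ∧ ∀ w ∈ cone t,
      ν - w ∈ V (J - q i) ∧ χ (J - q i) (ν - w) = χ J (ξ + w) ∧
      deriv (χ (J - q i)) (ν - w) = -deriv (χ J) (ξ + w) := by
    intro i
    have hqi0 : 0 < q i := by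
      fin_cases i
      · exact hq0
      · exact hq0.trans hq1
    have hqik : q i < k := by
      fin_cases i
      · exact hq1.trans hqk
      · exact hqk
    have hprod : (∏ l ∈ Finset.range (q i), fp n (b (J - q i + l))) ≠ 0 := by
      rw [Finset.prod_ne_zero_iff]
      intro l _
      unfold fp
      have hn : (n : ℂ) ≠ 0 := by
        have := hR.bad.hn
        exact_mod_cast (by omega : n ≠ 0)
      exact mul_ne_zero hn (pow_ne_zero _ (hR.bad.cyc.nz _))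
    obtain ⟨A, hA⟩ : ∃ A : ℂ, exp A = ∏ l ∈ Finset.range (q i), fp n (b (J - q i + l)) :=
      ⟨log _, exp_log hprod⟩
    obtain ⟨hA1, nu, _, hA2, hA3⟩ := H₂ n k c b r μ V χ J D d t h a (q i) (lam i) (G i) A hR hS2
      (hG i) hA
    refine one h3 h4 h5 hR ht hp hqi0 hqik (hG i) (hz i) (hzp i) ?_ (hint i) A hA1 nu
      (fun ζ hζ => (hA2 ζ hζ).1) hA3
    intro ζ hζ
    have e1 := (H₁ n k c b r μ V χ J D d t h a (q i) (lam i) (G i) hR hS1' (hG i)).1 ζ hζ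
    have e2 : C₁ * √d / (et h a ζ - lam i) ≤ 1 / 1000 := by
      rw [div_le_iff₀ (by linarith)]
      have e3 := hS1.sqrt
      have e4 : t ≤ et h a ζ - lam i := by linarith
      linarith
    exact e1.trans e2
  obtain ⟨ξ₀, ν₀, hξ₀, H0⟩ := key 0
  obtain ⟨ξ₁, ν₁, hξ₁, H1⟩ := key 1
  have hdiff : ‖ξ₀ - ξ₁‖ ≤ 401 / 50 * t := by
    calc ‖ξ₀ - ξ₁‖ = ‖(ξ₀ - p) - (ξ₁ - p)‖ := by ring_nf
      _ ≤ ‖ξ₀ - p‖ + ‖ξ₁ - p‖ := norm_sub_le _ _
      _ ≤ 401 / 50 * t := by linarith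
  have hw0 : ((20 * t : ℝ) : ℂ) ∈ cone t := by
    refine ⟨?_, ?_⟩
    · rw [ofReal_im, ofReal_re, abs_zero]
      linarith
    · rw [norm_real, Real.norm_eq_abs, abs_of_pos (by positivity)]
      linarith
  have hw1 : ((20 * t : ℝ) : ℂ) + (ξ₀ - ξ₁) ∈ cone t := by
    have e1 := (abs_le.1 (abs_re_le_norm (ξ₀ - ξ₁))).1
    have e2 := abs_im_le_norm (ξ₀ - ξ₁)
    refine ⟨?_, ?_⟩
    · rw [add_im, add_re, ofReal_im, ofReal_re, zero_add]
      linarith
    · calc ‖((20 * t : ℝ) : ℂ) + (ξ₀ - ξ₁)‖ ≤ ‖((20 * t : ℝ) : ℂ)‖ + ‖ξ₀ - ξ₁‖ := norm_add_le _ _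
        _ = 20 * t + ‖ξ₀ - ξ₁‖ := by
          rw [norm_real, Real.norm_eq_abs, abs_of_pos (by positivity)]
        _ < 36 * t := by linarith
  obtain ⟨a1, a2, a3⟩ := H0 _ hw0
  obtain ⟨b1, b2, b3⟩ := H1 _ hw1
  have hsame : ξ₁ + (((20 * t : ℝ) : ℂ) + (ξ₀ - ξ₁)) = ξ₀ + ((20 * t : ℝ) : ℂ) := by ring
  rw [hsame] at b2 b3
  have hfin := (h3 n k c b r μ V χ (J - q 0) (J - q 1) _ _ hR.bad hR.mx a1 b1
    (a2.trans b2.symm) (a3.trans b3.symm)).1
  have hJk : k ≤ J := hR.hJ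
  exact cyc_ne hR.bad.cyc (i := J - q 1) (j := J - q 0) (by omega) (by omega) hfin.symm

end Pool.Agent.MEX
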