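import Pool.Agent.MEX.Basic

/-!
# MEX, INJ: the sheet is injective on discs
-/

set_option autoImplicit false

open Complex Filter Topology Set MeasureTheory
open Pool.Agent.Multibrot (rt push)
open Pool.Agent.Limb (F)
open Pool.Agent.PLim (Cyc Res AA fp fpp Rho LocFix)

namespace Pool.Agent.MEX

theorem p_INJ (h1 : T_NUB) (h2 : T_SAM) (h3 : T_OPP) : T_INJ := by
  obtain ⟨C, hC, hN⟩ := h1
  refine ⟨C, hC, ?_⟩
  intro n k c b r μ V χ J D d t h a m lam G p ρ hR hS hG hρ1 hball z₁ hz₁ z₂ hz₂ he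
  have hρ : 0 < ρ := Metric.pos_of_mem_ball hz₁
  have ht : 0 < t := hS.ht
  have ht1 : t ≤ 1 / 2000 := hS.ht1
  have hn := hR.bad.hn
  set P : ℂ := ∏ i ∈ Finset.range m, fp n (b (J - m + i)) with hP
  have hP0 : P ≠ 0 := by
    rw [hP, Finset.prod_ne_zero_iff]
    intro i _
    unfold fp
    have : n ≠ 0 := by omega
    exact mul_ne_zero (by exact_mod_cast this) (pow_ne_zero _ (hR.bad.cyc.nz _))
  obtain ⟨hV, nu, hnd, hnu, hnc⟩ := hN n k c b r μ V χ J D d t h a m lam G (log P) hR hS hG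
    (exp_log hP0)
  set A : ℂ := log P with hA
  have hnm := (hR.mx.cht (J - m)).nm
  obtain ⟨hv₁, hg₁⟩ := hnc z₁ (hball z₁ hz₁)
  obtain ⟨hv₂, hg₂⟩ := hnc z₂ (hball z₂ hz₂)
  have heq : χ (J - m) (nu z₁) = χ (J - m) (nu z₂) := by rw [hg₁, hg₂, he]
  have hb : ∀ z ∈ Metric.ball p ρ, lam + t < et h a z := fun z hz => by
    have := hball z hz
    linarith
  have hn₁ := (hnu z₁ (hb z₁ hz₁)).1
  have hn₂ := (hnu z₂ (hb z₂ hz₂)).1
  rw [Metric.mem_ball, dist_eq_norm] at hz₁ hz₂
  rcases hnm.deriv_eq_or hnm hv₁ hv₂ heq with hd | hd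
  · obtain ⟨_, q, hq⟩ := h2 n k c b r μ V χ (J - m) (J - m) (nu z₁) (nu z₂) hR.bad hR.mx hv₁ hv₂
      heq hd
    have h4 : ‖nu z₁ - nu z₂‖ < 2 * Real.pi := by
      have h5 : nu z₁ - nu z₂ = (nu z₁ - z₁ + A) - (nu z₂ - z₂ + A) + (z₁ - p) - (z₂ - p) := by
        ring
      have h6 : ‖nu z₁ - nu z₂‖ ≤ ‖nu z₁ - z₁ + A‖ + ‖nu z₂ - z₂ + A‖ + ‖z₁ - p‖ + ‖z₂ - p‖ := by
        rw [h5]
        refine (norm_sub_le _ _).trans (add_le_add ((norm_add_le _ _).trans ?_) le_rfl)
        exact add_le_add (norm_sub_le _ _) le_rfl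
      have h7 := Real.pi_gt_three
      linarith
    have hq0 : q = 0 := by
      by_contra hq0
      rw [hq, norm_mul, norm_mul, norm_mul, norm_I, mul_one, norm_intCast, norm_real,
        Real.norm_of_nonneg Real.pi_pos.le] at h4
      have h5 : (1 : ℝ) ≤ |(q : ℝ)| := by
        have := Int.one_le_abs hq0
        exact_mod_cast this
      have h6 : ‖(2 : ℂ)‖ = 2 := by simp
      rw [h6] at h4
      nlinarith [Real.pi_pos]
    rw [hq0, Int.cast_zero, zero_mul] at hq
    have h8 : ‖(nu z₂ - z₂) - (nu z₁ - z₁)‖ ≤ 1 / 1000 * ‖z₂ - z₁‖ := by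
      refine (convex_ball p ρ).norm_image_sub_le_of_norm_deriv_le
        (f := fun z => nu z - z) (fun z hz => ?_) (fun z hz => ?_)
        (by rw [Metric.mem_ball, dist_eq_norm]; exact hz₁)
        (by rw [Metric.mem_ball, dist_eq_norm]; exact hz₂)
      · exact ((hnd _ (hb z hz)).differentiableAt ((hR.li _).op.mem_nhds (hb z hz))).sub
          differentiableAt_id
      · have h9 : DifferentiableAt ℂ nu z :=
          (hnd _ (hb z hz)).differentiableAt ((hR.li _).op.mem_nhds (hb z hz))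
        have h10 : deriv (fun z => nu z - z) z = deriv nu z - 1 :=
          (h9.hasDerivAt.sub (hasDerivAt_id z)).deriv
        rw [h10]
        exact (hnu z (hb z hz)).2.1
    have h11 : (nu z₂ - z₂) - (nu z₁ - z₁) = -(z₂ - z₁) := by
      linear_combination -hq
    rw [h11, norm_neg] at h8
    have h12 : ‖z₂ - z₁‖ ≤ 0 := by linarith [norm_nonneg (z₂ - z₁)]
    exact (sub_eq_zero.1 (norm_le_zero_iff.1 h12)).symm
  · exfalso
    have hU : Metric.ball (p - A) (ρ + t / 100) ⊆ V (J - m) := by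
      intro w hw
      rw [Metric.mem_ball, dist_eq_norm] at hw
      refine hV w ?_
      set v : ℂ := w - (p - A) with hv
      have hwA : w + A = p + v := by
        rw [hv]
        ring
      have hpos : 0 < ρ + t / 100 := by positivity
      set s : ℝ := ρ / (ρ + t / 100) with hs
      have hs0 : 0 < s := by positivity
      have hs1 : s * (ρ + t / 100) = ρ := div_mul_cancel₀ _ hpos.ne'
      have hs2 : s < 1 := by
        rw [hs, div_lt_one hpos]
        linarith
      have hz : p + s * v ∈ Metric.ball p ρ := by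
        rw [Metric.mem_ball, dist_eq_norm, add_sub_cancel_left, norm_mul, norm_real,
          Real.norm_of_nonneg hs0.le]
        calc s * ‖v‖ < s * (ρ + t / 100) := mul_lt_mul_of_pos_left hw hs0
          _ = ρ := hs1
      have h4 := hball _ hz
      have h5 := (abs_le.1 (et_lip' (h := h) hR.lip (w + A) (p + s * v))).1
      have h6 : ‖w + A - (p + s * v)‖ ≤ t / 100 := by
        have h7 : w + A - (p + s * v) = ((1 - s : ℝ) : ℂ) * v := by
          rw [hwA]
          push_cast
          ring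
        rw [h7, norm_mul, norm_real, Real.norm_of_nonneg (by linarith)]
        have h8 : (1 - s) * ‖v‖ ≤ (1 - s) * (ρ + t / 100) :=
          mul_le_mul_of_nonneg_left hw.le (by linarith)
        have h9 : (1 - s) * (ρ + t / 100) = t / 100 := by
          rw [sub_mul, hs1]
          ring
        linarith
      have h10 : √2 ≤ 2 := by
        rw [Real.sqrt_le_left (by norm_num)]
        norm_num
      have h11 : √2 * ‖w + A - (p + s * v)‖ ≤ 2 * (t / 100) :=
        mul_le_mul h10 h6 (norm_nonneg _) (by norm_num)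
      linarith
    refine h3 k b r _ (χ (J - m)) (nu z₁) (nu z₂) Metric.isOpen_ball (convex_ball _ _)
      (hnm.mono hU) ?_ ?_ heq hd
    · rw [Metric.mem_ball, dist_eq_norm]
      have h5 : nu z₁ - (p - A) = (nu z₁ - z₁ + A) + (z₁ - p) := by ring
      rw [h5]
      refine (norm_add_le _ _).trans_lt ?_
      linarith
    · rw [Metric.mem_ball, dist_eq_norm]
      have h5 : nu z₂ - (p - A) = (nu z₂ - z₂ + A) + (z₂ - p) := by ring
      rw [h5]
      refine (norm_add_le _ _).trans_lt ?_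
      linarith

end Pool.Agent.MEX
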