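import Pool.Agent.MEX.Basic

/-!
# MEX: integral bound on a half plane
-/

set_option autoImplicit false

open Complex Filter Topology Set MeasureTheory

namespace Pool.Agent.MEX

namespace INN_

/-- the integral over a vertical period -/
noncomputable def vint (X : ℂ → ℂ) (x : ℝ) : ℂ := ∫ y in (0 : ℝ)..(2 * Real.pi), X (x + y * I)

lemma vint_eq {x₀ : ℝ} {X : ℂ → ℂ} (hX : DifferentiableOn ℂ X {ζ : ℂ | ζ.re < x₀})
    (hp : ∀ ζ : ℂ, ζ.re < x₀ → X (ζ + 2 * Real.pi * I) = X ζ) {x x' : ℝ} (h : x < x₀)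
    (h' : x' < x₀) : vint X x = vint X x' := by
  have hsub : uIcc x' x ×ℂ uIcc (0 : ℝ) (2 * Real.pi) ⊆ {ζ : ℂ | ζ.re < x₀} := by
    intro ζ hζ
    rw [mem_reProdIm] at hζ
    have := hζ.1
    rw [mem_uIcc] at this
    show ζ.re < x₀
    rcases this with h1 | h1 <;> linarith [h1.2]
  have key := integral_boundary_rect_eq_zero_of_differentiableOn X ((x' : ℝ) : ℂ)
    ((x : ℝ) + (2 * Real.pi : ℝ) * I) (by
      have h1 : (((x : ℝ) : ℂ) + ((2 * Real.pi : ℝ) : ℂ) * I).re = x := by simp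
      have h2 : (((x : ℝ) : ℂ) + ((2 * Real.pi : ℝ) : ℂ) * I).im = 2 * Real.pi := by simp
      rw [h1, h2, ofReal_re, ofReal_im]
      exact hX.mono hsub)
  have h1 : (((x : ℝ) : ℂ) + ((2 * Real.pi : ℝ) : ℂ) * I).re = x := by simp
  have h2 : (((x : ℝ) : ℂ) + ((2 * Real.pi : ℝ) : ℂ) * I).im = 2 * Real.pi := by simp
  rw [h1, h2, ofReal_re, ofReal_im] at key
  have h3 : (∫ u : ℝ in x'..x, X (u + ((0 : ℝ) : ℂ) * I)) =
      ∫ u : ℝ in x'..x, X (u + ((2 * Real.pi : ℝ) : ℂ) * I) := by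
    refine intervalIntegral.integral_congr fun u hu => ?_
    have hu' : u < x₀ := by
      rw [mem_uIcc] at hu
      rcases hu with h1 | h1 <;> linarith [h1.2]
    have := hp (u : ℂ) (by simpa using hu')
    show X (u + ((0 : ℝ) : ℂ) * I) = X (u + ((2 * Real.pi : ℝ) : ℂ) * I)
    rw [show (u : ℂ) + ((0 : ℝ) : ℂ) * I = u by simp, ← this]
    congr 1
    push_cast
    ring
  rw [h3, sub_self, zero_add, ← smul_sub] at key
  have h4 := (smul_eq_zero.1 key).resolve_left I_ne_zero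
  exact sub_eq_zero.1 h4

lemma vint_zero {x₀ : ℝ} {X : ℂ → ℂ} (hX : DifferentiableOn ℂ X {ζ : ℂ | ζ.re < x₀})
    (hp : ∀ ζ : ℂ, ζ.re < x₀ → X (ζ + 2 * Real.pi * I) = X ζ) (hl : Tendsto X lf (𝓝 0))
    {x : ℝ} (h : x < x₀) : vint X x = 0 := by
  have key : ∀ ε : ℝ, 0 < ε → ‖vint X x‖ ≤ ε * (2 * Real.pi) := by
    intro ε hε
    have h1 : ∀ᶠ ζ in lf, ‖X ζ‖ < ε := by
      have := (Metric.tendsto_nhds.1 hl) ε hε
      simpa [dist_eq_norm] using this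
    obtain ⟨R, hR⟩ := eventually_lf.1 h1
    set x' := min (x₀ - 1) (R - 1) with hx'
    have h2 : x' < x₀ := (min_le_left _ _).trans_lt (by linarith)
    have h3 : x' < R := (min_le_right _ _).trans_lt (by linarith)
    rw [vint_eq hX hp h h2]
    have h4 := intervalIntegral.norm_integral_le_of_norm_le_const (a := 0) (b := 2 * Real.pi)
      (f := fun y : ℝ => X (x' + y * I)) (C := ε) (fun y _ => (hR _ (by simpa using h3)).le)
    rwa [sub_zero, abs_of_pos Real.two_pi_pos] at h4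
  have h1 : ‖vint X x‖ ≤ 0 := by
    by_contra hcon
    push Not at hcon
    have h2 := key (‖vint X x‖ / (2 * (2 * Real.pi))) (by positivity)
    have h3 : ‖vint X x‖ / (2 * (2 * Real.pi)) * (2 * Real.pi) = ‖vint X x‖ / 2 := by
      field_simp
    rw [h3] at h2
    linarith
  exact norm_le_zero_iff.1 h1

/-- the rectangle -/
def Re (x₁ x₂ : ℝ) : Set ℂ := {ζ : ℂ | (x₁ ≤ ζ.re ∧ ζ.re ≤ x₂) ∧ 0 ≤ ζ.im ∧ ζ.im < 2 * Real.pi}

lemma re_eq (x₁ x₂ : ℝ) :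
    Re x₁ x₂ = measurableEquivRealProd ⁻¹' (Icc x₁ x₂ ×ˢ Ico 0 (2 * Real.pi)) := by
  ext ζ
  simp [Re]

lemma re_meas (x₁ x₂ : ℝ) : MeasurableSet (Re x₁ x₂) := by
  rw [re_eq]
  exact measurableEquivRealProd.measurable (measurableSet_Icc.prod measurableSet_Ico)

lemma re_sub (x₁ x₂ : ℝ) : Re x₁ x₂ ⊆ Icc x₁ x₂ ×ℂ Icc 0 (2 * Real.pi) := by
  intro ζ hζ
  rw [mem_reProdIm]
  exact ⟨⟨hζ.1.1, hζ.1.2⟩, hζ.2.1, hζ.2.2.le⟩

lemma re_cpt (x₁ x₂ : ℝ) : IsCompact (Icc x₁ x₂ ×ℂ Icc 0 (2 * Real.pi)) :=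
  IsCompact.reProdIm isCompact_Icc isCompact_Icc

lemma re_fin (x₁ x₂ : ℝ) : volume (Re x₁ x₂) ≠ ⊤ :=
  ((measure_mono (re_sub x₁ x₂)).trans_lt (re_cpt x₁ x₂).measure_lt_top).ne

lemma re_int {x₁ x₂ : ℝ} {f : ℂ → ℂ} (hf : ContinuousOn f (Icc x₁ x₂ ×ℂ Icc 0 (2 * Real.pi))) :
    IntegrableOn f (Re x₁ x₂) :=
  (hf.integrableOn_compact (re_cpt x₁ x₂)).mono_set (re_sub x₁ x₂)

lemma int_zero {x₀ : ℝ} {X : ℂ → ℂ} (hX : DifferentiableOn ℂ X {ζ : ℂ | ζ.re < x₀})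
    (hp : ∀ ζ : ℂ, ζ.re < x₀ → X (ζ + 2 * Real.pi * I) = X ζ) (hl : Tendsto X lf (𝓝 0))
    {x₁ x₂ : ℝ} (h : x₂ < x₀) : ∫ ζ in Re x₁ x₂, X ζ = 0 := by
  have hc : ContinuousOn X (Icc x₁ x₂ ×ℂ Icc 0 (2 * Real.pi)) := by
    refine hX.continuousOn.mono fun ζ hζ => ?_
    rw [mem_reProdIm] at hζ
    show ζ.re < x₀
    linarith [hζ.1.2]
  have h1 := volume_preserving_equiv_real_prod.setIntegral_preimage_emb
    measurableEquivRealProd.measurableEmbedding (fun p : ℝ × ℝ => X (p.1 + p.2 * I))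
    (Icc x₁ x₂ ×ˢ Ico 0 (2 * Real.pi))
  have h2 : (fun ζ : ℂ => X ((measurableEquivRealProd ζ).1 + (measurableEquivRealProd ζ).2 * I)) =
      X := by
    funext ζ
    simp
  have h1' : ∫ ζ in Re x₁ x₂, X ζ =
      ∫ p in Icc x₁ x₂ ×ˢ Ico (0 : ℝ) (2 * Real.pi), X ((p.1 : ℂ) + p.2 * I) := by
    rw [re_eq, ← h1]
    exact congrArg (fun f : ℂ → ℂ => ∫ ζ in measurableEquivRealProd ⁻¹'
      (Icc x₁ x₂ ×ˢ Ico 0 (2 * Real.pi)), f ζ) h2.symm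
  rw [h1']
  have hcont : ContinuousOn (fun p : ℝ × ℝ => X ((p.1 : ℂ) + p.2 * I))
      (Icc x₁ x₂ ×ˢ Icc (0 : ℝ) (2 * Real.pi)) := by
    refine hc.comp (by fun_prop) fun p hp => ?_
    rw [mem_reProdIm]
    simpa using ⟨⟨hp.1.1, hp.1.2⟩, hp.2.1, hp.2.2⟩
  have hi : IntegrableOn (fun p : ℝ × ℝ => X ((p.1 : ℂ) + p.2 * I))
      (Icc x₁ x₂ ×ˢ Ico (0 : ℝ) (2 * Real.pi)) (volume.prod volume) :=
    (hcont.integrableOn_compact (isCompact_Icc.prod isCompact_Icc)).mono_set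
      (prod_mono subset_rfl Ico_subset_Icc_self)
  have h3 := setIntegral_prod (μ := (volume : Measure ℝ)) (ν := (volume : Measure ℝ)) _ hi
  rw [← Measure.volume_eq_prod] at h3
  rw [h3]
  have h4 : ∀ x ∈ Icc x₁ x₂, ∫ y in Ico (0 : ℝ) (2 * Real.pi), X ((x : ℂ) + y * I) = 0 := by
    intro x hx
    rw [setIntegral_congr_set Ico_ae_eq_Ioc, ← intervalIntegral.integral_of_le Real.two_pi_pos.le]
    exact vint_zero hX hp hl (lt_of_le_of_lt hx.2 h)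
  rw [setIntegral_congr_fun measurableSet_Icc h4]
  simp

lemma bound {x₀ d : ℝ} {X : ℂ → ℂ} {D : ℂ → ENNReal} (hd : 0 ≤ d)
    (hX : DifferentiableOn ℂ X {ζ : ℂ | ζ.re < x₀})
    (hp : ∀ ζ : ℂ, ζ.re < x₀ → X (ζ + 2 * Real.pi * I) = X ζ) (hl : Tendsto X lf (𝓝 0))
    (hD : ∫⁻ ζ in {ζ : ℂ | 0 ≤ ζ.im ∧ ζ.im < 2 * Real.pi}, D ζ ≤ ENNReal.ofReal d)
    (hw : ∀ᵐ ζ : ℂ, ζ.re < x₀ → ENNReal.ofReal (‖X ζ‖ + ‖1 - X ζ‖) ≤ 1 + D ζ)
    {x₁ x₂ : ℝ} (h : x₂ < x₀) : ∫⁻ ζ in Re x₁ x₂, ‖X ζ‖ₑ ≤ ENNReal.ofReal d := by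
  have hc : ContinuousOn X (Icc x₁ x₂ ×ℂ Icc 0 (2 * Real.pi)) := by
    refine hX.continuousOn.mono fun ζ hζ => ?_
    rw [mem_reProdIm] at hζ
    show ζ.re < x₀
    linarith [hζ.1.2]
  have hi : IntegrableOn X (Re x₁ x₂) := re_int hc
  have hi1 : IntegrableOn (fun ζ => 1 - X ζ) (Re x₁ x₂) := re_int (continuousOn_const.sub hc)
  set A : ℝ := (volume (Re x₁ x₂)).toReal with hA
  have hA' : volume (Re x₁ x₂) = ENNReal.ofReal A := (ENNReal.ofReal_toReal (re_fin x₁ x₂)).symm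
  -- the integral of the inequality
  have h1 : ∫⁻ ζ in Re x₁ x₂, ENNReal.ofReal (‖X ζ‖ + ‖1 - X ζ‖) ≤
      ENNReal.ofReal A + ENNReal.ofReal d := by
    calc ∫⁻ ζ in Re x₁ x₂, ENNReal.ofReal (‖X ζ‖ + ‖1 - X ζ‖)
        ≤ ∫⁻ ζ in Re x₁ x₂, (1 + D ζ) := by
          refine lintegral_mono_ae ?_
          refine (ae_restrict_iff' (re_meas x₁ x₂)).2 ?_
          filter_upwards [hw] with ζ hζ hm
          exact hζ (lt_of_le_of_lt hm.1.2 h)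
      _ = volume (Re x₁ x₂) + ∫⁻ ζ in Re x₁ x₂, D ζ := by
          rw [lintegral_add_left measurable_const]
          simp
      _ ≤ ENNReal.ofReal A + ENNReal.ofReal d := by
          rw [hA']
          refine add_le_add le_rfl ((lintegral_mono_set fun ζ hζ => ?_).trans hD)
          exact hζ.2
  have hs : IntegrableOn (fun ζ => ‖X ζ‖ + ‖1 - X ζ‖) (Re x₁ x₂) := hi.norm.add hi1.norm
  rw [← ofReal_integral_eq_lintegral_ofReal hs
    (Eventually.of_forall fun ζ => add_nonneg (norm_nonneg _) (norm_nonneg _)),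
    ← ENNReal.ofReal_add ENNReal.toReal_nonneg hd,
    ENNReal.ofReal_le_ofReal_iff (add_nonneg ENNReal.toReal_nonneg hd),
    integral_add hi.norm hi1.norm] at h1
  have h2 : A ≤ ∫ ζ in Re x₁ x₂, ‖1 - X ζ‖ := by
    have h3 : ∫ ζ in Re x₁ x₂, (1 - X ζ) = (A : ℂ) := by
      rw [integral_sub (by
        refine (integrableOn_const (re_fin x₁ x₂)) ) hi, int_zero hX hp hl h, sub_zero]
      rw [setIntegral_const]
      simp [Measure.real, hA]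
    have h4 := norm_integral_le_integral_norm (μ := volume.restrict (Re x₁ x₂))
      (fun ζ => 1 - X ζ)
    rw [h3] at h4
    simp only [norm_real] at h4
    exact (le_abs_self A).trans h4
  have h5 : ∫ ζ in Re x₁ x₂, ‖X ζ‖ ≤ d := by linarith
  rw [← ofReal_integral_norm_eq_lintegral_enorm hi]
  exact ENNReal.ofReal_le_ofReal h5

lemma cover (x₀ : ℝ) : {ζ : ℂ | ζ.re < x₀ ∧ 0 ≤ ζ.im ∧ ζ.im < 2 * Real.pi} =
    ⋃ n : ℕ, Re (x₀ - (n + 1)) (x₀ - 1 / (n + 1)) := by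
  ext ζ
  simp only [mem_ofPred_eq, mem_iUnion, Re]
  constructor
  · rintro ⟨h1, h2⟩
    obtain ⟨n, hn⟩ := exists_nat_gt (max (x₀ - ζ.re) (1 / (x₀ - ζ.re)))
    have h3 : x₀ - ζ.re < n := (le_max_left _ _).trans_lt hn
    have h4 : 1 / (x₀ - ζ.re) < n := (le_max_right _ _).trans_lt hn
    have h5 : 0 < x₀ - ζ.re := by linarith
    have hn0 : (0 : ℝ) < (n : ℝ) := lt_trans h5 h3
    refine ⟨n, ⟨by linarith, ?_⟩, h2⟩
    have h6 : 1 / ((n : ℝ) + 1) ≤ x₀ - ζ.re := by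
      rw [div_le_iff₀ (by positivity)]
      rw [div_lt_iff₀ h5] at h4
      nlinarith
    linarith
  · rintro ⟨n, ⟨h1, h2⟩, h3⟩
    refine ⟨?_, h3⟩
    have : 0 < 1 / ((n : ℝ) + 1) := by positivity
    linarith

lemma mono (x₀ : ℝ) : Monotone fun n : ℕ => Re (x₀ - (n + 1)) (x₀ - 1 / (n + 1)) := by
  intro m n hmn ζ hζ
  have h1 : (m : ℝ) ≤ n := by exact_mod_cast hmn
  have h2 : 1 / ((n : ℝ) + 1) ≤ 1 / ((m : ℝ) + 1) :=
    one_div_le_one_div_of_le (by positivity) (by linarith)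
  have h3 : ζ ∈ Re (x₀ - (m + 1)) (x₀ - 1 / (m + 1)) := hζ
  show ζ ∈ Re (x₀ - (n + 1)) (x₀ - 1 / (n + 1))
  exact ⟨⟨by linarith [h3.1.1], by linarith [h3.1.2]⟩, h3.2⟩

end INN_

/-- **INN.** -/
theorem p_INN : T_INN := by
  intro x₀ d X D hd hX hp hl _ hD hw
  rw [INN_.cover, setLIntegral_iUnion_of_directed _ (INN_.mono x₀).directed_le]
  refine iSup_le fun n => INN_.bound hd hX hp hl hD hw ?_
  have : 0 < 1 / ((n : ℝ) + 1) := by positivity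
  linarith

end Pool.Agent.MEX
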