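import Pool.Agent.MEX.Basic

/-!
# MEX-ITE: the contradiction
-/

set_option autoImplicit false

open Complex

namespace Pool.Agent.MEX

/-- ITE (from ROU, RTA, TNP): contradiction. -/
theorem p_ITE (h1 : T_ROU) (h2 : T_RTA) (h3 : T_TNP) : T_ITE := by
  obtain ⟨C, hC, hrou⟩ := h1
  refine ⟨C, hC, ?_⟩
  intro n k c b r μ V χ J D d t δ h θ y hB hS hδ hfar htδ hsub hnot
  obtain ⟨hlip, hper, h0, hhalf, -⟩ := h3 θ
  have hP : ∀ i : ℕ, ∀ ζ : ℂ,
      0 < et (h - 410 * t * i) (fun x => tnt θ (x + i * μ.im)) ζ → ζ ∈ V J := by
    intro i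
    induction i with
    | zero =>
      intro ζ hζ
      apply hsub
      simpa [et] using hζ
    | succ i ih =>
      intro ζ hζ
      have hR : Rnd n k c b r μ V χ J D d (h - 410 * t * i)
          (fun x => tnt θ (x + i * μ.im)) :=
        { toBas := hB
          lip := fun x x' => by
            have := hlip (x + i * μ.im) (x' + i * μ.im)
            refine this.trans (le_of_eq ?_)
            congr 1
            ring
          aper := fun x => by
            have e : x + 2 * Real.pi + i * μ.im = x + i * μ.im + 2 * Real.pi := by ring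
            show tnt θ (x + 2 * Real.pi + i * μ.im) = tnt θ (x + i * μ.im)
            rw [e, hper]
          a0 := fun x => h0 _
          a1 := fun x => hhalf _
          sub := ih }
      apply hrou n k c b r μ V χ J D d t _ _ hR hS ζ
      simp only [et] at hζ
      push_cast at hζ
      have e : ζ.im + μ.im + i * μ.im = ζ.im + (i + 1) * μ.im := by ring
      show 410 * t < h - 410 * t * i + tnt θ (ζ.im + μ.im + i * μ.im) - ζ.re
      rw [e]
      linarith
  obtain ⟨i, hi, hti⟩ := h2 μ.im δ hδ hfar θ y
  apply hnot
  apply hP i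
  have hre : ((h : ℂ) + y * I).re = h := by simp
  have him : ((h : ℂ) + y * I).im = y := by simp
  simp only [et]
  rw [hre, him]
  have ht0 := hS.ht
  have h4 : t * i ≤ δ / 200000 * (12 / δ) := by
    apply mul_le_mul _ hi (Nat.cast_nonneg _) (by positivity)
    linarith
  have h5 : δ / 200000 * (12 / δ) = 12 / 200000 := by
    field_simp
  rw [h5] at h4
  nlinarith

end Pool.Agent.MEX
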