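import Pool.Agent.MEX.Basic

/-!
# MEX: LIFT, curves of small length lift to natural discs
-/

set_option autoImplicit false

open Complex Filter Topology Set MeasureTheory
open Pool.Agent.Multibrot (rt push)
open Pool.Agent.Limb (F)
open Pool.Agent.PLim (Cyc Res AA fp fpp Rho LocFix)

namespace Pool.Agent.MEX

/-- LIFT: curves of small length lift to natural discs. -/
theorem p_LIFT : T_LIFT := by
  intro k b r ζ₀ R T g γ γ' hR hg hT hγ hγ' hγ0 hγb hL
  set ρ : ℝ → ℝ := fun s => ‖γ' s‖ * √‖AA k b r (γ s)‖ with hρ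
  have hρc : ContinuousOn ρ (Icc 0 T) := by
    refine hγ'.norm.mul (ContinuousOn.sqrt (ContinuousOn.norm ?_))
    intro s hs
    have h1 : ContinuousAt (AA k b r) (γ s) := (AA_differentiableAt (hγb s hs)).continuousAt
    have h2 : ContinuousAt γ s := (hγ s hs).continuousAt
    exact (ContinuousAt.comp h1 h2).continuousWithinAt
  set ρ' : ℝ → ℝ := IccExtend hT ((Icc 0 T).domRestrict ρ) with hρ'
  have hρ'c : Continuous ρ' := (continuousOn_iff_continuous_domRestrict.1 hρc).Icc_extend'
  have hρ'e : ∀ s ∈ Icc 0 T, ρ' s = ρ s := fun s hs => IccExtend_of_mem hT _ hs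
  have hρ'0 : ∀ s, 0 ≤ ρ' s := by
    intro s
    show 0 ≤ ρ _
    exact mul_nonneg (norm_nonneg _) (Real.sqrt_nonneg _)
  set l : ℝ → ℝ := fun u => ∫ s in (0 : ℝ)..u, ρ' s with hl
  have hld : ∀ u, HasDerivAt l (ρ' u) u := fun u =>
    (hρ'c.integral_hasStrictDerivAt 0 u).hasDerivAt
  have hlT : ∫ s in (0 : ℝ)..T, ρ s = l T := by
    apply intervalIntegral.integral_congr
    intro s hs
    rw [uIcc_of_le hT] at hs
    exact (hρ'e s hs).symm
  have hlm : Monotone l := monotone_of_deriv_nonneg (fun u => (hld u).differentiableAt)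
    (fun u => by rw [(hld u).deriv]; exact hρ'0 u)
  have hlc : Continuous l := continuous_iff_continuousAt.2 fun u => (hld u).continuousAt
  have hl0 : l 0 = 0 := intervalIntegral.integral_same
  have hLT : l T < R := by rw [← hlT]; exact hL
  have hdg : ∀ z ∈ Metric.ball ζ₀ R, HasStrictDerivAt g (deriv g z) z := fun z hz =>
    (hg.diff.analyticAt (Metric.isOpen_ball.mem_nhds hz)).hasStrictDerivAt
  have key : Icc 0 T ⊆ {s : ℝ | ∃ ξ : ℂ, ‖ξ - ζ₀‖ ≤ l s ∧ g ξ = γ s} := by
    apply IsClosed.Icc_subset_of_forall_mem_nhdsWithin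
    · apply IsSeqClosed.isClosed
      intro x a hx ha
      have haI : a ∈ Icc 0 T := isClosed_Icc.mem_of_tendsto ha (Eventually.of_forall fun n =>
        (hx n).2)
      refine ⟨?_, haI⟩
      have hx1 : ∀ n, ∃ ξ : ℂ, ‖ξ - ζ₀‖ ≤ l (x n) ∧ g ξ = γ (x n) := fun n => (hx n).1
      choose ξ hξ1 hξ2 using hx1
      have hξK : ∀ n, ξ n ∈ Metric.closedBall ζ₀ (l T) := fun n => by
        rw [Metric.mem_closedBall, dist_eq_norm]
        exact (hξ1 n).trans (hlm (hx n).2.2)
      obtain ⟨z, hz, φ, hφ, hlim⟩ := (isCompact_closedBall ζ₀ (l T)).tendsto_subseq hξK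
      have hzR : z ∈ Metric.ball ζ₀ R := Metric.closedBall_subset_ball hLT hz
      have hxφ : Tendsto (fun n => x (φ n)) atTop (𝓝 a) := ha.comp hφ.tendsto_atTop
      refine ⟨z, ?_, ?_⟩
      · have e1 : Tendsto (fun n => ‖ξ (φ n) - ζ₀‖) atTop (𝓝 ‖z - ζ₀‖) :=
          (hlim.sub_const ζ₀).norm
        have e2 : Tendsto (fun n => l (x (φ n))) atTop (𝓝 (l a)) :=
          (hlc.tendsto a).comp hxφ
        exact le_of_tendsto_of_tendsto' e1 e2 fun n => hξ1 (φ n)
      · have e1 : Tendsto (fun n => g (ξ (φ n))) atTop (𝓝 (g z)) :=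
          ((hdg z hzR).hasDerivAt.continuousAt.tendsto).comp hlim
        have e2 : Tendsto (fun n => γ (x (φ n))) atTop (𝓝 (γ a)) :=
          ((hγ a haI).continuousAt.tendsto).comp hxφ
        have e3 : (fun n => g (ξ (φ n))) = fun n => γ (x (φ n)) := by
          funext n
          exact hξ2 (φ n)
        rw [e3] at e1
        exact tendsto_nhds_unique e1 e2
    · exact ⟨ζ₀, by simp [hl0], hγ0.symm⟩
    · rintro s ⟨⟨ξ, hξ, hgξ⟩, hs0, hsT⟩
      have hξR : ξ ∈ Metric.ball ζ₀ R := by
        rw [Metric.mem_ball, dist_eq_norm]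
        exact (hξ.trans (hlm hsT.le)).trans_lt hLT
      have hst := (hdg ξ hξR).hasStrictFDerivAt_equiv (hg.deriv_ne hξR)
      set P := hst.toOpenPartialHomeomorph with hP
      have hPc : ∀ z, P z = g z := fun z => rfl
      have hξs : ξ ∈ P.source := hst.mem_toOpenPartialHomeomorph_source
      have hγt : γ s ∈ P.target := by
        rw [← hgξ, ← hPc]
        exact P.map_source hξs
      have hPs : P.symm (γ s) = ξ := by
        rw [← hgξ, ← hPc]
        exact P.left_inv hξs
      have hγc : ContinuousAt γ s := (hγ s ⟨hs0, hsT.le⟩).continuousAt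
      have hN1 : ∀ᶠ u in 𝓝 s, γ u ∈ P.target := hγc (P.open_target.mem_nhds hγt)
      have hN2 : ∀ᶠ u in 𝓝 s, P.symm (γ u) ∈ Metric.ball ζ₀ R := by
        have h1 : ContinuousAt (fun u => P.symm (γ u)) s :=
          ContinuousAt.comp (P.continuousAt_symm hγt) hγc
        apply h1
        show Metric.ball ζ₀ R ∈ 𝓝 (P.symm (γ s))
        rw [hPs]
        exact Metric.isOpen_ball.mem_nhds hξR
      obtain ⟨ε, hε, hεN⟩ := Metric.eventually_nhds_iff.1 (hN1.and hN2)
      rw [mem_nhdsGT_iff_exists_Ioo_subset]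
      refine ⟨min (s + ε) T, lt_min (by linarith) hsT, ?_⟩
      intro u hu
      have hu1 : s < u := hu.1
      have hu2 : u < s + ε := hu.2.trans_le (min_le_left _ _)
      have hu3 : u < T := hu.2.trans_le (min_le_right _ _)
      have hx : ∀ x ∈ Icc s u, x ∈ Icc 0 T ∧ γ x ∈ P.target ∧
          P.symm (γ x) ∈ Metric.ball ζ₀ R := by
        intro x hx
        refine ⟨⟨hs0.trans hx.1, hx.2.trans hu3.le⟩, hεN ?_⟩
        rw [Real.dist_eq, abs_of_nonneg (by linarith [hx.1])]
        linarith [hx.2]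
      have hder : ∀ x ∈ Icc s u, HasDerivAt (fun x => P.symm (γ x) - ζ₀)
          ((deriv g (P.symm (γ x)))⁻¹ * γ' x) x := by
        intro x hxx
        obtain ⟨h1, h2, h3⟩ := hx x hxx
        have h4 : HasDerivAt P.symm (deriv g (P.symm (γ x)))⁻¹ (γ x) :=
          P.hasDerivAt_symm h2 (hg.deriv_ne h3) (hdg _ h3).hasDerivAt
        exact (h4.comp x (hγ x h1)).sub_const ζ₀
      refine ⟨P.symm (γ u), ?_, ?_⟩
      · have hb := image_norm_le_of_norm_deriv_right_le_deriv_boundary'
          (f := fun x => P.symm (γ x) - ζ₀) (a := s) (b := u)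
          (f' := fun x => (deriv g (P.symm (γ x)))⁻¹ * γ' x) (B := l) (B' := ρ')
          (fun x hxx => (hder x hxx).continuousAt.continuousWithinAt)
          (fun x hxx => (hder x ⟨hxx.1, hxx.2.le⟩).hasDerivWithinAt)
          (by rw [hPs]; exact hξ) hlc.continuousOn
          (fun x _ => (hld x).hasDerivWithinAt)
          (fun x hxx => by
            obtain ⟨h1, h2, h3⟩ := hx x ⟨hxx.1, hxx.2.le⟩
            have h5 : g (P.symm (γ x)) = γ x := by
              rw [← hPc]
              exact P.right_inv h2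
            have h6 := hg.nat _ h3
            rw [h5] at h6
            have h7 : ‖deriv g (P.symm (γ x))‖ ≠ 0 := norm_ne_zero_iff.2 (hg.deriv_ne h3)
            have h8 : ‖deriv g (P.symm (γ x))‖ ^ 2 * ‖AA k b r (γ x)‖ = 1 := by
              rw [← norm_pow, ← norm_mul, h6, norm_one]
            have h9 : ‖AA k b r (γ x)‖ = (‖deriv g (P.symm (γ x))‖⁻¹) ^ 2 := by
              field_simp
              linarith
            rw [hρ'e x h1, hρ]
            simp only
            rw [h9, Real.sqrt_sq (by positivity), norm_mul, norm_inv, mul_comm])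
        exact hb ⟨hu1.le, le_rfl⟩
      · rw [← hPc]
        exact P.right_inv (hx u ⟨hu1.le, le_rfl⟩).2.1
  obtain ⟨ξ, h1, h2⟩ := key ⟨hT, le_rfl⟩
  exact ⟨ξ, by rw [hlT]; exact h1, h2⟩

end Pool.Agent.MEX
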