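import Pool.Agent.MEX.Basic
import Pool.Agent.PLim.Basic
import Pool.Agent.PLim.LOGL

/-!
# MEX: LLG, logarithms on left invariant domains
-/

set_option autoImplicit false

open Complex Filter Topology Set MeasureTheory

namespace Pool.Agent.MEX

namespace LLG_

/-- The limit along `lf` in terms of left half planes. -/
theorem lf_iff {p : ℂ → Prop} : (∀ᶠ ζ in lf, p ζ) ↔ ∃ R : ℝ, ∀ ζ : ℂ, ζ.re < R → p ζ := by
  unfold lf
  rw [eventually_comap]
  constructor
  · intro h
    obtain ⟨R, hR⟩ := eventually_atBot.mp h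
    exact ⟨R, fun ζ hζ => hR ζ.re hζ.le ζ rfl⟩
  · rintro ⟨R, hR⟩
    filter_upwards [eventually_lt_atBot R] with x hx ζ hζ
    exact hR ζ (by rw [hζ]; exact hx)

end LLG_

open LLG_ in
/-- LLG: logarithms on left invariant domains. -/
theorem p_LLG : T_LLG := by
  classical
  intro W g g₀ hW hg hne hg0 hlim
  -- the quotient
  set Q : ℂ → ℂ := fun ζ => g ζ / g₀ with hQ
  have hQlim : Tendsto Q lf (𝓝 1) := by
    have := hlim.div_const g₀
    rwa [div_self hg0] at this
  have hQd : DifferentiableOn ℂ Q W := hg.div_const g₀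
  have hQne : ∀ ζ ∈ W, Q ζ ≠ 0 := fun ζ hζ => div_ne_zero (hne ζ hζ) hg0
  have hQu : ∀ ε : ℝ, 0 < ε → ∃ R : ℝ, ∀ ζ : ℂ, ζ.re < R → ‖Q ζ - 1‖ < ε := by
    intro ε hε
    have h1 : ∀ᶠ ζ in lf, ‖Q ζ - 1‖ < ε := by
      have h2 := (tendsto_iff_norm_sub_tendsto_zero.mp hQlim).eventually_lt_const hε
      exact h2
    exact lf_iff.mp h1
  obtain ⟨L, hLc, hLe, -, hLu⟩ := Pool.Agent.PLim.p_LOGL W (fun y t => Q ((y : ℂ) - t))
    (by
      apply ContinuousOn.comp (t := W) hQd.continuousOn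
      · apply Continuous.continuousOn
        fun_prop
      · intro p hp
        exact hW.left p.1 p.1.2 p.2 hp.2)
    (fun y t ht => hQne _ (hW.left y y.2 t ht))
    (by
      intro y₀ ε hε
      obtain ⟨R, hR⟩ := hQu ε hε
      refine ⟨(y₀ : ℂ).re + 1 - R, ?_⟩
      have h1 : ∀ᶠ y : W in 𝓝 y₀, (y : ℂ).re < (y₀ : ℂ).re + 1 := by
        have h2 : Continuous fun y : W => (y : ℂ).re := continuous_re.comp continuous_subtype_val
        exact (h2.tendsto y₀).eventually_lt_const (by linarith)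
      filter_upwards [h1] with y hy t ht
      apply hR
      rw [sub_re, ofReal_re]
      linarith)
  -- the logarithm
  set N : ℂ → ℂ := fun ζ => if h : ζ ∈ W then L ⟨ζ, h⟩ 0 else 0 with hN
  have hNv : ∀ (ζ : ℂ) (h : ζ ∈ W), N ζ = L ⟨ζ, h⟩ 0 := fun ζ h => dif_pos h
  have hNe : ∀ ζ ∈ W, exp (N ζ) = Q ζ := by
    intro ζ h
    rw [hNv ζ h, hLe ⟨ζ, h⟩ 0 le_rfl]
    simp
  have hNc : ContinuousOn N W := by
    rw [continuousOn_iff_continuous_domRestrict]
    have h1 : W.domRestrict N = fun y : W => L y 0 := by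
      funext y
      exact hNv y y.2
    rw [h1]
    have h2 : Continuous fun y : W => ((y, 0) : W × ℝ) := by fun_prop
    have h3 := hLc.comp_continuous h2 (fun y => ⟨mem_univ _, mem_Ici.mpr le_rfl⟩)
    exact h3
  refine ⟨fun ζ => log g₀ + N ζ, ?_, ?_, ?_⟩
  · exact (differentiableOn_const _).add
      (Pool.Agent.PLim.differentiableOn_of_exp hNc hNe hQd)
  · intro ζ hζ
    rw [exp_add, hNe ζ hζ, exp_log hg0, hQ]
    field_simp
  · -- the limit
    obtain ⟨R1, hR1⟩ := hQu 1 one_pos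
    obtain ⟨R2, hR2⟩ := hW.inf
    have hslit : ∀ ζ : ℂ, ζ.re < R1 → Q ζ ∈ slitPlane := by
      intro ζ hζ
      have h1 := hR1 ζ hζ
      left
      have h2 : |(Q ζ - 1).re| ≤ ‖Q ζ - 1‖ := abs_re_le_norm _
      have h3 := (abs_lt.mp (h2.trans_lt h1)).1
      rw [sub_re, one_re] at h3
      linarith
    have hNlog : ∀ ζ : ℂ, ζ.re < min R1 R2 → N ζ = log (Q ζ) := by
      intro ζ hζ
      have hζ1 : ζ.re < R1 := hζ.trans_le (min_le_left _ _)
      have hζ2 : ζ.re < R2 := hζ.trans_le (min_le_right _ _)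
      have hζW : ζ ∈ W := hR2 ζ hζ2
      have hu := hLu ⟨ζ, hζW⟩ (fun t => log (Q (ζ - t))) (by
        intro t ht
        have ht' : (0 : ℝ) ≤ t := ht
        have hre : (ζ - (t : ℂ)).re < R1 := by rw [sub_re, ofReal_re]; linarith
        have hmem : ζ - (t : ℂ) ∈ W := hW.left ζ hζW t ht'
        have h1 : ContinuousAt Q (ζ - (t : ℂ)) :=
          (hQd.differentiableAt (hW.op.mem_nhds hmem)).continuousAt
        have h2 : ContinuousAt (fun t : ℝ => ζ - (t : ℂ)) t := by fun_prop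
        have h3 : ContinuousAt (fun t : ℝ => Q (ζ - (t : ℂ))) t :=
          ContinuousAt.comp (f := fun t : ℝ => ζ - (t : ℂ)) h1 h2
        exact (h3.clog (hslit _ hre)).continuousWithinAt) (by
        intro t ht
        exact exp_log (hQne _ (hW.left ζ hζW t ht))) (by
        have h1 : Tendsto (fun t : ℝ => ζ - (t : ℂ)) atTop lf := by
          unfold lf
          rw [tendsto_comap_iff]
          have h2 : (Complex.re ∘ fun t : ℝ => ζ - (t : ℂ)) = fun t : ℝ => ζ.re - t := by
            funext t; simp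
          rw [h2]
          exact tendsto_atBot_add_const_left atTop ζ.re tendsto_neg_atTop_atBot
        have h3 : Tendsto (fun t : ℝ => Q (ζ - (t : ℂ))) atTop (𝓝 1) := hQlim.comp h1
        have h4 := h3.clog one_mem_slitPlane
        rwa [log_one] at h4) 0 le_rfl
      rw [hNv ζ hζW, ← hu]
      simp
    have h1 : Tendsto (fun ζ => log (Q ζ)) lf (𝓝 0) := by
      have := hQlim.clog one_mem_slitPlane
      rwa [log_one] at this
    have h2 : Tendsto N lf (𝓝 0) := by
      refine h1.congr' ?_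
      have : ∀ᶠ ζ in lf, ζ.re < min R1 R2 := lf_iff.mpr ⟨_, fun ζ h => h⟩
      filter_upwards [this] with ζ hζ
      exact (hNlog ζ hζ).symm
    have h3 := h2.const_add (log g₀)
    rwa [add_zero] at h3

end Pool.Agent.MEX
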