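import Pool.Agent.MEX.Basic

/-!
# MEX: LQZ, the square of the natural coordinate at a zero
-/

set_option autoImplicit false

open Complex Filter Topology Set MeasureTheory
open Pool.Agent.Multibrot (rt push)
open Pool.Agent.Limb (F)
open Pool.Agent.PLim (Cyc Res AA fp fpp Rho LocFix)

namespace Pool.Agent.MEX

namespace LQZ_

/-- The weighted mean. -/
noncomputable def am (N : ℕ) (v : ℂ → ℂ) (u : ℂ) : ℂ :=
  ∫ τ in (0 : ℝ)..1, 2 * (τ : ℂ) ^ (N - 1) * v ((τ : ℂ) ^ 2 * u)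

lemma mem_of {R : ℝ} {u : ℂ} (hu : u ∈ Metric.ball (0 : ℂ) R) {τ : ℝ} (hτ : τ ∈ Icc (0 : ℝ) 1) :
    (τ : ℂ) ^ 2 * u ∈ Metric.ball (0 : ℂ) R := by
  rw [mem_ball_zero_iff] at hu ⊢
  have h1 : ‖(τ : ℂ) ^ 2‖ ≤ 1 := by
    rw [norm_pow, Complex.norm_real, Real.norm_eq_abs, abs_of_nonneg hτ.1]
    exact pow_le_one₀ hτ.1 hτ.2
  calc ‖(τ : ℂ) ^ 2 * u‖ = ‖(τ : ℂ) ^ 2‖ * ‖u‖ := norm_mul _ _
    _ ≤ 1 * ‖u‖ := mul_le_mul_of_nonneg_right h1 (norm_nonneg _)
    _ < R := by rw [one_mul]; exact hu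

lemma contOn {R : ℝ} {w : ℂ → ℂ} (hw : ContinuousOn w (Metric.ball 0 R)) {u : ℂ}
    (hu : u ∈ Metric.ball (0 : ℂ) R) :
    ContinuousOn (fun τ : ℝ => w ((τ : ℂ) ^ 2 * u)) (Icc 0 1) := by
  refine hw.comp (t := Metric.ball 0 R) ?_ fun τ hτ => mem_of hu hτ
  fun_prop

lemma am_hasDerivAt {N : ℕ} {R : ℝ} {v : ℂ → ℂ} (hv : DifferentiableOn ℂ v (Metric.ball 0 R))
    {u : ℂ} (hu : u ∈ Metric.ball (0 : ℂ) R) :
    HasDerivAt (am N v)
      (∫ τ in (0 : ℝ)..1, 2 * (τ : ℂ) ^ (N - 1) * ((τ : ℂ) ^ 2 * deriv v ((τ : ℂ) ^ 2 * u))) u := by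
  have hd : DifferentiableOn ℂ (deriv v) (Metric.ball 0 R) := hv.deriv Metric.isOpen_ball
  have huR : ‖u‖ < R := by simpa using hu
  obtain ⟨s, hs1, hs2⟩ := exists_between huR
  obtain ⟨B, hB⟩ : ∃ B : ℝ, ∀ x ∈ Metric.closedBall (0 : ℂ) s, ‖deriv v x‖ ≤ B := by
    have hc : ContinuousOn (deriv v) (Metric.closedBall 0 s) :=
      hd.continuousOn.mono (Metric.closedBall_subset_ball hs2)
    exact (isCompact_closedBall (0 : ℂ) s).exists_bound_of_continuousOn hc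
  have hu' : u ∈ Metric.ball (0 : ℂ) s := by simpa using hs1
  have hsub : Metric.ball (0 : ℂ) s ⊆ Metric.ball 0 R := Metric.ball_subset_ball hs2.le
  have hI : uIoc (0 : ℝ) 1 = Ioc 0 1 := uIoc_of_le zero_le_one
  have hcF : ∀ x ∈ Metric.ball (0 : ℂ) R,
      ContinuousOn (fun τ : ℝ => 2 * (τ : ℂ) ^ (N - 1) * v ((τ : ℂ) ^ 2 * x)) (Icc 0 1) := by
    intro x hx
    have h1 : ContinuousOn (fun τ : ℝ => 2 * (τ : ℂ) ^ (N - 1)) (Icc 0 1) := by fun_prop
    exact h1.mul (contOn hv.continuousOn hx)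
  have hcF' : ContinuousOn (fun τ : ℝ =>
      2 * (τ : ℂ) ^ (N - 1) * ((τ : ℂ) ^ 2 * deriv v ((τ : ℂ) ^ 2 * u))) (Icc 0 1) := by
    have h1 : ContinuousOn (fun τ : ℝ => 2 * (τ : ℂ) ^ (N - 1)) (Icc 0 1) := by fun_prop
    have h2 : ContinuousOn (fun τ : ℝ => (τ : ℂ) ^ 2) (Icc 0 1) := by fun_prop
    exact h1.mul (h2.mul (contOn hd.continuousOn hu))
  have hmain := intervalIntegral.hasDerivAt_integral_of_dominated_loc_of_deriv_le
    (μ := volume) (a := (0 : ℝ)) (b := 1) (𝕜 := ℂ) (E := ℂ)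
    (F := fun x τ => 2 * (τ : ℂ) ^ (N - 1) * v ((τ : ℂ) ^ 2 * x))
    (F' := fun x τ => 2 * (τ : ℂ) ^ (N - 1) * ((τ : ℂ) ^ 2 * deriv v ((τ : ℂ) ^ 2 * x)))
    (x₀ := u) (s := Metric.ball (0 : ℂ) s) (bound := fun _ => 2 * B)
    (Metric.isOpen_ball.mem_nhds hu') ?_ ?_ ?_ ?_ ?_ ?_
  · exact hmain.2
  · filter_upwards [Metric.isOpen_ball.mem_nhds hu'] with x hx
    rw [hI]
    exact ((hcF x (hsub hx)).mono Ioc_subset_Icc_self).aestronglyMeasurable measurableSet_Ioc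
  · exact (hcF u hu).intervalIntegrable_of_Icc zero_le_one
  · rw [hI]
    exact (hcF'.mono Ioc_subset_Icc_self).aestronglyMeasurable measurableSet_Ioc
  · refine Filter.Eventually.of_forall fun τ hτ x hx => ?_
    rw [hI] at hτ
    have hτ' : τ ∈ Icc (0 : ℝ) 1 := ⟨hτ.1.le, hτ.2⟩
    have h1 : ∀ m : ℕ, ‖(τ : ℂ) ^ m‖ ≤ 1 := by
      intro m
      rw [norm_pow, Complex.norm_real, Real.norm_eq_abs, abs_of_nonneg hτ'.1]
      exact pow_le_one₀ hτ'.1 hτ'.2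
    have h2 : ‖deriv v ((τ : ℂ) ^ 2 * x)‖ ≤ B :=
      hB _ (Metric.ball_subset_closedBall (mem_of hx hτ'))
    have hB0 : 0 ≤ B := (norm_nonneg _).trans h2
    rw [norm_mul, norm_mul, norm_mul]
    have h3 : ‖(2 : ℂ)‖ = 2 := by simp
    rw [h3]
    calc 2 * ‖(τ : ℂ) ^ (N - 1)‖ * (‖(τ : ℂ) ^ 2‖ * ‖deriv v ((τ : ℂ) ^ 2 * x)‖)
        ≤ 2 * 1 * (1 * B) := by
          gcongr
          · exact h1 _
          · exact h1 _
      _ = 2 * B := by ring
  · exact intervalIntegrable_const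
  · refine Filter.Eventually.of_forall fun τ hτ x hx => ?_
    rw [hI] at hτ
    have hτ' : τ ∈ Icc (0 : ℝ) 1 := ⟨hτ.1.le, hτ.2⟩
    have h1 : HasDerivAt v (deriv v ((τ : ℂ) ^ 2 * x)) ((τ : ℂ) ^ 2 * x) :=
      ((hv _ (hsub (mem_of hx hτ'))).differentiableAt
        (Metric.isOpen_ball.mem_nhds (hsub (mem_of hx hτ')))).hasDerivAt
    have h2 : HasDerivAt (fun x : ℂ => (τ : ℂ) ^ 2 * x) ((τ : ℂ) ^ 2) x := by
      simpa using (hasDerivAt_id x).const_mul ((τ : ℂ) ^ 2)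
    have h3 := (h1.comp x h2).const_mul (2 * (τ : ℂ) ^ (N - 1))
    have h4 : deriv v ((τ : ℂ) ^ 2 * x) * (τ : ℂ) ^ 2 = (τ : ℂ) ^ 2 * deriv v ((τ : ℂ) ^ 2 * x) :=
      mul_comm _ _
    rw [h4] at h3
    exact h3

lemma am_eq {N : ℕ} (hN : 1 ≤ N) {R : ℝ} {v : ℂ → ℂ}
    (hv : DifferentiableOn ℂ v (Metric.ball 0 R)) {u : ℂ} (hu : u ∈ Metric.ball (0 : ℂ) R) :
    u * deriv (am N v) u + N / 2 * am N v u = v u := by
  have hd : DifferentiableOn ℂ (deriv v) (Metric.ball 0 R) := hv.deriv Metric.isOpen_ball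
  rw [(am_hasDerivAt hv hu).deriv]
  unfold am
  have hc1 : ContinuousOn (fun τ : ℝ =>
      2 * (τ : ℂ) ^ (N - 1) * ((τ : ℂ) ^ 2 * deriv v ((τ : ℂ) ^ 2 * u))) (Icc 0 1) := by
    have h1 : ContinuousOn (fun τ : ℝ => 2 * (τ : ℂ) ^ (N - 1)) (Icc 0 1) := by fun_prop
    have h2 : ContinuousOn (fun τ : ℝ => (τ : ℂ) ^ 2) (Icc 0 1) := by fun_prop
    exact h1.mul (h2.mul (contOn hd.continuousOn hu))
  have hc2 : ContinuousOn (fun τ : ℝ => 2 * (τ : ℂ) ^ (N - 1) * v ((τ : ℂ) ^ 2 * u))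
      (Icc 0 1) := by
    have h1 : ContinuousOn (fun τ : ℝ => 2 * (τ : ℂ) ^ (N - 1)) (Icc 0 1) := by fun_prop
    exact h1.mul (contOn hv.continuousOn hu)
  rw [← intervalIntegral.integral_const_mul, ← intervalIntegral.integral_const_mul,
    ← intervalIntegral.integral_add]
  rotate_left
  · exact (continuousOn_const.mul hc1).intervalIntegrable_of_Icc zero_le_one
  · exact (continuousOn_const.mul hc2).intervalIntegrable_of_Icc zero_le_one
  have hder : ∀ τ ∈ Ioo (0 : ℝ) 1, HasDerivAt (fun τ : ℝ => (τ : ℂ) ^ N * v ((τ : ℂ) ^ 2 * u))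
      (u * (2 * (τ : ℂ) ^ (N - 1) * ((τ : ℂ) ^ 2 * deriv v ((τ : ℂ) ^ 2 * u))) +
        N / 2 * (2 * (τ : ℂ) ^ (N - 1) * v ((τ : ℂ) ^ 2 * u))) τ := by
    intro τ hτ
    have hτ' : τ ∈ Icc (0 : ℝ) 1 := ⟨hτ.1.le, hτ.2.le⟩
    have h0 : HasDerivAt (fun τ : ℝ => (τ : ℂ)) 1 τ := Complex.ofRealCLM.hasDerivAt
    have h1 : HasDerivAt v (deriv v ((τ : ℂ) ^ 2 * u)) ((τ : ℂ) ^ 2 * u) :=
      ((hv _ (mem_of hu hτ')).differentiableAt
        (Metric.isOpen_ball.mem_nhds (mem_of hu hτ'))).hasDerivAt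
    have h2 : HasDerivAt (fun τ : ℝ => (τ : ℂ) ^ 2 * u) (2 * (τ : ℂ) * u) τ := by
      have := (h0.pow 2).mul_const u
      simpa using this
    have h3 : HasDerivAt (fun τ : ℝ => v ((τ : ℂ) ^ 2 * u))
        (deriv v ((τ : ℂ) ^ 2 * u) * (2 * (τ : ℂ) * u)) τ := h1.comp τ h2
    have h4 : HasDerivAt (fun τ : ℝ => (τ : ℂ) ^ N) (N * (τ : ℂ) ^ (N - 1)) τ := by
      have := h0.fun_pow N
      simpa using this
    have h5 := h4.mul h3
    have h6 : (N * (τ : ℂ) ^ (N - 1)) * v ((τ : ℂ) ^ 2 * u) +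
        (τ : ℂ) ^ N * (deriv v ((τ : ℂ) ^ 2 * u) * (2 * (τ : ℂ) * u)) =
        u * (2 * (τ : ℂ) ^ (N - 1) * ((τ : ℂ) ^ 2 * deriv v ((τ : ℂ) ^ 2 * u))) +
        N / 2 * (2 * (τ : ℂ) ^ (N - 1) * v ((τ : ℂ) ^ 2 * u)) := by
      have h7 : (τ : ℂ) ^ N = (τ : ℂ) ^ (N - 1) * τ := by
        rw [← pow_succ, Nat.sub_add_cancel hN]
      rw [h7]
      ring
    rw [← h6]
    exact h5
  have hcont : ContinuousOn (fun τ : ℝ => (τ : ℂ) ^ N * v ((τ : ℂ) ^ 2 * u)) (Icc 0 1) := by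
    have h1 : ContinuousOn (fun τ : ℝ => (τ : ℂ) ^ N) (Icc 0 1) := by fun_prop
    exact h1.mul (contOn hv.continuousOn hu)
  rw [intervalIntegral.integral_eq_sub_of_hasDerivAt_of_le zero_le_one hcont hder]
  · have hN0 : N ≠ 0 := by omega
    simp [hN0]
  · refine ContinuousOn.intervalIntegrable_of_Icc zero_le_one ?_
    exact (continuousOn_const.mul hc1).add (continuousOn_const.mul hc2)

/-- The function `u ^ N a ^ 2` is at most `N` to one. -/
lemma count {N : ℕ} (hN : 1 ≤ N) {R : ℝ} (hR : 0 < R) {a : ℂ → ℂ}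
    (ha : DifferentiableOn ℂ a (Metric.ball 0 R)) (ha0 : a 0 ≠ 0) :
    ∃ ρ : ℝ, 0 < ρ ∧ ρ ≤ R ∧ ∀ (z : ℂ) (S : Finset ℂ),
      (∀ x ∈ S, x ∈ Metric.ball (0 : ℂ) ρ ∧ x ^ N * a x ^ 2 = z) → S.card ≤ N := by
  have hN0 : (N : ℂ) ≠ 0 := Nat.cast_ne_zero.2 (by omega)
  -- the normalised function
  set e : ℂ → ℂ := fun u => (a u / a 0) ^ 2 with he
  have h0R : (0 : ℂ) ∈ Metric.ball (0 : ℂ) R := Metric.mem_ball_self hR
  have hcont : ContinuousAt e 0 := by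
    have h1 : ContinuousAt a 0 :=
      (ha.continuousOn).continuousAt (Metric.isOpen_ball.mem_nhds h0R)
    exact (h1.div_const _).pow 2
  have he0 : e 0 = 1 := by
    simp [he, ha0]
  have hev : ∀ᶠ u in 𝓝 (0 : ℂ), e u ∈ slitPlane ∧ u ∈ Metric.ball (0 : ℂ) R := by
    refine Filter.Eventually.and ?_ (Metric.isOpen_ball.mem_nhds h0R)
    refine hcont.eventually (isOpen_slitPlane.mem_nhds ?_)
    rw [he0]
    exact one_mem_slitPlane
  set g : ℂ → ℂ := fun u => u * exp (log (e u) / N) with hg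
  have hgN : ∀ u, e u ∈ slitPlane → g u ^ N = u ^ N * e u := by
    intro u hu
    have h1 : e u ≠ 0 := slitPlane_ne_zero hu
    rw [hg]
    simp only
    rw [mul_pow, ← Complex.exp_nat_mul, mul_div_cancel₀ _ hN0, exp_log h1]
  have hediff : ∀ᶠ u in 𝓝 (0 : ℂ), DifferentiableAt ℂ g u := by
    filter_upwards [hev] with u hu
    have h1 : DifferentiableAt ℂ a u :=
      (ha u hu.2).differentiableAt (Metric.isOpen_ball.mem_nhds hu.2)
    have h2 : DifferentiableAt ℂ e u := (h1.div_const _).pow 2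
    exact differentiableAt_id.mul (((h2.clog hu.1).div_const _).cexp)
  have hana : AnalyticAt ℂ g 0 := Complex.analyticAt_iff_eventually_differentiableAt.2 hediff
  have hgd : HasDerivAt g 1 0 := by
    have h1 : DifferentiableAt ℂ (fun u => exp (log (e u) / N)) 0 := by
      have h1 : DifferentiableAt ℂ a 0 :=
        (ha 0 h0R).differentiableAt (Metric.isOpen_ball.mem_nhds h0R)
      have h2 : DifferentiableAt ℂ e 0 := (h1.div_const _).pow 2
      have h3 : e 0 ∈ slitPlane := by rw [he0]; exact one_mem_slitPlane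
      exact ((h2.clog h3).div_const _).cexp
    have h2 := (hasDerivAt_id (0 : ℂ)).mul h1.hasDerivAt
    have h3 : (1 : ℂ) * exp (log (e 0) / N) +
        id (0 : ℂ) * deriv (fun u => exp (log (e u) / N)) 0 = 1 := by
      rw [he0]
      simp
    rw [h3] at h2
    exact h2
  have hst : HasStrictDerivAt g 1 0 := by
    have h1 := hana.hasStrictDerivAt
    rw [hgd.deriv] at h1
    exact h1
  -- injectivity near `0`
  obtain ⟨U, hU, hinj⟩ : ∃ U ∈ 𝓝 (0 : ℂ), InjOn g U := by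
    have h1 := hst.hasStrictFDerivAt_equiv (one_ne_zero)
    exact ⟨_, (h1.toOpenPartialHomeomorph g).open_source.mem_nhds
      (h1.mem_toOpenPartialHomeomorph_source), (h1.toOpenPartialHomeomorph g).injOn⟩
  obtain ⟨ρ, hρ, hρU⟩ := Metric.mem_nhds_iff.1 (Filter.inter_mem hU hev)
  refine ⟨min ρ R, lt_min hρ hR, min_le_right _ _, fun z S hS => ?_⟩
  have hS' : ∀ x ∈ S, x ∈ U ∧ e x ∈ slitPlane := by
    intro x hx
    have h1 := hρU (Metric.ball_subset_ball (min_le_left _ _) (hS x hx).1)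
    exact ⟨h1.1, h1.2.1⟩
  have hmap : ∀ x ∈ S, g x ∈ (Polynomial.nthRoots N (z / a 0 ^ 2)).toFinset := by
    intro x hx
    rw [Multiset.mem_toFinset, Polynomial.mem_nthRoots (by omega), hgN x (hS' x hx).2,
      ← (hS x hx).2, he]
    field_simp
  calc S.card ≤ (Polynomial.nthRoots N (z / a 0 ^ 2)).toFinset.card :=
        Finset.card_le_card_of_injOn g hmap fun x hx y hy hxy =>
          hinj (hS' x hx).1 (hS' y hy).1 hxy
    _ ≤ Multiset.card (Polynomial.nthRoots N (z / a 0 ^ 2)) := Multiset.toFinset_card_le _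
    _ ≤ N := Polynomial.card_nthRoots _ _

/-- The common lemma. -/
lemma common {N : ℕ} (hN : 1 ≤ N) {R : ℝ} (hR : 0 < R) {q : ℂ → ℂ}
    (hq : DifferentiableOn ℂ q (Metric.ball 0 R)) (hq0 : q 0 ≠ 0) :
    ∃ (ρ : ℝ) (a v : ℂ → ℂ), 0 < ρ ∧ ρ ≤ R ∧ (∀ u ∈ Metric.ball (0 : ℂ) ρ, a u ≠ 0) ∧
      (∀ u ∈ Metric.ball (0 : ℂ) ρ, v u ^ 2 = q u) ∧
      (∀ u ∈ Metric.ball (0 : ℂ) ρ,
        HasDerivAt (fun u => u ^ N * a u ^ 2) (2 * u ^ (N - 1) * a u * v u) u) ∧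
      ∀ (z : ℂ) (S : Finset ℂ),
        (∀ x ∈ S, x ∈ Metric.ball (0 : ℂ) ρ ∧ x ^ N * a x ^ 2 = z) → S.card ≤ N := by
  have h0R : (0 : ℂ) ∈ Metric.ball (0 : ℂ) R := Metric.mem_ball_self hR
  -- the square root
  obtain ⟨c, hc⟩ : ∃ c : ℂ, c ^ 2 = q 0 := IsAlgClosed.exists_pow_nat_eq _ (by norm_num)
  have hc0 : c ≠ 0 := by
    rintro rfl
    exact hq0 (by rw [← hc]; simp)
  have hqc : ContinuousAt q 0 := hq.continuousOn.continuousAt (Metric.isOpen_ball.mem_nhds h0R)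
  have hev : ∀ᶠ u in 𝓝 (0 : ℂ), q u / q 0 ∈ slitPlane ∧ u ∈ Metric.ball (0 : ℂ) R := by
    refine Filter.Eventually.and ?_ (Metric.isOpen_ball.mem_nhds h0R)
    refine (hqc.div_const (q 0)).eventually (isOpen_slitPlane.mem_nhds ?_)
    show q 0 / q 0 ∈ slitPlane
    rw [div_self hq0]
    exact one_mem_slitPlane
  obtain ⟨R', hR', hR'U⟩ := Metric.mem_nhds_iff.1 hev
  set v : ℂ → ℂ := fun u => c * exp (log (q u / q 0) / 2) with hvdef
  have hv : DifferentiableOn ℂ v (Metric.ball 0 R') := by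
    intro u hu
    have h1 := hR'U hu
    have h2 : DifferentiableAt ℂ q u :=
      (hq u h1.2).differentiableAt (Metric.isOpen_ball.mem_nhds h1.2)
    exact ((((h2.div_const _).clog h1.1).div_const 2).cexp.const_mul c).differentiableWithinAt
  have hv2 : ∀ u ∈ Metric.ball (0 : ℂ) R', v u ^ 2 = q u := by
    intro u hu
    have h1 := (hR'U hu).1
    have h2 : q u / q 0 ≠ 0 := slitPlane_ne_zero h1
    rw [hvdef]
    simp only
    rw [mul_pow, ← Complex.exp_nat_mul, hc]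
    have h3 : ((2 : ℕ) : ℂ) * (log (q u / q 0) / 2) = log (q u / q 0) := by
      push_cast
      ring
    rw [h3, exp_log h2]
    field_simp
  set a : ℂ → ℂ := am N v with hadef
  have h0R' : (0 : ℂ) ∈ Metric.ball (0 : ℂ) R' := Metric.mem_ball_self hR'
  have ha : DifferentiableOn ℂ a (Metric.ball 0 R') := fun u hu =>
    (am_hasDerivAt hv hu).differentiableAt.differentiableWithinAt
  have hv0 : v 0 ≠ 0 := by
    intro h
    have h1 := hv2 0 h0R'
    rw [h] at h1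
    exact hq0 (by rw [← h1]; simp)
  have ha0 : a 0 ≠ 0 := by
    intro h
    have h1 := am_eq hN hv h0R'
    rw [← hadef, h] at h1
    exact hv0 (by rw [← h1]; simp)
  have hane : ∀ᶠ u in 𝓝 (0 : ℂ), a u ≠ 0 :=
    (ha.continuousOn.continuousAt (Metric.isOpen_ball.mem_nhds h0R')).eventually_ne ha0
  obtain ⟨ρ₁, hρ₁, hρ₁U⟩ := Metric.mem_nhds_iff.1 hane
  obtain ⟨ρ₂, hρ₂, hρ₂R, hcount⟩ := count hN hR' ha ha0
  have hR'R : ∀ u ∈ Metric.ball (0 : ℂ) R', u ∈ Metric.ball (0 : ℂ) R := fun u hu => (hR'U hu).2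
  refine ⟨min (min ρ₁ ρ₂) R, a, v, lt_min (lt_min hρ₁ hρ₂) hR, min_le_right _ _, ?_, ?_, ?_, ?_⟩
  · intro u hu
    exact hρ₁U (Metric.ball_subset_ball ((min_le_left _ _).trans (min_le_left _ _)) hu)
  · intro u hu
    exact hv2 u (Metric.ball_subset_ball
      (((min_le_left _ _).trans (min_le_right _ _)).trans hρ₂R) hu)
  · intro u hu
    have hu' : u ∈ Metric.ball (0 : ℂ) R' := Metric.ball_subset_ball
      (((min_le_left _ _).trans (min_le_right _ _)).trans hρ₂R) hu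
    have h1 : HasDerivAt a (deriv a u) u := (am_hasDerivAt hv hu').differentiableAt.hasDerivAt
    have h2 : HasDerivAt (fun u : ℂ => u ^ N) (N * u ^ (N - 1)) u := hasDerivAt_pow N u
    have h3 : HasDerivAt (fun u => a u ^ 2) (2 * a u * deriv a u) u := by
      have := h1.fun_pow 2
      simpa using this
    have h4 := h2.mul h3
    have h5 := am_eq hN hv hu'
    rw [← hadef] at h5
    have h6 : (N * u ^ (N - 1)) * a u ^ 2 + u ^ N * (2 * a u * deriv a u) =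
        2 * u ^ (N - 1) * a u * v u := by
      have h7 : u ^ N = u ^ (N - 1) * u := by
        rw [← pow_succ, Nat.sub_add_cancel hN]
      rw [h7, ← h5]
      ring
    rw [← h6]
    exact h4
  · intro z S hS
    exact hcount z S fun x hx => ⟨Metric.ball_subset_ball
      ((min_le_left _ _).trans (min_le_right _ _)) (hS x hx).1, (hS x hx).2⟩

end LQZ_

open LQZ_

theorem p_LQZ : T_LQZ := by
  intro n k c b r μ P w hB hP hw
  -- factor out the root
  set ν := P.rootMultiplicity w with hν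
  obtain ⟨P₁, hP₁, hnd⟩ := Polynomial.exists_eq_pow_rootMultiplicity_mul_and_not_dvd P hP.ne w
  have hP1w : P₁.eval w ≠ 0 := fun h => hnd (Polynomial.dvd_iff_isRoot.2 h)
  have hν1 : 1 ≤ ν := (Polynomial.rootMultiplicity_pos hP.ne).2 hw
  have hwb : ∀ j, w ≠ b j := by
    intro j hj
    have := hP.pole j
    rw [← hj] at this
    exact this hw
  have hk : 0 < k := hB.cyc.hp
  -- a disc without poles
  obtain ⟨R, hR, hRb⟩ : ∃ R : ℝ, 0 < R ∧ ∀ x ∈ Metric.ball w R, ∀ j, x ≠ b j := by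
    have h1 : ∀ᶠ x in 𝓝 w, ∀ j ∈ Finset.range k, x ≠ b j := by
      rw [Filter.eventually_all_finset]
      intro j _
      exact isOpen_ne.mem_nhds (hwb j)
    obtain ⟨R, hR, hRU⟩ := Metric.mem_nhds_iff.1 h1
    refine ⟨R, hR, fun x hx j => ?_⟩
    rw [cyc_mod hB.cyc j]
    exact hRU hx _ (Finset.mem_range.2 (Nat.mod_lt _ hk))
  set q : ℂ → ℂ := fun u => P₁.eval (w + u) / ∏ j ∈ Finset.range k, (w + u - b j) ^ 2 with hq
  have hmem : ∀ u ∈ Metric.ball (0 : ℂ) R, w + u ∈ Metric.ball w R := by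
    intro u hu
    rw [mem_ball_zero_iff] at hu
    rw [Metric.mem_ball, dist_eq_norm]
    simpa using hu
  have hprod : ∀ x ∈ Metric.ball w R, ∏ j ∈ Finset.range k, (x - b j) ^ 2 ≠ 0 := by
    intro x hx
    exact Finset.prod_ne_zero_iff.2 fun j _ => pow_ne_zero _ (sub_ne_zero.2 (hRb x hx j))
  have hqd : DifferentiableOn ℂ q (Metric.ball 0 R) := by
    intro u hu
    have h1 : DifferentiableAt ℂ (fun u => P₁.eval (w + u)) u := by
      have h2 : DifferentiableAt ℂ (fun x => P₁.eval x) (w + u) := P₁.differentiableAt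
      exact h2.comp u ((differentiableAt_const w).add differentiableAt_id)
    have h2 : DifferentiableAt ℂ (fun u => ∏ j ∈ Finset.range k, (w + u - b j) ^ 2) u := by
      fun_prop
    exact (h1.div h2 (hprod _ (hmem u hu))).differentiableWithinAt
  have hq0 : q 0 ≠ 0 := by
    rw [hq]
    simp only [add_zero]
    exact div_ne_zero hP1w (hprod w (Metric.mem_ball_self hR))
  obtain ⟨ρ, a, v, hρ, hρR, hane, hv2, hder, hcnt⟩ := common (N := ν + 2) (by omega) hR hqd hq0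
  have hsub : ∀ x ∈ Metric.ball w ρ, x - w ∈ Metric.ball (0 : ℂ) ρ := by
    intro x hx
    rw [Metric.mem_ball, dist_eq_norm] at hx
    rwa [mem_ball_zero_iff]
  have hsub' : Metric.ball w ρ ⊆ Metric.ball w R := Metric.ball_subset_ball hρR
  set Q : ℂ → ℂ := fun x => (x - w) ^ (ν + 2) * a (x - w) ^ 2 with hQ
  have hQd : ∀ x ∈ Metric.ball w ρ,
      HasDerivAt Q (2 * (x - w) ^ (ν + 1) * a (x - w) * v (x - w)) x := by
    intro x hx
    have h1 := hder (x - w) (hsub x hx)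
    have h2 : HasDerivAt (fun x : ℂ => x - w) 1 x := (hasDerivAt_id x).sub_const w
    have h3 := h1.comp x h2
    rw [mul_one] at h3
    exact h3
  refine ⟨ρ, Q, hρ, fun x hx => hRb x (hsub' hx), fun x hx =>
    (hQd x hx).differentiableAt.differentiableWithinAt, ?_, ?_, ?_, ?_⟩
  · simp [hQ]
  · intro x hx hxw
    exact mul_ne_zero (pow_ne_zero _ (sub_ne_zero.2 hxw)) (pow_ne_zero _ (hane _ (hsub x hx)))
  · intro x hx
    rw [(hQd x hx).deriv]
    have h1 := hP.eq x (hRb x (hsub' hx))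
    have h2 : P.eval x = (x - w) ^ ν * P₁.eval x := by
      conv_lhs => rw [hP₁]
      simp [Polynomial.eval_mul, Polynomial.eval_pow, hν]
    have h3 : AA k b r x = (x - w) ^ ν * v (x - w) ^ 2 := by
      rw [hv2 _ (hsub x hx), hq]
      simp only [add_sub_cancel]
      rw [← mul_div_assoc, ← h2, ← h1, mul_div_cancel_right₀ _ (hprod x (hsub' hx))]
    rw [h3, hQ]
    simp only
    ring
  · intro z S hS
    have h1 := hcnt z (S.image fun x => x - w) (by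
      intro u hu
      obtain ⟨x, hx, rfl⟩ := Finset.mem_image.1 hu
      exact ⟨hsub x (hS x hx).1, (hS x hx).2⟩)
    rwa [Finset.card_image_of_injective _ (sub_left_injective)] at h1

end Pool.Agent.MEX
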