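import Pool.Agent.MEX.Basic

set_option autoImplicit false

/-!
# MEX: the total mass defect of the charts
-/

open Complex Filter Topology Set MeasureTheory
open Pool.Agent.Multibrot (rt push)
open Pool.Agent.Limb (F)
open Pool.Agent.PLim (Cyc Res AA fp fpp Rho LocFix)

namespace Pool.Agent.MEX

namespace MASS_

/-- the horizontal strip -/
abbrev strip : Set ℂ := {ζ : ℂ | 0 ≤ ζ.im ∧ ζ.im < 2 * Real.pi}

lemma strip_meas : MeasurableSet strip :=
  (measurableSet_le measurable_const Complex.measurable_im).inter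
    (measurableSet_lt Complex.measurable_im measurable_const)

lemma phe_meas (k : ℕ) (b r : ℕ → ℂ) : Measurable (phe k b r) := by
  have h : Measurable (AA k b r) := by
    unfold AA
    refine Finset.measurable_sum _ fun j _ => ?_
    exact (((measurable_id.sub_const (b j)).pow_const 2).inv).add
      (((measurable_id.sub_const (b j)).inv).const_mul (r j))
  exact h.enorm

lemma iter_meas (h4 : T_PPM) {n : ℕ} (hn : 2 ≤ n) (c : ℂ) (m : ℕ) {g : ℂ → ENNReal}
    (hg : Measurable g) : Measurable ((PP n c)^[m] g) := by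
  induction m with
  | zero => exact hg
  | succ m ih =>
    rw [Function.iterate_succ_apply']
    exact (h4 n c _ hn ih).1

/-- the defect in the chart -/
lemma dfc_eq {k : ℕ} {b r : ℕ → ℂ} {V : Set ℂ} {g : ℂ → ℂ} (h : NM k b r V g)
    (G : ℂ → ENNReal) {ζ : ℂ} (hζ : ζ ∈ V) :
    G (g ζ) / phe k b r (g ζ) - 1 =
      ‖deriv g ζ‖ₑ ^ 2 * (G (g ζ) - phe k b r (g ζ)) := by
  have h1 : ‖deriv g ζ‖ₑ ^ 2 * phe k b r (g ζ) = 1 := by
    have h2 := congrArg (fun z : ℂ => ‖z‖ₑ) (h.nat ζ hζ)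
    simp only [enorm_mul, enorm_pow, enorm_one] at h2
    exact h2
  have h0 : phe k b r (g ζ) ≠ 0 := by
    intro h3
    rw [h3, mul_zero] at h1
    exact zero_ne_one h1
  have ht : phe k b r (g ζ) ≠ ⊤ := enorm_ne_top
  have h2 : (phe k b r (g ζ))⁻¹ = ‖deriv g ζ‖ₑ ^ 2 := by
    have h3 := ENNReal.eq_inv_of_mul_eq_one_left h1
    exact h3.symm
  have hd : ‖deriv g ζ‖ₑ ^ 2 ≠ ⊤ := ENNReal.pow_ne_top enorm_ne_top
  rw [ENNReal.mul_sub (fun _ _ => hd), h1, ENNReal.div_eq_inv_mul, h2]

end MASS_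

open MASS_ in
theorem p_MASS (h1 : T_DEM) (h2 : T_AR2) (h3 : T_SAM) (h4 : T_PPM) : T_MASS := by
  intro n k c b r μ V χ hB hM hμ
  have hn : 2 ≤ n := hB.hn
  have hnm : ∀ j, NM k b r (V j) (χ j) := fun j => (hM.cht j).nm
  have hVo : ∀ j, IsOpen (V j) := fun j => (hM.cht j).li.op
  set w : ℂ → ENNReal := fun x => (PP n c)^[k] (phe k b r) x - phe k b r x with hw
  have hwm : Measurable w := (iter_meas h4 hn c k (phe_meas k b r)).sub (phe_meas k b r)
  -- the integrals
  have hint : ∀ j, ∫⁻ ζ in strip, Dfc n k c b r V χ j ζ =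
      ∫⁻ ζ in V j ∩ strip, ‖deriv (χ j) ζ‖ₑ ^ 2 * w (χ j ζ) := by
    intro j
    unfold Dfc
    rw [setLIntegral_indicator (hVo j).measurableSet]
    refine setLIntegral_congr_fun ((hVo j).measurableSet.inter strip_meas) fun ζ hζ => ?_
    exact dfc_eq (hnm j) ((PP n c)^[k] (phe k b r)) hζ.1
  have hAR := h2 k 2 V (fun j => V j ∩ strip) χ w
    (fun j _ => ⟨hVo j, (hVo j).measurableSet.inter strip_meas, inter_subset_left,
      (hnm j).diff, fun ζ hζ => (hnm j).deriv_ne hζ⟩) hwm ?_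
  · have hD := h1 n k c b r μ k hB hμ
    calc ∑ j ∈ Finset.range k, ∫⁻ ζ in strip, Dfc n k c b r V χ j ζ
        = ∑ j ∈ Finset.range k, ∫⁻ ζ in V j ∩ strip, ‖deriv (χ j) ζ‖ₑ ^ 2 * w (χ j ζ) :=
          Finset.sum_congr rfl fun j _ => hint j
      _ ≤ (2 : ℕ) * ∫⁻ x, w x := hAR
      _ ≤ (2 : ℕ) * ENNReal.ofReal (2 * Real.pi * k * μ.re) := by gcongr
      _ = ENNReal.ofReal (4 * Real.pi * k * μ.re) := by
          rw [Nat.cast_ofNat, ← ENNReal.ofReal_ofNat 2, ← ENNReal.ofReal_mul (by norm_num)]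
          congr 1
          ring
  -- multiplicity at most two
  · intro x S hS
    by_contra hc
    push Not at hc
    obtain ⟨p, q, s, hp, hq, hs, hpq, hps, hqs⟩ := Finset.two_lt_card_iff.1 hc
    have key : ∀ u v : ℕ × ℂ, u ∈ S → v ∈ S → deriv (χ u.1) u.2 = deriv (χ v.1) v.2 →
        u = v := by
      intro u v hu hv hd
      obtain ⟨hu1, hu2, hu3⟩ := hS u hu
      obtain ⟨hv1, hv2, hv3⟩ := hS v hv
      obtain ⟨hb, m, hm⟩ := h3 n k c b r μ V χ u.1 v.1 u.2 v.2 hB hM hu2.1 hv2.1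
        (hu3.trans hv3.symm) hd
      have hi : u.1 = v.1 := by
        have := cyc_inj hB.cyc hb
        rwa [Nat.mod_eq_of_lt hu1, Nat.mod_eq_of_lt hv1] at this
      have him : u.2.im - v.2.im = m * (2 * Real.pi) := by
        have := congrArg Complex.im hm
        simpa using this
      have hm0 : m = 0 := by
        have hu4 := hu2.2
        have hv4 := hv2.2
        change 0 ≤ u.2.im ∧ u.2.im < 2 * Real.pi at hu4
        change 0 ≤ v.2.im ∧ v.2.im < 2 * Real.pi at hv4
        have hpi := Real.pi_pos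
        have ha : (m : ℝ) < 1 := by
          by_contra hh
          push Not at hh
          nlinarith
        have hb' : (-1 : ℝ) < m := by
          by_contra hh
          push Not at hh
          nlinarith
        have ha' : m < 1 := by exact_mod_cast ha
        have hb'' : -1 < m := by exact_mod_cast hb'
        omega
      rw [hm0, Int.cast_zero, zero_mul] at hm
      exact Prod.ext hi (sub_eq_zero.1 hm)
    have hor : ∀ u v : ℕ × ℂ, u ∈ S → v ∈ S →
        deriv (χ u.1) u.2 = deriv (χ v.1) v.2 ∨ deriv (χ u.1) u.2 = -deriv (χ v.1) v.2 := by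
      intro u v hu hv
      obtain ⟨hu1, hu2, hu3⟩ := hS u hu
      obtain ⟨hv1, hv2, hv3⟩ := hS v hv
      exact (hnm u.1).deriv_eq_or (hnm v.1) hu2.1 hv2.1 (hu3.trans hv3.symm)
    rcases hor p q hp hq with h | h
    · exact hpq (key p q hp hq h)
    · rcases hor p s hp hs with h' | h'
      · exact hps (key p s hp hs h')
      · exact hqs (key q s hq hs (neg_injective (h.symm.trans h')))

end Pool.Agent.MEX
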