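import Pool.Agent.MEX.Targets
import Pool.Agent.MEX.Basic
import Pool.Agent.PLim.TRP

/-!
# MEX-MON: monotonicity in the number of steps
-/

set_option autoImplicit false

open Complex Filter Topology Set MeasureTheory
open Pool.Agent.Multibrot (rt push rt_pow)
open Pool.Agent.Limb (F)
open Pool.Agent.PLim (Cyc Res AA fp fpp Rho LocFix)

namespace Pool.Agent.MEX

namespace MON_

lemma F_rt {n : ℕ} (hn : n ≠ 0) (c : ℂ) (j : ℕ) (y : ℂ) : F n c (rt n c j y) = y := by
  unfold F
  rw [rt_pow hn]
  ring

/-- the case of no steps -/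
lemma base {n k : ℕ} {c : ℂ} {b r : ℕ → ℂ} {μ : ℂ} (h : Bad n k c b r μ) {y : ℂ}
    (hy : ∀ j, y ≠ b j) (hc : y ≠ c) : phe k b r y ≤ PP n c (phe k b r) y := by
  have h1 := Pool.Agent.PLim.p_TRP n k c b r y h.hn h.cyc h.res hc hy
  rw [h.sum, zero_mul, sub_zero] at h1
  unfold phe PP
  rw [← h1]
  unfold push
  refine (enorm_sum_le _ _).trans (le_of_eq ?_)
  refine Finset.sum_congr rfl fun j _ => ?_
  rw [enorm_mul]

/-- monotonicity of the transfer operator -/
lemma mono {n : ℕ} {c : ℂ} {g g' : ℂ → ENNReal} {y : ℂ}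
    (h : ∀ j, g (rt n c j y) ≤ g' (rt n c j y)) : PP n c g y ≤ PP n c g' y := by
  unfold PP
  exact Finset.sum_le_sum fun j _ => mul_le_mul_right (h j) _

/-- one more step -/
lemma step {n k : ℕ} {c : ℂ} {b r : ℕ → ℂ} {μ : ℂ} (h : Bad n k c b r μ) (m : ℕ) :
    ∀ y : ℂ, (∀ j, y ≠ b j) → (∀ i < m + 1, (F n c)^[i] c ≠ y) →
      (PP n c)^[m] (phe k b r) y ≤ (PP n c)^[m + 1] (phe k b r) y := by
  have hn0 : n ≠ 0 := by have := h.hn; omega
  induction m with
  | zero =>
    intro y hy hi
    have h0 := hi 0 (by omega)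
    simp only [Function.iterate_zero, id_eq] at h0
    simpa using base h hy (Ne.symm h0)
  | succ m ih =>
    intro y hy hi
    rw [Function.iterate_succ_apply' (PP n c) (m + 1), Function.iterate_succ_apply' (PP n c) m]
    have key : ∀ j, (PP n c)^[m] (phe k b r) (rt n c j y) ≤
        PP n c ((PP n c)^[m] (phe k b r)) (rt n c j y) := by
      intro j
      rw [← Function.iterate_succ_apply' (PP n c) m]
      apply ih
      · intro i hbi
        apply hy (i + 1)
        rw [h.cyc.step i, ← hbi, rt_pow hn0]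
        ring
      · intro i him hf
        apply hi (i + 1) (by omega)
        rw [Function.iterate_succ_apply', hf, F_rt hn0]
    exact mono key

end MON_

theorem p_MON : T_MON := by
  intro n k c b r μ m m' y h hmm hy hi
  obtain ⟨d, rfl⟩ := Nat.exists_eq_add_of_le hmm
  induction d with
  | zero => exact le_rfl
  | succ d ih =>
    refine (ih (by omega) (fun i hi' => hi i (by omega))).trans ?_
    exact MON_.step h (m + d) y hy (fun i hi' => hi i (by omega))

end Pool.Agent.MEX
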