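import Pool.Agent.MEX.Targets2
import Pool.Agent.PLim.TRA
import Pool.Agent.PLim.TRANS

/-!
# MEX: NCX
-/

set_option autoImplicit false

open Complex Filter Topology Set
open Pool.Agent.Limb (F)
open Pool.Agent.PLim (Rho LocFix Cyc Res fp fpp)

namespace Pool.Agent.MEX

namespace NCX_

lemma exp_ne_one {δ : ℝ} {μ : ℂ} (hδ : 0 < δ) (hF : Far δ μ.im) : exp μ ≠ 1 := by
  intro h
  obtain ⟨m, hm⟩ := Complex.exp_eq_one_iff.1 h
  have h1 := hF 1 le_rfl (by norm_num) m
  have h2 : μ.im = m * (2 * Real.pi) := by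
    rw [hm]
    simp
  rw [h2] at h1
  have h3 : ((1 : ℕ) : ℝ) * (m * (2 * Real.pi)) / (2 * Real.pi) - m = 0 := by
    have : (Real.pi : ℝ) ≠ 0 := Real.pi_ne_zero
    field_simp
    push_cast
    ring
  rw [h3, abs_zero] at h1
  linarith

end NCX_

open NCX_ Pool.Agent.PLim.TRANS_

theorem p_NCX (hEXT : T_EXT) : T_NCX := by
  obtain ⟨κ, hκ, hext⟩ := hEXT
  refine ⟨κ, hκ, ?_⟩
  intro n k c0 z0 μ δ ε r zf hn hk hL hex hRμ hδ hFar hre hd
  have hR0 : Rho n k c0 z0 ≠ 0 := by
    rw [hRμ]
    exact exp_ne_zero μ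
  have hR2 : Rho n k c0 z0 ≠ 1 := by
    rw [hRμ]
    exact exp_ne_one hδ hFar
  have hc0 : c0 ∈ Metric.ball c0 ε := Metric.mem_ball_self hL.hδ
  have hzf0 : zf c0 = z0 := hL.zf0
  have hfix0 : (F n c0)^[k] z0 = z0 := by
    have := hL.fix c0 hc0
    rwa [hzf0] at this
  set b : ℕ → ℂ := fun j => (F n c0)^[j] z0 with hb
  have hbper : ∀ j, b (j + k) = b j := by
    intro j
    simp only [hb]
    rw [Function.iterate_add_apply, hfix0]
  have hbstep : ∀ j, b (j + 1) = b j ^ n + c0 := by
    intro j
    simp only [hb]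
    rw [Function.iterate_succ_apply']
    rfl
  have hRk : Rho n k c0 z0 = ∏ j ∈ Finset.range k, fp n (b j) :=
    Pool.Agent.PLim.TRANS_.Rho_eq n k c0 z0
  have hprod0 : ∏ j ∈ Finset.range k, fp n (b j) ≠ 0 := by
    rw [← hRk]
    exact hR0
  have hmod : ∀ j, b j = b (j % k) := by
    intro j
    have h3 : ∀ i a, b (a + k * i) = b a := by
      intro i
      induction i with
      | zero => intro a; simp
      | succ i ih => intro a; rw [Nat.mul_succ, ← add_assoc, hbper, ih]
    conv_lhs => rw [← Nat.mod_add_div j k]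
    exact h3 _ _
  have hfp0 : ∀ j, fp n (b j) ≠ 0 := by
    intro j
    rw [hmod j]
    exact (Finset.prod_ne_zero_iff.1 hprod0) _ (Finset.mem_range.2 (Nat.mod_lt _ hk))
  have hb0 : ∀ j, b j ≠ 0 := by
    intro j h
    refine hfp0 j ?_
    unfold fp
    rw [h, zero_pow (by omega), mul_zero]
  have hdist : ∀ i j, i < j → j < k → b i ≠ b j := by
    intro i j hij hjk he
    have h1 : (F n c0)^[k - j] (b i) = (F n c0)^[k - j] (b j) := by rw [he]
    simp only [hb] at h1
    rw [← Function.iterate_add_apply, ← Function.iterate_add_apply,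
      show k - j + j = k by omega, hfix0] at h1
    exact hex (k - j + i) (by omega) (by omega) h1
  have hcyc : Cyc n k c0 b := by
    refine ⟨hk, hbstep, hbper, ?_, hb0⟩
    intro i j hi hj hij
    rcases lt_trichotomy i j with h | h | h
    · exact absurd hij (hdist i j h hj)
    · exact h
    · exact absurd hij.symm (hdist j i h hi)
  have hprod1 : ∏ j ∈ Finset.range k, fp n (b j) ≠ 1 := by
    rw [← hRk]
    exact hR2
  -- the functions beta
  set be : ℕ → ℂ → ℂ := fun j c => (F n c)^[j] (zf c) with hbe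
  have hbe0 : ∀ j, be j c0 = b j := by
    intro j
    simp only [hbe, hb, hzf0]
  have hbestep : ∀ j c, be (j + 1) c = be j c ^ n + c := by
    intro j c
    simp only [hbe]
    rw [Function.iterate_succ_apply']
    rfl
  have hzfd : HasDerivAt zf (deriv zf c0) c0 :=
    (hL.diff.differentiableAt (Metric.isOpen_ball.mem_nhds hc0)).hasDerivAt
  have hbed : ∀ j, DifferentiableAt ℂ (be j) c0 := by
    intro j
    induction j with
    | zero => exact hzfd.differentiableAt
    | succ j ih =>
      have : be (j + 1) = fun c => be j c ^ n + c := by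
        funext c
        exact hbestep j c
      rw [this]
      exact (ih.pow n).add differentiableAt_id
  set b' : ℕ → ℂ := fun j => deriv (be j) c0 with hb'
  have hb'd : ∀ j, HasDerivAt (be j) (b' j) c0 := fun j => (hbed j).hasDerivAt
  have hb'step : ∀ j, b' (j + 1) = fp n (b j) * b' j + 1 := by
    intro j
    have h1 : HasDerivAt (fun c => be j c ^ n + c) (n * be j c0 ^ (n - 1) * b' j + 1) c0 :=
      ((hb'd j).pow n).add (hasDerivAt_id c0)
    have h2 : be (j + 1) = fun c => be j c ^ n + c := by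
      funext c
      exact hbestep j c
    have h3 := hb'd (j + 1)
    rw [h2] at h3
    rw [h3.unique h1, hbe0]
    rfl
  have hb'per : ∀ j, b' (j + k) = b' j := by
    intro j
    have h1 : be (j + k) =ᶠ[𝓝 c0] be j := by
      filter_upwards [Metric.isOpen_ball.mem_nhds hc0] with c hc
      simp only [hbe]
      rw [Function.iterate_add_apply, hL.fix c hc]
    exact h1.deriv_eq
  -- derivative of the multiplier
  have hder : HasDerivAt (fun c => Rho n k c (zf c))
      ((∏ j ∈ Finset.range k, fp n (b j)) *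
        ∑ j ∈ Finset.range k, (fpp n (b j) * b' j) / fp n (b j)) c0 := by
    have h1 : (fun c => Rho n k c (zf c)) = fun c => ∏ j ∈ Finset.range k, fp n (be j c) := by
      funext c
      exact Pool.Agent.PLim.TRANS_.Rho_eq n k c (zf c)
    rw [h1]
    have h2 := hasDerivAt_prod (fun j c => fp n (be j c)) (fun j => fpp n (b j) * b' j) c0 k ?_ ?_
    · simp only [hbe0] at h2
      exact h2
    · intro j
      have h3 : HasDerivAt (fp n) (fpp n (b j)) (be j c0) := by
        rw [hbe0]
        unfold fp fpp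
        have h4 := (hasDerivAt_pow (n - 1) (b j)).const_mul (n : ℂ)
        have h5 : n - 1 - 1 = n - 2 := by omega
        rw [h5] at h4
        refine h4.congr_deriv ?_
        rw [Nat.cast_sub (by omega : 1 ≤ n)]
        push_cast
        ring
      exact h3.comp c0 (hb'd j)
    · intro j
      simp only [hbe0]
      exact hfp0 j
  rw [hder.deriv] at hd
  obtain ⟨⟨rr, hrr⟩, hsum⟩ := Pool.Agent.PLim.p_TRA n k c0 b hn hcyc hprod1
  have hs := hsum rr b' hrr hb'step hb'per
  have hsk : ∑ j ∈ Finset.range k, (fpp n (b j) * b' j) / fp n (b j) =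
      ∑ j ∈ Finset.range k, rr j := by
    rw [hs]
    refine Finset.sum_congr rfl (fun j _ => ?_)
    ring
  rw [hsk] at hd
  have hrr0 : ∑ j ∈ Finset.range k, rr j = 0 := (mul_eq_zero.1 hd).resolve_left hprod0
  have hbad : Bad n k c0 b rr μ := ⟨hn, hcyc, hrr, hrr0, by rw [← hRμ, hRk]⟩
  have hfin := hext n k c0 b rr μ δ hbad hδ hFar
  linarith

end Pool.Agent.MEX
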