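import Pool.Agent.MEX.Basic

/-!
# MEX: NOE, there is no natural map on the whole plane
-/

set_option autoImplicit false

open Complex Filter Topology Set MeasureTheory
open Pool.Agent.Multibrot (rt push)
open Pool.Agent.Limb (F)
open Pool.Agent.PLim (Cyc Res AA fp fpp Rho LocFix)

namespace Pool.Agent.MEX

namespace NOE_

lemma poly_bound (P : Polynomial ℂ) : ∃ C : ℝ, 0 ≤ C ∧ ∀ x : ℂ, 1 ≤ ‖x‖ →
    ‖P.eval x‖ ≤ C * ‖x‖ ^ P.natDegree := by
  refine ⟨∑ i ∈ Finset.range (P.natDegree + 1), ‖P.coeff i‖,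
    Finset.sum_nonneg fun i _ => norm_nonneg _, fun x hx => ?_⟩
  rw [Polynomial.eval_eq_sum_range, Finset.sum_mul]
  refine (norm_sum_le _ _).trans (Finset.sum_le_sum fun i hi => ?_)
  rw [norm_mul, norm_pow]
  refine mul_le_mul_of_nonneg_left ?_ (norm_nonneg _)
  exact pow_le_pow_right₀ hx (by simpa [Nat.lt_succ_iff] using hi)

/-- Cubic decay of the quadratic differential. -/
lemma decay {k : ℕ} {b r : ℕ → ℂ} {P : Polynomial ℂ} (hP : Num k b r P) {B : ℝ}
    (hB : ∀ j, ‖b j‖ ≤ B) (hB1 : 1 ≤ B) : ∃ C : ℝ, 0 ≤ C ∧ ∀ x : ℂ, 2 * B < ‖x‖ →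
    ‖AA k b r x‖ ≤ C / ‖x‖ ^ 3 := by
  obtain ⟨C, hC, hPC⟩ := poly_bound P
  refine ⟨C * 4 ^ k, by positivity, fun x hx => ?_⟩
  have hx1 : 1 ≤ ‖x‖ := by linarith
  have hx0 : 0 < ‖x‖ := by linarith
  have hne : ∀ j, x ≠ b j := by
    intro j h
    have := hB j
    rw [← h] at this
    linarith
  have hprod : (‖x‖ / 2) ^ (2 * k) ≤ ‖∏ j ∈ Finset.range k, (x - b j) ^ 2‖ := by
    rw [norm_prod]
    have h1 : ∏ _j ∈ Finset.range k, (‖x‖ / 2) ^ 2 ≤
        ∏ j ∈ Finset.range k, ‖(x - b j) ^ 2‖ := by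
      refine Finset.prod_le_prod (fun j _ => by positivity) fun j _ => ?_
      rw [norm_pow]
      have h2 : ‖x‖ / 2 ≤ ‖x - b j‖ := by
        have h3 := norm_sub_norm_le x (b j)
        have h4 := hB j
        linarith
      gcongr
    rw [Finset.prod_const, Finset.card_range, ← pow_mul] at h1
    exact h1
  have hpos : 0 < (‖x‖ / 2) ^ (2 * k) := by positivity
  have heq : ‖AA k b r x‖ * ‖∏ j ∈ Finset.range k, (x - b j) ^ 2‖ = ‖P.eval x‖ := by
    rw [← norm_mul, hP.eq x hne]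
  have h5 : ‖AA k b r x‖ * (‖x‖ / 2) ^ (2 * k) ≤ C * ‖x‖ ^ P.natDegree := by
    calc ‖AA k b r x‖ * (‖x‖ / 2) ^ (2 * k)
        ≤ ‖AA k b r x‖ * ‖∏ j ∈ Finset.range k, (x - b j) ^ 2‖ := by gcongr
      _ = ‖P.eval x‖ := heq
      _ ≤ _ := hPC x hx1
  have h6 : ‖x‖ ^ P.natDegree * ‖x‖ ^ 3 ≤ ‖x‖ ^ (2 * k) := by
    rw [← pow_add]
    exact pow_le_pow_right₀ hx1 hP.deg
  rw [le_div_iff₀ (by positivity)]
  have h7 : ‖AA k b r x‖ * ‖x‖ ^ 3 * (‖x‖ / 2) ^ (2 * k) ≤ C * 4 ^ k * (‖x‖ / 2) ^ (2 * k) := by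
    calc ‖AA k b r x‖ * ‖x‖ ^ 3 * (‖x‖ / 2) ^ (2 * k)
        = (‖AA k b r x‖ * (‖x‖ / 2) ^ (2 * k)) * ‖x‖ ^ 3 := by ring
      _ ≤ (C * ‖x‖ ^ P.natDegree) * ‖x‖ ^ 3 := by gcongr
      _ = C * (‖x‖ ^ P.natDegree * ‖x‖ ^ 3) := by ring
      _ ≤ C * ‖x‖ ^ (2 * k) := by gcongr
      _ = C * 4 ^ k * (‖x‖ / 2) ^ (2 * k) := by
          have h8 : (4 : ℝ) ^ k = 2 ^ (2 * k) := by
            rw [pow_mul]
            norm_num
          rw [h8, div_pow]
          field_simp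
  exact le_of_mul_le_mul_right h7 hpos

lemma bdd {k : ℕ} {b : ℕ → ℂ} (hb : ∀ j, b j = b (j % k)) (hk : 0 < k) :
    ∃ B : ℝ, 1 ≤ B ∧ ∀ j, ‖b j‖ ≤ B := by
  refine ⟨1 + ∑ j ∈ Finset.range k, ‖b j‖, ?_, fun j => ?_⟩
  · have : 0 ≤ ∑ j ∈ Finset.range k, ‖b j‖ := Finset.sum_nonneg fun j _ => norm_nonneg _
    linarith
  · rw [hb j]
    have h := Finset.single_le_sum (f := fun i => ‖b i‖) (fun i _ => norm_nonneg _)
      (Finset.mem_range.2 (Nat.mod_lt j hk))
    linarith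

lemma exp_integral (T : ℝ) : ∫ s in (0 : ℝ)..T, Real.exp (-(s / 2)) = 2 * (1 - Real.exp (-(T / 2))) := by
  have h : ∀ s ∈ uIcc 0 T, HasDerivAt (fun s : ℝ => -2 * Real.exp (-(s / 2)))
      (Real.exp (-(s / 2))) s := by
    intro s _
    have h1 : HasDerivAt (fun s : ℝ => -(s / 2)) (-(1 / 2)) s :=
      ((hasDerivAt_id s).div_const 2).neg
    have h2 := (h1.exp).const_mul (-2)
    refine h2.congr_deriv ?_
    ring
  rw [intervalIntegral.integral_eq_sub_of_hasDerivAt h]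
  · simp
    ring
  · exact (by fun_prop : Continuous fun s : ℝ => Real.exp (-(s / 2))).intervalIntegrable _ _

end NOE_

open NOE_

theorem p_NOE (h1 : T_POL) (h2 : T_LIFT) : T_NOE := by
  intro n k c b r μ g hBad hg
  obtain ⟨P, hP⟩ := h1 n k c b r μ hBad
  obtain ⟨B, hB1, hB⟩ := bdd (b := b) (k := k) (fun j => cyc_mod hBad.cyc j) hBad.cyc.hp
  obtain ⟨C, hC, hdec⟩ := decay hP hB hB1
  have hgd : Differentiable ℂ g := differentiableOn_univ.1 hg.diff
  -- g is unbounded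
  obtain ⟨ζ₀, hζ₀⟩ : ∃ ζ₀, 2 * B < ‖g ζ₀‖ := by
    by_contra hcon
    push Not at hcon
    have hbd : Bornology.IsBounded (range g) := by
      rw [isBounded_iff_forall_norm_le]
      exact ⟨2 * B, by rintro _ ⟨ζ, rfl⟩; exact hcon ζ⟩
    have hconst : ∀ z w, g z = g w := fun z w => hgd.apply_eq_apply_of_bounded hbd z w
    have hder : deriv g 0 = 0 := by
      have : g = fun _ => g 0 := funext fun z => hconst z 0
      rw [this]
      simp
    exact hg.deriv_ne (mem_univ 0) hder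
  set ρ : ℝ := ‖g ζ₀‖ with hρ
  have hρ1 : 1 ≤ ρ := by linarith
  have hρ0 : 0 < ρ := by linarith
  set L : ℝ := √C * 2 with hL
  have hL0 : 0 ≤ L := by positivity
  -- g is bounded on the closed disc of radius L
  obtain ⟨M, hM⟩ := (isCompact_closedBall ζ₀ L).exists_bound_of_continuousOn
    (f := g) hgd.continuous.continuousOn
  have hM0 : 0 ≤ M := (norm_nonneg _).trans (hM ζ₀ (Metric.mem_closedBall_self hL0))
  set T : ℝ := M + 1 with hT
  have hT0 : 0 ≤ T := by linarith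
  set γ : ℝ → ℂ := fun s => (Real.exp s : ℂ) * g ζ₀ with hγ
  have hγd : ∀ s, HasDerivAt γ (γ s) s := by
    intro s
    have h3 : HasDerivAt (fun s : ℝ => ((Real.exp s : ℝ) : ℂ)) ((Real.exp s : ℝ) : ℂ) s :=
      (Real.hasDerivAt_exp s).ofReal_comp
    exact h3.mul_const (g ζ₀)
  have hγc : Continuous γ := continuous_iff_continuousAt.2 fun s => (hγd s).continuousAt
  have hγn : ∀ s, ‖γ s‖ = Real.exp s * ρ := by
    intro s
    rw [hγ]
    simp only [norm_mul, Complex.norm_real, Real.norm_eq_abs, abs_of_pos (Real.exp_pos s)]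
    rfl
  have hγbig : ∀ s ∈ Icc 0 T, 2 * B < ‖γ s‖ := by
    intro s hs
    rw [hγn]
    have : 1 ≤ Real.exp s := Real.one_le_exp hs.1
    nlinarith
  have hγne : ∀ s ∈ Icc 0 T, ∀ j, γ s ≠ b j := by
    intro s hs j h
    have h3 := hγbig s hs
    rw [h] at h3
    have := hB j
    linarith
  have hbound : ∀ s ∈ Icc 0 T, ‖γ s‖ * √‖AA k b r (γ s)‖ ≤ √C * Real.exp (-(s / 2)) := by
    intro s hs
    have h3 := hdec (γ s) (hγbig s hs)
    have hpos : 0 < ‖γ s‖ := by linarith [hγbig s hs]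
    have h4 : (‖γ s‖ * √‖AA k b r (γ s)‖) ^ 2 ≤ (√C * Real.exp (-(s / 2))) ^ 2 := by
      rw [mul_pow, mul_pow, Real.sq_sqrt (norm_nonneg _), Real.sq_sqrt hC]
      calc ‖γ s‖ ^ 2 * ‖AA k b r (γ s)‖ ≤ ‖γ s‖ ^ 2 * (C / ‖γ s‖ ^ 3) := by gcongr
        _ = C / ‖γ s‖ := by field_simp
        _ ≤ C / Real.exp s := by
            rw [hγn]
            have : Real.exp s ≤ Real.exp s * ρ := by
              nlinarith [Real.exp_pos s]
            exact div_le_div_of_nonneg_left hC (Real.exp_pos s) this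
        _ = C * Real.exp (-(s / 2)) ^ 2 := by
            rw [← Real.exp_nat_mul, div_eq_mul_inv, ← Real.exp_neg]
            congr 2
            push_cast
            ring
    exact le_of_sq_le_sq h4 (by positivity)
  have hcont : ContinuousOn (fun s => ‖γ s‖ * √‖AA k b r (γ s)‖) (Icc 0 T) := by
    refine hγc.norm.continuousOn.mul ?_
    refine Real.continuous_sqrt.comp_continuousOn (ContinuousOn.norm ?_)
    intro s hs
    exact ((AA_differentiableAt (hγne s hs)).continuousAt.comp (hγc.continuousAt)).continuousWithinAt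
  have hint : ∫ s in (0 : ℝ)..T, ‖γ s‖ * √‖AA k b r (γ s)‖ ≤ L := by
    calc ∫ s in (0 : ℝ)..T, ‖γ s‖ * √‖AA k b r (γ s)‖
        ≤ ∫ s in (0 : ℝ)..T, √C * Real.exp (-(s / 2)) := by
          refine intervalIntegral.integral_mono_on hT0 ?_ ?_ hbound
          · exact (hcont.mono (by rw [uIcc_of_le hT0])).intervalIntegrable
          · exact (by fun_prop : Continuous fun s : ℝ => √C * Real.exp (-(s / 2))).intervalIntegrable _ _
      _ = √C * (2 * (1 - Real.exp (-(T / 2)))) := by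
          rw [intervalIntegral.integral_const_mul, exp_integral]
      _ ≤ _ := by
          rw [hL]
          have := Real.exp_pos (-(T / 2))
          gcongr
          linarith
  obtain ⟨ξ, hξ1, hξ2⟩ := h2 k b r ζ₀ (L + 1) T g γ γ (by linarith)
    (hg.mono (subset_univ _)) hT0 (fun s _ => hγd s) hγc.continuousOn (by simp [hγ]) hγne
    (by linarith)
  have h8 : ξ ∈ Metric.closedBall ζ₀ L := by
    rw [Metric.mem_closedBall, dist_eq_norm]
    exact hξ1.trans hint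
  have h9 := hM ξ h8
  rw [hξ2, hγn] at h9
  have h10 : T + 1 ≤ Real.exp T := Real.add_one_le_exp T
  nlinarith

end Pool.Agent.MEX
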