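import Pool.Agent.MEX.Basic

/-!
# MEX: NUB, the sheet is a chart
-/

set_option autoImplicit false

open Complex Filter Topology Set MeasureTheory
open Pool.Agent.Multibrot (rt push)
open Pool.Agent.Limb (F)
open Pool.Agent.PLim (Cyc Res AA fp fpp Rho LocFix)

namespace Pool.Agent.MEX

namespace NUB_

/-- A contraction on a closed ball has a fixed point. -/
lemma fix {z : ℂ} {ρ : ℝ} {e : ℂ → ℂ} (hρ : 0 ≤ ρ) (he : ∀ ζ ∈ Metric.closedBall z ρ, ‖e ζ‖ ≤ ρ)
    (hl : ∀ x ∈ Metric.closedBall z ρ, ∀ y ∈ Metric.closedBall z ρ,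
      ‖e x - e y‖ ≤ 1 / 1000 * ‖x - y‖) :
    ∃ ζ ∈ Metric.closedBall z ρ, ζ + e ζ = z := by
  set f : ℂ → ℂ := fun ζ => z - e ζ with hf
  have hm : MapsTo f (Metric.closedBall z ρ) (Metric.closedBall z ρ) := by
    intro ζ hζ
    rw [Metric.mem_closedBall, dist_eq_norm]
    have : f ζ - z = - e ζ := by rw [hf]; ring
    rw [this, norm_neg]
    exact he ζ hζ
  have hc : ContractingWith (1 / 2 : NNReal) (hm.restrict f _ _) := by
    refine ⟨by
      rw [← NNReal.coe_lt_coe]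
      norm_num, LipschitzWith.of_dist_le_mul fun x y => ?_⟩
    rw [Subtype.dist_eq, Subtype.dist_eq, dist_eq_norm, dist_eq_norm]
    have h1 : (hm.restrict f _ _ x : ℂ) - (hm.restrict f _ _ y : ℂ) = e y - e x := by
      show (z - e x) - (z - e y) = _
      ring
    rw [h1, norm_sub_rev]
    have h2 := hl x x.2 y y.2
    have h3 : ((1 / 2 : NNReal) : ℝ) = 1 / 2 := by norm_num
    rw [h3]
    nlinarith [norm_nonneg ((x : ℂ) - y)]
  obtain ⟨ζ, hζ, hfix, -⟩ := hc.exists_fixedPoint' Metric.isClosed_closedBall.isComplete hm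
    (x := z) (Metric.mem_closedBall_self hρ) (edist_ne_top _ _)
  refine ⟨ζ, hζ, ?_⟩
  have h1 : z - e ζ = ζ := hfix
  linear_combination (-1 : ℂ) * h1

/-- The inverse of `ζ ↦ ζ + e ζ` near the points of a set. -/
lemma inv {U S : Set ℂ} {e : ℂ → ℂ} {ρ : ℝ} (hρ : 0 < ρ) (hU : IsOpen U) (hSo : IsOpen S)
    (he : DifferentiableOn ℂ e U)
    (hb : ∀ ζ ∈ U, ‖e ζ‖ ≤ ρ) (hd : ∀ ζ ∈ U, ‖deriv e ζ‖ ≤ 1 / 1000)
    (hS : ∀ w ∈ S, Metric.closedBall w (2 * ρ) ⊆ U) :
    ∃ Z : ℂ → ℂ, (∀ w ∈ S, Z w ∈ U ∧ ‖Z w - w‖ ≤ ρ ∧ Z w + e (Z w) = w) ∧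
      (∀ ζ ∈ U, ζ + e ζ ∈ S → Z (ζ + e ζ) = ζ) ∧
      ∀ w ∈ S, HasDerivAt Z (1 + deriv e (Z w))⁻¹ w := by
  have hlip : ∀ w ∈ S, ∀ x ∈ Metric.closedBall w (2 * ρ), ∀ y ∈ Metric.closedBall w (2 * ρ),
      ‖e x - e y‖ ≤ 1 / 1000 * ‖x - y‖ := by
    intro w hw x hx y hy
    refine Convex.norm_image_sub_le_of_norm_deriv_le (𝕜 := ℂ) (s := Metric.closedBall w (2 * ρ))
      (fun z hz => (he z (hS w hw hz)).differentiableAt (hU.mem_nhds (hS w hw hz)))
      (fun z hz => hd z (hS w hw hz)) (convex_closedBall _ _) hy hx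
  have hsub : ∀ w : ℂ, Metric.closedBall w ρ ⊆ Metric.closedBall w (2 * ρ) := fun w =>
    Metric.closedBall_subset_closedBall (by linarith)
  have hex : ∀ w ∈ S, ∃ ζ ∈ Metric.closedBall w ρ, ζ + e ζ = w := fun w hw =>
    fix hρ.le (fun ζ hζ => hb ζ (hS w hw (hsub w hζ)))
      (fun x hx y hy => hlip w hw x (hsub w hx) y (hsub w hy))
  classical
  choose! Z hZ1 hZ2 using hex
  have huniq : ∀ w ∈ S, ∀ ζ ∈ U, ζ + e ζ = w → Z w = ζ := by
    intro w hw ζ hζ he'
    have h1 : ζ ∈ Metric.closedBall w ρ := by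
      rw [Metric.mem_closedBall, dist_eq_norm]
      have : ζ - w = - e ζ := by rw [← he']; ring
      rw [this, norm_neg]
      exact hb ζ hζ
    have h2 := hlip w hw (Z w) (hsub w (hZ1 w hw)) ζ (hsub w h1)
    have h3 : Z w - ζ = -(e (Z w) - e ζ) := by
      linear_combination hZ2 w hw - he'
    have h4 : ‖Z w - ζ‖ = ‖e (Z w) - e ζ‖ := by rw [h3, norm_neg]
    rw [← h4] at h2
    have h5 : ‖Z w - ζ‖ = 0 := by
      have := norm_nonneg (Z w - ζ)
      linarith
    exact sub_eq_zero.1 (norm_eq_zero.1 h5)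
  have hZU : ∀ w ∈ S, Z w ∈ U := fun w hw => hS w hw (hsub w (hZ1 w hw))
  refine ⟨Z, fun w hw => ⟨hZU w hw, ?_, hZ2 w hw⟩, fun ζ hζ hS' => huniq _ hS' ζ hζ rfl, ?_⟩
  · have := hZ1 w hw
    rwa [Metric.mem_closedBall, dist_eq_norm] at this
  · intro w hw
    have hne : (1 : ℂ) + deriv e (Z w) ≠ 0 := by
      intro h0
      have h1 : deriv e (Z w) = -1 := by linear_combination h0
      have h2 := hd _ (hZU w hw)
      rw [h1, norm_neg, norm_one] at h2
      norm_num at h2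
    have hder : HasDerivAt (fun ζ => ζ + e ζ) (1 + deriv e (Z w)) (Z w) :=
      (hasDerivAt_id _).add
        ((he _ (hZU w hw)).differentiableAt (hU.mem_nhds (hZU w hw))).hasDerivAt
    refine HasDerivAt.of_local_left_inverse ?_ hder hne ?_
    · rw [ContinuousAt, tendsto_iff_norm_sub_tendsto_zero]
      have h1 : Tendsto (fun y : ℂ => 2 * ‖y - w‖) (𝓝 w) (𝓝 0) := by
        have : Continuous (fun y : ℂ => 2 * ‖y - w‖) := by fun_prop
        simpa using this.tendsto w
      refine tendsto_of_tendsto_of_tendsto_of_le_of_le' tendsto_const_nhds h1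
        (Eventually.of_forall fun y => norm_nonneg _) ?_
      filter_upwards [hSo.mem_nhds hw, Metric.ball_mem_nhds w hρ] with y hy hyb
      rw [Metric.mem_ball, dist_eq_norm] at hyb
      have h2 := hZ1 y hy
      rw [Metric.mem_closedBall, dist_eq_norm] at h2
      have h3 : Z y ∈ Metric.closedBall w (2 * ρ) := by
        rw [Metric.mem_closedBall, dist_eq_norm]
        calc ‖Z y - w‖ = ‖(Z y - y) + (y - w)‖ := by ring_nf
          _ ≤ ‖Z y - y‖ + ‖y - w‖ := norm_add_le _ _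
          _ ≤ 2 * ρ := by linarith
      have h4 := hlip w hw (Z y) h3 (Z w) (hsub w (hZ1 w hw))
      have h5 : Z y - Z w = (y - w) - (e (Z y) - e (Z w)) := by
        linear_combination hZ2 y hy - hZ2 w hw
      have h6 : ‖Z y - Z w‖ ≤ ‖y - w‖ + ‖e (Z y) - e (Z w)‖ := by
        rw [h5]
        exact norm_sub_le _ _
      have := norm_nonneg (Z y - Z w)
      linarith
    · filter_upwards [hSo.mem_nhds hw] with y hy
      exact hZ2 y hy

end NUB_

theorem p_NUB (hNUA : T_NUA) : T_NUB := by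
  obtain ⟨C, hC, H⟩ := hNUA
  refine ⟨C, hC, fun n k c b r μ V χ J D d t h a m lam G A hR hS hG hA => ?_⟩
  obtain ⟨e, hed, hel, heb⟩ := H n k c b r μ V χ J D d t h a m lam G hR hS hG
  have ht := hS.ht
  set U : Set ℂ := {ζ : ℂ | lam + t < et h a ζ} with hUdef
  have hULI : LI U := hR.li _
  have hUo : IsOpen U := hULI.op
  have h2 : √2 ≤ 3 / 2 := by
    rw [Real.sqrt_le_left (by norm_num)]
    norm_num
  have hetd : ∀ z w : ℂ, et h a w - 3 / 2 * ‖z - w‖ ≤ et h a z := by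
    intro z w
    have h3 := (abs_le.1 (et_lip' (h := h) hR.lip z w)).1
    have h4 : √2 * ‖z - w‖ ≤ 3 / 2 * ‖z - w‖ := mul_le_mul_of_nonneg_right h2 (norm_nonneg _)
    linarith
  -- the set of the points `w + A`
  set S : Set ℂ := {w : ℂ | lam + 3 / 2 * t < et h a w} with hSdef
  have hSLI : LI S := hR.li _
  have hSU : ∀ w ∈ S, Metric.closedBall w (2 * (t / 100)) ⊆ U := by
    intro w hw ζ hζ
    rw [Metric.mem_closedBall, dist_eq_norm] at hζ
    have h3 := hetd ζ w
    have h4 : lam + 3 / 2 * t < et h a w := hw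
    show lam + t < et h a ζ
    linarith
  obtain ⟨Z, hZ1, hZ2, hZ3⟩ := NUB_.inv (U := U) (S := S) (e := e) (ρ := t / 100) (by positivity)
    hUo hSLI.op hed (fun ζ hζ => (heb ζ hζ).1) (fun ζ hζ => (heb ζ hζ).2.1) hSU
  have hne : ∀ ζ ∈ U, (1 : ℂ) + deriv e ζ ≠ 0 := by
    intro ζ hζ h0
    have h1 : deriv e ζ = -1 := by linear_combination h0
    have h2 := (heb ζ hζ).2.1
    rw [h1, norm_neg, norm_one] at h2
    norm_num at h2
  have hlamU : ∀ ζ ∈ U, lam < et h a ζ := by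
    intro ζ hζ
    have h3 : lam + t < et h a ζ := hζ
    linarith
  have hGo : IsOpen {ζ : ℂ | lam < et h a ζ} := (hR.li lam).op
  -- the chart
  set W : Set ℂ := {w : ℂ | w + A ∈ S} with hW
  set g : ℂ → ℂ := fun w => G (Z (w + A)) with hg
  have hWLI : LI W := by
    refine ⟨?_, fun w hw s hs => ?_, ?_⟩
    · exact hSLI.op.preimage (by fun_prop : Continuous fun w : ℂ => w + A)
    · have h3 := hSLI.left (w + A) hw s hs
      show w - s + A ∈ S
      have h4 : w - s + A = w + A - s := by ring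
      rw [h4]
      exact h3
    · obtain ⟨R, hR'⟩ := hSLI.inf
      refine ⟨R - A.re, fun w hw => hR' (w + A) ?_⟩
      rw [add_re]
      linarith
  have hgd : ∀ w ∈ W, HasDerivAt g (deriv G (Z (w + A)) * (1 + deriv e (Z (w + A)))⁻¹) w := by
    intro w hw
    have h3 := hZ3 (w + A) hw
    have h4 : HasDerivAt (fun w => Z (w + A)) (1 + deriv e (Z (w + A)))⁻¹ w := by
      have := h3.comp_add_const w A
      simpa using this
    have h5 : HasDerivAt G (deriv G (Z (w + A))) (Z (w + A)) := by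
      have h6 := hlamU _ (hZ1 _ hw).1
      exact ((hG.diff _ h6).differentiableAt (hGo.mem_nhds h6)).hasDerivAt
    exact h5.comp w h4
  have hCht : Cht k b r (J - m) W g := by
    refine ⟨hWLI, ⟨?_, ?_, ?_⟩, ?_⟩
    · intro w hw
      exact (hgd w hw).differentiableAt.differentiableWithinAt
    · intro w hw j
      exact hG.avoid hR (hlamU _ (hZ1 _ hw).1) j
    · intro w hw
      have h3 := (heb _ (hZ1 _ hw).1).2.2
      rw [(hgd w hw).deriv]
      have h4 := hne _ (hZ1 _ hw).1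
      unfold Lam at h3
      rw [mul_pow, hg]
      have h5 : (deriv G (Z (w + A)) ^ 2 * (1 + deriv e (Z (w + A)))⁻¹ ^ 2) *
          AA k b r (G (Z (w + A))) = (AA k b r (G (Z (w + A))) * deriv G (Z (w + A)) ^ 2) *
          ((1 + deriv e (Z (w + A))) ^ 2)⁻¹ := by
        rw [inv_pow]
        ring
      show (deriv G (Z (w + A)) ^ 2 * (1 + deriv e (Z (w + A)))⁻¹ ^ 2) *
          AA k b r (G (Z (w + A))) = 1
      rw [h5, ← h3]
      exact mul_inv_cancel₀ (pow_ne_zero _ h4)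
    · have hφ : Tendsto (fun w => Z (w + A)) lf lf := by
        unfold lf
        rw [tendsto_comap_iff, tendsto_atBot]
        intro B
        obtain ⟨R, hR'⟩ := hWLI.inf
        refine eventually_lf.2 ⟨min R (B - A.re - t / 100), fun w hw => ?_⟩
        have hw1 := hR' w (hw.trans_le (min_le_left _ _))
        have hw2 : w.re < B - A.re - t / 100 := hw.trans_le (min_le_right _ _)
        have h3 := (hZ1 (w + A) hw1).2.1
        have h4 := (abs_le.1 (abs_re_le_norm (Z (w + A) - (w + A)))).2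
        rw [sub_re, add_re] at h4
        show (Z (w + A)).re ≤ B
        linarith
      have hA0 : exp A ≠ 0 := exp_ne_zero A
      have h3 := (hG.asy.comp hφ).mul (tendsto_const_nhds (x := exp A))
      have h4 : Tendsto (fun w => exp (-(e (Z (w + A))))) lf (𝓝 (exp (-0))) :=
        (continuous_exp.tendsto _).comp ((hel.comp hφ).neg)
      have h5 := h3.mul h4
      rw [← hA, inv_mul_cancel₀ hA0, neg_zero, exp_zero, mul_one] at h5
      refine h5.congr' ?_
      filter_upwards [hWLI.mem_lf] with w hw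
      have h6 := (hZ1 (w + A) hw).2.2
      have h7 : -w = -(Z (w + A)) + A + -(e (Z (w + A))) := by
        linear_combination h6
      show (G (Z (w + A)) - b (J - m)) * exp (-(Z (w + A))) * exp A * exp (-(e (Z (w + A)))) =
        (G (Z (w + A)) - b (J - m)) * exp (-w)
      rw [h7, exp_add, exp_add]
      ring
  obtain ⟨hWV, hgc⟩ := hR.mx.mx (J - m) W g hCht
  refine ⟨fun w hw => hWV hw, fun ζ => ζ - A + e ζ, ?_, fun ζ hζ => ⟨?_, ?_, ?_⟩, ?_⟩
  · exact (differentiableOn_id.sub_const A).add hed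
  · have h3 : ζ - A + e ζ - ζ + A = e ζ := by ring
    rw [h3]
    exact (heb ζ hζ).1
  · have h3 : deriv (fun ζ => ζ - A + e ζ) ζ = 1 + deriv e ζ := by
      have h4 : HasDerivAt e (deriv e ζ) ζ :=
        ((hed ζ hζ).differentiableAt (hUo.mem_nhds hζ)).hasDerivAt
      exact (((hasDerivAt_id ζ).sub_const A).add h4).deriv
    rw [h3, add_sub_cancel_left]
    exact (heb ζ hζ).2.1
  · have h3 : deriv (fun ζ => ζ - A + e ζ) ζ = 1 + deriv e ζ := by
      have h4 : HasDerivAt e (deriv e ζ) ζ :=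
        ((hed ζ hζ).differentiableAt (hUo.mem_nhds hζ)).hasDerivAt
      exact (((hasDerivAt_id ζ).sub_const A).add h4).deriv
    rw [h3]
    exact (heb ζ hζ).2.2
  · intro ζ hζ
    have hζU : ζ ∈ U := by
      show lam + t < et h a ζ
      linarith
    have h3 : ζ + e ζ ∈ S := by
      have h4 := hetd (ζ + e ζ) ζ
      have h5 : ‖ζ + e ζ - ζ‖ ≤ t / 100 := by
        rw [add_sub_cancel_left]
        exact (heb ζ hζU).1
      show lam + 3 / 2 * t < et h a (ζ + e ζ)
      linarith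
    have h4 : ζ - A + e ζ + A = ζ + e ζ := by ring
    have h5 : ζ - A + e ζ ∈ W := by
      show ζ - A + e ζ + A ∈ S
      rw [h4]
      exact h3
    refine ⟨hWV h5, ?_⟩
    rw [← hgc h5]
    show G (Z (ζ - A + e ζ + A)) = G ζ
    rw [h4, hZ2 ζ hζU h3]

end Pool.Agent.MEX
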