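import Pool.Agent.MEX.Basic

/-!
# MEX, NUL: fibres of locally injective maps are null sets
-/

set_option autoImplicit false

open Complex Filter Topology Set MeasureTheory
open Pool.Agent.Multibrot (rt push)
open Pool.Agent.Limb (F)
open Pool.Agent.PLim (Cyc Res AA fp fpp Rho LocFix)

namespace Pool.Agent.MEX

namespace NUL_

/-- one fibre -/
lemma fibre_null {V : Set ℂ} {g : ℂ → ℂ} (hV : IsOpen V) (hg : DifferentiableOn ℂ g V)
    (hd : ∀ ζ ∈ V, deriv g ζ ≠ 0) (s : ℂ) : volume {ζ : ℂ | ζ ∈ V ∧ g ζ = s} = 0 := by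
  refine measure_null_of_locally_null _ fun x hx => ⟨{x}, ?_, measure_singleton x⟩
  have h1 : HasDerivAt g (deriv g x) x :=
    ((hg x hx.1).differentiableAt (hV.mem_nhds hx.1)).hasDerivAt
  have h2 : ∀ᶠ z in 𝓝[≠] x, g z ≠ s := h1.eventually_ne (hd x hx.1)
  rw [eventually_nhdsWithin_iff] at h2
  rw [mem_nhdsWithin_iff_eventually]
  filter_upwards [h2] with z hz hzA
  by_contra hne
  exact hz hne hzA.2

end NUL_

theorem p_NUL : T_NUL := by
  intro V g S hV hg hd hS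
  have h1 : volume (⋃ s ∈ S, {ζ : ℂ | ζ ∈ V ∧ g ζ = s}) = 0 :=
    (measure_biUnion_null_iff hS).2 fun s _ => NUL_.fibre_null hV hg hd s
  rw [ae_iff]
  refine measure_mono_null (fun ζ hζ => ?_) h1
  have hζ' : ¬ (ζ ∈ V → g ζ ∉ S) := hζ
  push Not at hζ'
  exact mem_biUnion hζ'.2 ⟨hζ'.1, rfl⟩

end Pool.Agent.MEX
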