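import Pool.Agent.MEX.Basic

/-!
# MEX: the last sheet is deep
-/

set_option autoImplicit false

open Complex Filter Topology Set MeasureTheory
open Pool.Agent.Multibrot (rt push)
open Pool.Agent.Limb (F)
open Pool.Agent.PLim (Cyc Res AA fp fpp Rho LocFix)

namespace Pool.Agent.MEX

namespace PEN_

variable {n k : ℕ} {c : ℂ} {b r : ℕ → ℂ} {μ : ℂ} {V : ℕ → Set ℂ} {χ : ℕ → ℂ → ℂ} {J : ℕ}
  {D : ℂ → ENNReal} {d h t : ℝ} {a : ℝ → ℝ} {lam : ℕ → ℝ} {G : ℕ → ℂ → ℂ}

lemma mono (hq : Sq n k c b r χ J h a t lam G) {m m' : ℕ} (h1 : m ≤ m') (h2 : m' ≤ k) :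
    lam m ≤ lam m' := by
  induction m', h1 using Nat.le_induction with
  | base => exact le_rfl
  | succ s hs ih => exact (ih (by omega)).trans (hq.mono s (by omega))

lemma iter (hq : Sq n k c b r χ J h a t lam G) {m : ℕ} (hm : m ≤ k) {ζ : ℂ}
    (hζ : lam m < et h a ζ) (s : ℕ) (hs : s ≤ m) : (F n c)^[s] (G m ζ) = G (m - s) ζ := by
  induction s with
  | zero => simp
  | succ s ih =>
    rw [Function.iterate_succ_apply', ih (by omega)]
    have h1 : m - s = (m - (s + 1)) + 1 := by omega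
    rw [h1]
    refine hq.cons _ (by omega) ζ ?_
    rw [← h1]
    exact (mono hq (Nat.sub_le m s) hm).trans_lt hζ

/-- the least index after which the level exceeds a bound -/
lemma first (hq : Sq n k c b r χ J h a t lam G) {T : ℝ} (hT : 0 < T) (hk : T ≤ lam k) :
    ∃ m < k, lam m < T ∧ T ≤ lam (m + 1) := by
  have hk0 : k ≠ 0 := by
    rintro rfl
    rw [hq.z0] at hk
    linarith
  obtain ⟨k', rfl⟩ := Nat.exists_eq_succ_of_ne_zero hk0
  have hex : ∃ m, T ≤ lam (m + 1) := ⟨k', hk⟩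
  classical
  refine ⟨Nat.find hex, ?_, ?_, Nat.find_spec hex⟩
  · exact Nat.lt_succ_of_le (Nat.find_min' hex hk)
  · rcases Nat.eq_zero_or_pos (Nat.find hex) with h0 | h0
    · rw [h0, hq.z0]
      exact hT
    · have h1 := Nat.find_min hex (m := Nat.find hex - 1) (by omega)
      rw [Nat.sub_add_cancel h0] at h1
      exact not_le.1 h1

lemma first' (hq : Sq n k c b r χ J h a t lam G) {T : ℝ} (hT : 0 < T) (hk : T < lam k) :
    ∃ m < k, lam m ≤ T ∧ T < lam (m + 1) := by
  have hk0 : k ≠ 0 := by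
    rintro rfl
    rw [hq.z0] at hk
    linarith
  obtain ⟨k', rfl⟩ := Nat.exists_eq_succ_of_ne_zero hk0
  have hex : ∃ m, T < lam (m + 1) := ⟨k', hk⟩
  classical
  refine ⟨Nat.find hex, ?_, ?_, Nat.find_spec hex⟩
  · exact Nat.lt_succ_of_le (Nat.find_min' hex hk)
  · rcases Nat.eq_zero_or_pos (Nat.find hex) with h0 | h0
    · rw [h0, hq.z0]
      exact hT.le
    · have h1 := Nat.find_min hex (m := Nat.find hex - 1) (by omega)
      rw [Nat.sub_add_cancel h0] at h1
      exact not_lt.1 h1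

lemma tele (lam : ℕ → ℝ) {m₁ m₂ : ℕ} (h : m₁ ≤ m₂) :
    ∑ i ∈ Finset.Ioc m₁ m₂, (lam (i + 1) - lam i) = lam (m₂ + 1) - lam (m₁ + 1) := by
  induction m₂, h using Nat.le_induction with
  | base => simp
  | succ s hs ih =>
    rw [← Finset.insert_Ioc_right_eq_Ioc_add_one (by omega), Finset.sum_insert (by simp), ih]
    ring

end PEN_

open PEN_ in
/-- **PEN.** -/
theorem p_PEN (h1 : T_SEQ) (h2 : T_REC) (h3 : T_GEO) : T_PEN := by
  obtain ⟨C1, hC1, H1⟩ := h1
  obtain ⟨C2, hC2, H2⟩ := h2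
  obtain ⟨C3, hC3, H3⟩ := h3
  refine ⟨C1 + C2 + C3, by linarith, ?_⟩
  intro n k c b r μ V χ J D d t h a hR hS
  obtain ⟨lam, G, hq⟩ := H1 n k c b r μ V χ J D d t h a hR (hS.mono hC1 (by linarith))
  by_cases hlk : lam k ≤ 400 * t
  · exact ⟨lam k, G k, hlk, hq.lvl k le_rfl⟩
  exfalso
  push Not at hlk
  have ht := hS.ht
  -- the first event
  obtain ⟨m₁, hm₁, hl1, hl1'⟩ := first hq (T := 60 * t) (by positivity) (by linarith)
  obtain ⟨p₁, hp1, -, hp1', hp1c⟩ := hq.ev m₁ hm₁ (by linarith)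
  have hst1 := hq.step m₁ hm₁
  have het1 : lam m₁ < et h a p₁ := by nlinarith
  have hχ : (F n c)^[m₁] c = χ J p₁ := by
    have := iter hq hm₁.le het1 m₁ le_rfl
    rwa [hp1c, Nat.sub_self, hq.G0] at this
  -- the last index
  obtain ⟨mE, hmE, hlE, hlE'⟩ := first' hq (T := 400 * t) (by positivity) hlk
  have hstE := hq.step mE hmE
  have hlt : m₁ < mE := by
    by_contra hcon
    push Not at hcon
    have := mono hq (m := mE + 1) (m' := m₁ + 1) (by omega) (by omega)
    linarith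
  -- the records
  have hch : ∀ m : ℕ, ∃ p : ℂ, m < k → lam m < lam (m + 1) →
      lam m + 3 / 4 * (lam (m + 1) - lam m) ≤ et h a p ∧ et h a p ≤ lam (m + 1) ∧ G m p = c := by
    intro m
    by_cases hm : m < k ∧ lam m < lam (m + 1)
    · obtain ⟨p, e1, e2, -, e4⟩ := hq.ev m hm.1 hm.2
      exact ⟨p, fun _ _ => ⟨e1, e2, e4⟩⟩
    · exact ⟨0, fun h1 h2 => absurd ⟨h1, h2⟩ hm⟩
  choose p hp using hch
  classical
  set S : Finset ℕ := (Finset.Ioc m₁ mE).filter fun m => lam m < lam (m + 1) with hSdef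
  have hmem : ∀ i ∈ S, m₁ < i ∧ i ≤ mE ∧ lam i < lam (i + 1) := by
    intro i hi
    rw [hSdef, Finset.mem_filter, Finset.mem_Ioc] at hi
    exact ⟨hi.1.1, hi.1.2, hi.2⟩
  have hik : ∀ i ∈ S, i < k := fun i hi => (hmem i hi).2.1.trans_lt hmE
  have hpe : ∀ i ∈ S, lam i < et h a (p i) := by
    intro i hi
    have e1 := (hp i (hik i hi) (hmem i hi).2.2).1
    have e2 := (hmem i hi).2.2
    nlinarith
  have hrec : Rec D d t h a S lam (fun m => lam (m + 1)) p :=
    { Dm := hR.Dm
      Dper := hR.Dper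
      Dint := hR.Dint
      lip := hR.lip
      aper := hR.aper
      d0 := hS.hd.le
      t0 := ht
      t1 := hS.ht1
      lo := fun i hi => by
        rw [← hq.z0]
        exact mono hq (Nat.zero_le i) (hik i hi).le
      lt := fun i hi => (hmem i hi).2.2
      gap := fun i hi => hq.step i (hik i hi)
      hi := fun i hi => by
        have := mono hq (m := i + 1) (m' := mE + 1) (by have := (hmem i hi).2.1; omega) (by omega)
        show lam (i + 1) ≤ 420 * t
        linarith
      disj := fun i hi j hj hij => mono hq (m := i + 1) (m' := j) hij (hik j hj).le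
      plo := fun i hi => (hp i (hik i hi) (hmem i hi).2.2).1
      phi := fun i hi => (hp i (hik i hi) (hmem i hi).2.2).2.1 }
  have hsum : 300 * t ≤ ∑ i ∈ S, (lam (i + 1) - lam i) := by
    have e1 : ∑ i ∈ S, (lam (i + 1) - lam i) =
        ∑ i ∈ Finset.Ioc m₁ mE, (lam (i + 1) - lam i) := by
      rw [hSdef]
      refine Finset.sum_filter_of_ne fun i hi hne => ?_
      rw [Finset.mem_Ioc] at hi
      have := hq.mono i (by omega)
      exact lt_of_le_of_ne this fun he => hne (by rw [he]; ring)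
    rw [e1, tele lam hlt.le]
    linarith
  have hle : ∀ i ∈ S, lam (i - m₁) ≤ lam i := fun i hi => mono hq (Nat.sub_le _ _) (hik i hi).le
  have hlv : ∀ i ∈ S, Lvl n k c b r χ J h a (i - m₁) (lam (i - m₁)) (G (i - m₁)) := by
    intro i hi
    have := hik i hi
    exact hq.lvl _ (by omega)
  obtain ⟨i, hi, j, hj, hij, hIi, hIj⟩ := H2 D d t h a S lam (fun m => lam (m + 1)) p
    (fun m => Lam k b r (G (m - m₁))) (hS.mono hC2 (by linarith)) hrec
    (fun i hi => ((hlv i hi).lam_diff hR).mono fun ζ hζ => (hle i hi).trans_lt hζ)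
    (fun i hi => by
      filter_upwards [(hlv i hi).wt hR] with ζ hζ hm
      refine (ENNReal.ofReal_le_ofReal ?_).trans (hζ ((hle i hi).trans_lt hm))
      have := norm_nonneg (1 - Lam k b r (G (i - m₁)) ζ)
      linarith) hsum
  have hval : ∀ i ∈ S, G (i - m₁) (p i) = χ J p₁ := by
    intro i hi
    have e1 := iter hq (hik i hi).le (hpe i hi) m₁ (hmem i hi).1.le
    rw [(hp i (hik i hi) (hmem i hi).2.2).2.2, hχ] at e1
    exact e1.symm
  refine H3 n k c b r μ V χ J D d t h a p₁ ![i - m₁, j - m₁] ![lam (i - m₁), lam (j - m₁)]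
    ![G (i - m₁), G (j - m₁)] ![p i, p j] hR (hS.mono hC3 (by linarith)) (by linarith) ?_ ?_ ?_
    ?_ ?_ ?_ ?_
  · have := (hmem i hi).1
    show 0 < i - m₁
    omega
  · have := (hmem i hi).1
    show i - m₁ < j - m₁
    omega
  · have := hik j hj
    show j - m₁ < k
    omega
  · intro s
    fin_cases s
    · exact hlv i hi
    · exact hlv j hj
  · intro s
    fin_cases s
    · exact (hle i hi).trans_lt (hpe i hi)
    · exact (hle j hj).trans_lt (hpe j hj)
  · intro s
    fin_cases s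
    · exact hval i hi
    · exact hval j hj
  · intro s
    fin_cases s
    · exact hIi
    · exact hIj

end Pool.Agent.MEX
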