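import Pool.Agent.MEX.Basic

/-!
# PER: integrals of periodic functions over strips
-/

set_option autoImplicit false

open Set Filter Topology Complex MeasureTheory

namespace Pool.Agent.MEX

namespace PER_

/-- a strip of height `2 pi` is a fundamental domain of the translations by `2 pi i` -/
lemma fund (y : ℝ) : IsAddFundamentalDomain (AddSubgroup.zmultiples (2 * Real.pi * I : ℂ))
    {ζ : ℂ | y ≤ ζ.im ∧ ζ.im < y + 2 * Real.pi} volume := by
  have hmeas : MeasurableSet {ζ : ℂ | y ≤ ζ.im ∧ ζ.im < y + 2 * Real.pi} :=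
    (measurableSet_le measurable_const Complex.measurable_im).inter
      (measurableSet_lt Complex.measurable_im measurable_const)
  refine IsAddFundamentalDomain.mk' hmeas.nullMeasurableSet ?_
  intro x
  obtain ⟨m, hm, huniq⟩ := existsUnique_add_zsmul_mem_Ico (a := 2 * Real.pi)
    (by positivity) x.im y
  have him : ∀ n : ℤ, ((n • (2 * Real.pi * I : ℂ)) + x).im = x.im + n • (2 * Real.pi) := by
    intro n
    simp
    ring
  refine ⟨⟨m • (2 * Real.pi * I : ℂ), m, rfl⟩, ?_, ?_⟩
  · show y ≤ ((m • (2 * Real.pi * I : ℂ)) + x).im ∧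
      ((m • (2 * Real.pi * I : ℂ)) + x).im < y + 2 * Real.pi
    rw [him]
    exact hm
  · rintro ⟨g, n, hn⟩ hg
    have hg' : y ≤ ((n • (2 * Real.pi * I : ℂ)) + x).im ∧
        ((n • (2 * Real.pi * I : ℂ)) + x).im < y + 2 * Real.pi := by
      have hn' : n • (2 * Real.pi * I : ℂ) = g := hn
      rw [hn']
      exact hg
    rw [him] at hg'
    have := huniq n hg'
    apply Subtype.ext
    show g = m • (2 * Real.pi * I : ℂ)
    rw [← this]
    exact hn.symm

end PER_

theorem p_PER : T_PER := by
  intro D hD hper y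
  have hz : ∀ (n : ℤ) (x : ℂ), D (n • (2 * Real.pi * I : ℂ) + x) = D x := by
    intro n
    induction n using Int.induction_on with
    | zero => intro x; simp
    | succ n ih =>
      intro x
      have : ((n : ℤ) + 1) • (2 * Real.pi * I : ℂ) + x
          = ((n : ℤ) • (2 * Real.pi * I : ℂ) + x) + 2 * Real.pi * I := by
        rw [add_smul, one_smul]; ring
      rw [this, hper, ih]
    | pred n ih =>
      intro x
      have : (-(n : ℤ)) • (2 * Real.pi * I : ℂ) + x
          = ((-(n : ℤ) - 1) • (2 * Real.pi * I : ℂ) + x) + 2 * Real.pi * I := by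
        rw [sub_smul, one_smul]; ring
      rw [← ih x, this, hper]
  have hinv : ∀ (g : AddSubgroup.zmultiples (2 * Real.pi * I : ℂ)) (x : ℂ),
      D (g +ᵥ x) = D x := by
    rintro ⟨g, n, hn⟩ x
    show D (g + x) = D x
    have hn' : n • (2 * Real.pi * I : ℂ) = g := hn
    rw [← hn']
    exact hz n x
  have h0 := PER_.fund 0
  rw [zero_add] at h0
  exact (PER_.fund y).setLIntegral_eq h0 D hinv

end Pool.Agent.MEX
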