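import Pool.Agent.MEX.Basic
import Pool.Agent.PLim.TRL

/-!
# MEX: target PPM

The transfer operator preserves measurability and does not increase the mass.
-/

set_option autoImplicit false

open Complex Filter Topology Set MeasureTheory
open Pool.Agent.Multibrot Pool.Agent.Limb
open Pool.Agent.PLim (TRL_rtm)

namespace Pool.Agent.MEX

namespace PPM_

lemma coef (n : ℕ) (c : ℂ) (x : ℂ) (j : ℕ) :
    ‖((n * rt n c j x ^ (n - 1)) ^ 2)⁻¹‖ₑ =
      ENNReal.ofReal |(mulR ((n * rt n c j x ^ (n - 1))⁻¹)).det| := by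
  rw [mulR_det, abs_of_nonneg (by positivity), ← ofReal_norm, ← inv_pow, norm_pow]

lemma meas_term (n : ℕ) (c : ℂ) (j : ℕ) {g : ℂ → ENNReal} (hg : Measurable g) :
    Measurable fun y => ‖((n * rt n c j y ^ (n - 1)) ^ 2)⁻¹‖ₑ * g (rt n c j y) := by
  refine Measurable.mul ?_ (hg.comp (TRL_rtm n c j))
  exact ((((TRL_rtm n c j).pow_const _).const_mul _).pow_const 2).inv.enorm

lemma push {n : ℕ} (hn : 2 ≤ n) (c : ℂ) {g : ℂ → ENNReal} (hg : Measurable g) :
    ∫⁻ x, PP n c g x ≤ ∫⁻ w, g w := by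
  have hn0 : n ≠ 0 := by omega
  set S : Set ℂ := {x : ℂ | x - c ∈ Complex.slitPlane} with hS
  have hSm : MeasurableSet S :=
    (Complex.isOpen_slitPlane.preimage (continuous_id.sub continuous_const)).measurableSet
  have hSae : (Set.univ : Set ℂ) =ᵐ[volume] S := by
    have : ∀ᵐ x : ℂ, x ∈ S := slit_ae c
    filter_upwards [this] with x hx
    have : (x ∈ (Set.univ : Set ℂ)) = (x ∈ S) := by
      simp [hx]
    exact this
  have h0 : ∫⁻ x, PP n c g x = ∫⁻ x in S, PP n c g x := by
    rw [← setLIntegral_univ (PP n c g), setLIntegral_congr hSae]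
  rw [h0]
  have hne : ∀ x ∈ S, x ≠ c := by
    intro x hx h
    have h1 : x - c ∈ Complex.slitPlane := hx
    rw [h, sub_self] at h1
    exact Complex.slitPlane_ne_zero h1 rfl
  have hder : ∀ j, ∀ x ∈ S,
      HasFDerivWithinAt (rt n c j) (mulR ((n * rt n c j x ^ (n - 1))⁻¹)) S x := by
    intro j x hx
    exact (hasFDerivAt_of_hasDerivAt (rt_hasDerivAt hn0 hx j)).hasFDerivWithinAt
  have hinj : ∀ j, j < n → Set.InjOn (rt n c j) S := by
    intro j hj x hx x' hx' he
    exact (rt_inj hn0 (hne x hx) hj hj he).1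
  have hcv : ∀ j ∈ Finset.range n, ∫⁻ w in rt n c j '' S, g w =
      ∫⁻ x in S, ‖((n * rt n c j x ^ (n - 1)) ^ 2)⁻¹‖ₑ * g (rt n c j x) := by
    intro j hj
    rw [lintegral_image_eq_lintegral_abs_det_fderiv_mul volume hSm (hder j)
      (hinj j (Finset.mem_range.1 hj)) _]
    congr 1
    funext x
    rw [coef]
  calc ∫⁻ x in S, PP n c g x
      = ∑ j ∈ Finset.range n, ∫⁻ x in S,
        ‖((n * rt n c j x ^ (n - 1)) ^ 2)⁻¹‖ₑ * g (rt n c j x) :=
        lintegral_finsetSum _ fun j _ => meas_term n c j hg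
    _ = ∑ j ∈ Finset.range n, ∫⁻ w in rt n c j '' S, g w :=
        (Finset.sum_congr rfl fun j hj => (hcv j hj).symm)
    _ = ∫⁻ w in ⋃ j ∈ Finset.range n, rt n c j '' S, g w := by
        rw [lintegral_biUnion_finset]
        · intro j hj j' hj' hne'
          rw [Function.onFun, Set.disjoint_left]
          rintro _ ⟨x, hx, rfl⟩ ⟨x', hx', he⟩
          exact hne' (rt_inj hn0 (hne x hx) (Finset.mem_range.1 hj) (Finset.mem_range.1 hj')
            he.symm).2
        · intro j hj
          exact measurable_image_of_fderivWithin hSm (hder j) (hinj j (Finset.mem_range.1 hj))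
    _ ≤ ∫⁻ w, g w := setLIntegral_le_lintegral _ _

end PPM_

theorem p_PPM : T_PPM := by
  intro n c g hn hg
  refine ⟨?_, PPM_.push hn c hg⟩
  unfold PP
  exact Finset.measurable_sum _ fun j _ => PPM_.meas_term n c j hg

end Pool.Agent.MEX
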