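import Pool.Agent.MEX.Basic

/-!
# MEX, target PRI: primitives on left invariant domains
-/

set_option autoImplicit false

open Complex Filter Topology Set MeasureTheory

namespace Pool.Agent.MEX

namespace PRI_

variable {W : Set ℂ} {Y : ℂ → ℂ} {B R : ℝ}

lemma cont_ray (hW : LI W) {f : ℂ → ℂ} (hf : ContinuousOn f W) {ζ : ℂ} (hζ : ζ ∈ W) :
    ContinuousOn (fun s : ℝ => f (ζ - s)) (Ici 0) := by
  refine hf.comp (by fun_prop) ?_
  intro s hs
  exact hW.left ζ hζ s hs

lemma int_ray (hW : LI W) (hY : ContinuousOn Y W)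
    (hR : ∀ ζ : ℂ, ζ.re < R → ‖Y ζ‖ ≤ B * Real.exp ζ.re) {ζ : ℂ} (hζ : ζ ∈ W) :
    IntegrableOn (fun s : ℝ => ‖Y (ζ - s)‖) (Ioi 0) := by
  refine integrable_of_isBigO_exp_neg (b := 1) one_pos (cont_ray hW hY hζ).norm ?_
  refine Asymptotics.IsBigO.of_bound (B * Real.exp ζ.re) ?_
  filter_upwards [eventually_gt_atTop (ζ.re - R)] with s hs
  have hre : (ζ - (s : ℂ)).re = ζ.re - s := by simp
  have h := hR (ζ - s) (by rw [hre]; linarith)
  rw [norm_norm, Real.norm_of_nonneg (Real.exp_pos _).le]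
  rw [hre] at h
  calc ‖Y (ζ - s)‖ ≤ B * Real.exp (ζ.re - s) := h
    _ = B * Real.exp ζ.re * Real.exp (-1 * s) := by
      rw [mul_assoc, ← Real.exp_add]; ring_nf

lemma int_ray' (hW : LI W) (hY : ContinuousOn Y W)
    (hR : ∀ ζ : ℂ, ζ.re < R → ‖Y ζ‖ ≤ B * Real.exp ζ.re) {ζ : ℂ} (hζ : ζ ∈ W) :
    IntegrableOn (fun s : ℝ => Y (ζ - s)) (Ioi 0) := by
  have h := int_ray hW hY hR hζ
  refine (integrable_norm_iff ?_).1 h
  exact ((cont_ray hW hY hζ).mono Ioi_subset_Ici_self).aestronglyMeasurable measurableSet_Ioi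

lemma deriv_bound (hY : DifferentiableOn ℂ Y W)
    (hR : ∀ ζ : ℂ, ζ.re < R → ζ ∈ W ∧ ‖Y ζ‖ ≤ B * Real.exp ζ.re) (hB : 0 ≤ B) {ζ : ℂ}
    (hζ : ζ.re < R - 1) : ‖deriv Y ζ‖ ≤ B * Real.exp 1 * Real.exp ζ.re := by
  have hre : ∀ z ∈ Metric.closedBall ζ 1, z.re ≤ ζ.re + 1 := by
    intro z hz
    have h1 := abs_le.1 (abs_re_le_norm (z - ζ))
    rw [Metric.mem_closedBall, dist_eq_norm] at hz
    rw [sub_re] at h1
    linarith [h1.2]
  have hsub : Metric.closedBall ζ 1 ⊆ W := by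
    intro z hz
    exact (hR z (by linarith [hre z hz])).1
  have hd : DiffContOnCl ℂ Y (Metric.ball ζ 1) :=
    (hY.mono hsub).diffContOnCl_ball le_rfl
  have h := Complex.norm_deriv_le_of_forall_mem_sphere_norm_le (C := B * Real.exp 1 *
    Real.exp ζ.re) one_pos hd ?_
  · simpa using h
  · intro z hz
    have hz' : z ∈ Metric.closedBall ζ 1 := Metric.sphere_subset_closedBall hz
    refine ((hR z (by linarith [hre z hz'])).2).trans ?_
    rw [mul_assoc, ← Real.exp_add]
    exact mul_le_mul_of_nonneg_left (Real.exp_le_exp.2 (by linarith [hre z hz'])) hB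

/-- the primitive -/
noncomputable def Nf (Y : ℂ → ℂ) (ζ : ℂ) : ℂ := ∫ s in Ioi (0 : ℝ), Y (ζ - s)

lemma hasDeriv (hW : LI W) (hY : DifferentiableOn ℂ Y W)
    (hR : ∀ ζ : ℂ, ζ.re < R → ζ ∈ W ∧ ‖Y ζ‖ ≤ B * Real.exp ζ.re) (hB : 0 ≤ B) {ζ : ℂ}
    (hζ : ζ ∈ W) : HasDerivAt (Nf Y) (Y ζ) ζ := by
  have hYd : ∀ z ∈ W, HasDerivAt Y (deriv Y z) z := fun z hz =>
    ((hY z hz).differentiableAt (hW.op.mem_nhds hz)).hasDerivAt
  have hY'c : ContinuousOn (deriv Y) W := (hY.deriv hW.op).continuousOn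
  have hY'b : ∀ z : ℂ, z.re < R - 1 → ‖deriv Y z‖ ≤ B * Real.exp 1 * Real.exp z.re :=
    fun z hz => deriv_bound hY hR hB hz
  -- the compact segment
  set S : ℝ := |ζ.re - R| + 3 with hS
  have hS0 : 0 ≤ S := by positivity
  have hSR : ζ.re + 1 - S < R - 1 := by
    have := le_abs_self (ζ.re - R)
    rw [hS]; linarith
  set K : Set ℂ := (fun s : ℝ => ζ - s) '' Icc 0 S with hK
  have hKc : IsCompact K := isCompact_Icc.image (by fun_prop)
  have hKW : K ⊆ W := by
    rintro _ ⟨s, hs, rfl⟩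
    exact hW.left ζ hζ s hs.1
  obtain ⟨δ, hδ, hδW⟩ := hKc.exists_cthickening_subset_open hW.op hKW
  set ε : ℝ := min δ 1 with hε
  have hε0 : 0 < ε := lt_min hδ one_pos
  have hKt : IsCompact (Metric.cthickening ε K) := hKc.cthickening
  have hKtW : Metric.cthickening ε K ⊆ W :=
    (Metric.cthickening_mono (min_le_left _ _) _).trans hδW
  obtain ⟨M, hM⟩ := hKt.exists_bound_of_continuousOn (hY'c.mono hKtW)
  have hM0 : 0 ≤ M := (norm_nonneg _).trans (hM ζ (Metric.self_subset_cthickening _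
    ⟨0, ⟨le_rfl, hS0⟩, by simp⟩))
  have hmem : ∀ z ∈ Metric.ball ζ ε, ∀ s : ℝ, 0 ≤ s → s ≤ S →
      z - s ∈ Metric.cthickening ε K := by
    intro z hz s hs0 hsS
    refine Metric.mem_cthickening_of_dist_le (z - s) (ζ - s) ε K ⟨s, ⟨hs0, hsS⟩, rfl⟩ ?_
    rw [dist_sub_right]
    exact (Metric.mem_ball.1 hz).le
  have hzre : ∀ z ∈ Metric.ball ζ ε, z.re ≤ ζ.re + 1 := by
    intro z hz
    have h1 := abs_le.1 (abs_re_le_norm (z - ζ))
    rw [Metric.mem_ball, dist_eq_norm] at hz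
    rw [sub_re] at h1
    have : ε ≤ 1 := min_le_right _ _
    linarith [h1.2]
  have hzW : ∀ z ∈ Metric.ball ζ ε, ∀ s : ℝ, 0 ≤ s → z - s ∈ W := by
    intro z hz s hs
    have hzW : z ∈ W := by
      have := hKtW (hmem z hz 0 le_rfl hS0)
      simpa using this
    exact hW.left z hzW s hs
  have hR' : ∀ z : ℂ, z.re < R → ‖Y z‖ ≤ B * Real.exp z.re := fun z hz => (hR z hz).2
  -- the bound
  have hbound : ∀ z ∈ Metric.ball ζ ε, ∀ s : ℝ, 0 < s →
      ‖deriv Y (z - s)‖ ≤ (M * Real.exp S + B * Real.exp 1 * Real.exp (ζ.re + 1)) *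
        Real.exp (-s) := by
    intro z hz s hs
    have hA : 0 ≤ M * Real.exp S * Real.exp (-s) := by positivity
    have hA' : 0 ≤ B * Real.exp 1 * Real.exp (ζ.re + 1) * Real.exp (-s) := by positivity
    rw [add_mul]
    by_cases hsS : s ≤ S
    · have h1 := hM _ (hmem z hz s hs.le hsS)
      have h2 : M ≤ M * Real.exp S * Real.exp (-s) := by
        rw [mul_assoc, ← Real.exp_add]
        have : (1 : ℝ) ≤ Real.exp (S + -s) := Real.one_le_exp (by linarith)
        nlinarith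
      linarith
    · push Not at hsS
      have hre : (z - (s : ℂ)).re = z.re - s := by simp
      have h1 := hY'b (z - s) (by rw [hre]; linarith [hzre z hz])
      rw [hre] at h1
      have h2 : B * Real.exp 1 * Real.exp (z.re - s) ≤
          B * Real.exp 1 * Real.exp (ζ.re + 1) * Real.exp (-s) := by
        rw [mul_assoc (B * Real.exp 1), ← Real.exp_add]
        refine mul_le_mul_of_nonneg_left (Real.exp_le_exp.2 ?_) (by positivity)
        linarith [hzre z hz]
      linarith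
  have hbint : IntegrableOn (fun s : ℝ => (M * Real.exp S + B * Real.exp 1 *
      Real.exp (ζ.re + 1)) * Real.exp (-s)) (Ioi 0) :=
    (integrableOn_exp_neg_Ioi 0).const_mul _
  have hζb : ζ ∈ Metric.ball ζ ε := Metric.mem_ball_self hε0
  have hcd := cont_ray hW hY'c hζ
  have key := hasDerivAt_integral_of_dominated_loc_of_deriv_le (μ := volume.restrict (Ioi (0 : ℝ)))
    (F := fun (z : ℂ) (s : ℝ) => Y (z - s)) (F' := fun (z : ℂ) (s : ℝ) => deriv Y (z - s))
    (x₀ := ζ) (s := Metric.ball ζ ε)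
    (bound := fun s : ℝ => (M * Real.exp S + B * Real.exp 1 * Real.exp (ζ.re + 1)) *
      Real.exp (-s)) (Metric.ball_mem_nhds ζ hε0) ?_ ?_ ?_ ?_ hbint ?_
  · obtain ⟨hki, hkd⟩ := key
    have hval : ∫ s in Ioi (0 : ℝ), deriv Y (ζ - s) = Y ζ := by
      have h1 : ∀ s ∈ Ici (0 : ℝ), HasDerivAt (fun s : ℝ => -Y (ζ - s)) (deriv Y (ζ - s)) s := by
        intro s hs
        have h2 : HasDerivAt (fun s : ℝ => ζ - (s : ℂ)) (-1) s := by
          simpa using (hasDerivAt_id s).ofReal_comp.const_sub ζ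
        have h3 := (hYd (ζ - s) (hW.left ζ hζ s hs)).comp s h2
        have h4 : HasDerivAt (fun s : ℝ => -Y (ζ - s)) (-(deriv Y (ζ - s) * -1)) s := h3.neg
        simpa using h4
      have h2 : Tendsto (fun s : ℝ => -Y (ζ - s)) atTop (𝓝 0) := by
        rw [← neg_zero]
        refine Tendsto.neg ?_
        refine squeeze_zero_norm' (a := fun s : ℝ => B * Real.exp ζ.re * Real.exp (-s)) ?_ ?_
        · filter_upwards [eventually_gt_atTop (ζ.re - R)] with s hs
          have hre : (ζ - (s : ℂ)).re = ζ.re - s := by simp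
          have h := hR' (ζ - s) (by rw [hre]; linarith)
          rw [hre] at h
          rw [mul_assoc, ← Real.exp_add]
          simpa [sub_eq_add_neg] using h
        · have := Real.tendsto_exp_neg_atTop_nhds_zero.const_mul (B * Real.exp ζ.re)
          simpa using this
      have h3 := integral_Ioi_of_hasDerivAt_of_tendsto' h1 hki h2
      rw [h3]
      simp
    rw [hval] at hkd
    exact hkd
  · filter_upwards [Metric.ball_mem_nhds ζ hε0] with z hz
    have hzW' : z ∈ W := by simpa using hzW z hz 0 le_rfl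
    exact ((cont_ray hW hY.continuousOn hzW').mono Ioi_subset_Ici_self).aestronglyMeasurable
      measurableSet_Ioi
  · exact int_ray' hW hY.continuousOn hR' hζ
  · exact (hcd.mono Ioi_subset_Ici_self).aestronglyMeasurable measurableSet_Ioi
  · refine (ae_restrict_iff' measurableSet_Ioi).2 (ae_of_all _ fun s hs z hz => ?_)
    exact hbound z hz s hs
  · refine (ae_restrict_iff' measurableSet_Ioi).2 (ae_of_all _ fun s hs z hz => ?_)
    have h2 : HasDerivAt (fun z : ℂ => z - (s : ℂ)) 1 z := (hasDerivAt_id z).sub_const _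
    have h3 := (hYd (z - s) (hzW z hz s (le_of_lt hs))).comp z h2
    simpa [Function.comp_def] using h3

end PRI_

theorem p_PRI : T_PRI := by
  intro W Y B R hW hY hR
  have hB : 0 ≤ B := by
    have h := (hR ((R - 1 : ℝ) : ℂ) (by simp)).2
    have h2 := (norm_nonneg _).trans h
    by_contra hneg
    push Not at hneg
    exact absurd h2 (not_le.2 (mul_neg_of_neg_of_pos hneg (Real.exp_pos _)))
  have hR' : ∀ z : ℂ, z.re < R → ‖Y z‖ ≤ B * Real.exp z.re := fun z hz => (hR z hz).2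
  refine ⟨PRI_.Nf Y, ?_, ?_, ?_, ?_⟩
  · intro ζ hζ
    exact (PRI_.hasDeriv hW hY hR hB hζ).differentiableAt.differentiableWithinAt
  · intro ζ hζ
    exact (PRI_.hasDeriv hW hY hR hB hζ).deriv
  · rw [tendsto_zero_iff_norm_tendsto_zero]
    refine squeeze_zero' (g := fun ζ : ℂ => B * Real.exp ζ.re) (Eventually.of_forall fun _ =>
      norm_nonneg _) ?_ ?_
    · rw [eventually_lf]
      refine ⟨R, fun ζ hζ => ?_⟩
      have hle : ∀ s ∈ Ioi (0 : ℝ), ‖Y (ζ - s)‖ ≤ B * Real.exp ζ.re * Real.exp (-s) := by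
        intro s hs
        have hre : (ζ - (s : ℂ)).re = ζ.re - s := by simp
        have h := hR' (ζ - s) (by rw [hre]; linarith [mem_Ioi.1 hs])
        rw [hre] at h
        rw [mul_assoc, ← Real.exp_add]
        simpa [sub_eq_add_neg] using h
      have h1 : ‖PRI_.Nf Y ζ‖ ≤ ∫ s in Ioi (0 : ℝ), B * Real.exp ζ.re * Real.exp (-s) := by
        unfold PRI_.Nf
        refine norm_integral_le_of_norm_le ((integrableOn_exp_neg_Ioi 0).const_mul _) ?_
        exact (ae_restrict_iff' measurableSet_Ioi).2 (ae_of_all _ hle)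
      refine h1.trans (le_of_eq ?_)
      rw [integral_const_mul, integral_exp_neg_Ioi_zero]
      simp
    · have h1 : Tendsto (fun ζ : ℂ => ζ.re) lf atBot := tendsto_comap
      have h2 := (Real.tendsto_exp_atBot.comp h1).const_mul B
      simpa using h2
  · intro ζ hζ
    refine ⟨PRI_.int_ray hW hY.continuousOn hR' hζ, ?_⟩
    exact norm_integral_le_integral_norm _

end Pool.Agent.MEX
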