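import Pool.Agent.MEX.Basic

/-!
# MEX: two good records (T_REC)
-/

set_option autoImplicit false

open Complex Filter Topology Set MeasureTheory

namespace Pool.Agent.MEX

namespace REC_

/-- The integral over a small ball is at most the integral over one window. -/
lemma ball_window (h3 : T_PER) {D : ℂ → ENNReal} (hD : Measurable D)
    (hper : ∀ ζ, D (ζ + 2 * Real.pi * I) = D ζ) {d : ℝ}
    (hint : ∫⁻ ζ in {ζ : ℂ | 0 ≤ ζ.im ∧ ζ.im < 2 * Real.pi}, D ζ ≤ ENNReal.ofReal d)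
    (q : ℂ) {ρ : ℝ} (hρ : ρ ≤ 1) :
    ∫⁻ z in Metric.ball q ρ, D z ≤ ENNReal.ofReal d := by
  refine le_trans ?_ hint
  rw [← h3 D hD hper (q.im - 1)]
  refine lintegral_mono_set fun z hz => ?_
  rw [Metric.mem_ball, dist_eq_norm] at hz
  have h1 := abs_im_le_norm (z - q)
  rw [sub_im] at h1
  have h2 := abs_le.1 (h1.trans (hz.le.trans hρ))
  have h4 := Real.pi_gt_three
  have h5 := abs_lt.1 (lt_of_le_of_lt h1 (lt_of_lt_of_le hz hρ))
  constructor
  · linarith [h5.1]
  · linarith [h5.2]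

end REC_

theorem p_REC (h1 : T_WSM) (h2 : T_SBH) (h3 : T_PER) : T_REC := by
  obtain ⟨C, hC, H⟩ := h1
  refine ⟨C, hC, ?_⟩
  intro D d t h a S l l' p X hs hR hX hw hsum
  have ht : 0 < t := hs.ht
  have HW := H D d t h a S l l' p hR
  set g : ℕ → ℝ := fun i => l' i - l i with hg
  set W : ℕ → ℝ := fun i => ∫ s in (0 : ℝ)..t,
    √(∫⁻ z in Metric.ball (p i - s) ((s + (l' i - l i) / 2) / 2), D z).toReal /
      (s + (l' i - l i) / 2) with hWdef
  have HW' : ∑ i ∈ S, g i * W i ≤ C * t * √d := HW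
  have hg0 : ∀ i ∈ S, 0 < g i := fun i hi => by
    have := hR.lt i hi
    simp only [hg]
    linarith
  have hg1 : ∀ i ∈ S, g i ≤ 10 * t := fun i hi => by
    have := hR.gap i hi
    simp only [hg]
    linarith
  have hW0 : ∀ i ∈ S, 0 ≤ W i := fun i hi => by
    simp only [hWdef]
    refine intervalIntegral.integral_nonneg ht.le fun s hs => ?_
    have h4 : 0 < l' i - l i := hg0 i hi
    have h5 : 0 ≤ s := hs.1
    refine div_nonneg (Real.sqrt_nonneg _) ?_
    linarith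
  have hseg : ∀ i ∈ S, ∫ s in (0 : ℝ)..t, √‖X i (p i - s)‖ ≤ t + 2 * W i := fun i hi => by
    refine h2 D d t h (l' i - l i) (l i) a (X i) (p i) hR.Dm hR.lip ht (hg0 i hi) (hX i hi)
      (hw i hi) (hR.plo i hi) fun s hs' => ?_
    refine REC_.ball_window h3 hR.Dm hR.Dper hR.Dint _ ?_
    have h4 : l' i - l i ≤ 10 * t := hg1 i hi
    have h5 : s ≤ t := hs'.2
    have h6 := hs.ht1
    linarith
  -- good records
  set T : Finset ℕ := S.filter fun i => W i ≤ t / 2 with hT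
  by_cases hcard : 1 < T.card
  · obtain ⟨i, hi, j, hj, hij⟩ := Finset.one_lt_card.1 hcard
    have hiS := (Finset.mem_filter.1 hi)
    have hjS := (Finset.mem_filter.1 hj)
    have gi : ∫ s in (0 : ℝ)..t, √‖X i (p i - s)‖ ≤ 2 * t := by
      linarith [hseg i hiS.1, hiS.2]
    have gj : ∫ s in (0 : ℝ)..t, √‖X j (p j - s)‖ ≤ 2 * t := by
      linarith [hseg j hjS.1, hjS.2]
    rcases lt_or_gt_of_ne hij with h' | h'
    · exact ⟨i, hiS.1, j, hjS.1, h', gi, gj⟩
    · exact ⟨j, hjS.1, i, hiS.1, h', gj, gi⟩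
  · exfalso
    push Not at hcard
    have hTsum : ∑ i ∈ T, g i ≤ 10 * t := by
      have h4 : ∑ i ∈ T, g i ≤ T.card • (10 * t) :=
        Finset.sum_le_card_nsmul _ _ _ fun i hi => hg1 i (Finset.mem_filter.1 hi).1
      refine h4.trans ?_
      rw [nsmul_eq_mul]
      have h5 : (T.card : ℝ) ≤ 1 := by exact_mod_cast hcard
      nlinarith
    have hsplit : ∑ i ∈ S, g i = ∑ i ∈ T, g i + ∑ i ∈ S.filter (fun i => ¬ W i ≤ t / 2), g i :=
      (Finset.sum_filter_add_sum_filter_not S (fun i => W i ≤ t / 2) g).symm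
    have hbig : 290 * t ≤ ∑ i ∈ S.filter (fun i => ¬ W i ≤ t / 2), g i := by
      have : 300 * t ≤ ∑ i ∈ S, g i := hsum
      linarith
    have h6 : ∑ i ∈ S.filter (fun i => ¬ W i ≤ t / 2), g i * (t / 2) ≤
        ∑ i ∈ S.filter (fun i => ¬ W i ≤ t / 2), g i * W i :=
      Finset.sum_le_sum fun i hi => by
        have h7 := Finset.mem_filter.1 hi
        exact mul_le_mul_of_nonneg_left (not_le.1 h7.2).le (hg0 i h7.1).le
    have h8 : ∑ i ∈ S.filter (fun i => ¬ W i ≤ t / 2), g i * W i ≤ ∑ i ∈ S, g i * W i :=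
      Finset.sum_le_sum_of_subset_of_nonneg (Finset.filter_subset _ _) fun i hi _ =>
        mul_nonneg (hg0 i hi).le (hW0 i hi)
    rw [← Finset.sum_mul] at h6
    have h9 : 290 * t * (t / 2) ≤ C * t * √d := by
      have h10 := mul_le_mul_of_nonneg_right hbig (by linarith : (0 : ℝ) ≤ t / 2)
      linarith
    have h11 := hs.sqrt
    nlinarith

end Pool.Agent.MEX
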