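import Pool.Agent.MEX.Basic
import Pool.Agent.PLim.KOEB
import Pool.Agent.PLim.PHIp

/-!
# MEX, ROO: the two roots around a simple zero
-/

set_option autoImplicit false

open Complex Filter Topology Set MeasureTheory

namespace Pool.Agent.MEX

namespace ROO_

lemma exp_half : exp (Real.pi / 2 * I) = I := by
  rw [exp_mul_I]
  have h1 : (Real.pi / 2 : ℂ) = ((Real.pi / 2 : ℝ) : ℂ) := by push_cast; ring
  rw [h1, ← ofReal_cos, ← ofReal_sin, Real.cos_pi_div_two, Real.sin_pi_div_two]
  simp

lemma exp_three : exp (3 * (Real.pi / 2) * I) = -I := by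
  have h1 : (3 * (Real.pi / 2) * I : ℂ) = Real.pi * I + Real.pi / 2 * I := by ring
  rw [h1, exp_add, exp_half, exp_pi_mul_I]
  ring

lemma log_neg_pos {u : ℂ} (hu : 0 < u.im) : log (-u) = log u - Real.pi * I := by
  unfold log
  rw [norm_neg, arg_neg_eq_arg_sub_pi_of_im_pos hu]
  push_cast
  ring

lemma log_neg_neg {u : ℂ} (hu : u.im < 0) : log (-u) = log u + Real.pi * I := by
  unfold log
  rw [norm_neg, arg_neg_eq_arg_add_pi_of_im_neg hu]
  push_cast
  ring

end ROO_

open ROO_

theorem p_ROO : T_ROO := by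
  classical
  intro n p ρ g hn hρ hg hinj hgp
  have ho : IsOpen (Metric.ball p ρ) := Metric.isOpen_ball
  have hp : p ∈ Metric.ball p ρ := Metric.mem_ball_self hρ
  have hnc : (n : ℂ) ≠ 0 := by
    have : n ≠ 0 := by omega
    exact_mod_cast this
  have hd : DifferentiableOn ℂ (dslope g p) (Metric.ball p ρ) :=
    (differentiableOn_dslope (ho.mem_nhds hp)).2 hg
  have h0 : ∀ x ∈ Metric.ball p ρ, dslope g p x ≠ 0 := by
    intro x hx h
    by_cases hxp : x = p
    · rw [hxp, dslope_same] at h
      exact PLim.PHIp_.deriv_ne_zero_of_injOn (hg.analyticAt (ho.mem_nhds hp)) (ho.mem_nhds hp)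
        hinj h
    · have h1 := sub_smul_dslope g p x
      rw [h, smul_zero] at h1
      exact hxp (hinj hx hp (sub_eq_zero.1 h1.symm))
  obtain ⟨L, hL, hLe⟩ := PLim.KOEB_.exists_log hρ hd h0
  have hge : ∀ x ∈ Metric.ball p ρ, g x = exp (L x) * (x - p) := by
    intro x hx
    have h1 := sub_smul_dslope g p x
    rw [hLe x hx, hgp, sub_zero, smul_eq_mul] at h1
    rw [← h1]
    ring
  set R₁ : ℂ → ℂ := fun x => if x = p then 0 else
    exp ((L x + Real.pi / 2 * I + log (-I * (x - p))) / n) with hR₁
  set R₂ : ℂ → ℂ := fun x => if x = p then 0 else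
    exp ((L x + 3 * (Real.pi / 2) * I + log (-(-I * (x - p)))) / n) with hR₂
  have e₁ : ∀ x, x ≠ p → R₁ x = exp ((L x + Real.pi / 2 * I + log (-I * (x - p))) / n) := by
    intro x hx
    simp only [hR₁]
    rw [if_neg hx]
  have e₂ : ∀ x, x ≠ p →
      R₂ x = exp ((L x + 3 * (Real.pi / 2) * I + log (-(-I * (x - p)))) / n) := by
    intro x hx
    simp only [hR₂]
    rw [if_neg hx]
  have hre : ∀ x : ℂ, (-I * (x - p)).re = x.im - p.im := by intro x; simp
  have him : ∀ x : ℂ, (-I * (x - p)).im = -(x.re - p.re) := by intro x; simp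
  refine ⟨R₁, R₂, ?_, ?_, ?_, ?_, ?_⟩
  · rintro x ⟨hx, hs⟩
    have hxp : x ≠ p := by
      rintro rfl
      exact hs ⟨rfl, le_rfl⟩
    have hsl : -I * (x - p) ∈ slitPlane := by
      rw [mem_slitPlane_iff, hre, him]
      by_cases h : x.re = p.re
      · left
        have : ¬ x.im ≤ p.im := fun h' => hs ⟨h, h'⟩
        linarith [not_le.1 this]
      · right
        intro h'
        exact h (by linarith)
    have h1 : DifferentiableAt ℂ (fun x => exp ((L x + Real.pi / 2 * I +
        log (-I * (x - p))) / n)) x := by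
      have hL' : DifferentiableAt ℂ L x := hL.differentiableAt (ho.mem_nhds hx)
      have h2 : DifferentiableAt ℂ (fun x => log (-I * (x - p))) x :=
        DifferentiableAt.clog (by fun_prop) hsl
      exact (((hL'.add_const _).add h2).div_const _).cexp
    refine (h1.congr_of_eventuallyEq ?_).differentiableWithinAt
    filter_upwards [isOpen_ne.mem_nhds hxp] with y hy
    exact e₁ y hy
  · rintro x ⟨hx, hs⟩
    have hxp : x ≠ p := by
      rintro rfl
      exact hs ⟨rfl, le_rfl⟩
    have hsl : -(-I * (x - p)) ∈ slitPlane := by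
      rw [mem_slitPlane_iff, neg_re, neg_im, hre, him]
      by_cases h : x.re = p.re
      · left
        have : ¬ p.im ≤ x.im := fun h' => hs ⟨h, h'⟩
        linarith [not_le.1 this]
      · right
        intro h'
        exact h (by linarith)
    have h1 : DifferentiableAt ℂ (fun x => exp ((L x + 3 * (Real.pi / 2) * I +
        log (-(-I * (x - p)))) / n)) x := by
      have hL' : DifferentiableAt ℂ L x := hL.differentiableAt (ho.mem_nhds hx)
      have h2 : DifferentiableAt ℂ (fun x => log (-(-I * (x - p)))) x :=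
        DifferentiableAt.clog (by fun_prop) hsl
      exact (((hL'.add_const _).add h2).div_const _).cexp
    refine (h1.congr_of_eventuallyEq ?_).differentiableWithinAt
    filter_upwards [isOpen_ne.mem_nhds hxp] with y hy
    exact e₂ y hy
  · intro x hx
    by_cases hxp : x = p
    · have hn0 : n ≠ 0 := by omega
      constructor
      · simp [hR₁, hxp, hgp, hn0]
      · simp [hR₂, hxp, hgp, hn0]
    · have hw : -I * (x - p) ≠ 0 := mul_ne_zero (neg_ne_zero.2 I_ne_zero) (sub_ne_zero.2 hxp)
      rw [e₁ x hxp, e₂ x hxp, ← exp_nat_mul, ← exp_nat_mul, mul_div_cancel₀ _ hnc,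
        mul_div_cancel₀ _ hnc, exp_add, exp_add, exp_half, exp_log hw, exp_add, exp_add,
        exp_three, exp_log (neg_ne_zero.2 hw), hge x hx]
      constructor
      · linear_combination (-exp (L x) * (x - p)) * I_mul_I
      · linear_combination (-exp (L x) * (x - p)) * I_mul_I
  · intro x hx hlt
    have hxp : x ≠ p := by
      rintro rfl
      exact lt_irrefl _ hlt
    have h1 : 0 < (-I * (x - p)).im := by
      rw [him]
      linarith
    rw [e₁ x hxp, e₂ x hxp, log_neg_pos h1]
    congr 2
    ring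
  · intro x hx hlt h
    have hxp : x ≠ p := by
      rintro rfl
      exact lt_irrefl _ hlt
    have h1 : (-I * (x - p)).im < 0 := by
      rw [him]
      linarith
    rw [e₁ x hxp, e₂ x hxp, log_neg_neg h1] at h
    rw [exp_eq_exp_iff_exists_int] at h
    obtain ⟨m, hm⟩ := h
    have h2 : (-1 : ℂ) = m * n := by
      have h3 : (2 * Real.pi * I : ℂ) ≠ 0 := two_pi_I_ne_zero
      apply mul_right_cancel₀ h3
      field_simp at hm
      linear_combination (1 / 2) * hm
    have h3 : (-1 : ℤ) = m * n := by exact_mod_cast h2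
    have h4 : (n : ℤ) ∣ 1 := ⟨-m, by linarith⟩
    have h5 := Int.le_of_dvd one_pos h4
    omega

end Pool.Agent.MEX
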