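import Pool.Agent.MEX.Basic

set_option autoImplicit false

/-!
# MEX: one round
-/

open Complex Filter Topology Set MeasureTheory
open Pool.Agent.Multibrot (rt push)
open Pool.Agent.Limb (F)
open Pool.Agent.PLim (Cyc Res AA fp fpp Rho LocFix)

namespace Pool.Agent.MEX

namespace ROU_

/-- the product of a periodic function over one period -/
lemma prod_period (f : ℕ → ℂ) (k : ℕ) (hf : ∀ j, f (j + k) = f j) (m : ℕ) :
    ∏ i ∈ Finset.range k, f (m + i) = ∏ i ∈ Finset.range k, f i := by
  induction m with
  | zero => simp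
  | succ m ih =>
    rw [← ih]
    cases k with
    | zero => simp
    | succ k =>
      rw [Finset.prod_range_succ, Finset.prod_range_succ' (fun i => f (m + i))]
      have h1 : f (m + 1 + k) = f (m + 0) := by
        have h2 : m + 1 + k = m + 0 + (k + 1) := by ring
        rw [h2]
        exact hf _
      rw [h1]
      congr 1
      refine Finset.prod_congr rfl fun i _ => ?_
      congr 1
      ring

end ROU_

open ROU_ in
theorem p_ROU (h1 : T_PEN) (h2 : T_NUB) : T_ROU := by
  obtain ⟨C1, hC1, hP⟩ := h1
  obtain ⟨C2, hC2, hN⟩ := h2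
  refine ⟨max C1 C2, le_max_of_le_left hC1, ?_⟩
  intro n k c b r μ V χ J D d t h a hR hS w hw
  obtain ⟨lam, G, hlam, hG⟩ := hP n k c b r μ V χ J D d t h a hR
    (hS.mono hC1 (le_max_left _ _))
  have hcyc : Cyc n k c b := hR.bad.cyc
  have hprod : exp μ = ∏ i ∈ Finset.range k, fp n (b (J - k + i)) := by
    rw [hR.bad.mul]
    exact (prod_period (fun j => fp n (b j)) k (fun j => by rw [hcyc.per]) (J - k)).symm
  have hV := (hN n k c b r μ V χ J D d t h a k lam G μ hR (hS.mono hC2 (le_max_right _ _)) hG
    hprod).1 w ?_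
  · have h3 := hR.mx.vj (J - k)
    rw [Nat.sub_add_cancel hR.hJ] at h3
    rw [h3]
    exact hV
  · have hd : d ≤ t := by
      have h3 := hS.sqrt
      have h4 : 1 ≤ max C1 C2 := le_max_of_le_left hC1
      have h5 : 0 ≤ √d := Real.sqrt_nonneg d
      have h6 : √d ≤ max C1 C2 * √d := by nlinarith
      have h7 : d ≤ √d := by
        have h8 : √d ≤ 1 := by
          rw [Real.sqrt_le_one]
          linarith [hS.hd1]
        have h9 : √d * √d = d := Real.mul_self_sqrt hS.hd.le
        nlinarith
      linarith
    have hre : μ.re ≤ d := hR.hd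
    have ht := hS.ht
    unfold et
    rw [Complex.add_im, Complex.add_re]
    linarith

end Pool.Agent.MEX
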