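import Pool.Agent.MEX.Basic

/-!
# MEX, target RTA: rotations by an angle far from rational numbers of small denominator
-/

set_option autoImplicit false

open Complex Filter Topology Set MeasureTheory
open Pool.Agent.Multibrot (rt push)
open Pool.Agent.Limb (F)
open Pool.Agent.PLim (Cyc Res AA fp fpp Rho LocFix)

namespace Pool.Agent.MEX

namespace RTA_

lemma step_pos {β : ℝ} (hβ : 0 < β) (x : ℝ) :
    ∃ (s : ℕ) (m : ℤ), (s : ℝ) ≤ 1 / β + 1 / 2 ∧ |x + s * β - m| ≤ β / 2 := by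
  have h0 : 0 ≤ (⌈x⌉ - x) / β := div_nonneg (sub_nonneg.2 (Int.le_ceil x)) hβ.le
  have h1 : (⌈x⌉ - x) / β ≤ 1 / β := by
    refine div_le_div_of_nonneg_right ?_ hβ.le
    linarith [Int.ceil_lt_add_one x]
  set z : ℝ := (⌈x⌉ - x) / β with hz
  have hr : |z - round z| ≤ 1 / 2 := abs_sub_round z
  have hr0 : 0 ≤ round z := by
    have h2 : (-1 : ℝ) < round z := by
      have := (abs_le.1 hr).2
      linarith
    have h3 : (-1 : ℤ) < round z := by exact_mod_cast h2
    omega
  obtain ⟨s, hs⟩ := Int.eq_ofNat_of_zero_le hr0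
  have hs' : ((round z : ℤ) : ℝ) = s := by rw [hs]; simp
  refine ⟨s, ⌈x⌉, ?_, ?_⟩
  · rw [← hs']
    have := (abs_le.1 hr).1
    linarith
  · have h2 : x + s * β - ⌈x⌉ = -(z - round z) * β := by
      rw [hs', hz]
      field_simp
      ring
    rw [h2, abs_mul, abs_neg, abs_of_pos hβ]
    calc |z - round z| * β ≤ 1 / 2 * β := mul_le_mul_of_nonneg_right hr hβ.le
      _ = β / 2 := by ring

lemma step {β : ℝ} (hβ : β ≠ 0) (x : ℝ) :
    ∃ (s : ℕ) (m : ℤ), (s : ℝ) ≤ 1 / |β| + 1 / 2 ∧ |x + s * β - m| ≤ |β| / 2 := by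
  rcases lt_or_gt_of_ne hβ with h | h
  · obtain ⟨s, m, h1, h2⟩ := step_pos (neg_pos.2 h) (-x)
    refine ⟨s, -m, ?_, ?_⟩
    · rw [abs_of_neg h]
      exact h1
    · rw [abs_of_neg h]
      have h3 : x + s * β - ((-m : ℤ) : ℝ) = -(-x + s * -β - m) := by
        push_cast
        ring
      rw [h3, abs_neg]
      exact h2
  · obtain ⟨s, m, h1, h2⟩ := step_pos h x
    exact ⟨s, m, by rwa [abs_of_pos h], by rwa [abs_of_pos h]⟩

end RTA_

open RTA_

theorem p_RTA : T_RTA := by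
  intro α δ hδ hF θ y
  have hπ := Real.pi_pos
  set a : ℝ := α / (2 * Real.pi) with ha
  obtain ⟨q, hq0, hq6, hqd⟩ := Real.exists_nat_abs_mul_sub_round_le a (n := 6) (by norm_num)
  set β : ℝ := q * a - round (q * a) with hβ
  have hβ1 : |β| ≤ 1 / 7 := by
    refine hqd.trans (le_of_eq ?_)
    norm_num
  have hβ0 : δ ≤ |β| := by
    have h1 := hF q hq0 hq6 (round (q * a))
    rw [mul_div_assoc] at h1
    exact h1
  have hβne : β ≠ 0 := by
    intro h
    rw [h, abs_zero] at hβ0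
    linarith
  obtain ⟨s, m, hs, hm⟩ := step hβne ((y - θ) / (2 * Real.pi))
  have hδ7 : δ ≤ 1 / 7 := hβ0.trans hβ1
  refine ⟨q * s, ?_, ?_⟩
  · have h1 : (s : ℝ) ≤ 1 / δ + 1 / 2 :=
      hs.trans (by
        have := one_div_le_one_div_of_le hδ hβ0
        linarith)
    have h2 : (q : ℝ) ≤ 6 := by exact_mod_cast hq6
    have h3 : (0 : ℝ) ≤ s := Nat.cast_nonneg s
    have h4 : (1 : ℝ) ≤ 1 / δ := by
      rw [le_div_iff₀ hδ]
      linarith
    push_cast
    calc (q : ℝ) * s ≤ 6 * s := mul_le_mul_of_nonneg_right h2 h3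
      _ ≤ 6 * (1 / δ + 1 / 2) := mul_le_mul_of_nonneg_left h1 (by norm_num)
      _ ≤ 12 * (1 / δ) := by linarith
      _ = 12 / δ := by ring
  · set X : ℝ := (y + ((q * s : ℕ) : ℝ) * α - θ) / (2 * Real.pi) with hX
    have hXe : X = (y - θ) / (2 * Real.pi) + ((q * s : ℕ) : ℝ) * a := by
      rw [hX, ha]
      ring
    have h1 : X - ((m + s * round (q * a) : ℤ) : ℝ) = (y - θ) / (2 * Real.pi) + s * β - m := by
      rw [hXe, hβ]
      push_cast
      ring
    have h2 : |X - round X| ≤ 1 / 14 := by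
      refine (round_le X (m + s * round (q * a))).trans ?_
      rw [h1]
      refine hm.trans ?_
      linarith
    have h3 : y + ((q * s : ℕ) : ℝ) * α - θ = 2 * Real.pi * X := by
      rw [hX]
      field_simp
    have h4 : |y + ((q * s : ℕ) : ℝ) * α - θ - 2 * Real.pi * round X| ≤ 9 / 20 := by
      rw [h3, ← mul_sub, abs_mul, abs_of_pos (by positivity)]
      have h5 : 2 * Real.pi * |X - round X| ≤ 2 * Real.pi * (1 / 14) :=
        mul_le_mul_of_nonneg_left h2 (by positivity)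
      have := Real.pi_lt_d2
      linarith
    unfold tnt
    refine le_trans ?_ (le_max_right _ _)
    rw [← hX]
    linarith

end Pool.Agent.MEX
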