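import Pool.Agent.MEX.Basic

/-!
# MEX: SBH, the length of a horizontal segment in the sheet
-/

set_option autoImplicit false

open Complex Filter Topology Set MeasureTheory
open Pool.Agent.Multibrot (rt push)
open Pool.Agent.Limb (F)
open Pool.Agent.PLim (Cyc Res AA fp fpp Rho LocFix)

namespace Pool.Agent.MEX

namespace SBH_

/-- The mass in the discs is a measurable function. -/
theorem measurable_mass {D : ℂ → ENNReal} (hD : Measurable D) (p : ℂ) (g : ℝ) :
    Measurable fun s : ℝ => ∫⁻ z in Metric.ball (p - s) ((s + g / 2) / 2), D z := by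
  have e : (fun s : ℝ => ∫⁻ z in Metric.ball (p - s) ((s + g / 2) / 2), D z) = fun s =>
      ∫⁻ z, ({q : ℝ × ℂ | dist q.2 (p - q.1) < (q.1 + g / 2) / 2}.indicator
        (fun q => D q.2)) (s, z) := by
    funext s
    rw [← lintegral_indicator Metric.isOpen_ball.measurableSet]
    rfl
  rw [e]
  apply Measurable.lintegral_prod_right'
  refine (hD.comp measurable_snd).indicator (measurableSet_lt ?_ ?_)
  · fun_prop
  · fun_prop

/-- The pointwise bound. -/
theorem pt_bound (h1 : T_MVL) {D : ℂ → ENNReal} {B g l h s : ℝ} {a : ℝ → ℝ} {X : ℂ → ℂ} {p : ℂ}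
    (hD : Measurable D)
    (ha : ∀ x y : ℝ, |a x - a y| ≤ |x - y|) (hg : 0 < g) (hs : 0 ≤ s)
    (hX : DifferentiableOn ℂ X {ζ : ℂ | l < et h a ζ})
    (hXD : ∀ᵐ ζ : ℂ, l < et h a ζ → ENNReal.ofReal ‖X ζ‖ ≤ 1 + D ζ)
    (hp : l + 3 / 4 * g ≤ et h a p)
    (hB : ∫⁻ z in Metric.ball (p - s) ((s + g / 2) / 2), D z ≤ ENNReal.ofReal B) :
    √‖X (p - s)‖ ≤ 1 + 2 * (√(∫⁻ z in Metric.ball (p - s) ((s + g / 2) / 2), D z).toReal /
      (s + g / 2)) := by
  set σ : ℝ := s + g / 2 with hσ
  have hσ0 : 0 < σ := by positivity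
  have het : et h a (p - s) = et h a p + s := by
    simp only [et, sub_im, sub_re, ofReal_im, ofReal_re, sub_zero]
    ring
  have h2 : √2 ≤ 3 / 2 := by
    rw [Real.sqrt_le_left (by norm_num)]
    norm_num
  have hball : ∀ w ∈ Metric.ball (p - (s : ℂ)) (σ / 2), l < et h a w := by
    intro w hw
    refine et_ball ha hw ?_
    rw [het]
    have : √2 * (σ / 2) ≤ 3 / 2 * (σ / 2) := mul_le_mul_of_nonneg_right h2 (by positivity)
    rw [hσ] at this ⊢
    linarith
  set Δ : ENNReal := ∫⁻ z in Metric.ball (p - (s : ℂ)) (σ / 2), D z with hΔ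
  have hΔt : Δ ≠ ⊤ := ne_top_of_le_ne_top ENNReal.ofReal_ne_top hB
  have hmv := h1 (p - s) (σ / 2) X (by positivity) (hX.mono hball)
  have hle : ∫⁻ z in Metric.ball (p - (s : ℂ)) (σ / 2), ‖X z‖ₑ ≤
      ∫⁻ z in Metric.ball (p - (s : ℂ)) (σ / 2), (1 + D z) := by
    apply lintegral_mono_ae
    rw [ae_restrict_iff' Metric.isOpen_ball.measurableSet]
    filter_upwards [hXD] with z hz hzb
    rw [← ofReal_norm]
    exact hz (hball z hzb)
  have hvol : ∫⁻ z in Metric.ball (p - (s : ℂ)) (σ / 2), (1 + D z) =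
      ENNReal.ofReal (Real.pi * (σ / 2) ^ 2) + Δ := by
    rw [lintegral_add_right _ hD, lintegral_one, Measure.restrict_apply_univ,
      Complex.volume_ball, mul_comm Real.pi, ENNReal.ofReal_mul (by positivity),
      ENNReal.ofReal_pow (by positivity)]
    congr 2
    rw [← NNReal.coe_real_pi, ENNReal.ofReal_coe_nnreal]
  have h3 : Real.pi * (σ / 2) ^ 2 * ‖X (p - s)‖ ≤ Real.pi * (σ / 2) ^ 2 + Δ.toReal := by
    have h4 := hmv.trans (hle.trans hvol.le)
    rw [ENNReal.ofReal_le_iff_le_toReal (by simp [hΔt])] at h4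
    rwa [ENNReal.toReal_add ENNReal.ofReal_ne_top hΔt, ENNReal.toReal_ofReal (by positivity)]
      at h4
  have hpi : 1 ≤ Real.pi := by linarith [Real.pi_gt_three]
  set x : ℝ := ‖X (p - s)‖ with hx
  set y : ℝ := √Δ.toReal with hy
  have hy0 : 0 ≤ y := Real.sqrt_nonneg _
  have hyy : Δ.toReal = y ^ 2 := (Real.sq_sqrt ENNReal.toReal_nonneg).symm
  have h5 : x ≤ 1 + 4 * (y ^ 2 / σ ^ 2) := by
    rw [hyy] at h3
    have hA : 0 < Real.pi * (σ / 2) ^ 2 := by positivity
    have h6 : Real.pi * (σ / 2) ^ 2 * x ≤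
        Real.pi * (σ / 2) ^ 2 * (1 + 4 * (y ^ 2 / σ ^ 2)) := by
      have h7 : Real.pi * (σ / 2) ^ 2 * (1 + 4 * (y ^ 2 / σ ^ 2)) =
          Real.pi * (σ / 2) ^ 2 + Real.pi * y ^ 2 := by
        field_simp
        ring
      rw [h7]
      nlinarith [sq_nonneg y]
    exact le_of_mul_le_mul_left h6 hA
  rw [Real.sqrt_le_iff]
  refine ⟨by positivity, h5.trans ?_⟩
  have h8 : (1 + 2 * (y / σ)) ^ 2 = 1 + 4 * (y / σ) + 4 * (y ^ 2 / σ ^ 2) := by
    rw [← div_pow]
    ring
  rw [h8]
  have : 0 ≤ y / σ := by positivity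
  linarith

end SBH_

/-- SBH: the length of a horizontal segment in the sheet. -/
theorem p_SBH (h1 : T_MVL) : T_SBH := by
  intro D B t h g l a X p hD ha ht hg hX hXD hp hB
  have hpt : ∀ s ∈ Icc 0 t, √‖X (p - s)‖ ≤ 1 + 2 * (√(∫⁻ z in Metric.ball (p - (s : ℂ))
      ((s + g / 2) / 2), D z).toReal / (s + g / 2)) := fun s hs =>
    SBH_.pt_bound h1 hD ha hg hs.1 hX hXD hp (hB s hs)
  have hm := SBH_.measurable_mass hD p g
  have hint1 : IntervalIntegrable (fun s : ℝ => √‖X (p - s)‖) volume 0 t := by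
    apply ContinuousOn.intervalIntegrable
    rw [uIcc_of_le ht.le]
    refine ContinuousOn.sqrt (ContinuousOn.norm ?_)
    have hc : ContinuousOn X {ζ : ℂ | l < et h a ζ} := hX.continuousOn
    refine hc.comp (by fun_prop) fun s hs => ?_
    have het : et h a (p - s) = et h a p + s := by
      simp only [et, sub_im, sub_re, ofReal_im, ofReal_re, sub_zero]
      ring
    show l < et h a (p - s)
    rw [het]
    have := hs.1
    linarith
  have hint2 : IntervalIntegrable (fun s : ℝ => √(∫⁻ z in Metric.ball (p - (s : ℂ))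
      ((s + g / 2) / 2), D z).toReal / (s + g / 2)) volume 0 t := by
    rw [intervalIntegrable_iff_integrableOn_Icc_of_le ht.le]
    refine Measure.integrableOn_of_bounded (M := √(max B 0) / (g / 2)) (by simp) ?_ ?_
    · exact ((hm.ennreal_toReal.sqrt).div (by fun_prop)).aestronglyMeasurable
    · rw [ae_restrict_iff' measurableSet_Icc]
      refine Eventually.of_forall fun s hs => ?_
      have h0 : 0 < s + g / 2 := by linarith [hs.1]
      rw [Real.norm_of_nonneg (by positivity)]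
      apply div_le_div₀ (Real.sqrt_nonneg _) _ (by positivity) (by linarith [hs.1])
      apply Real.sqrt_le_sqrt
      have h3 := ENNReal.toReal_mono ENNReal.ofReal_ne_top (hB s hs)
      refine h3.trans ?_
      rw [ENNReal.toReal_ofReal']
  calc ∫ s in (0 : ℝ)..t, √‖X (p - s)‖
      ≤ ∫ s in (0 : ℝ)..t, (1 + 2 * (√(∫⁻ z in Metric.ball (p - (s : ℂ))
        ((s + g / 2) / 2), D z).toReal / (s + g / 2))) :=
        intervalIntegral.integral_mono_on ht.le hint1
          ((intervalIntegrable_const).add (hint2.const_mul 2)) hpt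
    _ = t + 2 * ∫ s in (0 : ℝ)..t, √(∫⁻ z in Metric.ball (p - (s : ℂ))
        ((s + g / 2) / 2), D z).toReal / (s + g / 2) := by
        rw [intervalIntegral.integral_add intervalIntegrable_const (hint2.const_mul 2),
          intervalIntegral.integral_const_mul]
        simp

end Pool.Agent.MEX
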