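import Pool.Agent.MEX.Basic

/-!
# MEX: SEQ, the sequence of all sheets
-/

set_option autoImplicit false

open Complex Filter Topology Set MeasureTheory
open Pool.Agent.Multibrot (rt push)
open Pool.Agent.Limb (F)
open Pool.Agent.PLim (Cyc Res AA fp fpp Rho LocFix)

namespace Pool.Agent.MEX

theorem p_SEQ (h1 : T_STP) (h2 : T_LOB) : T_SEQ := by
  classical
  obtain ⟨C, hC, hLOB⟩ := h2
  refine ⟨C, hC, ?_⟩
  intro n k c b r μ V χ J D d t h a hR hS
  have ht := hS.ht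
  let X : ℕ → Type := fun m => {x : ℝ × (ℂ → ℂ) // m ≤ k → Lvl n k c b r χ J h a m x.1 x.2}
  have hstep : ∀ m, ∀ x : X m, ∃ y : X (m + 1), m + 1 ≤ k →
      x.1.1 ≤ y.1.1 ∧ (∀ ζ : ℂ, y.1.1 < et h a ζ → F n c (y.1.2 ζ) = x.1.2 ζ) ∧
      (x.1.1 < y.1.1 → ∀ ε : ℝ, 0 < ε → ∃ p : ℂ, x.1.1 < et h a p ∧ y.1.1 - ε < et h a p ∧
        et h a p ≤ y.1.1 ∧ x.1.2 p = c) := by
    intro m x
    by_cases hm : m + 1 ≤ k
    · obtain ⟨lam', G', g1, g2, g3, g4⟩ := h1 n k c b r μ V χ J D d h a m x.1.1 x.1.2 hR hm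
        (x.2 (by omega))
      exact ⟨⟨(lam', G'), fun _ => g2⟩, fun _ => ⟨g1, g3, g4⟩⟩
    · exact ⟨⟨x.1, fun h => absurd h hm⟩, fun h => absurd h hm⟩
  choose g hg using hstep
  have h0 : Lvl n k c b r χ J h a 0 0 (χ J) := by
    refine ⟨Nat.zero_le k, le_rfl, ?_, ?_, ?_, ?_⟩
    · exact (hR.nm le_rfl).diff
    · intro ζ _
      simp
    · intro ζ hζ
      exact hR.mx.cper J ζ (hR.sub ζ hζ)
    · simpa using (hR.mx.cht J).asy
  let f : (m : ℕ) → X m := fun m => Nat.rec (motive := X) ⟨(0, χ J), fun _ => h0⟩ (fun m x => g m x) m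
  have hf : ∀ m, f (m + 1) = g m (f m) := fun m => rfl
  have hfg : ∀ m, m + 1 ≤ k → (f m).1.1 ≤ (f (m + 1)).1.1 ∧
      (∀ ζ : ℂ, (f (m + 1)).1.1 < et h a ζ → F n c ((f (m + 1)).1.2 ζ) = (f m).1.2 ζ) ∧
      ((f m).1.1 < (f (m + 1)).1.1 → ∀ ε : ℝ, 0 < ε → ∃ p : ℂ, (f m).1.1 < et h a p ∧
        (f (m + 1)).1.1 - ε < et h a p ∧ et h a p ≤ (f (m + 1)).1.1 ∧ (f m).1.2 p = c) := by
    intro m hm
    rw [hf]
    exact hg m (f m) hm
  refine ⟨fun m => (f m).1.1, fun m => (f m).1.2, rfl, rfl, fun m hm => (f m).2 hm,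
    fun m hm => (hfg m hm).1, ?_, fun m hm => (hfg m hm).2.1, ?_⟩
  · intro m hm
    by_contra hcon
    push Not at hcon
    obtain ⟨g1, g2, g3⟩ := hfg m hm
    set lam := (f m).1.1 with hlam
    set lam' := (f (m + 1)).1.1 with hlam'
    have hlt : lam < lam' := by linarith
    obtain ⟨p, p1, p2, p3, p4⟩ := g3 hlt (min (t / 10) (lam' - lam - 10 * t))
      (lt_min (by linarith) (by linarith))
    have q1 := min_le_left (t / 10) (lam' - lam - 10 * t)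
    have q2 := min_le_right (t / 10) (lam' - lam - 10 * t)
    exact hLOB n k c b r μ V χ J D d t h a m lam lam' (f m).1.2 (f (m + 1)).1.2 p hR hS
      ((f m).2 (by omega)) ((f (m + 1)).2 hm) g1 g2 p4 (by linarith) (by linarith)
  · intro m hm hlt
    obtain ⟨g1, g2, g3⟩ := hfg m hm
    set lam := (f m).1.1 with hlam
    set lam' := (f (m + 1)).1.1 with hlam'
    obtain ⟨p, p1, p2, p3, p4⟩ := g3 hlt (min ((lam' - lam) / 4) t)
      (lt_min (by linarith) ht)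
    have q1 := min_le_left ((lam' - lam) / 4) t
    have q2 := min_le_right ((lam' - lam) / 4) t
    exact ⟨p, by linarith, p3, by linarith, p4⟩

end Pool.Agent.MEX
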