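import Pool.Agent.MEX.Basic

/-!
# MEX, STP: one more level
-/

set_option autoImplicit false

open Complex Filter Topology Set MeasureTheory
open Pool.Agent.Multibrot (rt push)
open Pool.Agent.Limb (F)
open Pool.Agent.PLim (Cyc Res AA fp fpp Rho LocFix)

namespace Pool.Agent.MEX

namespace STP_

lemma exp_lf : Tendsto (fun ζ : ℂ => exp ζ) lf (𝓝 0) := by
  rw [tendsto_zero_iff_norm_tendsto_zero]
  have h : (fun ζ : ℂ => ‖exp ζ‖) = fun ζ : ℂ => Real.exp ζ.re := by
    ext ζ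
    exact norm_exp ζ
  rw [h]
  exact Real.tendsto_exp_atBot.comp tendsto_comap

lemma lim_of_asy {G : ℂ → ℂ} {B P : ℂ} (h : Tendsto (fun ζ => (G ζ - B) * exp (-ζ)) lf (𝓝 P)) :
    Tendsto G lf (𝓝 B) := by
  have h1 := h.mul exp_lf
  rw [mul_zero] at h1
  have h2 : (fun ζ => (G ζ - B) * exp (-ζ) * exp ζ) = fun ζ => G ζ - B := by
    ext ζ
    rw [mul_assoc, ← exp_add]
    simp
  rw [h2] at h1
  have h3 := h1.add_const B
  simpa using h3

lemma lf_add (w : ℂ) : Tendsto (fun ζ : ℂ => ζ + w) lf lf := by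
  intro s hs
  obtain ⟨R, hR⟩ := eventually_lf.1 (show ∀ᶠ ζ in lf, ζ ∈ s from hs)
  refine mem_map.2 (eventually_lf.2 ⟨R - w.re, fun ζ hζ => hR _ ?_⟩)
  rw [add_re]
  linarith

end STP_

open STP_

theorem p_STP (h1 : T_LLG) : T_STP := by
  classical
  intro n k c b r μ V χ J D d h a m lam G hR hmk hG
  have hcyc := hR.bad.cyc
  have hn := hR.bad.hn
  have hJ : m + 1 ≤ J := hmk.trans hR.hJ
  set b' : ℂ := b (J - (m + 1)) with hb'
  have hbs : b (J - m) = b' ^ n + c := by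
    have h2 := hcyc.step (J - (m + 1))
    rwa [show J - (m + 1) + 1 = J - m by omega] at h2
  have hb0 : b' ≠ 0 := hcyc.nz _
  have hGl : Tendsto G lf (𝓝 (b (J - m))) := lim_of_asy hG.asy
  -- the set of the preimages of the critical value
  set E : Set ℂ := {p : ℂ | lam < et h a p ∧ G p = c} with hE
  have hne : b (J - m) ≠ c := by
    rw [hbs]
    intro h2
    have : b' ^ n = 0 := by linear_combination h2
    exact hb0 (pow_eq_zero_iff (by omega) |>.1 this)
  obtain ⟨R, hRR⟩ := eventually_lf.1 (hGl.eventually_ne hne)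
  have hbdd : BddAbove (et h a '' E) := by
    refine ⟨h + 1 / 2 - R, ?_⟩
    rintro _ ⟨p, hp, rfl⟩
    by_contra hc
    have h2 := et_le hR.a1 (h := h) p
    exact hRR p (by linarith [not_le.1 hc]) hp.2
  obtain ⟨lam', hl1, hl2, hl3⟩ : ∃ lam' : ℝ, lam ≤ lam' ∧ (∀ p ∈ E, et h a p ≤ lam') ∧
      (lam < lam' → ∀ ε : ℝ, 0 < ε → ∃ p : ℂ, lam < et h a p ∧ lam' - ε < et h a p ∧
        et h a p ≤ lam' ∧ G p = c) := by
    rcases E.eq_empty_or_nonempty with hem | ⟨p, hp⟩
    · refine ⟨lam, le_rfl, ?_, fun h2 => absurd h2 (lt_irrefl _)⟩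
      rw [hem]
      simp
    · have h2 : ∀ q ∈ E, et h a q ≤ sSup (et h a '' E) := fun q hq =>
        le_csSup hbdd (mem_image_of_mem _ hq)
      refine ⟨sSup (et h a '' E), hp.1.le.trans (h2 p hp), h2, ?_⟩
      intro _ ε hε
      obtain ⟨_, ⟨q, hq, rfl⟩, hlt⟩ := exists_lt_of_lt_csSup ⟨_, mem_image_of_mem (et h a) hp⟩
        (show sSup (et h a '' E) - ε < sSup (et h a '' E) by linarith)
      exact ⟨q, hq.1, hlt, h2 q hq, hq.2⟩
  set W : Set ℂ := {ζ : ℂ | lam' < et h a ζ} with hW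
  have hWli : LI W := hR.li lam'
  have hsub : ∀ ζ ∈ W, lam < et h a ζ := fun ζ hζ => lt_of_le_of_lt hl1 hζ
  have hGc : ∀ ζ ∈ W, G ζ - c ≠ 0 := by
    intro ζ hζ h2
    exact absurd (hl2 ζ ⟨hsub ζ hζ, sub_eq_zero.1 h2⟩) (not_le.2 hζ)
  have hGd : DifferentiableOn ℂ (fun ζ => G ζ - c) W :=
    (hG.diff.mono fun ζ hζ => hsub ζ hζ).sub_const c
  have hg0 : b (J - m) - c ≠ 0 := sub_ne_zero.2 hne
  obtain ⟨L, hLd, hLe, hLt⟩ := h1 W (fun ζ => G ζ - c) (b (J - m) - c) hWli hGd hGc hg0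
    (hGl.sub_const c)
  have hnc : (n : ℂ) ≠ 0 := by
    have : n ≠ 0 := by omega
    exact_mod_cast this
  set ω : ℂ := b' / exp (log (b (J - m) - c) / n) with hω
  have hωn : ω ^ n = 1 := by
    rw [hω, div_pow, ← exp_nat_mul, mul_div_cancel₀ _ hnc, exp_log hg0, hbs]
    rw [add_sub_cancel_right]
    exact div_self (pow_ne_zero _ hb0)
  set G' : ℂ → ℂ := fun ζ => ω * exp (L ζ / n) with hG'
  have hG'n : ∀ ζ ∈ W, G' ζ ^ n = G ζ - c := by
    intro ζ hζ
    rw [hG']
    show (ω * exp (L ζ / n)) ^ n = _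
    rw [mul_pow, hωn, ← exp_nat_mul, mul_div_cancel₀ _ hnc, hLe ζ hζ, one_mul]
  have hF : ∀ ζ ∈ W, F n c (G' ζ) = G ζ := by
    intro ζ hζ
    unfold F
    rw [hG'n ζ hζ]
    ring
  have hG't : Tendsto G' lf (𝓝 b') := by
    have h2 : Tendsto G' lf (𝓝 (ω * exp (log (b (J - m) - c) / n))) :=
      ((continuous_exp.tendsto _).comp (hLt.div_const _)).const_mul ω
    rwa [hω, div_mul_cancel₀ _ (exp_ne_zero _)] at h2
  -- periodicity
  have hWper : ∀ ζ ∈ W, ζ + 2 * Real.pi * I ∈ W := by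
    intro ζ hζ
    show lam' < et h a (ζ + 2 * Real.pi * I)
    rw [et_per hR.aper]
    exact hζ
  have hper : ∀ ζ ∈ W, L (ζ + 2 * Real.pi * I) = L ζ := by
    set Q : ℂ → ℂ := fun ζ => L (ζ + 2 * Real.pi * I) - L ζ with hQ
    have hLd' : DifferentiableOn ℂ (fun ζ => L (ζ + 2 * Real.pi * I)) W :=
      hLd.comp (differentiableOn_id.add_const _) hWper
    have hQd : DifferentiableOn ℂ Q W := hLd'.sub hLd
    have hQe : ∀ ζ ∈ W, exp (Q ζ) = 1 := by
      intro ζ hζ
      show exp (L (ζ + 2 * Real.pi * I) - L ζ) = 1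
      rw [exp_sub, hLe ζ hζ, hLe _ (hWper ζ hζ), hG.per ζ (hsub ζ hζ)]
      exact div_self (hGc ζ hζ)
    have hQ0 : EqOn (deriv Q) 0 W := by
      intro ζ hζ
      have h2 : HasDerivAt Q (deriv Q ζ) ζ :=
        (hQd.differentiableAt (hWli.op.mem_nhds hζ)).hasDerivAt
      have h3 : (fun ζ => exp (Q ζ)) =ᶠ[𝓝 ζ] fun _ => 1 := by
        filter_upwards [hWli.op.mem_nhds hζ] with x hx
        exact hQe x hx
      have h4 : exp (Q ζ) * deriv Q ζ = 0 := by
        rw [← h2.cexp.deriv, h3.deriv_eq, deriv_const]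
      rw [hQe ζ hζ, one_mul] at h4
      exact h4
    have hQt : Tendsto Q lf (𝓝 0) := by
      have h2 := (hLt.comp (lf_add (2 * Real.pi * I))).sub hLt
      rw [sub_self] at h2
      exact h2
    intro ζ hζ
    have h2 : Tendsto Q lf (𝓝 (Q ζ)) := by
      refine tendsto_const_nhds.congr' ?_
      filter_upwards [hWli.mem_lf] with x hx
      exact hWli.op.is_const_of_deriv_eq_zero hWli.isPreconnected hQd hQ0 hζ hx
    have h3 := tendsto_nhds_unique h2 hQt
    exact sub_eq_zero.1 h3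
  have hlvl : Lvl n k c b r χ J h a (m + 1) lam' G' := by
    refine ⟨hmk, hG.hl.trans hl1, ?_, ?_, ?_, ?_⟩
    · exact ((hLd.div_const _).cexp).const_mul ω
    · intro ζ hζ
      rw [Function.iterate_succ_apply, hF ζ hζ]
      exact hG.sht ζ (hsub ζ hζ)
    · intro ζ hζ
      show ω * exp (L (ζ + 2 * Real.pi * I) / n) = ω * exp (L ζ / n)
      rw [hper ζ hζ]
    · have hprod : ∏ i ∈ Finset.range (m + 1), fp n (b (J - (m + 1) + i)) =
          (∏ i ∈ Finset.range m, fp n (b (J - m + i))) * fp n b' := by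
        rw [Finset.prod_range_succ']
        congr 1
        refine Finset.prod_congr rfl fun i _ => ?_
        rw [show J - (m + 1) + (i + 1) = J - m + i by omega]
      rw [hprod, mul_inv]
      have hfp : fp n b' ≠ 0 := by
        unfold fp
        exact mul_ne_zero hnc (pow_ne_zero _ hb0)
      set S : ℂ → ℂ := fun x => ∑ i ∈ Finset.range n, x ^ i * b' ^ (n - 1 - i) with hS
      have hSc : Continuous S := by
        rw [hS]
        fun_prop
      have hSb : S b' = fp n b' := by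
        show ∑ i ∈ Finset.range n, b' ^ i * b' ^ (n - 1 - i) = fp n b'
        have h2 : ∀ i ∈ Finset.range n, b' ^ i * b' ^ (n - 1 - i) = b' ^ (n - 1) := by
          intro i hi
          rw [← pow_add]
          congr 1
          have := Finset.mem_range.1 hi
          omega
        rw [Finset.sum_congr rfl h2, Finset.sum_const, Finset.card_range, nsmul_eq_mul]
        rfl
      have hSt : Tendsto (fun ζ => S (G' ζ)) lf (𝓝 (fp n b')) := by
        rw [← hSb]
        exact (hSc.tendsto b').comp hG't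
      have h2 := hG.asy.div hSt hfp
      rw [div_eq_mul_inv] at h2
      refine h2.congr' ?_
      filter_upwards [hWli.mem_lf, hSt.eventually_ne hfp] with ζ hζ hSζ
      have h3 : S (G' ζ) * (G' ζ - b') = G' ζ ^ n - b' ^ n := geom_sum₂_mul _ _ _
      have h4 : G ζ - b (J - m) = S (G' ζ) * (G' ζ - b') := by
        rw [h3, hG'n ζ hζ, hbs]
        ring
      show (G ζ - b (J - m)) * exp (-ζ) / S (G' ζ) = (G' ζ - b') * exp (-ζ)
      rw [h4]
      field_simp
  exact ⟨lam', G', hl1, hlvl, fun ζ hζ => hF ζ hζ, hl3⟩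

end Pool.Agent.MEX
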