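import Pool.Agent.MEX.Basic

/-!
# MEX-TENT: a half plane with a tent in the domain of the chart
-/

set_option autoImplicit false

open Complex

namespace Pool.Agent.MEX

namespace TENT_

lemma int_per {B : Set ℝ} (h : ∀ y : ℝ, y + 2 * Real.pi ∈ B ↔ y ∈ B) (m : ℤ) (y : ℝ) :
    y + 2 * Real.pi * m ∈ B ↔ y ∈ B := by
  have hn : ∀ (k : ℕ) (y : ℝ), y + 2 * Real.pi * k ∈ B ↔ y ∈ B := by
    intro k
    induction k with
    | zero => intro y; simp
    | succ k ih =>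
      intro y
      have e : y + 2 * Real.pi * ((k + 1 : ℕ) : ℝ) = (y + 2 * Real.pi * k) + 2 * Real.pi := by
        push_cast
        ring
      rw [e, h, ih]
  obtain ⟨k, rfl | rfl⟩ := m.eq_nat_or_neg
  · have := hn k y
    push_cast
    exact this
  · have := hn k (y + 2 * Real.pi * ((-(k : ℤ) : ℤ) : ℝ))
    have e : y + 2 * Real.pi * ((-(k : ℤ) : ℤ) : ℝ) + 2 * Real.pi * k = y := by
      push_cast
      ring
    rw [e] at this
    exact this.symm

end TENT_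

/-- TENT (from HJ, GAP, TNP): a half plane with a tent in the domain of the chart. -/
theorem p_TENT (h1 : T_HJ) (h2 : T_GAP) (h3 : T_TNP) : T_TENT := by
  intro n k c b r μ V χ j hbad hmx hS
  obtain ⟨h, hV, hy⟩ := h1 n k c b r μ V χ j hbad hmx
  set B : Set ℝ := {y : ℝ | ∃ x : ℝ, (x : ℂ) + y * I ∉ V j} with hB
  have hper : ∀ y : ℝ, y + 2 * Real.pi ∈ B ↔ y ∈ B := by
    intro y
    show (∃ x : ℝ, (x : ℂ) + ((y + 2 * Real.pi : ℝ) : ℂ) * I ∉ V j) ↔ ∃ x : ℝ, (x : ℂ) + y * I ∉ V j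
    refine exists_congr fun x => not_congr ?_
    have e : (x : ℂ) + ((y + 2 * Real.pi : ℝ) : ℂ) * I = ((x : ℂ) + y * I) + 2 * Real.pi * I := by
      push_cast
      ring
    rw [e]
    exact hmx.vper j _
  obtain ⟨θ, hθ⟩ := h2 B hper (fun S h => hS S fun y hy => ⟨(h y hy).2.1, (h y hy).2.2, (h y hy).1⟩)
  refine ⟨h, θ, fun ζ hζ => ?_, hy⟩
  unfold et at hζ
  by_cases ht : 0 < tnt θ ζ.im
  · obtain ⟨m, hm⟩ := (h3 θ).2.2.2.2 ζ.im ht
    have h4 : ζ.im + 2 * Real.pi * m ∉ B := fun hb => absurd (hθ _ hb) (not_le.2 hm)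
    rw [TENT_.int_per hper] at h4
    by_contra hcon
    apply h4
    refine ⟨ζ.re, ?_⟩
    rwa [Complex.re_add_im]
  · have h5 := (h3 θ).2.2.1 ζ.im
    exact hV ζ (by linarith)

end Pool.Agent.MEX
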