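import Pool.Agent.MEX.Basic

/-!
# MEX, TNP: properties of the tent function
-/

set_option autoImplicit false

open Complex Filter Topology Set MeasureTheory
open Pool.Agent.Multibrot (rt push)
open Pool.Agent.Limb (F)
open Pool.Agent.PLim (Cyc Res AA fp fpp Rho LocFix)

namespace Pool.Agent.MEX

namespace TNP_

/-- the distance to `2 π ℤ` -/
noncomputable def dd (z : ℝ) : ℝ := |z - 2 * Real.pi * round (z / (2 * Real.pi))|

lemma dd_le (z : ℝ) (m : ℤ) : dd z ≤ |z - 2 * Real.pi * m| := by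
  have hpi : (0 : ℝ) < 2 * Real.pi := by positivity
  have h1 : ∀ q : ℤ, |z - 2 * Real.pi * q| = 2 * Real.pi * |z / (2 * Real.pi) - q| := by
    intro q
    rw [← abs_of_pos hpi, ← abs_mul, abs_of_pos hpi]
    congr 1
    field_simp
  unfold dd
  rw [h1, h1]
  exact mul_le_mul_of_nonneg_left (round_le _ m) hpi.le

lemma dd_lip_aux (z w : ℝ) : dd z ≤ |z - w| + dd w := by
  refine (dd_le z (round (w / (2 * Real.pi)))).trans ?_
  unfold dd
  have h1 : z - 2 * Real.pi * round (w / (2 * Real.pi)) =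
      (z - w) + (w - 2 * Real.pi * round (w / (2 * Real.pi))) := by ring
  rw [h1]
  exact abs_add_le _ _

lemma dd_lip (z w : ℝ) : |dd z - dd w| ≤ |z - w| := by
  rw [abs_le]
  have h1 := dd_lip_aux z w
  have h2 := dd_lip_aux w z
  rw [abs_sub_comm w z] at h2
  constructor <;> linarith

lemma dd_per (z : ℝ) : dd (z + 2 * Real.pi) = dd z := by
  have hpi : (2 : ℝ) * Real.pi ≠ 0 := by positivity
  unfold dd
  have h1 : (z + 2 * Real.pi) / (2 * Real.pi) = z / (2 * Real.pi) + 1 := by field_simp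
  rw [h1, round_add_one]
  congr 1
  push_cast
  ring

lemma tnt_eq (θ y : ℝ) : tnt θ y = max 0 (1 / 2 - dd (y - θ)) := rfl

end TNP_

open TNP_

theorem p_TNP : T_TNP := by
  intro θ
  refine ⟨fun x y => ?_, fun x => ?_, fun x => ?_, fun x => ?_, fun x hx => ?_⟩
  · rw [tnt_eq, tnt_eq]
    refine (abs_max_sub_max_le_max _ _ _ _).trans ?_
    rw [sub_self, abs_zero]
    refine max_le (abs_nonneg _) ?_
    have h1 := dd_lip (x - θ) (y - θ)
    have h2 : x - θ - (y - θ) = x - y := by ring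
    rw [h2] at h1
    have h3 : 1 / 2 - dd (x - θ) - (1 / 2 - dd (y - θ)) = -(dd (x - θ) - dd (y - θ)) := by ring
    rw [h3, abs_neg]
    exact h1
  · rw [tnt_eq, tnt_eq]
    have h1 : x + 2 * Real.pi - θ = x - θ + 2 * Real.pi := by ring
    rw [h1, dd_per]
  · rw [tnt_eq]
    exact le_max_left _ _
  · rw [tnt_eq]
    refine max_le (by norm_num) ?_
    have : 0 ≤ dd (x - θ) := abs_nonneg _
    linarith
  · rw [tnt_eq] at hx
    have h1 : 0 < 1 / 2 - dd (x - θ) := by
      rcases lt_max_iff.1 hx with h | h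
      · exact absurd h (lt_irrefl 0)
      · exact h
    refine ⟨-round ((x - θ) / (2 * Real.pi)), ?_⟩
    have h2 : dd (x - θ) = |x + 2 * Real.pi * ((-round ((x - θ) / (2 * Real.pi)) : ℤ) : ℝ) - θ| := by
      unfold dd
      congr 1
      push_cast
      ring
    rw [← h2]
    linarith

end Pool.Agent.MEX
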