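import Pool.Agent.MEX.Basic

/-!
# MEX, UNQ: uniqueness of natural maps
-/

set_option autoImplicit false

open Complex Filter Topology Set MeasureTheory
open Pool.Agent.Multibrot (rt push)
open Pool.Agent.Limb (F)
open Pool.Agent.PLim (Cyc Res AA fp fpp Rho LocFix)

namespace Pool.Agent.MEX

namespace UNQ_

/-- a holomorphic function with square derivative `1` near a point, fixing the point with
derivative `1` there, is the identity near the point -/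
lemma eq_id {w : ℂ → ℂ} {ζ₀ : ℂ} (hw : AnalyticAt ℂ w ζ₀) (h0 : w ζ₀ = ζ₀)
    (hd : deriv w ζ₀ = 1) (hsq : ∀ᶠ ζ in 𝓝 ζ₀, deriv w ζ ^ 2 = 1) : w =ᶠ[𝓝 ζ₀] id := by
  have h1 : ∀ᶠ ζ in 𝓝 ζ₀, deriv w ζ = 1 := by
    have hc : ContinuousAt (deriv w) ζ₀ := hw.deriv.continuousAt
    have h2 : ∀ᶠ ζ in 𝓝 ζ₀, deriv w ζ ≠ -1 := by
      refine hc.eventually_ne ?_
      rw [hd]
      norm_num
    filter_upwards [h2, hsq] with ζ h3 h4
    exact (sq_eq_one_iff.1 h4).resolve_right h3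
  obtain ⟨ε, hε, hball⟩ := Metric.eventually_nhds_iff_ball.1
    (h1.and hw.eventually_analyticAt)
  have h5 : ∀ ζ ∈ Metric.ball ζ₀ ε, w ζ - ζ = w ζ₀ - ζ₀ := by
    intro ζ hζ
    have hb : IsOpen (Metric.ball ζ₀ ε) := Metric.isOpen_ball
    have hdiff : DifferentiableOn ℂ (fun ζ => w ζ - ζ) (Metric.ball ζ₀ ε) := fun x hx =>
      ((hball x hx).2.differentiableAt.sub differentiableAt_id).differentiableWithinAt
    have hder : EqOn (deriv fun ζ => w ζ - ζ) 0 (Metric.ball ζ₀ ε) := by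
      intro x hx
      have hx1 : HasDerivAt w 1 x := by
        rw [← (hball x hx).1]
        exact (hball x hx).2.differentiableAt.hasDerivAt
      have h6 : HasDerivAt (fun ζ => w ζ - ζ) (1 - 1) x := hx1.sub (hasDerivAt_id x)
      rw [h6.deriv, sub_self, Pi.zero_apply]
    exact hb.is_const_of_deriv_eq_zero (convex_ball ζ₀ ε).isPreconnected hdiff hder hζ
      (Metric.mem_ball_self hε)
  refine Filter.eventually_of_mem (Metric.ball_mem_nhds ζ₀ hε) fun ζ hζ => ?_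
  have h6 := h5 ζ hζ
  rw [h0, sub_self] at h6
  exact sub_eq_zero.1 h6

/-- local uniqueness -/
lemma local_eq {k : ℕ} {b r : ℕ → ℂ} {U : Set ℂ} {g₁ g₂ : ℂ → ℂ} {ζ₀ : ℂ} (hU : IsOpen U)
    (h1 : NM k b r U g₁) (h2 : NM k b r U g₂) (hζ : ζ₀ ∈ U) (he : g₁ ζ₀ = g₂ ζ₀)
    (hd : deriv g₁ ζ₀ = deriv g₂ ζ₀) : g₁ =ᶠ[𝓝 ζ₀] g₂ := by
  have hne : deriv g₂ ζ₀ ≠ 0 := h2.deriv_ne hζ
  have ha1 : AnalyticAt ℂ g₁ ζ₀ := h1.diff.analyticAt (hU.mem_nhds hζ)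
  have ha2 : AnalyticAt ℂ g₂ ζ₀ := h2.diff.analyticAt (hU.mem_nhds hζ)
  set K : ℂ → ℂ := ha2.hasStrictDerivAt.localInverse _ _ _ hne with hK
  have hKa : AnalyticAt ℂ K (g₂ ζ₀) := ha2.analyticAt_localInverse hne
  have hK0 : K (g₂ ζ₀) = ζ₀ := HasStrictFDerivAt.localInverse_apply_image ..
  have hKr : ∀ᶠ x in 𝓝 (g₂ ζ₀), g₂ (K x) = x :=
    HasStrictDerivAt.eventually_right_inverse ha2.hasStrictDerivAt hne
  have hw : AnalyticAt ℂ (fun ζ => K (g₁ ζ)) ζ₀ := by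
    rw [← he] at hKa
    exact hKa.comp ha1
  have hw0 : K (g₁ ζ₀) = ζ₀ := by rw [he, hK0]
  have hg1 : Tendsto g₁ (𝓝 ζ₀) (𝓝 (g₂ ζ₀)) := by
    rw [← he]
    exact ha1.continuousAt
  have hgw : ∀ᶠ ζ in 𝓝 ζ₀, g₂ (K (g₁ ζ)) = g₁ ζ := hg1.eventually hKr
  have hwU : ∀ᶠ ζ in 𝓝 ζ₀, K (g₁ ζ) ∈ U := by
    have hc : Tendsto (fun ζ => K (g₁ ζ)) (𝓝 ζ₀) (𝓝 ζ₀) := by
      have := hw.continuousAt.tendsto
      rwa [hw0] at this
    exact hc.eventually (hU.mem_nhds hζ)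
  have hder : ∀ᶠ ζ in 𝓝 ζ₀, deriv g₂ (K (g₁ ζ)) * deriv (fun ζ => K (g₁ ζ)) ζ = deriv g₁ ζ := by
    filter_upwards [hgw.eventually_nhds, hwU, hw.eventually_analyticAt] with ζ h3 h4 h5
    have h6 : HasDerivAt g₂ (deriv g₂ (K (g₁ ζ))) (K (g₁ ζ)) :=
      ((h2.diff _ h4).differentiableAt (hU.mem_nhds h4)).hasDerivAt
    have h7 := h6.comp ζ h5.differentiableAt.hasDerivAt
    have h8 : (g₂ ∘ fun ζ => K (g₁ ζ)) =ᶠ[𝓝 ζ] g₁ := h3
    rw [← h8.deriv_eq, h7.deriv]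
  have hid : (fun ζ => K (g₁ ζ)) =ᶠ[𝓝 ζ₀] id := by
    refine eq_id hw hw0 ?_ ?_
    · have h3 := hder.self_of_nhds
      rw [hw0, hd] at h3
      exact mul_left_cancel₀ hne (h3.trans (mul_one _).symm)
    · filter_upwards [hder, hgw, hwU, hU.mem_nhds hζ] with ζ h3 h4 h5 h6
      have h7 := h1.nat ζ h6
      have h8 := h2.nat _ h5
      rw [h4] at h8
      rw [← h3, mul_pow] at h7
      have h9 : deriv (fun ζ => K (g₁ ζ)) ζ ^ 2 *
          (deriv g₂ (K (g₁ ζ)) ^ 2 * AA k b r (g₁ ζ)) = 1 := by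
        rw [← h7]
        ring
      rwa [h8, mul_one] at h9
  filter_upwards [hid, hgw] with ζ h3 h4
  rw [← h4]
  simp only [id] at h3
  rw [h3]

end UNQ_

theorem p_UNQ : T_UNQ := by
  intro k b r U g₁ g₂ ζ₀ hU hUc h1 h2 hζ he hd
  have ha1 : AnalyticOnNhd ℂ g₁ U := h1.diff.analyticOnNhd hU
  have ha2 : AnalyticOnNhd ℂ g₂ U := h2.diff.analyticOnNhd hU
  exact ha1.eqOn_of_preconnected_of_eventuallyEq ha2 hUc hζ
    (UNQ_.local_eq hU h1 h2 hζ he hd)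

end Pool.Agent.MEX
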