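import Pool.Agent.MEX.Basic

/-!
# MEX: the weighted integral of one record
-/

set_option autoImplicit false

open Complex Filter Topology Set MeasureTheory

namespace Pool.Agent.MEX

namespace WSA_

lemma hasDeriv_sqrt {c s : ℝ} (h : 0 < s + c) :
    HasDerivAt (fun s : ℝ => 2 * √(s + c)) (1 / √(s + c)) s := by
  have h1 : HasDerivAt (fun s : ℝ => s + c) 1 s := (hasDerivAt_id s).add_const c
  have h2 := (h1.sqrt h.ne').const_mul 2
  refine h2.congr_deriv ?_
  have h3 : √(s + c) ≠ 0 := (Real.sqrt_pos.2 h).ne'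
  field_simp

lemma hasDeriv_inv {c s : ℝ} (h : 0 < s + c) :
    HasDerivAt (fun s : ℝ => -(2 / √(s + c))) (1 / ((s + c) * √(s + c))) s := by
  have h1 : HasDerivAt (fun s : ℝ => s + c) 1 s := (hasDerivAt_id s).add_const c
  have h3 : √(s + c) ≠ 0 := (Real.sqrt_pos.2 h).ne'
  have h2 := (((h1.sqrt h.ne').inv h3).const_mul 2).neg
  refine (h2.congr_deriv ?_)
  have h4 : √(s + c) ^ 2 = s + c := Real.sq_sqrt h.le
  have h5 : s + c ≠ 0 := h.ne'
  rw [h4]
  field_simp

lemma lint_sqrt {c t : ℝ} (hc : 0 < c) (ht : 0 < t) :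
    ∫⁻ s in Ioc 0 t, ENNReal.ofReal (1 / √(s + c)) ≤ ENNReal.ofReal (2 * √t) := by
  have hcont : ContinuousOn (fun s : ℝ => 1 / √(s + c)) (Icc 0 t) := by
    refine continuousOn_const.div (by fun_prop) fun s hs => ?_
    exact (Real.sqrt_pos.2 (by linarith [hs.1])).ne'
  have hint : IntervalIntegrable (fun s : ℝ => 1 / √(s + c)) volume 0 t :=
    (hcont.mono (by rw [uIcc_of_le ht.le])).intervalIntegrable
  have h1 : ∫ s in (0 : ℝ)..t, 1 / √(s + c) = 2 * √(t + c) - 2 * √(0 + c) := by
    refine intervalIntegral.integral_eq_sub_of_hasDerivAt (f := fun s : ℝ => 2 * √(s + c))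
      (fun s hs => ?_) hint
    rw [uIcc_of_le ht.le] at hs
    exact hasDeriv_sqrt (by linarith [hs.1])
  rw [← ofReal_integral_eq_lintegral_ofReal]
  · refine ENNReal.ofReal_le_ofReal ?_
    rw [← intervalIntegral.integral_of_le ht.le, h1]
    have h2 : √(t + c) ≤ √t + √(0 + c) := by
      rw [zero_add]
      refine Real.sqrt_le_iff.2 ⟨by positivity, ?_⟩
      nlinarith [Real.sq_sqrt ht.le, Real.sq_sqrt hc.le,
        mul_nonneg (Real.sqrt_nonneg t) (Real.sqrt_nonneg c)]
    linarith
  · exact (intervalIntegrable_iff_integrableOn_Ioc_of_le ht.le).1 hint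
  · exact Eventually.of_forall fun s => by positivity

lemma lint_inv {c α t : ℝ} (hα : 0 < α + c) :
    ∫⁻ s in Icc α t, ENNReal.ofReal (1 / ((s + c) * √(s + c))) ≤
      ENNReal.ofReal (2 / √(α + c)) := by
  rcases lt_or_ge t α with hta | hta
  · rw [Icc_eq_empty (not_le.2 hta)]
    simp
  have hcont : ContinuousOn (fun s : ℝ => 1 / ((s + c) * √(s + c))) (Icc α t) := by
    refine continuousOn_const.div (by fun_prop) fun s hs => ?_
    have h1 : 0 < s + c := by linarith [hs.1]
    exact (mul_pos h1 (Real.sqrt_pos.2 h1)).ne'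
  have hint : IntervalIntegrable (fun s : ℝ => 1 / ((s + c) * √(s + c))) volume α t :=
    (hcont.mono (by rw [uIcc_of_le hta])).intervalIntegrable
  have h1 : ∫ s in α..t, 1 / ((s + c) * √(s + c)) = -(2 / √(t + c)) - -(2 / √(α + c)) := by
    refine intervalIntegral.integral_eq_sub_of_hasDerivAt (f := fun s : ℝ => -(2 / √(s + c)))
      (fun s hs => ?_) hint
    rw [uIcc_of_le hta] at hs
    exact hasDeriv_inv (by linarith [hs.1])
  rw [setLIntegral_congr Ioc_ae_eq_Icc.symm]
  rw [← ofReal_integral_eq_lintegral_ofReal]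
  · refine ENNReal.ofReal_le_ofReal ?_
    rw [← intervalIntegral.integral_of_le hta, h1]
    have : 0 ≤ 2 / √(t + c) := by positivity
    linarith
  · exact (intervalIntegrable_iff_integrableOn_Ioc_of_le hta).1 hint
  · refine (ae_restrict_iff' measurableSet_Ioc).2 (Eventually.of_forall fun s hs => ?_)
    have h2 : 0 < s + c := by linarith [hs.1]
    show 0 ≤ 1 / ((s + c) * √(s + c))
    positivity

/-- the set of pairs -/
def Q (p : ℂ) (g : ℝ) : Set (ℝ × ℂ) := {q | ‖q.2 - (p - q.1)‖ < (q.1 + g / 2) / 2}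

lemma Q_open (p : ℂ) (g : ℝ) : IsOpen (Q p g) := by
  unfold Q
  refine isOpen_lt ?_ ?_
  · fun_prop
  · fun_prop

/-- the kernel -/
noncomputable def H (D : ℂ → ENNReal) (p : ℂ) (g : ℝ) : ℝ × ℂ → ENNReal :=
  (Q p g).indicator fun q => D q.2 *
    ENNReal.ofReal (1 / ((q.1 + g / 2) * √(q.1 + g / 2)))

lemma H_meas {D : ℂ → ENNReal} (hD : Measurable D) (p : ℂ) (g : ℝ) : Measurable (H D p g) := by
  unfold H
  refine Measurable.indicator ?_ (Q_open p g).measurableSet
  refine (hD.comp measurable_snd).mul ?_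
  refine ENNReal.measurable_ofReal.comp ?_
  fun_prop

lemma H_sec (D : ℂ → ENNReal) (p : ℂ) (g s : ℝ) :
    ∫⁻ z, H D p g (s, z) = (∫⁻ z in Metric.ball (p - s) ((s + g / 2) / 2), D z) *
      ENNReal.ofReal (1 / ((s + g / 2) * √(s + g / 2))) := by
  rw [← lintegral_mul_const' _ _ ENNReal.ofReal_ne_top,
    ← lintegral_indicator Metric.isOpen_ball.measurableSet]
  refine lintegral_congr fun z => ?_
  unfold H
  by_cases hz : z ∈ Metric.ball (p - s) ((s + g / 2) / 2)
  · rw [indicator_of_mem hz, indicator_of_mem]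
    rw [Metric.mem_ball, dist_eq_norm] at hz
    exact hz
  · rw [indicator_of_notMem hz, indicator_of_notMem]
    rw [Metric.mem_ball, dist_eq_norm] at hz
    exact hz

lemma H_bound {D : ℂ → ENNReal} {t h g l : ℝ} {a : ℝ → ℝ} {p : ℂ}
    (ha : ∀ x y : ℝ, |a x - a y| ≤ |x - y|) (ht : 0 < t) (hg : 0 < g) (hgt : g ≤ 10 * t)
    (h1 : l + 3 / 4 * g ≤ et h a p) (h2 : et h a p ≤ l + g) (z : ℂ) :
    ∫⁻ s in Ioc 0 t, H D p g (s, z) ≤
      (Metric.ball p (12 * t) ∩ {z : ℂ | l + g / 3 ≤ et h a z}).indicator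
        (fun z => D z * ENNReal.ofReal (4 / √(et h a z - l))) z := by
  -- geometric facts
  have hkey : ∀ s ∈ Ioc 0 t, (s, z) ∈ Q p g → z ∈ Metric.ball p (12 * t) ∧
      l + g / 3 ≤ et h a z ∧ (et h a z - l) / 4 ≤ s + g / 2 := by
    intro s hs hq
    have hq' : ‖z - (p - s)‖ < (s + g / 2) / 2 := hq
    have e1 := et_lip' (h := h) ha z (p - s)
    rw [et_sub] at e1
    have hsq : √2 ≤ 1.4143 := by
      refine Real.sqrt_le_iff.2 ⟨by norm_num, by norm_num⟩
    have e2 : √2 * ‖z - (p - s)‖ ≤ 1.4143 * ((s + g / 2) / 2) :=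
      mul_le_mul hsq hq'.le (norm_nonneg _) (by norm_num)
    have e3 := abs_le.1 (e1.trans e2)
    refine ⟨?_, ?_, ?_⟩
    · rw [Metric.mem_ball, dist_eq_norm]
      have : z - p = (z - (p - s)) - s := by ring
      rw [this]
      have h3 : ‖(s : ℂ)‖ = s := by
        rw [norm_real, Real.norm_eq_abs, abs_of_pos hs.1]
      have h4 := norm_sub_le (z - (p - s)) (s : ℂ)
      rw [h3] at h4
      linarith [hs.1, hs.2]
    · linarith [hs.1, e3.1]
    · linarith [hs.1, e3.2]
  by_cases hz : z ∈ Metric.ball p (12 * t) ∩ {z : ℂ | l + g / 3 ≤ et h a z}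
  · rw [indicator_of_mem hz]
    have hv : 0 < et h a z - l := by
      have := hz.2
      simp only [mem_ofPred_eq] at this
      linarith
    set w := (et h a z - l) / 4 with hw
    have hw0 : 0 < w := by positivity
    have hb : ∀ s ∈ Ioc 0 t, H D p g (s, z) ≤ (Ici (w - g / 2)).indicator (fun s : ℝ => D z *
        ENNReal.ofReal (1 / ((s + g / 2) * √(s + g / 2)))) s := by
      intro s hs
      unfold H
      by_cases hq : (s, z) ∈ Q p g
      · rw [indicator_of_mem hq, indicator_of_mem]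
        rw [mem_Ici]
        linarith [(hkey s hs hq).2.2]
      · rw [indicator_of_notMem hq]
        exact zero_le
    calc ∫⁻ s in Ioc 0 t, H D p g (s, z)
        ≤ ∫⁻ s in Ioc 0 t, (Ici (w - g / 2)).indicator (fun s : ℝ => D z *
            ENNReal.ofReal (1 / ((s + g / 2) * √(s + g / 2)))) s :=
          setLIntegral_mono' measurableSet_Ioc hb
      _ = ∫⁻ s in Ici (w - g / 2) ∩ Ioc 0 t, D z *
            ENNReal.ofReal (1 / ((s + g / 2) * √(s + g / 2))) := by
          rw [lintegral_indicator measurableSet_Ici, Measure.restrict_restrict measurableSet_Ici]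
      _ ≤ ∫⁻ s in Icc (max 0 (w - g / 2)) t, D z *
            ENNReal.ofReal (1 / ((s + g / 2) * √(s + g / 2))) := by
          refine lintegral_mono_set fun s hs => ⟨max_le hs.2.1.le hs.1, hs.2.2⟩
      _ = D z * ∫⁻ s in Icc (max 0 (w - g / 2)) t,
            ENNReal.ofReal (1 / ((s + g / 2) * √(s + g / 2))) := by
          refine lintegral_const_mul _ ?_
          refine ENNReal.measurable_ofReal.comp ?_
          fun_prop
      _ ≤ D z * ENNReal.ofReal (4 / √(et h a z - l)) := by
          refine mul_le_mul_right ?_ _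
          have h3 : 0 < max 0 (w - g / 2) + g / 2 := by
            have := le_max_left 0 (w - g / 2)
            linarith
          refine (lint_inv h3).trans (ENNReal.ofReal_le_ofReal ?_)
          have h4 : w ≤ max 0 (w - g / 2) + g / 2 := by
            have := le_max_right 0 (w - g / 2)
            linarith
          have h5 : √(et h a z - l) = 2 * √w := by
            have : et h a z - l = 2 ^ 2 * w := by
              rw [hw]
              ring
            rw [this, Real.sqrt_mul (by norm_num), Real.sqrt_sq (by norm_num)]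
          rw [h5]
          have h6 : √w ≤ √(max 0 (w - g / 2) + g / 2) := Real.sqrt_le_sqrt h4
          have h7 : 0 < √w := Real.sqrt_pos.2 hw0
          rw [show (4 : ℝ) / (2 * √w) = 2 / √w by field_simp; norm_num]
          exact div_le_div_of_nonneg_left (by norm_num) h7 h6
  · rw [indicator_of_notMem hz]
    refine le_of_eq ?_
    rw [setLIntegral_congr_fun (g := fun _ => 0) measurableSet_Ioc, lintegral_zero]
    intro s hs
    unfold H
    refine indicator_of_notMem (fun hq => hz ?_) _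
    obtain ⟨h3, h4, -⟩ := hkey s hs hq
    exact ⟨h3, h4⟩

end WSA_

open WSA_ in
theorem p_WSA : T_WSA := by
  refine ⟨8, by norm_num, ?_⟩
  intro D B t h g l a p hD ha ht hg hgt h1 h2 hB
  set Δ : ℝ → ENNReal := fun s => ∫⁻ z in Metric.ball (p - s) ((s + g / 2) / 2), D z with hΔ
  set E : Set ℂ := Metric.ball p (12 * t) ∩ {z : ℂ | l + g / 3 ≤ et h a z} with hE
  have hEm : MeasurableSet E := by
    refine Metric.isOpen_ball.measurableSet.inter ?_
    exact (isClosed_le continuous_const (et_continuous ha)).measurableSet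
  have hfin : ∀ s ∈ Ioc 0 t, Δ s ≠ ⊤ := by
    intro s hs
    refine ne_top_of_le_ne_top ENNReal.ofReal_ne_top (le_trans ?_ hB)
    refine lintegral_mono_set fun z hz => ?_
    rw [Metric.mem_ball, dist_eq_norm] at hz ⊢
    have h3 : z - p = (z - (p - s)) - s := by ring
    rw [h3]
    have h4 : ‖(s : ℂ)‖ = s := by
      rw [norm_real, Real.norm_eq_abs, abs_of_pos hs.1]
    have h5 := norm_sub_le (z - (p - s)) (s : ℂ)
    rw [h4] at h5
    linarith [hs.1, hs.2]
  have hΔm : Measurable fun s => Δ s * ENNReal.ofReal (1 / ((s + g / 2) * √(s + g / 2))) := by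
    have h5 := (H_meas hD p g).lintegral_prod_right' (ν := volume)
    have h6 : (fun s => Δ s * ENNReal.ofReal (1 / ((s + g / 2) * √(s + g / 2)))) =
        fun s => ∫⁻ z, H D p g (s, z) := by
      funext s
      exact (H_sec D p g s).symm
    rw [h6]
    exact h5
  -- the two factors
  set f : ℝ → ENNReal := fun s => ENNReal.ofReal (1 / √√(s + g / 2)) with hf
  set q : ℝ → ENNReal := fun s =>
    (Δ s * ENNReal.ofReal (1 / ((s + g / 2) * √(s + g / 2)))) ^ (1 / 2 : ℝ) with hq
  have hfm : Measurable f := by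
    rw [hf]
    refine ENNReal.measurable_ofReal.comp ?_
    fun_prop
  have hqm : Measurable q := hΔm.pow_const _
  have hfq : ∀ s ∈ Ioc 0 t, ‖√(Δ s).toReal / (s + g / 2)‖ₑ = f s * q s := by
    intro s hs
    have hσ : 0 < s + g / 2 := by linarith [hs.1]
    have hr : 0 < √(s + g / 2) := Real.sqrt_pos.2 hσ
    have hrr : 0 < √√(s + g / 2) := Real.sqrt_pos.2 hr
    rw [hf, hq]
    simp only
    rw [← ENNReal.ofReal_toReal (hfin s hs), ← ENNReal.ofReal_mul ENNReal.toReal_nonneg,
      ENNReal.ofReal_rpow_of_nonneg (by positivity) (by norm_num), ← ENNReal.ofReal_mul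
      (by positivity), ENNReal.toReal_ofReal ENNReal.toReal_nonneg,
      Real.enorm_eq_ofReal (by positivity)]
    congr 1
    rw [← Real.sqrt_eq_rpow, Real.sqrt_mul ENNReal.toReal_nonneg, Real.sqrt_div zero_le_one,
      Real.sqrt_one, Real.sqrt_mul hσ.le]
    have e1 : √(s + g / 2) = √√(s + g / 2) * √√(s + g / 2) := (Real.mul_self_sqrt hr.le).symm
    have e2 : s + g / 2 = √(s + g / 2) * √(s + g / 2) := (Real.mul_self_sqrt hσ.le).symm
    generalize √(Δ s).toReal = x
    have e3 : x / (s + g / 2) = x / (√(s + g / 2) * √(s + g / 2)) := by rw [← e2]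
    rw [e3]
    generalize √√(s + g / 2) = y at *
    rw [e1]
    field_simp
  have hI : ENNReal.ofReal ((∫ s in (0 : ℝ)..t, √(Δ s).toReal / (s + g / 2)) ^ 2) ≤
      (∫⁻ s in Ioc 0 t, f s * q s) ^ 2 := by
    rw [← sq_abs, ENNReal.ofReal_pow (abs_nonneg _)]
    refine pow_le_pow_left₀ zero_le ?_ 2
    rw [← Real.norm_eq_abs, ofReal_norm, intervalIntegral.integral_of_le ht.le]
    refine (enorm_integral_le_lintegral_enorm _).trans (le_of_eq ?_)
    exact setLIntegral_congr_fun measurableSet_Ioc hfq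
  refine hI.trans ?_
  have hHol := ENNReal.lintegral_mul_le_Lp_mul_Lq (volume.restrict (Ioc 0 t))
    Real.HolderConjugate.two_two hfm.aemeasurable hqm.aemeasurable
  have hA : ∫⁻ s in Ioc 0 t, f s ^ (2 : ℝ) ≤ ENNReal.ofReal (2 * √t) := by
    refine le_trans (le_of_eq ?_) (lint_sqrt (c := g / 2) (by positivity) ht)
    refine setLIntegral_congr_fun measurableSet_Ioc fun s hs => ?_
    have hσ : 0 < s + g / 2 := by linarith [hs.1]
    rw [hf]
    simp only
    rw [ENNReal.rpow_two, ← ENNReal.ofReal_pow (by positivity), div_pow, one_pow,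
      Real.sq_sqrt (Real.sqrt_nonneg _)]
  have hBz : ∫⁻ s in Ioc 0 t, q s ^ (2 : ℝ) ≤
      ENNReal.ofReal 4 * ∫⁻ z in E, D z * ENNReal.ofReal (1 / √(et h a z - l)) := by
    calc ∫⁻ s in Ioc 0 t, q s ^ (2 : ℝ)
        = ∫⁻ s in Ioc 0 t, ∫⁻ z, H D p g (s, z) := by
          refine lintegral_congr fun s => ?_
          rw [H_sec, hq]
          simp only
          rw [← ENNReal.rpow_mul, show (1 / 2 : ℝ) * 2 = 1 by norm_num, ENNReal.rpow_one]
      _ = ∫⁻ z, ∫⁻ s in Ioc 0 t, H D p g (s, z) := by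
          exact lintegral_lintegral_swap (f := fun s z => H D p g (s, z))
            (H_meas hD p g).aemeasurable
      _ ≤ ∫⁻ z, E.indicator (fun z => D z * ENNReal.ofReal (4 / √(et h a z - l))) z :=
          lintegral_mono fun z => H_bound ha ht hg hgt h1 h2 z
      _ = ∫⁻ z in E, D z * ENNReal.ofReal (4 / √(et h a z - l)) := by
          rw [lintegral_indicator hEm]
      _ = ∫⁻ z in E, ENNReal.ofReal 4 * (D z * ENNReal.ofReal (1 / √(et h a z - l))) := by
          refine lintegral_congr fun z => ?_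
          rw [show (4 : ℝ) / √(et h a z - l) = 4 * (1 / √(et h a z - l)) by ring,
            ENNReal.ofReal_mul (by norm_num)]
          ring
      _ = ENNReal.ofReal 4 * ∫⁻ z in E, D z * ENNReal.ofReal (1 / √(et h a z - l)) :=
          lintegral_const_mul' _ _ ENNReal.ofReal_ne_top
  calc (∫⁻ s in Ioc 0 t, f s * q s) ^ 2
      ≤ ((∫⁻ s in Ioc 0 t, f s ^ (2 : ℝ)) ^ (1 / 2 : ℝ) *
          (∫⁻ s in Ioc 0 t, q s ^ (2 : ℝ)) ^ (1 / 2 : ℝ)) ^ 2 :=
        pow_le_pow_left₀ zero_le hHol 2
    _ = (∫⁻ s in Ioc 0 t, f s ^ (2 : ℝ)) * ∫⁻ s in Ioc 0 t, q s ^ (2 : ℝ) := by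
        rw [mul_pow, ← ENNReal.rpow_two, ← ENNReal.rpow_two, ← ENNReal.rpow_mul,
          ← ENNReal.rpow_mul]
        norm_num
    _ ≤ ENNReal.ofReal (2 * √t) *
        (ENNReal.ofReal 4 * ∫⁻ z in E, D z * ENNReal.ofReal (1 / √(et h a z - l))) :=
        mul_le_mul' hA hBz
    _ = ENNReal.ofReal (8 * √t) * ∫⁻ z in E, D z * ENNReal.ofReal (1 / √(et h a z - l)) := by
        rw [← mul_assoc, ← ENNReal.ofReal_mul (by positivity)]
        congr 2
        ring

end Pool.Agent.MEX
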