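import Pool.Agent.MEX.Basic

set_option autoImplicit false

/-!
# MEX: WSB, a sum over disjoint intervals
-/

namespace Pool.Agent.MEX

namespace WSB_

theorem term_le {l l' η : ℝ} (hl : l < l') (hη : l' ≤ η) :
    (l' - l) / √(η - l) ≤ 2 * (√(η - l) - √(η - l')) := by
  have h0 : 0 < η - l := by linarith
  have hs : 0 < √(η - l) := Real.sqrt_pos.mpr h0
  rw [div_le_iff₀ hs]
  have h1 : √(η - l) * √(η - l) = η - l := Real.mul_self_sqrt h0.le
  have h2 : √(η - l') * √(η - l') = η - l' := Real.mul_self_sqrt (by linarith)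
  have h3 : √(η - l') ≤ √(η - l) := Real.sqrt_le_sqrt (by linarith)
  have h4 : 0 ≤ √(η - l') := Real.sqrt_nonneg _
  nlinarith [mul_nonneg (sub_nonneg.mpr h3) (sub_nonneg.mpr h3)]

theorem part (l l' : ℕ → ℝ) (η : ℝ) (S : Finset ℕ) : (∀ i ∈ S, 0 ≤ l i) →
    (∀ i ∈ S, l i < l' i) → (∀ i ∈ S, ∀ j ∈ S, i < j → l' i ≤ l j) →
    ∀ b : ℝ, 0 ≤ b → b ≤ η → (∀ i ∈ S, l' i ≤ b) →
    ∑ i ∈ S, (l' i - l i) / √(η - l i) ≤ 2 * (√η - √(η - b)) := by
  induction S using Finset.induction_on_max with
  | empty =>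
    intro _ _ _ b hb0 _ _
    rw [Finset.sum_empty]
    have : √(η - b) ≤ √η := Real.sqrt_le_sqrt (by linarith)
    linarith
  | insert m S hm ih =>
    intro h1 h2 h3 b hb0 hbη hb
    have hmS : m ∉ S := fun h => lt_irrefl _ (hm m h)
    have hmm := Finset.mem_insert_self m S
    have hlb : l' m ≤ b := hb m hmm
    have hll : l m < l' m := h2 m hmm
    have ihS := ih (fun i hi => h1 i (Finset.mem_insert_of_mem hi))
      (fun i hi => h2 i (Finset.mem_insert_of_mem hi))
      (fun i hi j hj => h3 i (Finset.mem_insert_of_mem hi) j (Finset.mem_insert_of_mem hj))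
      (l m) (h1 m hmm) (by linarith)
      (fun i hi => h3 i (Finset.mem_insert_of_mem hi) m hmm (hm i hi))
    rw [Finset.sum_insert hmS]
    have ht := term_le hll (hlb.trans hbη)
    have hs : √(η - b) ≤ √(η - l' m) := Real.sqrt_le_sqrt (by linarith)
    linarith

end WSB_

theorem p_WSB : T_WSB := by
  intro S l l' η h1 h2 h3 h4
  rcases S.eq_empty_or_nonempty with hS | hS
  · subst hS
    rw [Finset.sum_empty]
    positivity
  · set m := S.max' hS with hm
    have hmS : m ∈ S := S.max'_mem hS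
    have hlt : ∀ i ∈ S.erase m, i < m := by
      intro i hi
      rw [Finset.mem_erase] at hi
      exact lt_of_le_of_ne (S.le_max' i hi.2) hi.1
    have hg : l m < l' m := h2 m hmS
    have hη : l m < η := by have := h4 m hmS; linarith
    have hpart := WSB_.part l l' η (S.erase m) (fun i hi => h1 i (Finset.mem_of_mem_erase hi))
      (fun i hi => h2 i (Finset.mem_of_mem_erase hi))
      (fun i hi j hj => h3 i (Finset.mem_of_mem_erase hi) j (Finset.mem_of_mem_erase hj))
      (l m) (h1 m hmS) hη.le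
      (fun i hi => h3 i (Finset.mem_of_mem_erase hi) m hmS (hlt i hi))
    rw [← Finset.add_sum_erase S _ hmS]
    have hterm : (l' m - l m) / √(η - l m) ≤ 3 * √(η - l m) := by
      have h0 : 0 < η - l m := by linarith
      rw [div_le_iff₀ (Real.sqrt_pos.mpr h0), mul_assoc, Real.mul_self_sqrt h0.le]
      have := h4 m hmS
      linarith
    have hle : √(η - l m) ≤ √η := Real.sqrt_le_sqrt (by have := h1 m hmS; linarith)
    have h0 : 0 ≤ √η := Real.sqrt_nonneg _
    linarith

end Pool.Agent.MEX
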