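import Pool.Agent.MEX.Basic

/-!
# MEX: the sum over the records (WSC)
-/

set_option autoImplicit false

open Complex Filter Topology Set MeasureTheory

namespace Pool.Agent.MEX

namespace WSC_

/-- translation of the domain of integration of a periodic function -/
lemma trans (F : ℂ → ENNReal) (A A' : Set ℂ) (c : ℂ) (hA : MeasurableSet A)
    (hA' : MeasurableSet A') (hF : ∀ z, F (z + c) = F z) (h : ∀ z, z + c ∈ A ↔ z ∈ A') :
    ∫⁻ z in A, F z = ∫⁻ z in A', F z := by
  rw [← lintegral_indicator hA, ← lintegral_indicator hA', ← lintegral_add_right_eq_self _ c]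
  congr 1
  funext z
  by_cases hz : z ∈ A'
  · rw [indicator_of_mem hz, indicator_of_mem ((h z).2 hz), hF]
  · rw [indicator_of_notMem hz, indicator_of_notMem (fun h' => hz ((h z).1 h'))]

/-- a strip slightly larger than a window -/
lemma strip (h2 : T_PER) (D : ℂ → ENNReal) (hD : Measurable D)
    (hp : ∀ ζ, D (ζ + 2 * Real.pi * I) = D ζ) :
    ∫⁻ z in {z : ℂ | -1 ≤ z.im ∧ z.im < 2 * Real.pi + 1}, D z ≤
      2 * ∫⁻ ζ in {ζ : ℂ | 0 ≤ ζ.im ∧ ζ.im < 2 * Real.pi}, D ζ := by
  have hpi := Real.pi_gt_three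
  have hsub : {z : ℂ | -1 ≤ z.im ∧ z.im < 2 * Real.pi + 1} ⊆
      {ζ : ℂ | -1 ≤ ζ.im ∧ ζ.im < -1 + 2 * Real.pi} ∪
      {ζ : ℂ | -1 + 2 * Real.pi ≤ ζ.im ∧ ζ.im < -1 + 2 * Real.pi + 2 * Real.pi} := by
    rintro z ⟨hz1, hz2⟩
    rcases lt_or_ge z.im (-1 + 2 * Real.pi) with h | h
    · exact Or.inl ⟨hz1, h⟩
    · exact Or.inr ⟨h, by linarith⟩
  calc ∫⁻ z in {z : ℂ | -1 ≤ z.im ∧ z.im < 2 * Real.pi + 1}, D z
      ≤ ∫⁻ z in {ζ : ℂ | -1 ≤ ζ.im ∧ ζ.im < -1 + 2 * Real.pi} ∪
        {ζ : ℂ | -1 + 2 * Real.pi ≤ ζ.im ∧ ζ.im < -1 + 2 * Real.pi + 2 * Real.pi}, D z :=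
        lintegral_mono_set hsub
    _ ≤ (∫⁻ z in {ζ : ℂ | -1 ≤ ζ.im ∧ ζ.im < -1 + 2 * Real.pi}, D z) +
        ∫⁻ z in {ζ : ℂ | -1 + 2 * Real.pi ≤ ζ.im ∧
          ζ.im < -1 + 2 * Real.pi + 2 * Real.pi}, D z := lintegral_union_le _ _ _
    _ = 2 * ∫⁻ ζ in {ζ : ℂ | 0 ≤ ζ.im ∧ ζ.im < 2 * Real.pi}, D ζ := by
        rw [h2 D hD hp, h2 D hD hp]
        exact (two_mul _).symm

/-- the pointwise estimate -/
lemma point (h1 : T_WSB) (S : Finset ℕ) (l l' : ℕ → ℝ) (A : ℕ → Set ℂ) (B : Set ℂ)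
    (D : ℂ → ENNReal) (e : ℂ → ℝ) (K : ℝ) (lo : ∀ i ∈ S, 0 ≤ l i)
    (lt : ∀ i ∈ S, l i < l' i) (disj : ∀ i ∈ S, ∀ j ∈ S, i < j → l' i ≤ l j)
    (hA : ∀ i ∈ S, ∀ z ∈ A i, l i + (l' i - l i) / 3 ≤ e z ∧ e z ≤ K ∧ z ∈ B) (z : ℂ) :
    ∑ i ∈ S, ENNReal.ofReal (l' i - l i) *
      (A i).indicator (fun z => D z * ENNReal.ofReal (1 / √(e z - l i))) z ≤
    B.indicator (fun z => ENNReal.ofReal (5 * √K) * D z) z := by
  classical
  set T := S.filter fun i => z ∈ A i with hT
  have hTS : ∀ i ∈ T, i ∈ S ∧ z ∈ A i := fun i hi => Finset.mem_filter.1 hi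
  have e1 : ∑ i ∈ S, ENNReal.ofReal (l' i - l i) *
      (A i).indicator (fun z => D z * ENNReal.ofReal (1 / √(e z - l i))) z =
      ∑ i ∈ T, D z * ENNReal.ofReal ((l' i - l i) / √(e z - l i)) := by
    rw [hT, Finset.sum_filter]
    refine Finset.sum_congr rfl fun i hi => ?_
    by_cases hz : z ∈ A i
    · rw [indicator_of_mem hz, if_pos hz, div_eq_mul_one_div (l' i - l i),
        ENNReal.ofReal_mul (sub_nonneg.2 (lt i hi).le)]
      ring
    · rw [indicator_of_notMem hz, if_neg hz, mul_zero]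
  rw [e1, ← Finset.mul_sum]
  rcases T.eq_empty_or_nonempty with h0 | ⟨i₀, hi₀⟩
  · rw [h0]
    simp
  · have hzB : z ∈ B := (hA i₀ (hTS i₀ hi₀).1 z (hTS i₀ hi₀).2).2.2
    have hzK : e z ≤ K := (hA i₀ (hTS i₀ hi₀).1 z (hTS i₀ hi₀).2).2.1
    rw [indicator_of_mem hzB, mul_comm (ENNReal.ofReal _) (D z)]
    refine mul_le_mul_right ?_ _
    rw [← ENNReal.ofReal_sum_of_nonneg fun i hi => div_nonneg
      (sub_nonneg.2 (lt i (hTS i hi).1).le) (Real.sqrt_nonneg _)]
    refine ENNReal.ofReal_le_ofReal ?_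
    refine (h1 T l l' (e z) (fun i hi => lo i (hTS i hi).1) (fun i hi => lt i (hTS i hi).1)
      (fun i hi j hj => disj i (hTS i hi).1 j (hTS j hj).1)
      (fun i hi => (hA i (hTS i hi).1 z (hTS i hi).2).1)).trans ?_
    exact mul_le_mul_of_nonneg_left (Real.sqrt_le_sqrt hzK) (by norm_num)

end WSC_

open WSC_ in
/-- WSC -/
theorem p_WSC (h1 : T_WSB) (h2 : T_PER) : T_WSC := by
  refine ⟨210, by norm_num, ?_⟩
  intro D d t h a S l l' p hR
  have hpi := Real.pi_gt_three
  have ht := hR.t0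
  have ht1 := hR.t1
  have hec : Continuous (et h a) := et_continuous hR.lip
  set q : ℂ := 2 * Real.pi * I with hq
  have hqim : q.im = 2 * Real.pi := by
    rw [hq]
    simp
  have hDp : Function.Periodic D q := hR.Dper
  have hep : Function.Periodic (et h a) q := et_per hR.aper
  -- the translations
  set c : ℕ → ℂ := fun i => (⌊(p i).im / (2 * Real.pi)⌋ : ℂ) * q with hc
  have hcim : ∀ i, (c i).im = ⌊(p i).im / (2 * Real.pi)⌋ * (2 * Real.pi) := by
    intro i
    rw [hc]
    simp only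
    rw [mul_im, hqim]
    simp
  set p' : ℕ → ℂ := fun i => p i - c i with hp'
  have him : ∀ i, 0 ≤ (p' i).im ∧ (p' i).im < 2 * Real.pi := by
    intro i
    rw [hp']
    simp only
    rw [sub_im, hcim]
    have f1 := Int.floor_le ((p i).im / (2 * Real.pi))
    have f2 := Int.lt_floor_add_one ((p i).im / (2 * Real.pi))
    rw [le_div_iff₀ (by positivity)] at f1
    rw [div_lt_iff₀ (by positivity)] at f2
    constructor <;> linarith
  set A : ℕ → Set ℂ := fun i => Metric.ball (p i) (12 * t) ∩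
    {z : ℂ | l i + (l' i - l i) / 3 ≤ et h a z} with hA
  set A' : ℕ → Set ℂ := fun i => Metric.ball (p' i) (12 * t) ∩
    {z : ℂ | l i + (l' i - l i) / 3 ≤ et h a z} with hA'
  set B : Set ℂ := {z : ℂ | -1 ≤ z.im ∧ z.im < 2 * Real.pi + 1} with hB
  set F : ℕ → ℂ → ENNReal := fun i z => D z * ENNReal.ofReal (1 / √(et h a z - l i)) with hF
  have hms : ∀ i, MeasurableSet {z : ℂ | l i + (l' i - l i) / 3 ≤ et h a z} := fun i =>
    (isClosed_le continuous_const hec).measurableSet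
  have hAm : ∀ i, MeasurableSet (A i) := fun i => measurableSet_ball.inter (hms i)
  have hAm' : ∀ i, MeasurableSet (A' i) := fun i => measurableSet_ball.inter (hms i)
  have hBm : MeasurableSet B := by
    have e1 : MeasurableSet {z : ℂ | -1 ≤ z.im} :=
      (isClosed_le continuous_const continuous_im).measurableSet
    have e2 : MeasurableSet {z : ℂ | z.im < 2 * Real.pi + 1} :=
      (isOpen_lt continuous_im continuous_const).measurableSet
    exact e1.inter e2
  have hFm : ∀ i, Measurable (F i) := by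
    intro i
    have e1 : Measurable (et h a) := hec.measurable
    exact hR.Dm.mul (ENNReal.measurable_ofReal.comp
      ((e1.sub_const _).sqrt.const_div 1))
  have htr : ∀ i, ∫⁻ z in A i, F i z = ∫⁻ z in A' i, F i z := by
    intro i
    refine trans (F i) (A i) (A' i) (c i) (hAm i) (hAm' i) (fun z => ?_) (fun z => ?_)
    · rw [hF]
      simp only
      rw [hc]
      simp only
      rw [hDp.int_mul _ z, hep.int_mul _ z]
    · rw [hA, hA']
      simp only [mem_inter_iff, Metric.mem_ball, mem_ofPred_eq]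
      have e1 : et h a (z + c i) = et h a z := by
        rw [hc]
        exact hep.int_mul _ z
      have e2 : dist (z + c i) (p i) = dist z (p' i) := by
        rw [dist_eq_norm, dist_eq_norm, hp']
        congr 1
        ring
      rw [e1, e2]
  have hA'p : ∀ i ∈ S, ∀ z ∈ A' i, l i + (l' i - l i) / 3 ≤ et h a z ∧ et h a z ≤ 437 * t ∧
      z ∈ B := by
    rintro i hi z ⟨hz1, hz2⟩
    rw [Metric.mem_ball, dist_eq_norm] at hz1
    refine ⟨hz2, ?_, ?_⟩
    · have e1 := (abs_le.1 (et_lip' (h := h) hR.lip z (p' i))).2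
      have e2 : et h a (p' i) = et h a (p i) := by
        have := hep.int_mul ⌊(p i).im / (2 * Real.pi)⌋ (p' i)
        rw [← this]
        congr 1
        rw [hp', hc]
        simp
      have e3 := hR.phi i hi
      have e4 := hR.hi i hi
      have e5 : √2 * ‖z - p' i‖ ≤ 17 * t := by
        have s2 : √2 ≤ 1.415 := by
          rw [Real.sqrt_le_left (by norm_num)]
          norm_num
        have s3 : √2 * ‖z - p' i‖ ≤ 1.415 * (12 * t) :=
          mul_le_mul s2 hz1.le (norm_nonneg _) (by norm_num)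
        linarith
      linarith
    · have e1 := abs_im_le_norm (z - p' i)
      rw [sub_im] at e1
      have e2 := abs_le.1 (e1.trans hz1.le)
      obtain ⟨e3, e4⟩ := him i
      refine ⟨?_, ?_⟩ <;> linarith [e2.1, e2.2]
  have hpt := point h1 S l l' A' B D (et h a) (437 * t) hR.lo hR.lt hR.disj hA'p
  calc ∑ i ∈ S, ENNReal.ofReal (l' i - l i) * ∫⁻ z in A i, F i z
      = ∑ i ∈ S, ∫⁻ z, ENNReal.ofReal (l' i - l i) * (A' i).indicator (F i) z := by
        refine Finset.sum_congr rfl fun i _ => ?_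
        rw [htr i, lintegral_const_mul _ ((hFm i).indicator (hAm' i)),
          lintegral_indicator (hAm' i)]
    _ = ∫⁻ z, ∑ i ∈ S, ENNReal.ofReal (l' i - l i) * (A' i).indicator (F i) z := by
        rw [lintegral_finsetSum]
        intro i _
        exact ((hFm i).indicator (hAm' i)).const_mul _
    _ ≤ ∫⁻ z, B.indicator (fun z => ENNReal.ofReal (5 * √(437 * t)) * D z) z :=
        lintegral_mono hpt
    _ = ENNReal.ofReal (5 * √(437 * t)) * ∫⁻ z in B, D z := by
        rw [lintegral_indicator hBm, lintegral_const_mul _ hR.Dm]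
    _ ≤ ENNReal.ofReal (5 * √(437 * t)) * (2 * ENNReal.ofReal d) := by
        gcongr
        refine (strip h2 D hR.Dm hR.Dper).trans ?_
        gcongr
        exact hR.Dint
    _ = ENNReal.ofReal (5 * √(437 * t) * (2 * d)) := by
        rw [ENNReal.ofReal_mul (by positivity), ENNReal.ofReal_mul (by norm_num)]
        norm_num
    _ ≤ ENNReal.ofReal (210 * √t * d) := by
        refine ENNReal.ofReal_le_ofReal ?_
        have e1 : √(437 * t) = √437 * √t := Real.sqrt_mul (by norm_num) t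
        have e2 : √437 ≤ 21 := by
          rw [Real.sqrt_le_left (by norm_num)]
          norm_num
        rw [e1]
        have e3 : √437 * √t ≤ 21 * √t := mul_le_mul_of_nonneg_right e2 (Real.sqrt_nonneg _)
        have e4 := hR.d0
        nlinarith [mul_le_mul_of_nonneg_right e3 e4]

end Pool.Agent.MEX
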