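import Pool.Agent.MEX.Basic

/-!
# MEX: the weighted sum over the records
-/

set_option autoImplicit false

open Complex Filter Topology Set MeasureTheory
open Pool.Agent.Multibrot (rt push)
open Pool.Agent.Limb (F)
open Pool.Agent.PLim (Cyc Res AA fp fpp Rho LocFix)

namespace Pool.Agent.MEX

namespace WSM_

/-- The total length of ordered intervals in `[0, M]`. -/
lemma sum_len (l l' : ℕ → ℝ) (S : Finset ℕ) : ∀ M : ℝ, 0 ≤ M → (∀ i ∈ S, 0 ≤ l i) →
    (∀ i ∈ S, l' i ≤ M) → (∀ i ∈ S, ∀ j ∈ S, i < j → l' i ≤ l j) →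
    ∑ i ∈ S, (l' i - l i) ≤ M := by
  induction S using Finset.induction_on_max with
  | empty => intro M hM _ _ _; simpa using hM
  | insert a S ha ih =>
    intro M hM h0 h1 h2
    have hna : a ∉ S := fun h => lt_irrefl _ (ha a h)
    rw [Finset.sum_insert hna]
    have h3 := ih (l a) (h0 a (Finset.mem_insert_self _ _))
      (fun i hi => h0 i (Finset.mem_insert_of_mem hi))
      (fun i hi => h2 i (Finset.mem_insert_of_mem hi) a (Finset.mem_insert_self _ _) (ha i hi))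
      (fun i hi j hj hij => h2 i (Finset.mem_insert_of_mem hi) j (Finset.mem_insert_of_mem hj) hij)
    have h4 := h1 a (Finset.mem_insert_self _ _)
    linarith

/-- The mass of a small ball. -/
lemma ball_mass (h3 : T_PER) {D : ℂ → ENNReal} {d : ℝ} (hD : Measurable D)
    (hp : ∀ ζ, D (ζ + 2 * Real.pi * I) = D ζ)
    (hd : ∫⁻ ζ in {ζ : ℂ | 0 ≤ ζ.im ∧ ζ.im < 2 * Real.pi}, D ζ ≤ ENNReal.ofReal d) (p : ℂ)
    {ρ : ℝ} (hρ : ρ ≤ 1) : ∫⁻ z in Metric.ball p ρ, D z ≤ ENNReal.ofReal d := by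
  refine le_trans ?_ ((h3 D hD hp (p.im - 1)).le.trans hd)
  refine lintegral_mono_set fun z hz => ?_
  have h4 : |(z - p).im| ≤ ‖z - p‖ := abs_im_le_norm _
  have h5 : ‖z - p‖ < ρ := by simpa [dist_eq_norm] using hz
  rw [sub_im] at h4
  have h6 := abs_le.1 h4
  have h7 := Real.pi_gt_three
  exact ⟨by linarith [h6.1], by linarith [h6.2]⟩

end WSM_

open WSM_

theorem p_WSM (h1 : T_WSA) (h2 : T_WSC) (h3 : T_PER) : T_WSM := by
  obtain ⟨C₁, hC₁, H1⟩ := h1
  obtain ⟨C₂, hC₂, H2⟩ := h2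
  refine ⟨420 * (C₁ * C₂), ?_, ?_⟩
  · have : 1 ≤ C₁ * C₂ := one_le_mul_of_one_le_of_one_le hC₁ hC₂
    linarith
  intro D d t h a S l l' p hR
  obtain ⟨W, hW⟩ : ∃ W : ℕ → ℝ, ∀ i, W i = ∫ s in (0 : ℝ)..t,
      √(∫⁻ z in Metric.ball (p i - s) ((s + (l' i - l i) / 2) / 2), D z).toReal /
        (s + (l' i - l i) / 2) := ⟨_, fun _ => rfl⟩
  simp only [← hW]
  have ht := hR.t0
  have hd := hR.d0
  have hC : 1 ≤ C₁ * C₂ := one_le_mul_of_one_le_of_one_le hC₁ hC₂
  have hg : ∀ i ∈ S, 0 < l' i - l i := fun i hi => sub_pos.2 (hR.lt i hi)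
  -- the sum of the gaps
  have hs : ∑ i ∈ S, (l' i - l i) ≤ 420 * t :=
    sum_len l l' S (420 * t) (by positivity) hR.lo hR.hi hR.disj
  -- the sum of the squares
  have hq : ∑ i ∈ S, (l' i - l i) * W i ^ 2 ≤ C₁ * C₂ * t * d := by
    have h4 := H2 D d t h a S l l' p hR
    have h5 : ∀ i ∈ S, ENNReal.ofReal ((l' i - l i) * W i ^ 2) ≤ ENNReal.ofReal (C₁ * √t) *
        (ENNReal.ofReal (l' i - l i) *
          ∫⁻ z in Metric.ball (p i) (12 * t) ∩ {z : ℂ | l i + (l' i - l i) / 3 ≤ et h a z},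
            D z * ENNReal.ofReal (1 / √(et h a z - l i))) := by
      intro i hi
      have h6 := H1 D d t h (l' i - l i) (l i) a (p i) hR.Dm hR.lip ht (hg i hi)
        (by linarith [hR.gap i hi]) (hR.plo i hi) (by linarith [hR.phi i hi])
        (ball_mass h3 hR.Dm hR.Dper hR.Dint (p i) (by linarith [hR.t1]))
      rw [← hW] at h6
      rw [ENNReal.ofReal_mul (hg i hi).le, mul_left_comm]
      exact mul_le_mul_right h6 _
    have h6 : ENNReal.ofReal (∑ i ∈ S, (l' i - l i) * W i ^ 2) ≤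
        ENNReal.ofReal (C₁ * C₂ * t * d) := by
      rw [ENNReal.ofReal_sum_of_nonneg fun i hi => mul_nonneg (hg i hi).le (sq_nonneg _)]
      refine (Finset.sum_le_sum h5).trans ?_
      rw [← Finset.mul_sum]
      refine (mul_le_mul_right h4 _).trans ?_
      rw [← ENNReal.ofReal_mul (by positivity)]
      refine ENNReal.ofReal_le_ofReal (le_of_eq ?_)
      have h7 : √t * √t = t := Real.mul_self_sqrt ht.le
      linear_combination C₁ * C₂ * d * h7
    exact (ENNReal.ofReal_le_ofReal_iff (by positivity)).1 h6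
  -- Cauchy-Schwarz
  have hcs : (∑ i ∈ S, (l' i - l i) * W i) ^ 2 ≤
      (∑ i ∈ S, (l' i - l i)) * ∑ i ∈ S, (l' i - l i) * W i ^ 2 := by
    refine Finset.sum_sq_le_sum_mul_sum_of_sq_le_mul S (fun i hi => (hg i hi).le)
      (fun i hi => mul_nonneg (hg i hi).le (sq_nonneg _)) fun i _ => le_of_eq ?_
    ring
  have h8 : (∑ i ∈ S, (l' i - l i) * W i) ^ 2 ≤ (420 * (C₁ * C₂) * t * √d) ^ 2 := by
    refine hcs.trans ?_
    have h9 : (∑ i ∈ S, (l' i - l i)) * ∑ i ∈ S, (l' i - l i) * W i ^ 2 ≤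
        420 * t * (C₁ * C₂ * t * d) :=
      mul_le_mul hs hq (Finset.sum_nonneg fun i hi => mul_nonneg (hg i hi).le (sq_nonneg _))
        (by positivity)
    refine h9.trans ?_
    have h10 : √d ^ 2 = d := Real.sq_sqrt hd
    have h11 : (420 * (C₁ * C₂) * t * √d) ^ 2 = 420 * (C₁ * C₂) * (420 * (C₁ * C₂) * t ^ 2 * d) := by
      linear_combination (420 * (C₁ * C₂) * t) ^ 2 * h10
    rw [h11]
    have h12 : 0 ≤ 420 * (C₁ * C₂) * t ^ 2 * d := by positivity
    have h13 : 420 * t * (C₁ * C₂ * t * d) = 1 * (420 * (C₁ * C₂) * t ^ 2 * d) := by ring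
    rw [h13]
    exact mul_le_mul_of_nonneg_right (by linarith) h12
  exact (le_abs_self _).trans (abs_le_of_sq_le_sq' h8 (by positivity) |> fun h => abs_le.2 h)

end Pool.Agent.MEX
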