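import Pool.Agent.MEX.Basic

/-!
# MEX: the triangle inequality in the charts
-/

set_option autoImplicit false

open Complex Filter Topology Set MeasureTheory
open Pool.Agent.Multibrot (rt push)
open Pool.Agent.Limb (F)
open Pool.Agent.PLim (Cyc Res AA fp fpp Rho LocFix)

namespace Pool.Agent.MEX

namespace WTC_

lemma ofReal_norm_add (a b : ℂ) : ENNReal.ofReal (‖a‖ + ‖b‖) = ‖a‖ₑ + ‖b‖ₑ := by
  rw [ENNReal.ofReal_add (norm_nonneg _) (norm_nonneg _), ofReal_norm,
    ofReal_norm]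

/-- the square of the derivative of a natural map is the inverse density -/
lemma enorm_sq {k : ℕ} {b r : ℕ → ℂ} {v y : ℂ} (h : v ^ 2 * AA k b r y = 1) :
    ‖v ^ 2‖ₑ = (phe k b r y)⁻¹ := by
  have h1 : ‖v ^ 2‖ₑ * phe k b r y = 1 := by
    unfold phe
    rw [← enorm_mul, h]
    simp
  exact ENNReal.eq_inv_of_mul_eq_one_left h1

lemma final {a p q : ENNReal} (h : a ≤ p / q) : a ≤ 1 + (p / q - 1) :=
  h.trans le_add_tsub

end WTC_

open WTC_ in
/-- WTC: the triangle inequality in the charts. -/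
theorem p_WTC (h1 : T_WTP) (h2 : T_MON) (h3 : T_NUL) : T_WTC := by
  intro n k c b r μ V χ J m W G hB hM hm hW hWV hG hs
  have hnm := (hM.cht J).nm
  have hop := (hM.cht J).li.op
  have hN := h3 (V J) (χ J) (Set.range fun i : ℕ => (F n c)^[i] c) hop hnm.diff
    (fun ζ hζ => hnm.deriv_ne hζ) (Set.countable_range _)
  filter_upwards [hN] with ζ hζN hζ
  have hV : ζ ∈ V J := hWV hζ
  have hS := hζN hV
  have hav : ∀ j, χ J ζ ≠ b j := hnm.avoid ζ hV
  have hcr : ∀ i, (F n c)^[i] c ≠ χ J ζ := fun i hi => hS ⟨i, hi⟩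
  have hsz := hs ζ hζ
  have e1 := h1 n k c b r μ m (G ζ) hB (by rw [hsz]; exact hav) (fun i _ => by rw [hsz]; exact hcr i)
  rw [hsz] at e1
  have e2 := h2 n k c b r μ m k (χ J ζ) hB hm hav (fun i _ => hcr i)
  have e3 := e1.trans e2
  have hnat := hnm.nat ζ hV
  have hsd : Rho n m c (G ζ) * deriv G ζ = deriv (χ J) ζ := sheet_deriv hW hG hs hζ
  have hd0 : deriv (χ J) ζ ≠ 0 := hnm.deriv_ne hV
  have hR0 : Rho n m c (G ζ) ≠ 0 := by
    intro h0
    rw [h0, zero_mul] at hsd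
    exact hd0 hsd.symm
  have hLam : Lam k b r G ζ =
      AA k b r (G ζ) / Rho n m c (G ζ) ^ 2 * deriv (χ J) ζ ^ 2 := by
    unfold Lam
    rw [← hsd]
    field_simp
  have hLam1 : 1 - Lam k b r G ζ =
      (AA k b r (χ J ζ) - AA k b r (G ζ) / Rho n m c (G ζ) ^ 2) * deriv (χ J) ζ ^ 2 := by
    rw [hLam, ← hnat]
    ring
  have hind : Dfc n k c b r V χ J ζ =
      (PP n c)^[k] (phe k b r) (χ J ζ) / phe k b r (χ J ζ) - 1 := by
    unfold Dfc
    rw [Set.indicator_of_mem hV]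
  rw [hind]
  refine final ?_
  rw [ofReal_norm_add, hLam1, hLam, enorm_mul, enorm_mul, ← add_mul, enorm_sq hnat,
    ENNReal.div_eq_inv_mul, mul_comm]
  exact mul_le_mul_right e3 _

end Pool.Agent.MEX
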