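import Pool.Agent.MEX.WTC

/-!
# MEX: the triangle inequality in the charts, for two sheets
-/

set_option autoImplicit false

open Complex Filter Topology Set MeasureTheory
open Pool.Agent.Multibrot (rt push)
open Pool.Agent.Limb (F)
open Pool.Agent.PLim (Cyc Res AA fp fpp Rho LocFix)

namespace Pool.Agent.MEX

namespace WTD_

/-- the pull back of the quadratic differential by a sheet -/
lemma lam_eq {n k m J : ℕ} {c : ℂ} {b r : ℕ → ℂ} {χ : ℕ → ℂ → ℂ} {W : Set ℂ}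
    {G : ℂ → ℂ} (hW : IsOpen W) (hG : DifferentiableOn ℂ G W)
    (hs : ∀ ζ ∈ W, (F n c)^[m] (G ζ) = χ J ζ) {ζ : ℂ} (hζ : ζ ∈ W)
    (hd0 : deriv (χ J) ζ ≠ 0) :
    Lam k b r G ζ = AA k b r (G ζ) / Rho n m c (G ζ) ^ 2 * deriv (χ J) ζ ^ 2 := by
  have hsd : Rho n m c (G ζ) * deriv G ζ = deriv (χ J) ζ := sheet_deriv hW hG hs hζ
  have hR0 : Rho n m c (G ζ) ≠ 0 := by
    intro h0
    rw [h0, zero_mul] at hsd
    exact hd0 hsd.symm
  unfold Lam
  rw [← hsd]
  field_simp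

end WTD_

open WTC_ WTD_ in
/-- WTD: the triangle inequality in the charts, for two sheets. -/
theorem p_WTD (h1 : T_WTQ) (h2 : T_MON) (h3 : T_NUL) : T_WTD := by
  intro n k c b r μ V χ J m W G G' hB hM hm hW hWV hG hG' hs hs' hne
  have hnm := (hM.cht J).nm
  have hop := (hM.cht J).li.op
  have hN := h3 (V J) (χ J) (Set.range fun i : ℕ => (F n c)^[i] c) hop hnm.diff
    (fun ζ hζ => hnm.deriv_ne hζ) (Set.countable_range _)
  filter_upwards [hN] with ζ hζN hζ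
  have hV : ζ ∈ V J := hWV hζ
  have hS := hζN hV
  have hav : ∀ j, χ J ζ ≠ b j := hnm.avoid ζ hV
  have hcr : ∀ i, (F n c)^[i] c ≠ χ J ζ := fun i hi => hS ⟨i, hi⟩
  have hsz := hs ζ hζ
  have hsz' := hs' ζ hζ
  have e1 := h1 n k c b r μ m (G ζ) (G' ζ) hB (hne ζ hζ) (hsz.trans hsz'.symm)
    (by rw [hsz]; exact hav) (fun i _ => by rw [hsz]; exact hcr i)
  rw [hsz] at e1
  have e2 := h2 n k c b r μ m k (χ J ζ) hB hm hav (fun i _ => hcr i)
  have e3 := e1.trans e2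
  have hnat := hnm.nat ζ hV
  have hd0 : deriv (χ J) ζ ≠ 0 := hnm.deriv_ne hV
  have hLam := lam_eq (k := k) (b := b) (r := r) hW hG hs hζ hd0
  have hLam' := lam_eq (k := k) (b := b) (r := r) hW hG' hs' hζ hd0
  have hind : Dfc n k c b r V χ J ζ =
      (PP n c)^[k] (phe k b r) (χ J ζ) / phe k b r (χ J ζ) - 1 := by
    unfold Dfc
    rw [Set.indicator_of_mem hV]
  rw [hind]
  refine final ?_
  rw [ofReal_norm_add, hLam, hLam', enorm_mul, enorm_mul, ← add_mul, enorm_sq hnat,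
    ENNReal.div_eq_inv_mul, mul_comm]
  exact mul_le_mul_right e3 _

end Pool.Agent.MEX
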