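import Pool.Agent.MEX.Basic
import Pool.Agent.PLim.TRP
import Pool.Agent.PLim.TRS

/-!
# MEX, target WTP: the triangle inequality with one distinguished preimage
-/

set_option autoImplicit false

open Complex Filter Topology Set MeasureTheory
open Pool.Agent.Multibrot (rt push)
open Pool.Agent.Limb (F)
open Pool.Agent.PLim (Cyc Res AA fp fpp Rho LocFix)

namespace Pool.Agent.MEX

namespace WTP_

lemma F_surj {n : ℕ} (hn : n ≠ 0) (c : ℂ) : Function.Surjective (F n c) := by
  intro w
  refine ⟨rt n c 0 w, ?_⟩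
  unfold F
  rw [Pool.Agent.Multibrot.rt_pow hn, sub_add_cancel]

/-- The weight of the `j`-th preimage. -/
noncomputable def wgt (n : ℕ) (c : ℂ) (y : ℂ) (j : ℕ) : ℂ := ((n * rt n c j y ^ (n - 1)) ^ 2)⁻¹

end WTP_

open WTP_

theorem p_WTP : T_WTP := by
  intro n k c b r μ m x hb
  have hn0 : n ≠ 0 := by
    have := hb.hn
    omega
  induction m generalizing x with
  | zero =>
    intro _ _
    have h1 : Rho n 0 c x = 1 := by
      rw [Rho_eq, Finset.prod_range_zero]
    simp only [Function.iterate_zero, id_eq, h1, one_pow, div_one, sub_self, enorm_zero, zero_add]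
    exact le_rfl
  | succ m ih =>
    intro hyb hyc
    set u : ℂ := (F n c)^[m] x with hu
    set y : ℂ := (F n c)^[m + 1] x with hy
    have hyu : F n c u = y := by
      rw [hy, hu, Function.iterate_succ_apply']
    have hcy : y ≠ c := by
      intro h
      exact hyc 0 (Nat.succ_pos m) h.symm
    -- the preimages of `y`
    have hpre : ∀ w : ℂ, F n c w = y → (∀ j, w ≠ b j) ∧ ∀ i < m, (F n c)^[i] c ≠ w := by
      intro w hw
      refine ⟨fun j hj => ?_, fun i hi he => ?_⟩
      · apply hyb (j + 1)
        rw [hb.cyc.step, ← hj, ← hw]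
        rfl
      · apply hyc (i + 1) (Nat.succ_lt_succ hi)
        rw [Function.iterate_succ_apply', he, hw]
    have hrt : ∀ j, F n c (rt n c j y) = y := by
      intro j
      unfold F
      rw [Pool.Agent.Multibrot.rt_pow hn0, sub_add_cancel]
    -- the inequality for all points
    have hQ : ∀ w : ℂ, (∀ j, w ≠ b j) → (∀ i < m, (F n c)^[i] c ≠ w) →
        ‖AA k b r w‖ₑ ≤ (PP n c)^[m] (phe k b r) w := by
      intro w hw1 hw2
      obtain ⟨x', hx'⟩ := ((F_surj hn0 c).iterate m) w
      have h1 := ih x' (by rw [hx']; exact hw1) (by rw [hx']; exact hw2)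
      rw [hx'] at h1
      refine le_trans ?_ h1
      calc ‖AA k b r w‖ₑ = ‖(AA k b r w - AA k b r x' / Rho n m c x' ^ 2) +
            AA k b r x' / Rho n m c x' ^ 2‖ₑ := by rw [sub_add_cancel]
        _ ≤ _ := enorm_add_le _ _
    obtain ⟨j0, hj0, hj0u⟩ := Pool.Agent.PLim.TRSx.exists_rt hn0 hcy (w := u) (by
      rw [← hyu]
      unfold F
      ring)
    have hfp : (fp n u ^ 2)⁻¹ = wgt n c y j0 := by
      unfold wgt fp
      rw [hj0u]
    set T' : ℂ := AA k b r x / Rho n m c x ^ 2 with hT'
    have hT : AA k b r x / Rho n (m + 1) c x ^ 2 =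
        ∑ j ∈ Finset.range n, wgt n c y j * (if j = j0 then T' else 0) := by
      rw [Finset.sum_eq_single j0, if_pos rfl, ← hfp, hT', Rho_succ, ← hu, mul_pow]
      · rw [div_eq_mul_inv, div_eq_mul_inv, mul_inv]
        ring
      · intro j _ hj
        rw [if_neg hj, mul_zero]
      · intro h
        exact absurd (Finset.mem_range.2 hj0) h
    have hphi : AA k b r y = ∑ j ∈ Finset.range n, wgt n c y j * AA k b r (rt n c j y) := by
      have h1 := Pool.Agent.PLim.p_TRP n k c b r y hb.hn hb.cyc hb.res hcy hyb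
      rw [hb.sum, zero_mul, sub_zero] at h1
      rw [← h1]
      rfl
    have hdiff : AA k b r y - AA k b r x / Rho n (m + 1) c x ^ 2 =
        ∑ j ∈ Finset.range n,
          wgt n c y j * (AA k b r (rt n c j y) - (if j = j0 then T' else 0)) := by
      rw [hT, hphi, ← Finset.sum_sub_distrib]
      exact Finset.sum_congr rfl fun j _ => (mul_sub _ _ _).symm
    rw [hdiff, Function.iterate_succ_apply', hT]
    calc ‖∑ j ∈ Finset.range n,
          wgt n c y j * (AA k b r (rt n c j y) - (if j = j0 then T' else 0))‖ₑ +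
          ‖∑ j ∈ Finset.range n, wgt n c y j * (if j = j0 then T' else 0)‖ₑ
        ≤ (∑ j ∈ Finset.range n,
          ‖wgt n c y j * (AA k b r (rt n c j y) - (if j = j0 then T' else 0))‖ₑ) +
          ∑ j ∈ Finset.range n, ‖wgt n c y j * (if j = j0 then T' else 0)‖ₑ :=
          add_le_add (enorm_sum_le _ _) (enorm_sum_le _ _)
      _ = ∑ j ∈ Finset.range n, ‖wgt n c y j‖ₑ *
          (‖AA k b r (rt n c j y) - (if j = j0 then T' else 0)‖ₑ +
            ‖(if j = j0 then T' else 0 : ℂ)‖ₑ) := by
          rw [← Finset.sum_add_distrib]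
          refine Finset.sum_congr rfl fun j _ => ?_
          rw [enorm_mul, enorm_mul, mul_add]
      _ ≤ ∑ j ∈ Finset.range n, ‖wgt n c y j‖ₑ * (PP n c)^[m] (phe k b r) (rt n c j y) := by
          refine Finset.sum_le_sum fun j hj => mul_le_mul_right ?_ _
          by_cases hjj : j = j0
          · rw [if_pos hjj, hjj, ← hj0u]
            exact ih x (hpre u hyu).1 (hpre u hyu).2
          · rw [if_neg hjj, sub_zero, enorm_zero, add_zero]
            exact hQ _ (hpre _ (hrt j)).1 (hpre _ (hrt j)).2
      _ = _ := rfl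

end Pool.Agent.MEX
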