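import Pool.Agent.MEX.Basic

/-!
# MEX: the triangle inequality with two distinguished preimages
-/

set_option autoImplicit false

open Complex Filter Topology Set MeasureTheory
open Pool.Agent.Multibrot (rt rt_pow rt_ne rt_inj zt zt_prim)
open Pool.Agent.Limb (F)
open Pool.Agent.PLim (Cyc Res AA fp fpp Rho)

namespace Pool.Agent.MEX

namespace WTQ_

/-- every preimage is one of the branches -/
lemma exists_rt {n : ℕ} (hn : n ≠ 0) {c u y : ℂ} (hu : F n c u = y) (hy : y ≠ c) :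
    ∃ j ∈ Finset.range n, rt n c j y = u := by
  set w : ℂ := rt n c 0 y with hw
  have h1 : w ^ n = y - c := rt_pow hn c 0 y
  have h2 : w ≠ 0 := rt_ne hn hy 0
  have h3 : u ^ n = y - c := by
    rw [← hu]
    unfold F
    ring
  have h4 : (u / w) ^ n = 1 := by
    rw [div_pow, h3, h1, div_self (sub_ne_zero.2 hy)]
  haveI : NeZero n := ⟨hn⟩
  obtain ⟨j, hj, he⟩ := (zt_prim hn).eq_pow_of_pow_eq_one h4
  refine ⟨j, Finset.mem_range.2 hj, ?_⟩
  have h5 : rt n c j y = zt n ^ j * w := by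
    rw [hw]
    unfold rt
    rw [pow_zero, one_mul]
  rw [h5, he, div_mul_cancel₀ _ h2]

lemma iter_succ (n : ℕ) (c : ℂ) (m : ℕ) (x : ℂ) :
    (F n c)^[m + 1] x = F n c ((F n c)^[m] x) := Function.iterate_succ_apply' _ _ _

/-- one step in the weights -/
lemma weight_succ (n : ℕ) (c : ℂ) (m : ℕ) (x A : ℂ) :
    ‖A / Rho n (m + 1) c x ^ 2‖ₑ =
      ‖((n * ((F n c)^[m] x) ^ (n - 1)) ^ 2)⁻¹‖ₑ * ‖A / Rho n m c x ^ 2‖ₑ := by
  rw [← enorm_mul, Rho_succ]
  congr 1
  unfold fp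
  rw [mul_pow, div_mul_eq_div_div, div_eq_mul_inv _ ((_ : ℂ) ^ 2), mul_comm]

end WTQ_

open WTQ_ in
theorem p_WTQ (h1 : T_WTP) : T_WTQ := by
  intro n k c b r μ m
  induction m with
  | zero =>
    intro x x' _ hne he
    exact absurd he hne
  | succ m ih =>
    intro x x' hBad hne he hy hc
    have hn : n ≠ 0 := by have := hBad.hn; omega
    set y : ℂ := (F n c)^[m + 1] x with hydef
    set u : ℂ := (F n c)^[m] x with hudef
    set u' : ℂ := (F n c)^[m] x' with hu'def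
    have hFu : F n c u = y := (iter_succ n c m x).symm
    have hFu' : F n c u' = y := by
      rw [he]
      exact (iter_succ n c m x').symm
    have hyc : y ≠ c := fun h => hc 0 (Nat.succ_pos m) (by simpa using h.symm)
    have hpass : ∀ v, F n c v = y → (∀ j, v ≠ b j) ∧ ∀ i < m, (F n c)^[i] c ≠ v := by
      intro v hv
      constructor
      · intro j hj
        apply hy (j + 1)
        rw [← hv, hj]
        have := cyc_iter hBad.cyc 1 j
        simpa using this
      · intro i hi h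
        apply hc (i + 1) (Nat.succ_lt_succ hi)
        rw [iter_succ, h, hv]
    obtain ⟨j0, hj0, hr0⟩ := exists_rt hn hFu hyc
    obtain ⟨j1, hj1, hr1⟩ := exists_rt hn hFu' hyc
    rw [Function.iterate_succ_apply', weight_succ, weight_succ, ← hudef, ← hu'def]
    show _ ≤ ∑ j ∈ Finset.range n, ‖((n * rt n c j y ^ (n - 1)) ^ 2)⁻¹‖ₑ *
      (PP n c)^[m] (phe k b r) (rt n c j y)
    by_cases huu : u = u'
    · have h2 := ih x x' hBad hne huu (hpass u hFu).1 (hpass u hFu).2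
      rw [← huu, ← mul_add]
      calc ‖((n * u ^ (n - 1)) ^ 2)⁻¹‖ₑ *
            (‖AA k b r x / Rho n m c x ^ 2‖ₑ + ‖AA k b r x' / Rho n m c x' ^ 2‖ₑ)
          ≤ ‖((n * u ^ (n - 1)) ^ 2)⁻¹‖ₑ * (PP n c)^[m] (phe k b r) u := by gcongr
        _ = ‖((n * rt n c j0 y ^ (n - 1)) ^ 2)⁻¹‖ₑ *
            (PP n c)^[m] (phe k b r) (rt n c j0 y) := by rw [hr0]
        _ ≤ _ := Finset.single_le_sum (f := fun j => ‖((n * rt n c j y ^ (n - 1)) ^ 2)⁻¹‖ₑ *
            (PP n c)^[m] (phe k b r) (rt n c j y)) (fun _ _ => bot_le) hj0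
    · have h2 := h1 n k c b r μ m x hBad (hpass u hFu).1 (hpass u hFu).2
      have h3 := h1 n k c b r μ m x' hBad (hpass u' hFu').1 (hpass u' hFu').2
      have h4 : ‖AA k b r x / Rho n m c x ^ 2‖ₑ ≤ (PP n c)^[m] (phe k b r) u :=
        le_trans le_add_self h2
      have h5 : ‖AA k b r x' / Rho n m c x' ^ 2‖ₑ ≤ (PP n c)^[m] (phe k b r) u' :=
        le_trans le_add_self h3
      have hj : j0 ≠ j1 := by
        intro h
        rw [h] at hr0
        exact huu (hr0.symm.trans hr1)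
      calc ‖((n * u ^ (n - 1)) ^ 2)⁻¹‖ₑ * ‖AA k b r x / Rho n m c x ^ 2‖ₑ +
            ‖((n * u' ^ (n - 1)) ^ 2)⁻¹‖ₑ * ‖AA k b r x' / Rho n m c x' ^ 2‖ₑ
          ≤ ‖((n * u ^ (n - 1)) ^ 2)⁻¹‖ₑ * (PP n c)^[m] (phe k b r) u +
            ‖((n * u' ^ (n - 1)) ^ 2)⁻¹‖ₑ * (PP n c)^[m] (phe k b r) u' := by gcongr
        _ = ∑ j ∈ {j0, j1}, ‖((n * rt n c j y ^ (n - 1)) ^ 2)⁻¹‖ₑ *
            (PP n c)^[m] (phe k b r) (rt n c j y) := by
          rw [Finset.sum_pair hj, hr0, hr1]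
        _ ≤ _ := by
          refine Finset.sum_le_sum_of_subset ?_
          intro j hj
          rw [Finset.mem_insert, Finset.mem_singleton] at hj
          rcases hj with rfl | rfl
          · exact hj0
          · exact hj1

end Pool.Agent.MEX
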