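import Pool.Agent.PLim.NVA
import Pool.Agent.MEX.Basic
import Pool.Agent.MEX.Targets2

/-!
# MEX: boundary values of the multiplier on a piece, exact period (T_BDVX)

Adapted from `Pool/Agent/PLim/BDV.lean`.
-/

set_option autoImplicit false

open Complex Filter Topology Set
open Pool.Agent.Multibrot (MM Q Q_eq_iterate)
open Pool.Agent.Limb (F)
open Pool.Agent.PLim (Cyc Res AA fp fpp Rho LocFix Piece T_NOA T_MMA T_LOCZ CNT_root CNT_contI
  CNT_contR CNT_diffR)

namespace Pool.Agent.MEX.BDVX_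

/-- The multiplier of an iterate. -/
lemma Rho_pow {n i : ℕ} {c z : ℂ} (hz : (F n c)^[i] z = z) (m : ℕ) :
    Rho n (i * m) c z = Rho n i c z ^ m := by
  unfold Pool.Agent.PLim.Rho
  rw [Function.iterate_mul]
  have h1 : HasDerivAt ((F n c)^[i]) (deriv ((F n c)^[i]) z) z :=
    (iter_hasDerivAt n c i z).differentiableAt.hasDerivAt
  exact (HasDerivAt.iterate z h1 hz m).deriv

/-- Exactness is an open condition. -/
lemma exa_open {n k : ℕ} {c z : ℂ} (h : Exa n k c z) :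
    ∀ᶠ p : ℂ × ℂ in 𝓝 (c, z), Exa n k p.1 p.2 := by
  have h1 : ∀ j ∈ Finset.range k, ∀ᶠ p : ℂ × ℂ in 𝓝 (c, z), 0 < j → (F n p.1)^[j] p.2 ≠ p.2 := by
    intro j hj
    rw [Finset.mem_range] at hj
    by_cases hj0 : 0 < j
    · have h2 : ContinuousAt (fun p : ℂ × ℂ => (F n p.1)^[j] p.2 - p.2) (c, z) :=
        ((CNT_contI n j).sub continuous_snd).continuousAt
      have h3 : ∀ᶠ p : ℂ × ℂ in 𝓝 (c, z), (F n p.1)^[j] p.2 - p.2 ≠ 0 :=
        h2.eventually_ne (sub_ne_zero.2 (h j hj0 hj))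
      exact h3.mono fun p hp _ => sub_ne_zero.1 hp
    · exact Eventually.of_forall fun p h0 => absurd h0 hj0
  have h2 := (Filter.eventually_all_finset (Finset.range k)).2 h1
  exact h2.mono fun p hp j hj0 hjk => hp j (Finset.mem_range.2 hjk) hj0

/-- Exactness passes to limits if the multiplier is not one. -/
lemma exa_lim (h3 : T_LOCZ) {n k : ℕ} (hn : 2 ≤ n) {c z : ℂ}
    (hz : (F n c)^[k] z = z) (hR : Rho n k c z ≠ 1)
    (hf : ∃ᶠ p : ℂ × ℂ in 𝓝 (c, z), (F n p.1)^[k] p.2 = p.2 ∧ Exa n k p.1 p.2) :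
    Exa n k c z := by
  intro j hj0 hjk hjz
  set i := Function.minimalPeriod (F n c) z with hi
  have hik : i ∣ k := Function.IsPeriodicPt.minimalPeriod_dvd hz
  have hij : i ∣ j := Function.IsPeriodicPt.minimalPeriod_dvd hjz
  have hi0 : 0 < i := Nat.pos_of_dvd_of_pos hij hj0
  have hilt : i < k := (Nat.le_of_dvd hj0 hij).trans_lt hjk
  have hiz : (F n c)^[i] z = z := Function.isPeriodicPt_minimalPeriod (F n c) z
  obtain ⟨m, hm⟩ := hik
  have hRi : Rho n i c z ≠ 1 := by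
    intro h1
    apply hR
    rw [hm, Rho_pow hiz, h1, one_pow]
  obtain ⟨δ, r, zf, -, -, hL⟩ := h3 n k c z 1 hn one_pos hz hR
  obtain ⟨δ', r', zf', -, -, hL'⟩ := h3 n i c z (min δ r) hn (lt_min hL.hδ hL.hr) hiz hRi
  have hcont : ContinuousAt zf' c :=
    (hL'.diff.differentiableAt (Metric.ball_mem_nhds c hL'.hδ)).continuousAt
  have e1 : ∀ᶠ x in 𝓝 c, zf' x ∈ Metric.ball z r := by
    have h1 := hcont.eventually (Metric.isOpen_ball.mem_nhds
      (show zf' c ∈ Metric.ball z r by rw [hL'.zf0]; exact Metric.mem_ball_self hL.hr))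
    exact h1
  have e2 : ∀ᶠ p : ℂ × ℂ in 𝓝 (c, z), zf' p.1 ∈ Metric.ball z r ∧ p.1 ∈ Metric.ball c δ ∧
      p.1 ∈ Metric.ball c δ' ∧ p.2 ∈ Metric.ball z r := by
    have t1 : Tendsto (fun p : ℂ × ℂ => p.1) (𝓝 (c, z)) (𝓝 c) := continuous_fst.tendsto (c, z)
    have t2 : Tendsto (fun p : ℂ × ℂ => p.2) (𝓝 (c, z)) (𝓝 z) := continuous_snd.tendsto (c, z)
    filter_upwards [t1.eventually e1, t1.eventually (Metric.ball_mem_nhds c hL.hδ),
      t1.eventually (Metric.ball_mem_nhds c hL'.hδ),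
      t2.eventually (Metric.ball_mem_nhds z hL.hr)] with p h1 h2 h4 h5
    exact ⟨h1, h2, h4, h5⟩
  obtain ⟨p, ⟨hp1, hp2⟩, hp3, hp4, hp5, hp6⟩ := (hf.and_eventually e2).exists
  have h5 : (F n p.1)^[i] (zf' p.1) = zf' p.1 := hL'.fix p.1 hp5
  have h6 : (F n p.1)^[k] (zf' p.1) = zf' p.1 := by
    rw [hm]
    exact Function.IsPeriodicPt.mul_const (show Function.IsPeriodicPt (F n p.1) i (zf' p.1)
      from h5) m
  have h7 : zf' p.1 = zf p.1 := hL.uniq p.1 hp4 _ hp3 h6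
  have h8 : p.2 = zf p.1 := hL.uniq p.1 hp4 _ hp6 hp1
  apply hp2 i hi0 hilt
  rw [h8, ← h7, h5]

/-- Limits of fixed points with parameters in a piece. -/
lemma lim (h3 : T_LOCZ) {n k : ℕ} {r : ℂ} {A : Set ℂ} (hn : 2 ≤ n) (hk : 1 ≤ k) (hA : Piece n r A)
    (v : ℕ → ℂ) (u : ℂ) (hv : Tendsto v atTop (𝓝 u))
    (hu : u ≠ 1)
    (h : ∀ j, ∃ c z : ℂ, c ∈ A ∧ (F n c)^[k] z = z ∧ Rho n k c z = v j ∧ Exa n k c z) :
    ∃ c z : ℂ, c ∈ insert r A ∧ (F n c)^[k] z = z ∧ Rho n k c z = u ∧ Exa n k c z := by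
  choose c z hc hz hR hE using h
  have hcb : ∀ j, ‖c j‖ ≤ 2 := fun j => by
    have h1 := hA.sub (hc j) 1
    have h2 : Q n 1 (c j) = c j := by
      rw [Q_eq_iterate]
      simp
      omega
    rw [h2] at h1
    exact h1
  have hzb : ∀ j, ‖z j‖ ≤ 4 := fun j => by
    have := CNT_root hn hk (hz j)
    have := hcb j
    linarith
  have hK : IsCompact (Metric.closedBall (0 : ℂ) 2 ×ˢ Metric.closedBall (0 : ℂ) 4) :=
    (isCompact_closedBall _ _).prod (isCompact_closedBall _ _)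
  obtain ⟨⟨c', z'⟩, -, φ, hφ, hlim⟩ := hK.tendsto_subseq (x := fun j => (c j, z j))
    (fun j => ⟨by simpa using hcb j, by simpa using hzb j⟩)
  have hc' : Tendsto (fun j => c (φ j)) atTop (𝓝 c') :=
    (continuous_fst.tendsto _).comp hlim
  have hfix : (F n c')^[k] z' = z' := by
    have h1 : Tendsto (fun j => (F n (c (φ j)))^[k] (z (φ j))) atTop (𝓝 ((F n c')^[k] z')) :=
      ((CNT_contI n k).tendsto (c', z')).comp hlim
    have h2 : Tendsto (fun j => (F n (c (φ j)))^[k] (z (φ j))) atTop (𝓝 z') := by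
      have : (fun j => (F n (c (φ j)))^[k] (z (φ j))) = fun j => z (φ j) := by
        funext j
        exact hz _
      rw [this]
      exact (continuous_snd.tendsto _).comp hlim
    exact tendsto_nhds_unique h1 h2
  have hRho : Rho n k c' z' = u := by
    have h1 : Tendsto (fun j => Rho n k (c (φ j)) (z (φ j))) atTop (𝓝 (Rho n k c' z')) :=
      ((CNT_contR n k).tendsto (c', z')).comp hlim
    have h2 : Tendsto (fun j => Rho n k (c (φ j)) (z (φ j))) atTop (𝓝 u) := by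
      have : (fun j => Rho n k (c (φ j)) (z (φ j))) = fun j => v (φ j) := by
        funext j
        exact hR _
      rw [this]
      exact hv.comp hφ.tendsto_atTop
    exact tendsto_nhds_unique h1 h2
  refine ⟨c', z', ?_, hfix, hRho, ?_⟩
  · exact hA.cl.mem_of_tendsto hc' (Eventually.of_forall fun j => mem_insert_of_mem _ (hc _))
  · refine exa_lim h3 hn hfix (by rw [hRho]; exact hu) ?_
    have h1 : Tendsto (fun j => (c (φ j), z (φ j))) atTop (𝓝 (c', z')) := hlim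
    exact h1.frequently (Frequently.of_forall fun j => ⟨hz _, hE _⟩)

/-- The values of the multiplier in the disc. -/
def SS (n k : ℕ) (A : Set ℂ) : Set ℂ :=
  {v | ‖v‖ < 1 ∧ ∃ c z : ℂ, c ∈ A ∧ (F n c)^[k] z = z ∧ Rho n k c z = v ∧ Exa n k c z}

lemma open_ (h2 : T_MMA) (h3 : T_LOCZ) (h5 : Pool.Agent.PLim.T_CNT) {n k : ℕ} {r : ℂ} {A : Set ℂ} (hn : 2 ≤ n)
    (hk : 1 ≤ k) (hA : Piece n r A) : IsOpen (SS n k A) := by
  rw [isOpen_iff_mem_nhds]
  rintro v ⟨hv, c, z, hc, hz, hR, hE⟩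
  have hv1 : v ≠ 1 := by
    rintro rfl
    simp at hv
  obtain ⟨δ, r', zf, -, -, hL⟩ := h3 n k c z 1 hn one_pos hz (by rw [hR]; exact hv1)
  obtain ⟨U, hU, hAU⟩ := hA.op
  have hcU : c ∈ U := by
    have := hc
    rw [hAU] at this
    exact this.2
  have hcb : c ∈ Metric.ball c δ := Metric.mem_ball_self hL.hδ
  have hd : DifferentiableOn ℂ (fun x => Rho n k x (zf x)) (Metric.ball c δ) :=
    CNT_diffR n k zf _ hL.diff
  have hcv : Rho n k c (zf c) = v := by rw [hL.zf0, hR]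
  have hcont : ContinuousAt (fun x => Rho n k x (zf x)) c :=
    (hd.differentiableAt (Metric.ball_mem_nhds c hL.hδ)).continuousAt
  -- all values near `c` are in the set
  have hev : ∀ᶠ x in 𝓝 c, Rho n k x (zf x) ∈ SS n k A := by
    have e1 : ∀ᶠ x in 𝓝 c, ‖Rho n k x (zf x)‖ < 1 := by
      have : ContinuousAt (fun x => ‖Rho n k x (zf x)‖) c := hcont.norm
      apply this.eventually (Iio_mem_nhds _)
      change ‖Rho n k c (zf c)‖ < 1
      rw [hcv]
      exact hv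
    have e2 : ∀ᶠ x in 𝓝 c, Exa n k x (zf x) := by
      have h6 : ContinuousAt zf c :=
        (hL.diff.differentiableAt (Metric.ball_mem_nhds c hL.hδ)).continuousAt
      have h7 : Tendsto (fun x => (x, zf x)) (𝓝 c) (𝓝 (c, z)) := by
        have h8 : ContinuousAt (fun x => (x, zf x)) c := continuousAt_id.prodMk h6
        have h9 := h8.tendsto
        rw [hL.zf0] at h9
        exact h9
      exact h7.eventually (exa_open hE)
    filter_upwards [e1, hU.mem_nhds hcU, Metric.ball_mem_nhds c hL.hδ, e2] with x hx1 hx2 hx3 hx4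
    refine ⟨hx1, x, zf x, ?_, hL.fix x hx3, rfl, hx4⟩
    rw [hAU]
    exact ⟨h2 n k x (zf x) hn hk (hL.fix x hx3) hx1, hx2⟩
  have han : AnalyticAt ℂ (fun x => Rho n k x (zf x)) c :=
    hd.analyticAt (Metric.ball_mem_nhds c hL.hδ)
  rcases han.eventually_constant_or_nhds_le_map_nhds with hcst | hnh
  · exfalso
    have hcst' : ∀ᶠ x in 𝓝 c, Rho n k x (zf x) = v := by
      filter_upwards [hcst] with x hx
      rw [hx]
      exact hcv
    have h6 : ∀ᶠ x in 𝓝 c, Rho n k x (zf x) = v ∧ x ∈ Metric.ball c δ :=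
      hcst'.and (Metric.ball_mem_nhds c hL.hδ)
    have h7 : {x | Rho n k x (zf x) = v ∧ x ∈ Metric.ball c δ}.Infinite :=
      infinite_of_mem_nhds c h6
    obtain ⟨T, hT, hTc⟩ := h7.exists_subset_card_eq (k * (n - 1) * n ^ (k - 1) + 1)
    have h8 := (h5 n k v (T.image (fun x => (x, zf x))) hn hk hv1 (by
      intro p hp
      rw [Finset.mem_image] at hp
      obtain ⟨x, hx, rfl⟩ := hp
      have := hT (Finset.mem_coe.mpr hx)
      exact ⟨hL.fix x this.2, this.1⟩)).1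
    rw [Finset.card_image_of_injective _ (fun x y hxy => congrArg Prod.fst hxy), hTc] at h8
    omega
  · rw [hcv] at hnh
    exact hnh hev

lemma closed_ (h1 : T_NOA) (h3 : T_LOCZ) {n k : ℕ} {r : ℂ} {A : Set ℂ} (hn : 2 ≤ n) (hk : 1 ≤ k)
    (hA : Piece n r A) : closure (SS n k A) ∩ Metric.ball 0 1 ⊆ SS n k A := by
  rintro v ⟨hv1, hv2⟩
  have hv : ‖v‖ < 1 := by simpa using hv2
  obtain ⟨w, hw, hlim⟩ := mem_closure_iff_seq_limit.mp hv1
  have hv1 : v ≠ 1 := by
    rintro rfl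
    simp at hv
  obtain ⟨c, z, hc, hz, hR, hE⟩ := lim h3 hn hk hA w v hlim hv1 (fun j => (hw j).2)
  refine ⟨hv, c, z, ?_, hz, hR, hE⟩
  rcases mem_insert_iff.mp hc with rfl | hc
  · exfalso
    obtain ⟨k', z', hk', hz', hn1, hn2⟩ := hA.ind
    have := h1 n k k' c z z' hn hk hk' hz hz' hn1 hn2
    rw [hR] at this
    linarith
  · exact hc

end Pool.Agent.MEX.BDVX_

namespace Pool.Agent.MEX

open BDVX_

/-- BDVX: boundary values of the multiplier on a piece, exact period. -/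
theorem p_BDVX : T_BDVX := by
  have h1 := Pool.Agent.PLim.t_NOA
  have h2 := Pool.Agent.PLim.t_MMA
  have h3 := Pool.Agent.PLim.p_LOCZ
  have h5 := Pool.Agent.PLim.t_CNT
  intro n k r A c1 z1 u hn hk hA hc1 hz1 hR1 hE1 hu hu1
  have hsub : Metric.ball (0 : ℂ) 1 ⊆ SS n k A := by
    apply (convex_ball (0 : ℂ) 1).isPreconnected.subset_of_closure_inter_subset
      (open_ h2 h3 h5 hn hk hA)
    · exact ⟨Rho n k c1 z1, by simpa using hR1, hR1, c1, z1, hc1, hz1, rfl, hE1⟩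
    · exact closed_ h1 h3 hn hk hA
  have hpos : ∀ j : ℕ, (0 : ℝ) < 1 / ((j : ℝ) + 1) := fun j => by positivity
  refine lim h3 hn hk hA (fun j : ℕ => ((1 - 1 / ((j : ℝ) + 1) : ℝ) : ℂ) * u) u ?_ hu1 ?_
  · have e1 : Tendsto (fun j : ℕ => (1 - 1 / ((j : ℝ) + 1) : ℝ)) atTop (𝓝 (1 - 0)) :=
      tendsto_const_nhds.sub tendsto_one_div_add_atTop_nhds_zero_nat
    rw [sub_zero] at e1
    have e2 : Tendsto (fun j : ℕ => ((1 - 1 / ((j : ℝ) + 1) : ℝ) : ℂ)) atTop (𝓝 ((1 : ℝ) : ℂ)) :=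
      (continuous_ofReal.tendsto 1).comp e1
    have e3 := e2.mul_const u
    rw [ofReal_one, one_mul] at e3
    exact e3
  · intro j
    have h4 : ((1 - 1 / ((j : ℝ) + 1) : ℝ) : ℂ) * u ∈ Metric.ball (0 : ℂ) 1 := by
      rw [mem_ball_zero_iff, norm_mul, hu, mul_one, norm_real, Real.norm_eq_abs, abs_of_nonneg]
      · have := hpos j
        linarith
      · have : 1 / ((j : ℝ) + 1) ≤ 1 := by
          rw [div_le_one (by positivity)]
          have : (0 : ℝ) ≤ j := Nat.cast_nonneg j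
          linarith
        linarith
    exact (hsub h4).2

end Pool.Agent.MEX
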