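import Pool.Agent.MEX.Targets2
import Pool.Agent.PLim.All4

/-!
# MEX-BIFX: the bifurcating cycle has exact period `k q`
-/

set_option autoImplicit false

open Complex Filter Topology Set
open Pool.Agent.Limb (F)
open Pool.Agent.PLim (Rho LocFix)

namespace Pool.Agent.MEX

namespace BIFX_

theorem iter_cont (n j : ℕ) : Continuous (fun x : ℂ × ℂ => (F n x.1)^[j] x.2) :=
  (PLim.LOCZ_.iter_contDiff n j).continuous

theorem dvd_of_fix {n k j : ℕ} {c z : ℂ} (hk : 1 ≤ k) (hfix : (F n c)^[k] z = z)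
    (hE : Exa n k c z) (hj : (F n c)^[j] z = z) : k ∣ j := by
  by_contra hnd
  have h1 : 0 < j % k := Nat.pos_of_ne_zero (fun h => hnd (Nat.dvd_of_mod_eq_zero h))
  have h2 : j % k < k := Nat.mod_lt _ hk
  refine hE (j % k) h1 h2 ?_
  have h3 : (F n c)^[k * (j / k)] z = z := by
    rw [Function.iterate_mul]
    exact Function.iterate_fixed hfix _
  have h4 : (F n c)^[j % k + k * (j / k)] z = z := by
    rw [Nat.mod_add_div]
    exact hj
  rw [Function.iterate_add_apply, h3] at h4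
  exact h4

end BIFX_

open BIFX_ in
/-- BIFX: the bifurcating cycle has exact period `k q`. -/
theorem p_BIFX : T_BIFX := by
  intro n k p q r z0 hn hk hp hpq hcop hfix hRho hE
  obtain ⟨t₀, γ, w, ht0, hγc, hwc, hγ, hw, hall⟩ :=
    PLim.a_BIF n k p q r z0 hn hk hp hpq hcop hfix hRho
  have hq0 : q ≠ 0 := by omega
  have hpair : Tendsto (fun t => (γ t, w t)) (𝓝[>] 0) (𝓝 (r, z0)) := hγ.prodMk_nhds hw
  have hprim : IsPrimitiveRoot (Rho n k r z0) q := by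
    rw [hRho]
    have h1 := Complex.isPrimitiveRoot_exp_of_coprime p q hq0 hcop
    have e : (2 * Real.pi * I * (p / q) : ℂ) = 2 * Real.pi * I * p / q := by ring
    rw [e] at h1
    exact h1
  have hne1 : Rho n k r z0 ≠ 1 := by
    rw [hRho]
    exact PLim.IMP_.root_ne_one hp hpq
  obtain ⟨δ1, r1, zf1, -, -, hL1⟩ := PLim.a_LOCZ n k r z0 1 hn one_pos hfix hne1
  have hzf1 : Tendsto zf1 (𝓝 r) (𝓝 z0) := by
    have h1 : ContinuousAt zf1 r := (hL1.diff.differentiableAt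
      (Metric.ball_mem_nhds r hL1.hδ)).continuousAt
    have h2 := h1.tendsto
    rwa [hL1.zf0] at h2
  -- every shorter period is excluded for small `t`
  have hev : ∀ j ∈ Finset.range (k * q), ∀ᶠ t in 𝓝[>] (0 : ℝ), 0 < j →
      (F n (γ t))^[j] (w t) ≠ w t := by
    intro j hj
    rw [Finset.mem_range] at hj
    rcases Nat.eq_zero_or_pos j with hj0 | hj0
    · exact Eventually.of_forall (fun t h => absurd h (by omega))
    by_cases hjf : (F n r)^[j] z0 = z0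
    · obtain ⟨s, rfl⟩ := dvd_of_fix hk hfix hE hjf
      have hs0 : s ≠ 0 := by
        rintro rfl
        simp at hj0
      have hsq : s < q := lt_of_mul_lt_mul_left hj (Nat.zero_le k)
      have hRs : Rho n (k * s) r z0 ≠ 1 := by
        rw [PLim.IMP_.Rho_pow' hfix]
        exact hprim.pow_ne_one_of_pos_of_lt hs0 hsq
      obtain ⟨δ2, r2, zf2, -, -, hL2⟩ := PLim.a_LOCZ n (k * s) r z0 1 hn one_pos hjf hRs
      have a1 : ∀ᶠ t in 𝓝[>] (0 : ℝ), γ t ∈ Metric.ball r δ1 :=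
        hγ (Metric.ball_mem_nhds r hL1.hδ)
      have a2 : ∀ᶠ t in 𝓝[>] (0 : ℝ), γ t ∈ Metric.ball r δ2 :=
        hγ (Metric.ball_mem_nhds r hL2.hδ)
      have a3 : ∀ᶠ t in 𝓝[>] (0 : ℝ), w t ∈ Metric.ball z0 r2 :=
        hw (Metric.ball_mem_nhds z0 hL2.hr)
      have a4 : ∀ᶠ t in 𝓝[>] (0 : ℝ), zf1 (γ t) ∈ Metric.ball z0 r2 :=
        (hzf1.comp hγ) (Metric.ball_mem_nhds z0 hL2.hr)
      have a5 : ∀ᶠ t in 𝓝[>] (0 : ℝ), t ∈ Ioc (0 : ℝ) t₀ := Ioc_mem_nhdsGT ht0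
      filter_upwards [a1, a2, a3, a4, a5] with t b1 b2 b3 b4 b5 _ hcon
      have h1 : w t = zf2 (γ t) := hL2.uniq _ b2 _ b3 hcon
      have h2 : (F n (γ t))^[k * s] (zf1 (γ t)) = zf1 (γ t) := by
        rw [Function.iterate_mul]
        exact Function.iterate_fixed (hL1.fix _ b1) _
      have h3 : zf1 (γ t) = zf2 (γ t) := hL2.uniq _ b2 _ b4 h2
      have h4 : w t = zf1 (γ t) := h1.trans h3.symm
      obtain ⟨-, h5, -, -⟩ := hall t b5
      apply h5
      rw [h4]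
      exact hL1.fix _ b1
    · have hop : IsOpen {x : ℂ × ℂ | (F n x.1)^[j] x.2 ≠ x.2} :=
        isOpen_ne_fun (iter_cont n j) continuous_snd
      have h1 : ∀ᶠ t in 𝓝[>] (0 : ℝ), (γ t, w t) ∈ {x : ℂ × ℂ | (F n x.1)^[j] x.2 ≠ x.2} :=
        hpair (hop.mem_nhds hjf)
      filter_upwards [h1] with t b1 _
      exact b1
  have hev2 : ∀ᶠ t in 𝓝[>] (0 : ℝ), ∀ j ∈ Finset.range (k * q), 0 < j →
      (F n (γ t))^[j] (w t) ≠ w t := (Filter.eventually_all_finset _).2 hev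
  obtain ⟨ε, hε, hεs⟩ := mem_nhdsGT_iff_exists_Ioo_subset.1 hev2
  have hε0 : (0 : ℝ) < ε := hε
  have ht1 : 0 < min (ε / 2) t₀ := lt_min (by linarith) ht0
  have hsub : Ioc (0 : ℝ) (min (ε / 2) t₀) ⊆ Ioc 0 t₀ :=
    Ioc_subset_Ioc_right (min_le_right _ _)
  refine ⟨min (ε / 2) t₀, γ, w, ht1, hγc.mono hsub, hwc.mono hsub, hγ, hw, ?_⟩
  intro t ht
  obtain ⟨c1, c2, c3, c4⟩ := hall t (hsub ht)
  refine ⟨c1, c2, c3, c4, ?_⟩
  intro j hj0 hj
  have h1 : t ∈ Ioo (0 : ℝ) ε := ⟨ht.1, by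
    have := ht.2.trans (min_le_left _ _)
    linarith⟩
  exact hεs h1 j (Finset.mem_range.2 hj) hj0

end Pool.Agent.MEX
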