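import Pool.Agent.MEX.Targets2
import Pool.Agent.PLim.All4

/-!
# MEX, target LNEX: existence of limbs under a condition linear in the period
-/

set_option autoImplicit false

open Complex Filter Topology Set MeasureTheory
open Pool.Agent.Multibrot Pool.Agent.Limb
open Pool.Agent.PLim

namespace Pool.Agent.MEX

namespace LNEX_

lemma LL_le {δ : ℝ} (h0 : 0 < δ) (h1 : δ ≤ 1 / 2) : LL δ ≤ δ ^ 2 := by
  have hl : 0 ≤ Real.log (1 / δ) := Real.log_nonneg (by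
    rw [le_div_iff₀ h0]
    linarith)
  unfold LL
  refine div_le_self (by positivity) ?_
  nlinarith

lemma LL_pos {δ : ℝ} (h0 : 0 < δ) (h1 : δ ≤ 1 / 2) : 0 < LL δ := by
  have hl : 0 ≤ Real.log (1 / δ) := Real.log_nonneg (by
    rw [le_div_iff₀ h0]
    linarith)
  unfold LL
  positivity

lemma Far.le_half {δ τ : ℝ} (h : Far δ τ) : δ ≤ 1 / 2 := by
  have h1 := h 1 le_rfl (by norm_num) (round (((1 : ℕ) : ℝ) * τ / (2 * Real.pi)))
  exact h1.trans (abs_sub_round _)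

end LNEX_

open LNEX_

open Pool.Agent.PLim.LIMB_ Pool.Agent.PLim.LNE_ in
theorem r_LNEX (hSECX : T_SECX) (hBIFX : T_BIFX) (hOMX : T_OMX) (hOMC : T_OMC) (hLCL : T_LCL)
    (hATN : T_ATN) (hMMA : T_MMA) (hFIXE : T_FIXE) (hBOT : T_BOT) (hLOG : T_LOG)
    (hGREEN : T_GREEN) : T_LNEX := by
  classical
  intro n hn
  obtain ⟨C1, hC1, hO⟩ := hOMX n hn
  obtain ⟨C2, hC2, hS⟩ := hSECX
  obtain ⟨Λ, hΛ⟩ := hBOT n hn
  set C3 : ℝ := C2 + 40 with hC3
  have hC3pos : 0 < C3 := by positivity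
  refine ⟨C1 * C3, by positivity, ?_⟩
  intro k p q r z0 δ hk hp hpq hcop hz0 hrho hexa hδ hfar hbig
  have hδ2 : δ ≤ 1 / 2 := Far.le_half hfar
  have hLLpos : 0 < LL δ := LL_pos hδ hδ2
  have hLLle : LL δ ≤ δ ^ 2 := LL_le hδ hδ2
  have hkR : (1 : ℝ) ≤ k := by exact_mod_cast hk
  have hpi := Real.pi_pos
  have hpi3 := Real.pi_gt_three
  have hpi4 : Real.pi < 3.15 := Real.pi_lt_d2
  have hq0 : 0 < q := by omega
  have hqR : (0 : ℝ) < q := by exact_mod_cast hq0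
  set τ : ℝ := 2 * Real.pi * p / q with hτ
  have hτI : (2 * Real.pi * I * p / q : ℂ) = (τ : ℂ) * I := by
    rw [hτ]; push_cast; ring
  have hrho' := hrho
  rw [hτI] at hrho
  have hpR : (0 : ℝ) < p := by exact_mod_cast hp
  have hτ0 : 0 < τ := by positivity
  have hτ2 : τ < 2 * Real.pi := by
    rw [hτ, div_lt_iff₀ hqR]
    have : (p : ℝ) < q := by exact_mod_cast hpq
    nlinarith
  have hrM : r ∈ MM n := by
    refine inMM hGREEN hFIXE hLOG hn hk hΛ hz0 ?_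
    rw [hrho, norm_exp_ofReal_mul_I]
  set η : ℝ := LL δ / C3 with hη
  have hηpos : 0 < η := by positivity
  set ηS : ℝ := LL δ / C2 with hηS
  have hηle : η ≤ ηS := by
    rw [hη, hηS]
    refine div_le_div_of_nonneg_left hLLpos.le (by linarith) ?_
    rw [hC3]; linarith
  have h40 : 40 ≤ C3 := by
    rw [hC3]
    linarith
  have hηδ : η ≤ δ / 80 := by
    rw [hη, div_le_iff₀ hC3pos]
    nlinarith
  have hη4 : η ≤ 1 / 4 := by linarith
  set K : ℝ := C1 * k with hK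
  have hKpos : 0 < K := by positivity
  have hKη : K < η * q := by
    rw [hη, div_mul_eq_mul_div, lt_div_iff₀ hC3pos]
    have h2 : K * C3 = C1 * C3 * k := by
      rw [hK]; ring
    rw [h2]
    linarith
  obtain ⟨ψ, χ, hψd, hχc, hψr, hχr, hsec⟩ := hS n k r z0 τ δ ηS hn hk hτ0 hτ2 hz0 hrho hexa hδ hfar rfl
  have hsubB : Metric.ball ((τ : ℂ) * I) η ⊆ Metric.ball ((τ : ℂ) * I) ηS :=
    Metric.ball_subset_ball hηle
  set om : ℂ → ℂ := fun μ => if h : ∃ w, OmR n k Λ (ψ μ) (χ μ) w then h.choose else 0 with hom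
  -- the root of unity of the points over the right half plane
  have hrep : ∀ μ ∈ Metric.ball ((τ : ℂ) * I) η, 0 < μ.re → 1 < ‖Rho n k (ψ μ) (χ μ)‖ := by
    intro μ hμ hre
    rw [(hsec μ (hsubB hμ)).2.1, norm_exp]
    exact Real.one_lt_exp_iff.2 hre
  have homX : ∀ μ ∈ Metric.ball ((τ : ℂ) * I) η, 0 < μ.re → ψ μ ∈ MM n →
      OmR n k Λ (ψ μ) (χ μ) (om μ) ∧ (∀ w', OmR n k Λ (ψ μ) (χ μ) w' → w' = om μ) ∧
      ∃ (q' : ℕ) (ν : ℂ), 1 ≤ q' ∧ om μ ^ q' = 1 ∧ exp ν = exp μ * om μ ∧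
        ‖ν‖ ^ 2 ≤ C1 * k / q' * ν.re := by
    intro μ hμ hre hψM
    obtain ⟨w, hw, huniq, -, q', ν, hq', hwq, hν, hνn⟩ :=
      hO k Λ (ψ μ) (χ μ) hk hΛ hψM (hsec μ (hsubB hμ)).1 (hrep μ hμ hre)
    have hex : ∃ w, OmR n k Λ (ψ μ) (χ μ) w := ⟨w, hw⟩
    have e : om μ = w := by
      have h1 : om μ = hex.choose := by
        simp only [hom]
        rw [dif_pos hex]
      rw [h1]
      exact huniq _ hex.choose_spec
    rw [e]
    refine ⟨hw, huniq, q', ν, hq', hwq, ?_, hνn⟩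
    rw [hν, (hsec μ (hsubB hμ)).2.1]
  have hνre : ∀ (q' : ℕ) (μ ν w : ℂ), 1 ≤ q' → w ^ q' = 1 → exp ν = exp μ * w → ν.re = μ.re := by
    intro q' μ ν w hq' hwq hν
    have hw1 : ‖w‖ = 1 := norm_eq_one_of_pow_eq_one hwq (by omega)
    have h1 : ‖exp ν‖ = ‖exp μ‖ := by rw [hν, norm_mul, hw1, mul_one]
    rw [norm_exp, norm_exp] at h1
    exact Real.exp_injective h1
  have hprim : IsPrimitiveRoot (exp (-((τ : ℂ) * I))) q := by
    have h1 := Complex.isPrimitiveRoot_exp_of_coprime p q (by omega) hcop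
    have h2 := h1.inv
    rw [← Complex.exp_neg] at h2
    have e : -(2 * Real.pi * I * ((p : ℂ) / q)) = -((τ : ℂ) * I) := by
      rw [← hτI]; ring
    rwa [e] at h2
  have hne0 : ∀ μ ∈ Metric.ball ((τ : ℂ) * I) η, ψ μ ≠ 0 := by
    intro μ hμ h0
    have h1 := hsec μ (hsubB hμ)
    rw [h0] at h1
    have h2 : ‖Rho n k 0 (χ μ)‖ < 2 := by
      rw [h1.2.1, norm_exp]
      have h3 : μ.re ≤ 1 / 4 := by
        have h4 : |(μ - (τ : ℂ) * I).re| ≤ ‖μ - (τ : ℂ) * I‖ := abs_re_le_norm _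
        rw [Metric.mem_ball, dist_eq_norm] at hμ
        have h5 : (μ - (τ : ℂ) * I).re = μ.re := by simp
        rw [h5] at h4
        linarith [le_abs_self μ.re]
      calc Real.exp μ.re ≤ Real.exp (1 / 4) := Real.exp_le_exp.2 h3
        _ < 2 := by
          have h6 : Real.exp (1 / 4) ≤ Real.exp (Real.log 2 * (1 / 2)) := by
            apply Real.exp_le_exp.2
            have := Real.log_two_gt_d9
            linarith
          have h7 : Real.exp (Real.log 2 * (1 / 2)) < Real.exp (Real.log 2) := by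
            apply Real.exp_lt_exp.2
            have := Real.log_two_gt_d9
            linarith
          rw [Real.exp_log (by norm_num : (0 : ℝ) < 2)] at h7
          linarith
    rcases rho_zero hn hk h1.1 with h3 | h3
    · have h4 := h1.2.1
      rw [h3] at h4
      exact exp_ne_zero _ h4.symm
    · linarith
  have hrne : r ≠ 0 := by
    have := hne0 ((τ : ℂ) * I) (Metric.mem_ball_self hηpos)
    rwa [hψr] at this
  -- the multiplier is not one
  have hne1 : ∀ μ ∈ Metric.ball ((τ : ℂ) * I) η, exp μ ≠ 1 := by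
    intro μ hμ h1
    obtain ⟨m, hm⟩ := Complex.exp_eq_one_iff.1 h1
    have h4 : |(μ - (τ : ℂ) * I).im| ≤ ‖μ - (τ : ℂ) * I‖ := abs_im_le_norm _
    rw [Metric.mem_ball, dist_eq_norm] at hμ
    have h5 : (μ - (τ : ℂ) * I).im = 2 * Real.pi * m - τ := by
      rw [hm]
      simp
      ring
    rw [h5] at h4
    have h6 : |2 * Real.pi * m - τ| < η := by linarith
    have h7 := hfar 1 le_rfl (by norm_num) m
    have h8 : |2 * Real.pi * m - τ| = 2 * Real.pi * |((1 : ℕ) : ℝ) * τ / (2 * Real.pi) - m| := by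
      rw [← abs_of_pos (show (0 : ℝ) < 2 * Real.pi by positivity), ← abs_mul, abs_sub_comm,
        abs_of_pos (show (0 : ℝ) < 2 * Real.pi by positivity)]
      congr 1
      push_cast
      field_simp
    rw [h8] at h6
    have h9 : 2 * Real.pi * δ ≤ 2 * Real.pi * |((1 : ℕ) : ℝ) * τ / (2 * Real.pi) - m| :=
      mul_le_mul_of_nonneg_left h7 (by positivity)
    have h10 : δ ≤ 2 * Real.pi * δ := by nlinarith
    linarith
  have hMcomp : IsCompact (MM n) := by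
    refine Metric.isCompact_of_isClosed_isBounded (MM_closed n) ?_
    refine (Metric.isBounded_iff_subset_closedBall (0 : ℂ)).2 ⟨2, fun x hx => ?_⟩
    rw [mem_closedBall_zero_iff]
    exact MM_two hn hx
  have hlc : ∀ μ₀ ∈ Metric.ball ((τ : ℂ) * I) η, 0 < μ₀.re → ψ μ₀ ∈ MM n →
      ∀ᶠ μ in 𝓝 μ₀, ψ μ ∈ MM n → om μ = om μ₀ := by
    intro μ₀ hμ₀ hre₀ hM₀
    obtain ⟨hom0, -, -⟩ := homX μ₀ hμ₀ hre₀ hM₀
    obtain ⟨δ', hδ', hloc⟩ := hOMC n k Λ (ψ μ₀) (χ μ₀) (om μ₀) hn hk hΛ hM₀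
      (hsec μ₀ (hsubB hμ₀)).1 (hrep μ₀ hμ₀ hre₀) hom0
    have hnb : Metric.ball ((τ : ℂ) * I) η ∈ 𝓝 μ₀ := Metric.isOpen_ball.mem_nhds hμ₀
    have hnbS : Metric.ball ((τ : ℂ) * I) ηS ∈ 𝓝 μ₀ :=
      Metric.isOpen_ball.mem_nhds (hsubB hμ₀)
    have hψc : ContinuousAt ψ μ₀ := (hψd.differentiableAt hnbS).continuousAt
    have hχc' : ContinuousAt χ μ₀ := hχc.continuousAt hnbS
    have e1 : ∀ᶠ μ in 𝓝 μ₀, ‖ψ μ - ψ μ₀‖ < δ' := by
      have := Metric.tendsto_nhds.1 hψc δ' hδ'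
      simpa only [dist_eq_norm] using this
    have e2 : ∀ᶠ μ in 𝓝 μ₀, ‖χ μ - χ μ₀‖ < δ' := by
      have := Metric.tendsto_nhds.1 hχc' δ' hδ'
      simpa only [dist_eq_norm] using this
    have e3 : ∀ᶠ μ : ℂ in 𝓝 μ₀, 0 < μ.re :=
      (isOpen_lt continuous_const continuous_re).mem_nhds hre₀
    filter_upwards [e1, e2, e3, hnb] with μ h1 h2 h3 h4 hM
    have h5 := hloc (ψ μ) (χ μ) hM h1 h2 (hsec μ (hsubB h4)).1
    exact ((homX μ h4 h3 hM).2.1 _ h5).symm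
  obtain ⟨L, hLM, hLU, hLcl, hLr, hL0, hLin⟩ := hLCL (MM n) r 0 τ η K q ψ om hMcomp hrM hrne.symm
    hτ0 hτ2 hηpos (by linarith) hKpos (by omega)
    hprim.pow_eq_one (fun j hj => hprim.dvd_of_pow_eq_one j hj)
    (by
      have h1 : K * η ≤ η * q * η := mul_le_mul_of_nonneg_right hKη.le hηpos.le
      have h2 : η * η ≤ 1 / 4 * (1 / 4) := mul_le_mul hη4 hη4 hηpos.le (by norm_num)
      have h3 : η * q * η ≤ 1 / 16 * q := by
        calc η * q * η = η * η * q := by ring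
          _ ≤ 1 / 4 * (1 / 4) * q := mul_le_mul_of_nonneg_right h2 hqR.le
          _ = 1 / 16 * q := by ring
      have h4 : (1 : ℝ) / 16 < Real.pi ^ 2 := by nlinarith
      have h5 : 1 / 16 * (q : ℝ) < Real.pi ^ 2 * q := mul_lt_mul_of_pos_right h4 hqR
      linarith)
    hKη
    (hψd.mono hsubB) (fun μ hμ => (hsec μ (hsubB hμ)).2.2.2.1) hψr hne0 hlc
    (by
      intro μ hμ hre hM
      obtain ⟨-, -, q', ν, hq', hwq, hν, hνn⟩ := homX μ hμ hre hM
      have hw1 : ‖om μ‖ = 1 := norm_eq_one_of_pow_eq_one hwq (by omega)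
      have hexp : exp (ν - μ) = om μ := by
        rw [Complex.exp_sub, hν, mul_div_cancel_left₀ _ (exp_ne_zero μ)]
      have hνre := hνre q' μ ν (om μ) hq' hwq hν
      have hdiff : μ - 2 * Real.pi * (((μ - ν).im / (2 * Real.pi) : ℝ) : ℂ) * I = ν := by
        have e : (2 * Real.pi * (((μ - ν).im / (2 * Real.pi) : ℝ) : ℂ) : ℂ) = ((μ - ν).im : ℂ) := by
          push_cast
          field_simp
        rw [e]
        apply Complex.ext
        · simp [hνre]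
        · simp
      refine ⟨q', (μ - ν).im / (2 * Real.pi), hq', hwq, ?_, ?_⟩
      · rw [← hexp]
        congr 1
        have : (2 * Real.pi * (((μ - ν).im / (2 * Real.pi) : ℝ) : ℂ) * I : ℂ) = μ - ν := by
          linear_combination -hdiff
        rw [this]
        ring
      · rw [hdiff, ← hνre]
        exact hνn)
  refine ⟨L, ⟨hk, hp, hpq, hcop, hz0, hrho', hLM, hLU, hLcl, hLr, hL0⟩, ?_⟩
  -- the bifurcation
  obtain ⟨t₀, γ, w, ht₀, hγc, -, hγr, -, hγ⟩ := hBIFX n k p q r z0 hn hk hp hpq hcop hz0 hrho' hexa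
  obtain ⟨t₁, m, ht₁, ht₁₀, hmc, hma, hm⟩ := lift hηpos ht₀ (hψd.mono hsubB)
    (hsec _ (hsubB (Metric.mem_ball_self hηpos))).2.2.2.1 hψr hγc hγr
  have hkq : 1 ≤ k * q := Nat.mul_pos hk hq0
  have hin : ∀ t ∈ Ioc (0 : ℝ) t₁, t ∈ Ioc (0 : ℝ) t₀ := fun t ht => ⟨ht.1, ht.2.trans ht₁₀⟩
  have hM : ∀ t ∈ Ioc (0 : ℝ) t₁, ψ (m t) ∈ MM n := by
    intro t ht
    rw [(hm t ht).2]
    obtain ⟨h1, -, -, h4, -⟩ := hγ t (hin t ht)
    exact hMMA n (k * q) (γ t) (w t) hn hkq h1 h4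
  have hre : ∀ t ∈ Ioc (0 : ℝ) t₁, 0 < (m t).re := by
    intro t ht
    by_contra hneg
    push Not at hneg
    obtain ⟨h1, h2, -, h4, -⟩ := hγ t (hin t ht)
    obtain ⟨hmB, hmψ⟩ := hm t ht
    obtain ⟨g1, g2, -, -, -⟩ := hsec (m t) (hsubB hmB)
    rw [hmψ] at g1 g2
    obtain ⟨j, hj⟩ := hATN n (k * q) k (γ t) (w t) (χ (m t)) hn hkq hk h1 g1 h4
      (by rw [g2, norm_exp]; exact Real.exp_le_one_iff.2 hneg)
      (by rw [g2]; exact hne1 _ hmB)
    exact h2 (fix_all hkq h1 hj g1)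
  -- the root of unity is constant along the path
  have hconst : ∀ s ∈ Ioc (0 : ℝ) t₁, ∀ t ∈ Ioc (0 : ℝ) t₁, om (m s) = om (m t) := by
    intro s hs t ht
    refine isPreconnected_Ioc.induction₂ (fun s t => om (m s) = om (m t)) ?_ ?_ ?_ hs ht
    · intro x hx
      have h1 := hlc (m x) (hm x hx).1 (hre x hx) (hM x hx)
      have h2 := (hmc x hx).eventually h1
      filter_upwards [h2, self_mem_nhdsWithin] with y hy hyI
      exact (hy (hM y hyI)).symm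
    · intro x y z _ _ _ h1 h2
      exact h1.trans h2
    · intro x y _ _ h1
      exact h1.symm
  have hval : om (m t₁) = exp (-((τ : ℂ) * I)) := by
    have hX : ∀ t ∈ Ioc (0 : ℝ) t₁, ∃ ν : ℂ, exp ν = exp (m t) * om (m t) ∧
        ‖ν‖ ^ 2 ≤ K * (m t).re := by
      intro t ht
      obtain ⟨-, -, q', ν, hq', hwq, hν, hνn⟩ := homX (m t) (hm t ht).1 (hre t ht) (hM t ht)
      have h1 := hνre q' (m t) ν (om (m t)) hq' hwq hν
      refine ⟨ν, hν, hνn.trans ?_⟩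
      rw [h1]
      apply mul_le_mul_of_nonneg_right _ (hre t ht).le
      have hq'R : (1 : ℝ) ≤ q' := by exact_mod_cast hq'
      exact div_le_self hKpos.le hq'R
    choose! ν hν1 hν2 using hX
    have hevI : ∀ᶠ t in 𝓝[>] (0 : ℝ), t ∈ Ioc (0 : ℝ) t₁ := Ioc_mem_nhdsGT ht₁
    have hre0 : Tendsto (fun t => K * (m t).re) (𝓝[>] (0 : ℝ)) (𝓝 0) := by
      have h1 : Tendsto (fun t => (m t).re) (𝓝[>] (0 : ℝ)) (𝓝 ((τ : ℂ) * I).re) :=
        (continuous_re.tendsto _).comp hma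
      have h2 : ((τ : ℂ) * I).re = 0 := by simp
      rw [h2] at h1
      simpa using h1.const_mul K
    have hνsq : Tendsto (fun t => ‖ν t‖ ^ 2) (𝓝[>] (0 : ℝ)) (𝓝 0) := by
      refine squeeze_zero' (Eventually.of_forall fun t => by positivity) ?_ hre0
      filter_upwards [hevI] with t ht
      exact hν2 t ht
    have hνn : Tendsto (fun t => ‖ν t‖) (𝓝[>] (0 : ℝ)) (𝓝 0) := by
      have h1 : Tendsto (fun t => Real.sqrt (‖ν t‖ ^ 2)) (𝓝[>] (0 : ℝ)) (𝓝 (Real.sqrt 0)) :=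
        (Real.continuous_sqrt.tendsto 0).comp hνsq
      rw [Real.sqrt_zero] at h1
      refine h1.congr fun t => ?_
      exact Real.sqrt_sq (norm_nonneg _)
    have hν0 : Tendsto ν (𝓝[>] (0 : ℝ)) (𝓝 0) := tendsto_zero_iff_norm_tendsto_zero.2 hνn
    have hE1 : Tendsto (fun t => exp (ν t)) (𝓝[>] (0 : ℝ)) (𝓝 1) := by
      have := (Complex.continuous_exp.tendsto 0).comp hν0
      rwa [Complex.exp_zero] at this
    have hE2 : Tendsto (fun t => exp (m t) * om (m t₁)) (𝓝[>] (0 : ℝ))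
        (𝓝 (exp ((τ : ℂ) * I) * om (m t₁))) :=
      ((Complex.continuous_exp.tendsto _).comp hma).mul_const _
    have hE3 : Tendsto (fun t => exp (m t) * om (m t₁)) (𝓝[>] (0 : ℝ)) (𝓝 1) := by
      refine hE1.congr' ?_
      filter_upwards [hevI] with t ht
      rw [hν1 t ht, hconst t ht t₁ ⟨ht₁, le_rfl⟩]
    have h1 := tendsto_nhds_unique hE2 hE3
    rw [Complex.exp_neg]
    exact eq_inv_of_mul_eq_one_right h1
  have hI1 : t₁ ∈ Ioc (0 : ℝ) t₁ := ⟨ht₁, le_rfl⟩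
  obtain ⟨g1, g2, g3, g4, g5⟩ := hγ t₁ (hin t₁ hI1)
  refine ⟨γ t₁, w t₁, ?_, g1, g4, g5⟩
  have h1 := hLin (m t₁) (hm t₁ hI1).1 (hre t₁ hI1) (hM t₁ hI1) hval
    (by rw [(hm t₁ hI1).2]; exact g3)
  rwa [(hm t₁ hI1).2] at h1

theorem p_LNEX (h1 : T_SECX) (h2 : T_BIFX) : T_LNEX :=
  r_LNEX h1 h2 a_OMX a_OMC a_LCL a_ATN a_MMA a_FIXE a_BOT a_LOG a_GREEN

end Pool.Agent.MEX
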