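import Pool.Agent.MEX.Targets2
import Pool.Agent.PLim.NEXT2

/-!
# MEX, target NEXTX: one step of the construction, avoiding a point
-/

set_option autoImplicit false

open Complex Filter Topology Set
open Pool.Agent.Multibrot Pool.Agent.Limb
open Pool.Agent.PLim (Rho LocFix IsLimb Piece OMXn T_NEST T_LIMB)

namespace Pool.Agent.MEX

namespace NEXTX_

open Pool.Agent.PLim.NEXT2_ (vv ww)

lemma vv_ne_one {N j : ℕ} (hN : 2 ≤ N) (hj : 1 ≤ j) : vv N j ≠ 1 := by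
  intro h
  unfold vv at h
  rw [Complex.exp_eq_one_iff] at h
  obtain ⟨m, hm⟩ := h
  have hpi : (2 * (Real.pi : ℂ) * I) ≠ 0 := Complex.two_pi_I_ne_zero
  have hq : (((N * j + 1 : ℕ) : ℂ)) ≠ 0 := Nat.cast_ne_zero.2 (Nat.succ_ne_zero (N * j))
  have h1 : (j : ℂ) = m * ((N * j + 1 : ℕ) : ℂ) := by
    rw [div_eq_iff hq] at hm
    apply mul_left_cancel₀ hpi
    linear_combination hm
  have h2 : (j : ℤ) = m * ((N * j + 1 : ℕ) : ℤ) := by exact_mod_cast h1
  push_cast at h2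
  have hj' : (1 : ℤ) ≤ j := by exact_mod_cast hj
  have hN' : (2 : ℤ) ≤ N := by exact_mod_cast hN
  have hpos : (0 : ℤ) < (N : ℤ) * j + 1 := by positivity
  have hm1 : 1 ≤ m := by
    by_contra hcon
    push Not at hcon
    have : m ≤ 0 := by omega
    have : m * ((N : ℤ) * j + 1) ≤ 0 := mul_nonpos_of_nonpos_of_nonneg this hpos.le
    omega
  nlinarith

lemma LL_pos {δ : ℝ} (h0 : 0 < δ) (h1 : δ ≤ 1) : 0 < LL δ := by
  unfold LL
  have : 0 ≤ Real.log (1 / δ) := Real.log_nonneg (by rw [le_div_iff₀ h0]; linarith)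
  positivity

lemma far {N j : ℕ} (hN : 7 ≤ N) (hj : 1 ≤ j) :
    Far (1 / ((N : ℝ) + 1)) (2 * Real.pi * (j : ℕ) / ((N * j + 1 : ℕ) : ℕ)) := by
  intro b hb1 hb6 m
  have hN' : (7 : ℝ) ≤ N := by exact_mod_cast hN
  have hj' : (1 : ℝ) ≤ j := by exact_mod_cast hj
  have hb1' : (1 : ℝ) ≤ b := by exact_mod_cast hb1
  have hb6' : (b : ℝ) ≤ 6 := by exact_mod_cast hb6
  have hpi : (Real.pi : ℝ) ≠ 0 := Real.pi_ne_zero
  have hq : (0 : ℝ) < (N : ℝ) * j + 1 := by positivity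
  have hx : (b : ℝ) * (2 * Real.pi * (j : ℕ) / ((N * j + 1 : ℕ) : ℕ)) / (2 * Real.pi) =
      b * j / (N * j + 1) := by
    push_cast
    field_simp
  rw [hx]
  have h1 : 1 / ((N : ℝ) + 1) ≤ b * j / (N * j + 1) := by
    rw [div_le_div_iff₀ (by positivity) hq]
    nlinarith
  have h2 : (b : ℝ) * j / (N * j + 1) ≤ 1 - 1 / ((N : ℝ) + 1) := by
    have h3 : (1 : ℝ) - 1 / ((N : ℝ) + 1) = N / (N + 1) := by
      field_simp
      ring
    rw [h3, div_le_div_iff₀ hq (by positivity)]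
    have h4 : (b : ℝ) * j * (N + 1) ≤ 6 * j * (N + 1) := by gcongr
    have h5 : (6 : ℝ) * (N + 1) ≤ N * N := by nlinarith
    have h6 : (6 : ℝ) * j * (N + 1) ≤ j * (N * N) := by nlinarith
    nlinarith
  rcases le_or_gt m 0 with hm | hm
  · have hm' : (m : ℝ) ≤ 0 := by exact_mod_cast hm
    rw [abs_of_nonneg (by linarith [h1, (by positivity : (0 : ℝ) < 1 / ((N : ℝ) + 1))])]
    linarith
  · have hm' : (1 : ℝ) ≤ m := by exact_mod_cast hm
    rw [abs_of_nonpos (by linarith [(by positivity : (0 : ℝ) < 1 / ((N : ℝ) + 1))])]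
    linarith

/-- `N j + 1` is large -/
lemma large (K L : ℝ) (hL : 0 < L) (N : ℕ) (hN : 1 ≤ N) :
    ∃ j₁ : ℕ, ∀ j, j₁ ≤ j → K < ((N * j + 1 : ℕ) : ℝ) * L := by
  obtain ⟨m, hm⟩ := exists_nat_gt (K / L)
  refine ⟨m, fun j hj => ?_⟩
  rw [div_lt_iff₀ hL] at hm
  refine hm.trans_le ?_
  refine mul_le_mul_of_nonneg_right ?_ hL.le
  have : m ≤ N * j + 1 := by nlinarith
  exact_mod_cast this

end NEXTX_

open Pool.Agent.PLim Pool.Agent.PLim.NEXT_ Pool.Agent.PLim.NEXT2_ NEXTX_ in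
theorem p_NEXTX (h1 : T_BDVX) (h2 : T_LNEX) (h3 : T_NEST) (h4 : T_LIMB) : T_NEXTX := by
  intro n k r s A c1 z1 B hn hk hP hc1 hz1 hr1 hex1
  obtain ⟨B', -, hB'⟩ := h2 n hn
  obtain ⟨C, -, hC⟩ := h4 n hn
  -- the limit multiplier
  have hinf : (ww '' {N : ℕ | 7 ≤ N}).Infinite := by
    refine Set.Infinite.image ?_ (Set.Ici_infinite 7)
    intro a ha b hb h
    have ha' : 7 ≤ a := ha
    have hb' : 7 ≤ b := hb
    exact ww_inj (by omega) (by omega) h
  obtain ⟨w, ⟨N, hN, rfl⟩, hw⟩ :=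
    hinf.exists_notMem_finite ((fin_rho n k r hn hk).union (fin_rho n k s hn hk))
  have hN7 : 7 ≤ N := hN
  rw [Set.mem_union, not_or] at hw
  set δ : ℝ := 1 / ((N : ℝ) + 1) with hδ
  have hδ0 : 0 < δ := by positivity
  have hδ1 : δ ≤ 1 := by
    rw [hδ, div_le_one (by positivity)]
    have : (0 : ℝ) ≤ N := Nat.cast_nonneg N
    linarith
  have hL := LL_pos hδ0 hδ1
  obtain ⟨d1, hd1, j1, hj1⟩ := away n k hn hk r (by omega : 1 ≤ N) hw.1
  obtain ⟨d2, hd2, j2, hj2⟩ := away n k hn hk s (by omega : 1 ≤ N) hw.2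
  obtain ⟨j3, hj3⟩ := large (B * (k : ℝ)) _ hL N (by omega)
  obtain ⟨j4, hj4⟩ := large (B' * (k : ℝ)) _ hL N (by omega)
  obtain ⟨j5, hj5⟩ := big (C * (k : ℝ) ^ 2 / d2) N
  set j : ℕ := 1 + j1 + j2 + j3 + j4 + j5 with hjdef
  have hfar := far (N := N) (j := j) hN7 (by omega)
  obtain ⟨r', z', hr', hz', hrho, hex'⟩ := h1 n k r A c1 z1 (vv N j) hn hk hP hc1 hz1 hr1 hex1
    (vv_norm N j) (vv_ne_one (by omega) (by omega))
  have hne : r' ≠ r := by
    rintro rfl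
    have := hj1 j (by omega) r' z' hz' hrho
    rw [sub_self, norm_zero] at this
    linarith
  have hrs := hj2 j (by omega) r' z' hz' hrho
  have hr'A : r' ∈ A := by
    rcases hr' with h | h
    · exact absurd h hne
    · exact h
  have hcop : j.Coprime (N * j + 1) := by
    simp
  have hlt : j < N * j + 1 := by nlinarith
  have hmin : min j (N * j + 1 - j) = j := by
    apply min_eq_left
    have : 3 * j ≤ N * j := Nat.mul_le_mul_right j (by omega)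
    omega
  obtain ⟨A', hA', c, z, hc, hz, hcz, hex⟩ := hB' k j (N * j + 1) r' z' δ hk (by omega) hlt
    hcop hz' hrho hex' hδ0 hfar (hj4 j (by omega))
  refine ⟨j, N * j + 1, r', z', A', δ, hA', hex', h3 n k j (N * j + 1) r r' z' A A' hn hP hA'
    hr'A hne, hr'A, ?_, hδ0, hfar, hj3 j (by omega), c, z, hc, hz, hcz, hex⟩
  rintro (h | h)
  · rw [h, sub_self, norm_zero] at hrs
    linarith
  · have h5 := (hC k j (N * j + 1) r' z' A' hk (by omega) hlt hcop hz' hrho hA'.sub hA'.op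
      hA'.cl hA'.nr hA'.n0).2 s h
    rw [hmin] at h5
    have h6 := hj5 j (by omega)
    have h7 : d2 * (j : ℝ) ^ 2 ≤ ‖s - r'‖ * (j : ℝ) ^ 2 := by
      rw [norm_sub_rev]
      gcongr
    have h8 : C * (k : ℝ) ^ 2 * ((N * j + 1 : ℕ) : ℝ) < d2 * (j : ℝ) ^ 2 := by
      have h9 := mul_lt_mul_of_pos_left h6 hd2
      calc C * (k : ℝ) ^ 2 * ((N * j + 1 : ℕ) : ℝ)
          = d2 * (C * (k : ℝ) ^ 2 / d2 * ((N * j + 1 : ℕ) : ℝ)) := by
            field_simp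
        _ < d2 * (j : ℝ) ^ 2 := h9
    linarith

end Pool.Agent.MEX
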