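import Pool.Agent.MEX.All
import Pool.Agent.MEX.LIMBX
import Pool.Agent.MEX.LIMUX
import Pool.Agent.MEX.LCSX
import Pool.Agent.MEX.BDVX
import Pool.Agent.MEX.BIFX
import Pool.Agent.MEX.LNEX
import Pool.Agent.MEX.NEXTX
import Pool.Agent.MEX.DENSX
import Pool.Agent.MEX.UNCX
import Pool.Agent.MEX.FINX

/-!
# MEX: assembly of the consequences
-/

set_option autoImplicit false

open Pool.Agent.PLim (a_ANN a_STRIP a_COAL a_EXPAND a_COV a_FRO a_BOT a_LOG a_GREEN a_NEST a_LIMB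
  a_MMA a_LOCZ a_TRANS a_FINF)

namespace Pool.Agent.MEX

theorem a_LIMBX : T_LIMBX := p_LIMBX
theorem a_LIMUX : T_LIMUX := p_LIMUX a_ANN a_STRIP a_COAL
theorem a_LCSX : T_LCSX := p_LCSX a_EXPAND a_COV a_FRO a_BOT a_LOG a_GREEN
theorem a_BDVX : T_BDVX := p_BDVX
theorem a_BIFX : T_BIFX := p_BIFX
theorem a_LNEX : T_LNEX := p_LNEX a_SECX a_BIFX
theorem a_NEXTX : T_NEXTX := p_NEXTX a_BDVX a_LNEX a_NEST a_LIMB
theorem a_DENSX : T_DENSX := p_DENSX a_MMA a_LOCZ a_TRANS a_FINF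
theorem a_UNCX : T_UNCX := p_UNCX a_DENSX a_LNEX a_NEXTX a_LIMUX a_LIMBX a_SECX
theorem a_FINX : T_FINX := p_FINX a_NCX a_SECX a_LIMBX a_LIMUX a_LCSX a_UNCX

end Pool.Agent.MEX
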