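import Pool.Agent.PLim.Targets4

/-!
# MEX: definitions

The quadratic differential `AA k b r` of a cycle at which the derivative of the multiplier
vanishes, its natural charts, the transfer operator, and the sheets over one chart.
-/

set_option autoImplicit false

open Complex Filter Topology Set MeasureTheory
open Pool.Agent.Multibrot (rt push)
open Pool.Agent.Limb (F)
open Pool.Agent.PLim (Cyc Res AA fp fpp Rho LocFix)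

namespace Pool.Agent.MEX

/-- A cycle of exact period `k` with multiplier `exp μ`; the derivative of the multiplier with
respect to the parameter vanishes (`sum`). -/
structure Bad (n k : ℕ) (c : ℂ) (b r : ℕ → ℂ) (μ : ℂ) : Prop where
  hn : 2 ≤ n
  cyc : Cyc n k c b
  res : Res n k b r
  sum : ∑ j ∈ Finset.range k, r j = 0
  mul : exp μ = ∏ j ∈ Finset.range k, fp n (b j)

/-! ### natural maps and charts -/

/-- Natural maps of the quadratic differential `AA k b r`: `g' ^ 2 * AA (g) = 1`. -/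
structure NM (k : ℕ) (b r : ℕ → ℂ) (U : Set ℂ) (g : ℂ → ℂ) : Prop where
  diff : DifferentiableOn ℂ g U
  avoid : ∀ ζ ∈ U, ∀ j, g ζ ≠ b j
  nat : ∀ ζ ∈ U, deriv g ζ ^ 2 * AA k b r (g ζ) = 1

/-- Open sets, invariant under translations to the left, containing a left half plane. -/
structure LI (W : Set ℂ) : Prop where
  op : IsOpen W
  left : ∀ ζ ∈ W, ∀ s : ℝ, 0 ≤ s → ζ - s ∈ W
  inf : ∃ R : ℝ, ∀ ζ : ℂ, ζ.re < R → ζ ∈ W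

/-- The filter `Re ζ → -∞`. -/
def lf : Filter ℂ := comap Complex.re atBot

/-- Charts at the double pole `b j`. -/
structure Cht (k : ℕ) (b r : ℕ → ℂ) (j : ℕ) (W : Set ℂ) (g : ℂ → ℂ) : Prop where
  li : LI W
  nm : NM k b r W g
  asy : Tendsto (fun ζ => (g ζ - b j) * exp (-ζ)) lf (𝓝 1)

/-- The maximal charts `χ j` on `V j`. -/
structure MaxC (k : ℕ) (b r : ℕ → ℂ) (V : ℕ → Set ℂ) (χ : ℕ → ℂ → ℂ) : Prop where
  cht : ∀ j, Cht k b r j (V j) (χ j)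
  mx : ∀ (j : ℕ) (W : Set ℂ) (g : ℂ → ℂ), Cht k b r j W g → W ⊆ V j ∧ EqOn g (χ j) W
  vper : ∀ (j : ℕ) (ζ : ℂ), ζ + 2 * Real.pi * I ∈ V j ↔ ζ ∈ V j
  cper : ∀ (j : ℕ), ∀ ζ ∈ V j, χ j (ζ + 2 * Real.pi * I) = χ j ζ
  vj : ∀ j, V (j + k) = V j
  cj : ∀ j, χ (j + k) = χ j

/-- The numerator of `AA k b r`. -/
structure Num (k : ℕ) (b r : ℕ → ℂ) (P : Polynomial ℂ) : Prop where
  ne : P ≠ 0
  deg : P.natDegree + 3 ≤ 2 * k
  pole : ∀ j, P.eval (b j) ≠ 0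
  eq : ∀ x : ℂ, (∀ j, x ≠ b j) →
    AA k b r x * ∏ j ∈ Finset.range k, (x - b j) ^ 2 = P.eval x

/-! ### the transfer operator -/

/-- The density of `|AA|`. -/
noncomputable def phe (k : ℕ) (b r : ℕ → ℂ) (x : ℂ) : ENNReal := ‖AA k b r x‖ₑ

/-- The transfer operator. -/
noncomputable def PP (n : ℕ) (c : ℂ) (g : ℂ → ENNReal) (y : ℂ) : ENNReal :=
  ∑ j ∈ Finset.range n, ‖((n * rt n c j y ^ (n - 1)) ^ 2)⁻¹‖ₑ * g (rt n c j y)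

/-- The relative mass defect in the chart. -/
noncomputable def Dfc (n k : ℕ) (c : ℂ) (b r : ℕ → ℂ) (V : ℕ → Set ℂ) (χ : ℕ → ℂ → ℂ) (j : ℕ) :
    ℂ → ENNReal :=
  (V j).indicator fun ζ => (PP n c)^[k] (phe k b r) (χ j ζ) / phe k b r (χ j ζ) - 1

/-- The pull back of the quadratic differential. -/
noncomputable def Lam (k : ℕ) (b r : ℕ → ℂ) (G : ℂ → ℂ) (ζ : ℂ) : ℂ :=
  AA k b r (G ζ) * deriv G ζ ^ 2

/-! ### one chart with small mass defect -/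

/-- A chart with mass defect at most `d`. -/
structure Bas (n k : ℕ) (c : ℂ) (b r : ℕ → ℂ) (μ : ℂ) (V : ℕ → Set ℂ) (χ : ℕ → ℂ → ℂ) (J : ℕ)
    (D : ℂ → ENNReal) (d : ℝ) : Prop where
  bad : Bad n k c b r μ
  mx : MaxC k b r V χ
  hJ : k ≤ J
  hd : μ.re ≤ d
  Dm : Measurable D
  Dper : ∀ ζ, D (ζ + 2 * Real.pi * I) = D ζ
  Dint : ∫⁻ ζ in {ζ : ℂ | 0 ≤ ζ.im ∧ ζ.im < 2 * Real.pi}, D ζ ≤ ENNReal.ofReal d
  wt : ∀ (m : ℕ) (W : Set ℂ) (G : ℂ → ℂ), m ≤ k → IsOpen W → W ⊆ V J → DifferentiableOn ℂ G W →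
    (∀ ζ ∈ W, (F n c)^[m] (G ζ) = χ J ζ) →
    ∀ᵐ ζ : ℂ, ζ ∈ W → ENNReal.ofReal (‖1 - Lam k b r G ζ‖ + ‖Lam k b r G ζ‖) ≤ 1 + D ζ
  wt2 : ∀ (m : ℕ) (W : Set ℂ) (G G' : ℂ → ℂ), m ≤ k → IsOpen W → W ⊆ V J →
    DifferentiableOn ℂ G W → DifferentiableOn ℂ G' W →
    (∀ ζ ∈ W, (F n c)^[m] (G ζ) = χ J ζ) → (∀ ζ ∈ W, (F n c)^[m] (G' ζ) = χ J ζ) →
    (∀ ζ ∈ W, G ζ ≠ G' ζ) →
    ∀ᵐ ζ : ℂ, ζ ∈ W → ENNReal.ofReal (‖Lam k b r G ζ‖ + ‖Lam k b r G' ζ‖) ≤ 1 + D ζ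

/-- The horizontal distance to the boundary of `{Re ζ < h + a (Im ζ)}`. -/
def et (h : ℝ) (a : ℝ → ℝ) (ζ : ℂ) : ℝ := h + a ζ.im - ζ.re

/-- A region `{Re ζ < h + a (Im ζ)}` contained in the domain of the chart. -/
structure Rnd (n k : ℕ) (c : ℂ) (b r : ℕ → ℂ) (μ : ℂ) (V : ℕ → Set ℂ) (χ : ℕ → ℂ → ℂ) (J : ℕ)
    (D : ℂ → ENNReal) (d h : ℝ) (a : ℝ → ℝ) : Prop
    extends Bas n k c b r μ V χ J D d where
  lip : ∀ x y : ℝ, |a x - a y| ≤ |x - y|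
  aper : ∀ x : ℝ, a (x + 2 * Real.pi) = a x
  a0 : ∀ x : ℝ, 0 ≤ a x
  a1 : ∀ x : ℝ, a x ≤ 1 / 2
  sub : ∀ ζ : ℂ, 0 < et h a ζ → ζ ∈ V J

/-- The sheet of level `m` on `{lam < et}`. -/
structure Lvl (n k : ℕ) (c : ℂ) (b r : ℕ → ℂ) (χ : ℕ → ℂ → ℂ) (J : ℕ) (h : ℝ) (a : ℝ → ℝ)
    (m : ℕ) (lam : ℝ) (G : ℂ → ℂ) : Prop where
  hk : m ≤ k
  hl : 0 ≤ lam
  diff : DifferentiableOn ℂ G {ζ : ℂ | lam < et h a ζ}
  sht : ∀ ζ : ℂ, lam < et h a ζ → (F n c)^[m] (G ζ) = χ J ζ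
  per : ∀ ζ : ℂ, lam < et h a ζ → G (ζ + 2 * Real.pi * I) = G ζ
  asy : Tendsto (fun ζ => (G ζ - b (J - m)) * exp (-ζ)) lf
    (𝓝 (∏ i ∈ Finset.range m, fp n (b (J - m + i)))⁻¹)

/-- The smallness relation between the mass defect `d` and the scale `t`. -/
structure Small (C d t : ℝ) : Prop where
  hC : 1 ≤ C
  hd : 0 < d
  hd1 : d ≤ 1 / 10
  ht : 0 < t
  ht1 : t ≤ 1 / 2000
  hdt : C * √d * (1 + Real.log (1 / d)) ≤ t

/-! ### angles -/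

/-- The tent function: `max 0 (1/2 - dist (y, θ + 2 π ℤ))`. -/
noncomputable def tnt (θ y : ℝ) : ℝ :=
  max 0 (1 / 2 - |y - θ - 2 * Real.pi * round ((y - θ) / (2 * Real.pi))|)

/-- `δ ^ 2 / (1 + log (1 / δ)) ^ 2`. -/
noncomputable def LL (δ : ℝ) : ℝ := δ ^ 2 / (1 + Real.log (1 / δ)) ^ 2

/-- `τ / 2 π` has distance at least `δ / b` from the rational numbers of denominator `b ≤ 6`. -/
def Far (δ τ : ℝ) : Prop :=
  ∀ q : ℕ, 1 ≤ q → q ≤ 6 → ∀ m : ℤ, δ ≤ |q * τ / (2 * Real.pi) - m|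

end Pool.Agent.MEX
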