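import Pool.Agent.MEX.Targets

/-!
# MEX-HAR: derivative estimate for almost positive holomorphic functions
-/

set_option autoImplicit false

open Complex Filter Topology Set MeasureTheory

namespace Pool.Agent.MEX

namespace HAR_

/-- area of a disc -/
theorem vol (a : ℂ) (r : ℝ) (hr : 0 ≤ r) :
    (volume : Measure ℂ).real (Metric.ball a r) = Real.pi * r ^ 2 := by
  rw [Measure.real, Complex.volume_ball, ENNReal.toReal_mul, ENNReal.toReal_pow,
    ENNReal.toReal_ofReal hr]
  simp [mul_comm]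

theorem one (a : ℂ) (r : ℝ) (hr : 0 ≤ r) :
    ∫ _z in Metric.ball a r, (1 : ℝ) = Real.pi * r ^ 2 := by
  rw [setIntegral_const, vol a r hr, smul_eq_mul, mul_one]

theorem integ {E : Type} [NormedAddCommGroup E] {a : ℂ} {r s : ℝ} {f : ℂ → E} (hrs : r < s)
    (hf : ContinuousOn f (Metric.ball a s)) : IntegrableOn f (Metric.ball a r) :=
  ((hf.mono (Metric.closedBall_subset_ball hrs)).integrableOn_compact
    (isCompact_closedBall a r)).mono_set Metric.ball_subset_closedBall

/-- mean value of the function itself -/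
theorem mean (h1 : T_RMV) {a : ℂ} {r s : ℝ} {X : ℂ → ℂ} (hr : 0 < r) (hrs : r < s)
    (hX : DifferentiableOn ℂ X (Metric.ball a s)) :
    ∫ z in Metric.ball a r, X z = ((Real.pi * r ^ 2 : ℝ) : ℂ) * X a := by
  have h := h1 a s r X (fun _ => 1) hr hrs hX continuous_const
  rw [one a r hr.le] at h
  rw [← h]
  refine integral_congr_ae (Eventually.of_forall fun z => ?_)
  show X z = ((1 : ℝ) : ℂ) * X z
  rw [Complex.ofReal_one, one_mul]

theorem u_nonneg (X : ℂ → ℂ) (z : ℂ) : 0 ≤ ‖X z‖ - (X z).re :=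
  sub_nonneg.2 (Complex.re_le_norm (X z))

theorem intU {a : ℂ} {r s d : ℝ} {X : ℂ → ℂ} (hrs : r < s) (hd : 0 ≤ d)
    (hX : DifferentiableOn ℂ X (Metric.ball a s))
    (hu : ∫⁻ z in Metric.ball a s, ENNReal.ofReal (‖X z‖ - (X z).re) ≤ ENNReal.ofReal d) :
    ∫ z in Metric.ball a r, (‖X z‖ - (X z).re) ≤ d := by
  have hc : ContinuousOn (fun z => ‖X z‖ - (X z).re) (Metric.ball a s) :=
    hX.continuousOn.norm.sub (Complex.continuous_re.comp_continuousOn hX.continuousOn)
  rw [integral_eq_lintegral_of_nonneg_ae (Eventually.of_forall fun z => u_nonneg X z)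
    (integ hrs hc).aestronglyMeasurable]
  refine ENNReal.toReal_le_of_le_ofReal hd ?_
  refine le_trans ?_ hu
  exact lintegral_mono_set (Metric.ball_subset_ball hrs.le)

theorem intX (h1 : T_RMV) {a : ℂ} {r s d : ℝ} {X : ℂ → ℂ} (hr : 0 < r) (hrs : r < s)
    (hd : 0 ≤ d) (hX : DifferentiableOn ℂ X (Metric.ball a s))
    (hu : ∫⁻ z in Metric.ball a s, ENNReal.ofReal (‖X z‖ - (X z).re) ≤ ENNReal.ofReal d)
    (ha : ‖X a‖ ≤ 2) :
    ∫ z in Metric.ball a r, ‖X z‖ ≤ d + Real.pi * r ^ 2 * 2 := by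
  have hcX : ContinuousOn X (Metric.ball a s) := hX.continuousOn
  have i1 : IntegrableOn (fun z => ‖X z‖ - (X z).re) (Metric.ball a r) :=
    integ hrs (hcX.norm.sub (Complex.continuous_re.comp_continuousOn hcX))
  have i2 : IntegrableOn (fun z => (X z).re) (Metric.ball a r) :=
    integ hrs (Complex.continuous_re.comp_continuousOn hcX)
  have e1 : ∫ z in Metric.ball a r, ‖X z‖ =
      (∫ z in Metric.ball a r, (‖X z‖ - (X z).re)) + ∫ z in Metric.ball a r, (X z).re := by
    rw [← integral_add i1 i2]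
    refine integral_congr_ae (Eventually.of_forall fun z => ?_)
    show ‖X z‖ = (‖X z‖ - (X z).re) + (X z).re
    ring
  have e2 : ∫ z in Metric.ball a r, (X z).re = Real.pi * r ^ 2 * (X a).re := by
    have h2 : ∫ z in Metric.ball a r, (X z).re = (∫ z in Metric.ball a r, X z).re :=
      Complex.reCLM.integral_comp_comm (integ hrs hcX)
    rw [h2, mean h1 hr hrs hX, Complex.re_ofReal_mul]
  rw [e1, e2]
  have h3 := intU hrs hd hX hu
  have h4 : (X a).re ≤ 2 := (Complex.re_le_norm _).trans ha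
  have h5 : 0 ≤ Real.pi * r ^ 2 := by positivity
  have h6 := mul_le_mul_of_nonneg_left h4 h5
  linarith

/-- pointwise bound -/
theorem bound (h1 : T_RMV) (h2 : T_MVL) {a : ℂ} {s d : ℝ} {X : ℂ → ℂ} (hs : 0 < s)
    (hd : 0 ≤ d) (hds : d ≤ s ^ 2) (hX : DifferentiableOn ℂ X (Metric.ball a s))
    (hu : ∫⁻ z in Metric.ball a s, ENNReal.ofReal (‖X z‖ - (X z).re) ≤ ENNReal.ofReal d)
    (ha : ‖X a‖ ≤ 2) {z : ℂ} (hz : z ∈ Metric.ball a (s / 2)) : ‖X z‖ ≤ 24 := by
  have hb : Metric.ball z (s / 4) ⊆ Metric.ball a (3 * s / 4) := by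
    refine Metric.ball_subset_ball' ?_
    have := Metric.mem_ball.1 hz
    linarith
  have hb2 : Metric.ball a (3 * s / 4) ⊆ Metric.ball a s := Metric.ball_subset_ball (by linarith)
  have m1 := h2 z (s / 4) X (by linarith) (hX.mono (hb.trans hb2))
  have m2 : ∫⁻ w in Metric.ball z (s / 4), ‖X w‖ₑ ≤
      ENNReal.ofReal (∫ w in Metric.ball a (3 * s / 4), ‖X w‖) := by
    refine (lintegral_mono_set hb).trans ?_
    rw [ofReal_integral_norm_eq_lintegral_enorm (integ (by linarith) hX.continuousOn)]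
  have m3 := intX h1 (r := 3 * s / 4) (by linarith) (by linarith) hd hX hu ha
  have m4 := (m1.trans m2).trans (ENNReal.ofReal_le_ofReal m3)
  have m5 : 0 ≤ d + Real.pi * (3 * s / 4) ^ 2 * 2 := by positivity
  have m6 := (ENNReal.ofReal_le_ofReal_iff m5).1 m4
  have hpi := Real.pi_gt_three
  by_contra hcon
  have hcon' : 24 < ‖X z‖ := not_le.1 hcon
  have hs2 : 0 < s ^ 2 := by positivity
  have m7 : Real.pi * (s / 4) ^ 2 * 24 < Real.pi * (s / 4) ^ 2 * ‖X z‖ :=
    mul_lt_mul_of_pos_left hcon' (by positivity)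
  nlinarith [mul_pos (sub_pos.2 hpi) hs2]

/-- the imaginary part -/
theorem imb {X U e : ℝ} {w : ℂ} (hU : U = ‖w‖ - w.re) (hw : ‖w‖ ≤ 24) (he : 0 < e)
    (hX : X = |w.im|) : X ≤ (U * (1 / e) + 48 * e) / 2 := by
  have hU0 : 0 ≤ U := hU ▸ sub_nonneg.2 (Complex.re_le_norm w)
  have h1 : w.im ^ 2 = U * (‖w‖ + w.re) := by
    have := Complex.sq_norm w
    rw [Complex.normSq_apply] at this
    rw [hU]
    nlinarith
  have h2 : w.im ^ 2 ≤ U * 48 := by
    rw [h1]
    refine mul_le_mul_of_nonneg_left ?_ hU0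
    have := Complex.re_le_norm w
    linarith
  have h3 : X ^ 2 ≤ U * 48 := by rw [hX, sq_abs]; exact h2
  have hX0 : 0 ≤ X := hX ▸ abs_nonneg _
  have hv : 0 ≤ U * (1 / e) + 48 * e := by positivity
  have h4 : (2 * X) ^ 2 ≤ (U * (1 / e) + 48 * e) ^ 2 := by
    have h5 : (U * (1 / e)) * (48 * e) = U * 48 := by
      field_simp
    have h6 := sq_nonneg (U * (1 / e) - 48 * e)
    nlinarith
  have h7 : 2 * X ≤ U * (1 / e) + 48 * e := by
    have := sq_le_sq.1 h4
    rwa [abs_of_nonneg (by positivity), abs_of_nonneg hv] at this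
  linarith

/-- the second moment of a disc is at least `(3 pi / 16) r ^ 4` -/
theorem mom (a : ℂ) (r : ℝ) (hr : 0 < r) :
    3 * Real.pi / 16 * r ^ 4 ≤ ∫ z in Metric.ball a r, ‖z - a‖ ^ 2 := by
  have hc : ContinuousOn (fun z : ℂ => ‖z - a‖ ^ 2) (Metric.ball a (2 * r)) := by fun_prop
  have i1 : IntegrableOn (fun z : ℂ => ‖z - a‖ ^ 2) (Metric.ball a r) := integ (by linarith) hc
  have hsub : Metric.ball a (r / 2) ⊆ Metric.ball a r := Metric.ball_subset_ball (by linarith)
  have e1 : ∫ _z in Metric.ball a r \ Metric.ball a (r / 2), (r / 2) ^ 2 =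
      3 * Real.pi / 16 * r ^ 4 := by
    rw [setIntegral_const, measureReal_sdiff hsub Metric.isOpen_ball.measurableSet,
      vol a r hr.le, vol a (r / 2) (by linarith), smul_eq_mul]
    ring
  rw [← e1]
  have i2 : IntegrableOn (fun z : ℂ => ‖z - a‖ ^ 2) (Metric.ball a r \ Metric.ball a (r / 2)) :=
    i1.mono_set sdiff_subset
  have i3 : IntegrableOn (fun _ : ℂ => (r / 2) ^ 2)
      (Metric.ball a r \ Metric.ball a (r / 2)) := by
    refine (integ (E := ℝ) (a := a) (r := r) (s := 2 * r) (f := fun _ => (r / 2) ^ 2)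
      (by linarith) continuousOn_const).mono_set sdiff_subset
  refine le_trans (setIntegral_mono_on i3 i2
    (Metric.isOpen_ball.measurableSet.diff Metric.isOpen_ball.measurableSet) ?_) ?_
  · intro z hz
    have h1 : r / 2 ≤ ‖z - a‖ := by
      have := hz.2
      rw [Metric.mem_ball, not_lt, dist_eq_norm] at this
      exact this
    exact pow_le_pow_left₀ (by linarith) h1 2
  · exact setIntegral_mono_set i1 (Eventually.of_forall fun z => sq_nonneg _)
      sdiff_subset.eventuallyLE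

/-- the integral of the imaginary part -/
theorem intI (h1 : T_RMV) (h2 : T_MVL) {a : ℂ} {s d : ℝ} {X : ℂ → ℂ} (hs : 0 < s)
    (hd : 0 < d) (hds : d ≤ s ^ 2) (hX : DifferentiableOn ℂ X (Metric.ball a s))
    (hu : ∫⁻ z in Metric.ball a s, ENNReal.ofReal (‖X z‖ - (X z).re) ≤ ENNReal.ofReal d)
    (ha : ‖X a‖ ≤ 2) : ∫ z in Metric.ball a (s / 2), |(X z).im| ≤ 25 * s * √d := by
  have hcX : ContinuousOn X (Metric.ball a s) := hX.continuousOn
  have hsq : 0 < √d := Real.sqrt_pos.2 hd
  set e : ℝ := √d / s with he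
  have he0 : 0 < e := div_pos hsq hs
  have hrs : s / 2 < s := by linarith
  have i1 : IntegrableOn (fun z => ‖X z‖ - (X z).re) (Metric.ball a (s / 2)) :=
    integ hrs (hcX.norm.sub (Complex.continuous_re.comp_continuousOn hcX))
  have i2 : IntegrableOn (fun z => |(X z).im|) (Metric.ball a (s / 2)) :=
    integ hrs (Complex.continuous_im.comp_continuousOn hcX).abs
  have i3 : IntegrableOn (fun _ : ℂ => (48 * e : ℝ)) (Metric.ball a (s / 2)) :=
    integ (s := s) hrs continuousOn_const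
  have i4 : IntegrableOn (fun z => (‖X z‖ - (X z).re) * (1 / e)) (Metric.ball a (s / 2)) :=
    i1.mul_const _
  have m1 : ∫ z in Metric.ball a (s / 2), |(X z).im| ≤
      ∫ z in Metric.ball a (s / 2), ((‖X z‖ - (X z).re) * (1 / e) + 48 * e) / 2 := by
    refine setIntegral_mono_on i2 ((i4.add i3).div_const 2) Metric.isOpen_ball.measurableSet
      fun z hz => ?_
    exact imb rfl (bound h1 h2 hs hd.le hds hX hu ha hz) he0 rfl
  have m2 : ∫ z in Metric.ball a (s / 2), ((‖X z‖ - (X z).re) * (1 / e) + 48 * e) / 2 =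
      ((∫ z in Metric.ball a (s / 2), (‖X z‖ - (X z).re)) * (1 / e) +
        Real.pi * (s / 2) ^ 2 * (48 * e)) / 2 := by
    rw [integral_div, integral_add i4 i3, integral_mul_const, setIntegral_const,
      vol a (s / 2) (by linarith), smul_eq_mul]
  have m3 := intU hrs hd.le hX hu
  have m4 : (∫ z in Metric.ball a (s / 2), (‖X z‖ - (X z).re)) * (1 / e) ≤ d * (1 / e) :=
    mul_le_mul_of_nonneg_right m3 (by positivity)
  have m5 : d * (1 / e) = s * √d := by
    rw [he, one_div_div, mul_div_assoc', mul_comm d s, mul_div_assoc, Real.div_sqrt]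
  have m6 : Real.pi * (s / 2) ^ 2 * (48 * e) = 12 * Real.pi * (s * √d) := by
    rw [he]
    field_simp
    ring
  have hpi := Real.pi_lt_four
  have hsd : 0 < s * √d := mul_pos hs hsq
  rw [m2, m6] at m1
  nlinarith

/-- the moment formula for the derivative -/
theorem der (h1 : T_RMV) {a : ℂ} {r s : ℝ} {X : ℂ → ℂ} (hr : 0 < r) (hrs : r < s)
    (hX : DifferentiableOn ℂ X (Metric.ball a s)) :
    (∫ z in Metric.ball a r, ‖z - a‖ ^ 2) * ‖deriv X a‖ ≤
      2 * r * ∫ z in Metric.ball a r, |(X z).im| := by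
  have hs : 0 < s := hr.trans hrs
  have hcX : ContinuousOn X (Metric.ball a s) := hX.continuousOn
  have hY : DifferentiableOn ℂ (dslope X a) (Metric.ball a s) :=
    (Complex.differentiableOn_dslope (Metric.ball_mem_nhds a hs)).2 hX
  have q1 := h1 a s r (dslope X a) (fun t => t ^ 2) hr hrs hY (continuous_pow 2)
  rw [dslope_same] at q1
  have hid : DifferentiableOn ℂ (fun z : ℂ => z - a) (Metric.ball a s) :=
    (differentiable_id.sub_const a).differentiableOn
  have q2 : ∫ z in Metric.ball a r, (z - a) = 0 := by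
    rw [mean h1 hr hrs hid, sub_self, mul_zero]
  have q3 : ∫ z in Metric.ball a r, (z - a) * X z = 0 := by
    have := mean h1 (X := fun z => (z - a) * X z) hr hrs (hid.mul hX)
    rw [this, sub_self, zero_mul, mul_zero]
  have q4 : ∫ z in Metric.ball a r, (starRingEnd ℂ) (z - a) = 0 := by
    rw [integral_conj, q2, map_zero]
  have q5 : ∫ z in Metric.ball a r, (starRingEnd ℂ) (z - a) * (starRingEnd ℂ) (X z) = 0 := by
    have : ∀ z, (starRingEnd ℂ) (z - a) * (starRingEnd ℂ) (X z) =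
        (starRingEnd ℂ) ((z - a) * X z) := fun z => (map_mul _ _ _).symm
    simp only [this]
    rw [integral_conj, q3, map_zero]
  have c1 : ContinuousOn (fun z : ℂ => (starRingEnd ℂ) (z - a)) (Metric.ball a s) :=
    (Complex.continuous_conj.comp (continuous_id.sub continuous_const)).continuousOn
  have c2 : ContinuousOn (fun z : ℂ => (starRingEnd ℂ) (X z)) (Metric.ball a s) :=
    Complex.continuous_conj.comp_continuousOn hcX
  have j1 : IntegrableOn (fun z => (starRingEnd ℂ) (z - a) * X a) (Metric.ball a r) :=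
    integ hrs (c1.mul continuousOn_const)
  have j2 : IntegrableOn (fun z => ((‖z - a‖ ^ 2 : ℝ) : ℂ) * dslope X a z) (Metric.ball a r) := by
    refine integ hrs (ContinuousOn.mul ?_ hY.continuousOn)
    exact (Complex.continuous_ofReal.comp ((continuous_id.sub continuous_const).norm.pow
      2)).continuousOn
  have q6 : ∫ z in Metric.ball a r, (starRingEnd ℂ) (z - a) * X z =
      ((∫ z in Metric.ball a r, ‖z - a‖ ^ 2 : ℝ) : ℂ) * deriv X a := by
    rw [← q1]
    have e1 : ∀ z, (starRingEnd ℂ) (z - a) * X z = (starRingEnd ℂ) (z - a) * X a +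
        ((‖z - a‖ ^ 2 : ℝ) : ℂ) * dslope X a z := by
      intro z
      have h3 : X z = X a + (z - a) * dslope X a z := by
        have := sub_smul_dslope X a z
        rw [smul_eq_mul] at this
        rw [this]; ring
      have h4 : ((‖z - a‖ ^ 2 : ℝ) : ℂ) = (starRingEnd ℂ) (z - a) * (z - a) := by
        rw [Complex.conj_mul']
        push_cast
        rfl
      rw [h4]
      nth_rewrite 1 [h3]
      ring
    simp only [e1]
    rw [integral_add j1 j2, integral_mul_const, q4, zero_mul, zero_add]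
  have j3 : IntegrableOn (fun z => (starRingEnd ℂ) (z - a) * X z) (Metric.ball a r) :=
    integ hrs (c1.mul hcX)
  have j4 : IntegrableOn (fun z => (starRingEnd ℂ) (z - a) * (starRingEnd ℂ) (X z))
      (Metric.ball a r) := integ hrs (c1.mul c2)
  have q7 : ∫ z in Metric.ball a r, (starRingEnd ℂ) (z - a) * (X z - (starRingEnd ℂ) (X z)) =
      ((∫ z in Metric.ball a r, ‖z - a‖ ^ 2 : ℝ) : ℂ) * deriv X a := by
    rw [← q6]
    have e2 : ∀ z, (starRingEnd ℂ) (z - a) * (X z - (starRingEnd ℂ) (X z)) =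
        (starRingEnd ℂ) (z - a) * X z - (starRingEnd ℂ) (z - a) * (starRingEnd ℂ) (X z) :=
      fun z => mul_sub _ _ _
    simp only [e2]
    rw [integral_sub j3 j4, q5, sub_zero]
  have hm : 0 ≤ ∫ z in Metric.ball a r, ‖z - a‖ ^ 2 :=
    setIntegral_nonneg Metric.isOpen_ball.measurableSet fun z _ => sq_nonneg _
  have q8 : (∫ z in Metric.ball a r, ‖z - a‖ ^ 2) * ‖deriv X a‖ =
      ‖∫ z in Metric.ball a r, (starRingEnd ℂ) (z - a) * (X z - (starRingEnd ℂ) (X z))‖ := by
    rw [q7, norm_mul, Complex.norm_real, Real.norm_of_nonneg hm]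
  rw [q8]
  have j5 : IntegrableOn (fun z => |(X z).im|) (Metric.ball a r) :=
    integ hrs (Complex.continuous_im.comp_continuousOn hcX).abs
  refine (norm_integral_le_of_norm_le (j5.const_mul (2 * r)) ?_).trans ?_
  · refine (ae_restrict_iff' Metric.isOpen_ball.measurableSet).2
      (Eventually.of_forall fun z hz => ?_)
    rw [norm_mul, Complex.norm_conj, Complex.sub_conj, norm_mul, Complex.norm_I, mul_one,
      Complex.norm_real, Real.norm_eq_abs, abs_mul, abs_of_pos (two_pos : (0 : ℝ) < 2)]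
    have h5 : ‖z - a‖ ≤ r := by
      have := Metric.mem_ball.1 hz
      rw [dist_eq_norm] at this
      exact this.le
    have h6 : 0 ≤ 2 * |(X z).im| := by positivity
    calc ‖z - a‖ * (2 * |(X z).im|) ≤ r * (2 * |(X z).im|) := mul_le_mul_of_nonneg_right h5 h6
      _ = 2 * r * |(X z).im| := by ring
  · rw [integral_const_mul]

/-- the estimate for positive `d` -/
theorem pos (h1 : T_RMV) (h2 : T_MVL) {a : ℂ} {s d : ℝ} {X : ℂ → ℂ} (hs : 0 < s)
    (hd : 0 < d) (hds : d ≤ s ^ 2) (hX : DifferentiableOn ℂ X (Metric.ball a s))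
    (hu : ∫⁻ z in Metric.ball a s, ENNReal.ofReal (‖X z‖ - (X z).re) ≤ ENNReal.ofReal d)
    (ha : ‖X a‖ ≤ 2) : ‖deriv X a‖ ≤ 1000 * √d / s ^ 2 := by
  have m1 := der h1 (r := s / 2) (by linarith) (by linarith) hX
  have m2 := intI h1 h2 hs hd hds hX hu ha
  have m3 := mom a (s / 2) (by linarith)
  have hsq : 0 < √d := Real.sqrt_pos.2 hd
  have hD := norm_nonneg (deriv X a)
  have m4 : 3 * Real.pi / 16 * (s / 2) ^ 4 * ‖deriv X a‖ ≤ 2 * (s / 2) * (25 * s * √d) :=
    ((mul_le_mul_of_nonneg_right m3 hD).trans m1).trans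
      (mul_le_mul_of_nonneg_left m2 (by positivity))
  have hpi := Real.pi_gt_three
  rw [le_div_iff₀ (by positivity)]
  have hs2 : 0 < s ^ 2 := by positivity
  have m5 : s ^ 2 * (3 * Real.pi / 256 * (‖deriv X a‖ * s ^ 2)) ≤ s ^ 2 * (25 * √d) := by
    nlinarith
  have m6 : 3 * Real.pi / 256 * (‖deriv X a‖ * s ^ 2) ≤ 25 * √d :=
    le_of_mul_le_mul_left m5 hs2
  have m7 : 0 ≤ ‖deriv X a‖ * s ^ 2 := by positivity
  nlinarith [mul_nonneg (sub_pos.2 hpi).le m7]

end HAR_

theorem p_HAR (h1 : T_RMV) (h2 : T_MVL) : T_HAR := by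
  refine ⟨1000, by norm_num, ?_⟩
  intro a s d X hs hX hu hd hds ha
  rcases hd.eq_or_lt with h0 | h0
  · subst h0
    have key : ∀ e : ℝ, 0 < e → e ≤ s → ‖deriv X a‖ ≤ 1000 * e / s ^ 2 := by
      intro e he hes
      have h3 : (0 : ℝ) < e ^ 2 := by positivity
      have := HAR_.pos h1 h2 hs h3 (pow_le_pow_left₀ he.le hes 2) hX
        (hu.trans (ENNReal.ofReal_le_ofReal h3.le)) ha
      rwa [Real.sqrt_sq he.le] at this
    rw [Real.sqrt_zero, mul_zero, zero_div]
    by_contra hcon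
    have hpos : 0 < ‖deriv X a‖ := not_le.1 hcon
    have hs2 : 0 < s ^ 2 := by positivity
    have h4 := key (min s (‖deriv X a‖ * s ^ 2 / 2000)) (lt_min hs (by positivity))
      (min_le_left _ _)
    have h5 : 1000 * min s (‖deriv X a‖ * s ^ 2 / 2000) / s ^ 2 ≤ ‖deriv X a‖ / 2 := by
      rw [div_le_iff₀ hs2]
      have := min_le_right s (‖deriv X a‖ * s ^ 2 / 2000)
      linarith
    linarith
  · exact HAR_.pos h1 h2 hs h0 hds hX hu ha

end Pool.Agent.MEX
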